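import Mathlib

/-!
# UBS: uniqueness of unconditional basis in direct sums.  Definitions

The statement-level definitions (`IsUncond`, `SemiNormalized`, `PermEquiv`, `HasUUB`, `EssInc`) and
the structure `UB` of an unconditional basis with its coordinate functionals.
-/

set_option autoImplicit false

open Filter Topology

namespace Pool.Agent.UBS

/-- The family `x` is an unconditional basis: every vector has a unique expansion
`∑ j, a j • x j`, converging unconditionally. -/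
def IsUncond (𝕜 : Type*) [RCLike 𝕜] {X : Type*} [NormedAddCommGroup X] [NormedSpace 𝕜 X]
    {J : Type*} (x : J → X) : Prop :=
  ∀ v : X, ∃! a : J → 𝕜, HasSum (fun j => a j • x j) v

/-- `0 < inf ‖x j‖ ≤ sup ‖x j‖ < ∞`. -/
def SemiNormalized {X : Type*} [NormedAddCommGroup X] {J : Type*} (x : J → X) : Prop :=
  ∃ r R : ℝ, 0 < r ∧ ∀ j, r ≤ ‖x j‖ ∧ ‖x j‖ ≤ R

/-- Permutative equivalence of two families. -/
def PermEquiv (𝕜 : Type*) [RCLike 𝕜] {X Y : Type*} [NormedAddCommGroup X] [NormedSpace 𝕜 X]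
    [NormedAddCommGroup Y] [NormedSpace 𝕜 Y] {J I : Type*} (x : J → X) (y : I → Y) : Prop :=
  ∃ p : J ≃ I, ∀ a : J → 𝕜, Summable (fun j => a j • x j) ↔ Summable (fun j => a j • y (p j))

/-- `X` has a unique unconditional basis up to permutation. -/
def HasUUB (𝕜 : Type*) [RCLike 𝕜] (X : Type*) [NormedAddCommGroup X] [NormedSpace 𝕜 X] : Prop :=
  (∃ (J : Type) (_ : Countable J) (x : J → X), IsUncond 𝕜 x ∧ SemiNormalized x) ∧
    ∀ (J I : Type) (_ : Countable J) (_ : Countable I) (x : J → X) (y : I → X),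
      IsUncond 𝕜 x → SemiNormalized x → IsUncond 𝕜 y → SemiNormalized y → PermEquiv 𝕜 x y

/-- `X` and `Y` are essentially incomparable: the kernel of `1 - A B` is finite dimensional for
all bounded operators `A : Y → X` and `B : X → Y`. -/
def EssInc (𝕜 : Type*) [RCLike 𝕜] (X Y : Type*) [NormedAddCommGroup X] [NormedSpace 𝕜 X]
    [NormedAddCommGroup Y] [NormedSpace 𝕜 Y] : Prop :=
  ∀ (A : Y →L[𝕜] X) (B : X →L[𝕜] Y),
    FiniteDimensional 𝕜 (LinearMap.ker ((1 : X →L[𝕜] X) - A.comp B).toLinearMap)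

/-- An unconditional basis of `U` with its (continuous) coordinate functionals. -/
structure UB (𝕜 : Type*) [RCLike 𝕜] (ι : Type*) (U : Type*) [NormedAddCommGroup U]
    [NormedSpace 𝕜 U] where
  /-- The basis vectors. -/
  e : ι → U
  /-- The coordinate functionals. -/
  c : ι → U →L[𝕜] 𝕜
  ce : ∀ i, c i (e i) = 1
  cn : ∀ i j, i ≠ j → c i (e j) = 0
  hs : ∀ x, HasSum (fun i => c i x • e i) x

/-- The condition on an idempotent `P` of `U` (with complement `1 - P`) which expresses that the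
ranges of `P` and `1 - P` are essentially incomparable. -/
def Kc {𝕜 : Type*} [RCLike 𝕜] {U : Type*} [NormedAddCommGroup U] [NormedSpace 𝕜 U]
    (P : U →L[𝕜] U) : Prop :=
  ∀ α β γ : U →L[𝕜] U, FiniteDimensional 𝕜
    (LinearMap.ker ((1 : U →L[𝕜] U) - α * P * β * (1 - P) * γ).toLinearMap)

/-- `E ^ 2 - 2 Re(z) E + |z| ^ 2`. -/
noncomputable def qop {𝕜 : Type*} [RCLike 𝕜] {U : Type*} [NormedAddCommGroup U] [NormedSpace 𝕜 U]
    (E : U →L[𝕜] U) (z : ℂ) : U →L[𝕜] U :=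
  E * E - ((2 * z.re : ℝ) : 𝕜) • E + ((‖z‖ ^ 2 : ℝ) : 𝕜) • 1

section basis

variable {𝕜 : Type*} [RCLike 𝕜] {U : Type*} [NormedAddCommGroup U] [NormedSpace 𝕜 U]
  [CompleteSpace U] {ι : Type*}

/-- Finite partial sum projections are uniformly bounded. -/
theorem UB.exists_fin (b : UB 𝕜 ι U) : ∃ C : ℝ, 0 ≤ C ∧ ∀ (x : U) (s : Finset ι),
    ‖∑ i ∈ s, b.c i x • b.e i‖ ≤ C * ‖x‖ := by
  classical
  let B : UnconditionalSchauderBasis ι 𝕜 U :=
    { basis := b.e
      coord := b.c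
      ortho := fun i j => by
        by_cases h : i = j
        · subst h; rw [b.ce]; simp
        · rw [b.cn i j h, Pi.single_apply, if_neg h]
      expansion := fun x => b.hs x }
  obtain ⟨C, hC⟩ := B.exists_norm_proj_le
  refine ⟨max C 0, le_max_right _ _, fun x s => ?_⟩
  have h1 := (B.proj s).le_opNorm x
  rw [GeneralSchauderBasis.proj_apply] at h1
  calc ‖∑ i ∈ s, b.c i x • b.e i‖ ≤ ‖B.proj s‖ * ‖x‖ := h1
    _ ≤ max C 0 * ‖x‖ := by
      gcongr
      exact (hC s).trans (le_max_left _ _)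

theorem norm_le_re_im (z : 𝕜) : ‖z‖ ≤ |RCLike.re z| + |RCLike.im z| := by
  have h := RCLike.norm_sq_eq_def (K := 𝕜) (z := z)
  have h1 : ‖z‖ ^ 2 ≤ (|RCLike.re z| + |RCLike.im z|) ^ 2 := by
    rw [h]
    have h2 := abs_nonneg (RCLike.re z)
    have h3 := abs_nonneg (RCLike.im z)
    nlinarith [sq_abs (RCLike.re z), sq_abs (RCLike.im z), mul_nonneg h2 h3]
  exact abs_le_of_sq_le_sq' h1 (by positivity) |>.2

/-- `∑ |a i| ≤ 4 sup |partial sums|`. -/
theorem sum_norm_le {ι : Type*} (s : Finset ι) (a : ι → 𝕜) (C : ℝ)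
    (h : ∀ t ⊆ s, ‖∑ i ∈ t, a i‖ ≤ C) : ∑ i ∈ s, ‖a i‖ ≤ 4 * C := by
  classical
  have key : ∀ (f : ι → ℝ), (∀ t ⊆ s, |∑ i ∈ t, f i| ≤ C) → ∑ i ∈ s, |f i| ≤ 2 * C := by
    intro f hf
    rw [← Finset.sum_filter_add_sum_filter_not s (fun i => 0 ≤ f i)]
    have h1 : ∑ i ∈ s.filter (fun i => 0 ≤ f i), |f i| =
        ∑ i ∈ s.filter (fun i => 0 ≤ f i), f i :=
      Finset.sum_congr rfl fun i hi => abs_of_nonneg (Finset.mem_filter.1 hi).2
    have h2 : ∑ i ∈ s.filter (fun i => ¬ 0 ≤ f i), |f i| =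
        - ∑ i ∈ s.filter (fun i => ¬ 0 ≤ f i), f i := by
      rw [← Finset.sum_neg_distrib]
      exact Finset.sum_congr rfl fun i hi =>
        abs_of_neg (not_le.1 (Finset.mem_filter.1 hi).2)
    have h3 := hf _ (Finset.filter_subset (fun i => 0 ≤ f i) s)
    have h4 := hf _ (Finset.filter_subset (fun i => ¬ 0 ≤ f i) s)
    rw [h1, h2]
    have := le_abs_self (∑ i ∈ s.filter (fun i => 0 ≤ f i), f i)
    have := neg_le_abs (∑ i ∈ s.filter (fun i => ¬ 0 ≤ f i), f i)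
    linarith
  have h1 := key (fun i => RCLike.re (a i)) fun t ht => by
    rw [← map_sum]
    exact (RCLike.abs_re_le_norm _).trans (h t ht)
  have h2 := key (fun i => RCLike.im (a i)) fun t ht => by
    rw [← map_sum]
    exact (RCLike.abs_im_le_norm _).trans (h t ht)
  calc ∑ i ∈ s, ‖a i‖ ≤ ∑ i ∈ s, (|RCLike.re (a i)| + |RCLike.im (a i)|) :=
        Finset.sum_le_sum fun i _ => norm_le_re_im _
    _ ≤ 4 * C := by rw [Finset.sum_add_distrib]; linarith

theorem UB.exists_K (b : UB 𝕜 ι U) : ∃ K : ℝ, 1 ≤ K ∧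
    ∀ (g : U →L[𝕜] 𝕜) (x : U) (s : Finset ι),
      ∑ i ∈ s, ‖g (b.e i)‖ * ‖b.c i x‖ ≤ K * ‖g‖ * ‖x‖ := by
  obtain ⟨C, hC0, hC⟩ := b.exists_fin
  refine ⟨max 1 (4 * C), le_max_left _ _, fun g x s => ?_⟩
  have h1 := sum_norm_le s (fun i => b.c i x * g (b.e i)) (‖g‖ * (C * ‖x‖)) fun t _ => by
    have h2 : ∑ i ∈ t, b.c i x * g (b.e i) = g (∑ i ∈ t, b.c i x • b.e i) := by
      rw [map_sum]
      exact Finset.sum_congr rfl fun i _ => by rw [map_smul, smul_eq_mul]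
    rw [h2]
    exact (g.le_opNorm _).trans (mul_le_mul_of_nonneg_left (hC x t) (norm_nonneg _))
  calc ∑ i ∈ s, ‖g (b.e i)‖ * ‖b.c i x‖ = ∑ i ∈ s, ‖b.c i x * g (b.e i)‖ :=
        Finset.sum_congr rfl fun i _ => by rw [norm_mul, mul_comm]
    _ ≤ 4 * (‖g‖ * (C * ‖x‖)) := h1
    _ = (4 * C) * ‖g‖ * ‖x‖ := by ring
    _ ≤ max 1 (4 * C) * ‖g‖ * ‖x‖ := by
      gcongr
      exact le_max_right _ _

/-- The unconditionality constant. -/
noncomputable def UB.K (b : UB 𝕜 ι U) : ℝ := b.exists_K.choose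

theorem UB.one_le_K (b : UB 𝕜 ι U) : 1 ≤ b.K := b.exists_K.choose_spec.1

theorem UB.K_pos (b : UB 𝕜 ι U) : 0 < b.K := lt_of_lt_of_le one_pos b.one_le_K

theorem UB.sum_le (b : UB 𝕜 ι U) (g : U →L[𝕜] 𝕜) (x : U) (s : Finset ι) :
    ∑ i ∈ s, ‖g (b.e i)‖ * ‖b.c i x‖ ≤ b.K * ‖g‖ * ‖x‖ :=
  b.exists_K.choose_spec.2 g x s

/-- Norm of a finite combination with coefficients dominated by those of `x`. -/
theorem UB.norm_fin_le (b : UB 𝕜 ι U) (f : ι → 𝕜) (C : ℝ) (hC : ∀ i, ‖f i‖ ≤ C) (x : U)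
    (s : Finset ι) : ‖∑ i ∈ s, (f i * b.c i x) • b.e i‖ ≤ b.K * C * ‖x‖ := by
  rcases s.eq_empty_or_nonempty with rfl | ⟨i0, _⟩
  · rcases isEmpty_or_nonempty ι with h | ⟨⟨i0⟩⟩
    · have hx : x = 0 := by
        have := (b.hs x).unique (hasSum_empty)
        exact this
      subst hx
      simp
    · have hC0 : 0 ≤ C := (norm_nonneg _).trans (hC i0)
      simp only [Finset.sum_empty, norm_zero]
      have := b.K_pos
      positivity
  have hC0 : 0 ≤ C := (norm_nonneg _).trans (hC i0)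
  have hK := b.K_pos
  refine NormedSpace.norm_le_dual_bound 𝕜 _ (by positivity) fun g => ?_
  rw [map_sum]
  calc ‖∑ i ∈ s, g ((f i * b.c i x) • b.e i)‖ ≤ ∑ i ∈ s, C * (‖g (b.e i)‖ * ‖b.c i x‖) := by
        refine (norm_sum_le _ _).trans (Finset.sum_le_sum fun i _ => ?_)
        rw [map_smul, smul_eq_mul, norm_mul, norm_mul]
        calc ‖f i‖ * ‖b.c i x‖ * ‖g (b.e i)‖ ≤ C * ‖b.c i x‖ * ‖g (b.e i)‖ := by
              gcongr
              exact hC i
          _ = C * (‖g (b.e i)‖ * ‖b.c i x‖) := by ring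
    _ = C * ∑ i ∈ s, ‖g (b.e i)‖ * ‖b.c i x‖ := by rw [Finset.mul_sum]
    _ ≤ C * (b.K * ‖g‖ * ‖x‖) := mul_le_mul_of_nonneg_left (b.sum_le g x s) hC0
    _ = b.K * C * ‖x‖ * ‖g‖ := by ring

theorem UB.summable_mlt (b : UB 𝕜 ι U) (f : ι → 𝕜) (C : ℝ) (hC : ∀ i, ‖f i‖ ≤ C) (x : U) :
    Summable fun i => (f i * b.c i x) • b.e i := by
  classical
  rw [summable_iff_vanishing_norm]
  intro ε hε
  have hK := b.K_pos
  rcases isEmpty_or_nonempty ι with h | ⟨⟨i0⟩⟩
  · exact ⟨∅, fun t _ => by rw [Finset.eq_empty_of_isEmpty t]; simpa using hε⟩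
  have hC0 : 0 ≤ C := (norm_nonneg _).trans (hC i0)
  obtain ⟨s, hs⟩ := summable_iff_vanishing_norm.1 (b.hs x).summable (ε / (b.K * (C + 1)))
    (by positivity)
  refine ⟨s, fun t ht => ?_⟩
  have h1 := hs t ht
  have h2 := b.norm_fin_le f C hC (∑ i ∈ t, b.c i x • b.e i) t
  have h3 : ∑ i ∈ t, (f i * b.c i (∑ j ∈ t, b.c j x • b.e j)) • b.e i =
      ∑ i ∈ t, (f i * b.c i x) • b.e i := by
    refine Finset.sum_congr rfl fun i hi => ?_
    congr 2
    rw [map_sum, Finset.sum_eq_single i]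
    · rw [map_smul, b.ce, smul_eq_mul, mul_one]
    · intro j _ hj
      rw [map_smul, b.cn i j hj.symm, smul_zero]
    · intro h; exact absurd hi h
  rw [h3] at h2
  calc ‖∑ i ∈ t, (f i * b.c i x) • b.e i‖ ≤ b.K * C * ‖∑ i ∈ t, b.c i x • b.e i‖ := h2
    _ ≤ b.K * (C + 1) * ‖∑ i ∈ t, b.c i x • b.e i‖ := by gcongr; linarith
    _ < b.K * (C + 1) * (ε / (b.K * (C + 1))) := by gcongr
    _ = ε := by field_simp

theorem UB.exists_mlt (b : UB 𝕜 ι U) (f : ι → 𝕜) (C : ℝ) (hC : ∀ i, ‖f i‖ ≤ C) :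
    ∃ T : U →L[𝕜] U, (∀ x, HasSum (fun i => (f i * b.c i x) • b.e i) (T x)) ∧
      ∀ x, ‖T x‖ ≤ b.K * C * ‖x‖ := by
  have hs := fun x => (b.summable_mlt f C hC x).hasSum
  have hb : ∀ x, ‖∑' i, (f i * b.c i x) • b.e i‖ ≤ b.K * C * ‖x‖ := fun x =>
    le_of_tendsto (hs x).norm (Eventually.of_forall fun s => b.norm_fin_le f C hC x s)
  refine ⟨LinearMap.mkContinuous
    { toFun := fun x => ∑' i, (f i * b.c i x) • b.e i
      map_add' := fun x y => ?_
      map_smul' := fun r x => ?_ } (b.K * C) hb, fun x => hs x, hb⟩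
  · refine HasSum.tsum_eq ?_
    have := (hs x).add (hs y)
    simpa only [map_add, mul_add, add_smul] using this
  · refine HasSum.tsum_eq ?_
    have h1 := (hs x).const_smul r
    rw [RingHom.id_apply]
    convert h1 using 2 with i
    rw [map_smul, smul_eq_mul, smul_smul]
    congr 1
    ring

/-- The diagonal operator with entries `f` (zero if `f` is not bounded). -/
noncomputable def UB.mlt (b : UB 𝕜 ι U) (f : ι → 𝕜) : U →L[𝕜] U :=
  open Classical in
  if h : ∃ C : ℝ, ∀ i, ‖f i‖ ≤ C then (b.exists_mlt f h.choose h.choose_spec).choose else 0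

/-- The projection onto the coordinates in `A`. -/
noncomputable def UB.M (b : UB 𝕜 ι U) (A : Set ι) : U →L[𝕜] U :=
  b.mlt (A.indicator fun _ => 1)

/-- `R` is block diagonal with respect to the blocks `I k`. -/
def BD (b : UB 𝕜 ι U) (I : ℕ → Set ι) (R : U →L[𝕜] U) : Prop :=
  (∀ k, R * b.M (I k) = b.M (I k) * R) ∧ R * b.M (⋃ k, I k) = R

/-- The compression of `T` to the coordinates in `I`. -/
noncomputable def UB.cp (b : UB 𝕜 ι U) (T : U →L[𝕜] U) (I : Set ι) : U →L[𝕜] U :=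
  b.M I * T * b.M I

end basis

end Pool.Agent.UBS
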