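import Mathlib
import Pool.Agent.UBS.Defs

/-!
# UBS / AUT: automatic continuity of the coordinate functionals

`x j ≠ 0` by uniqueness of the expansion of `0`.  The coefficients `a v j` of `v` are linear in `v`
(uniqueness).  Let `B` be the Banach space of bounded functions `Finset J → X`
(`BoundedContinuousFunction` on the discrete space `Finset J`, or `lp (fun _ : Finset J => X) ⊤`).
`Λ v = (F ↦ ∑ j ∈ F, a v j • x j)` (bounded since the sum converges: `Summable` families have
bounded partial sums) is linear with closed graph: if `v n → v` and `Λ (v n) → φ` in `B`, then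
`φ F = ∑ j ∈ F, β j • x j` with `β j = lim a (v n) j` (exists as `a (v n) j • x j` converges and
`x j ≠ 0`), and by uniform convergence `HasSum (β j • x j) v`: given `ε` choose `n` with
`‖Λ (v n) - φ‖ ≤ ε`, `‖v n - v‖ ≤ ε` and `F₀` with `‖Λ (v n) F - v n‖ ≤ ε` for `F ⊇ F₀`; then
`‖φ F - v‖ ≤ 3 ε`.  So `β = a v`.  By the closed graph theorem
(`LinearMap.continuous_of_seq_closed_graph`) `Λ` is continuous, hence every coordinate is.
-/

set_option autoImplicit false

open Filter Topology Function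

namespace Pool.Agent.UBS

variable {𝕜 : Type*} [RCLike 𝕜] {U : Type*} [NormedAddCommGroup U] [NormedSpace 𝕜 U]
  [CompleteSpace U] {ι : Type*}

variable {X : Type*} [NormedAddCommGroup X] [NormedSpace 𝕜 X] [CompleteSpace X] {J : Type*}

section aut
variable {x : J → X}

private theorem aut_ne (hx : IsUncond 𝕜 x) (j : J) : x j ≠ 0 := by
  classical
  intro h
  obtain ⟨a, _, hu⟩ := hx 0
  have h0 : (fun _ : J => (0 : 𝕜)) = a := hu _ (by simp)
  have h1 : (Pi.single j (1 : 𝕜) : J → 𝕜) = a := hu _ (by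
    have h2 : (fun i => (Pi.single j (1 : 𝕜) : J → 𝕜) i • x i) = fun _ => (0 : X) := by
      funext i
      by_cases hij : i = j
      · subst hij; rw [h, smul_zero]
      · rw [Pi.single_eq_of_ne hij, zero_smul]
    change HasSum (fun i => (Pi.single j (1 : 𝕜) : J → 𝕜) i • x i) 0
    rw [h2]
    exact hasSum_zero)
  have h3 := congrFun (h0.trans h1.symm) j
  simp at h3

private noncomputable def aco (hx : IsUncond 𝕜 x) (v : X) : J → 𝕜 := (hx v).choose

private theorem aco_hs (hx : IsUncond 𝕜 x) (v : X) : HasSum (fun j => aco hx v j • x j) v :=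
  (hx v).choose_spec.1

private theorem aco_uniq (hx : IsUncond 𝕜 x) {v : X} {a : J → 𝕜}
    (h : HasSum (fun j => a j • x j) v) : a = aco hx v := (hx v).choose_spec.2 a h

private theorem aco_add (hx : IsUncond 𝕜 x) (v w : X) : aco hx (v + w) = aco hx v + aco hx w := by
  symm
  apply aco_uniq
  simpa [add_smul] using (aco_hs hx v).add (aco_hs hx w)

private theorem aco_smul (hx : IsUncond 𝕜 x) (r : 𝕜) (v : X) :
    aco hx (r • v) = r • aco hx v := by
  symm
  apply aco_uniq
  simpa [smul_smul] using (aco_hs hx v).const_smul r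

private theorem aco_bdd (hx : IsUncond 𝕜 x) (v : X) :
    Memℓp (fun F : Finset J => ∑ j ∈ F, aco hx v j • x j) ⊤ := by
  classical
  rw [memℓp_infty_iff]
  have hs := (aco_hs hx v).summable
  obtain ⟨F₀, hF₀⟩ := summable_iff_vanishing_norm.1 hs 1 one_pos
  refine ⟨∑ j ∈ F₀, ‖aco hx v j • x j‖ + 1, ?_⟩
  rintro _ ⟨F, rfl⟩
  have h1 : ∑ j ∈ F, aco hx v j • x j =
      ∑ j ∈ F ∩ F₀, aco hx v j • x j + ∑ j ∈ F \ F₀, aco hx v j • x j := by
    rw [← Finset.sum_union]
    · congr 1
      ext j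
      simp only [Finset.mem_union, Finset.mem_inter, Finset.mem_sdiff]
      tauto
    · rw [Finset.disjoint_left]
      intro j hj hj'
      simp only [Finset.mem_inter, Finset.mem_sdiff] at hj hj'
      exact hj'.2 hj.2
  have h2 : ‖∑ j ∈ F ∩ F₀, aco hx v j • x j‖ ≤ ∑ j ∈ F₀, ‖aco hx v j • x j‖ :=
    (norm_sum_le _ _).trans (Finset.sum_le_sum_of_subset_of_nonneg Finset.inter_subset_right
      fun _ _ _ => norm_nonneg _)
  have h3 : ‖∑ j ∈ F \ F₀, aco hx v j • x j‖ < 1 := hF₀ _ Finset.sdiff_disjoint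
  simp only
  rw [h1]
  exact (norm_add_le _ _).trans (add_le_add h2 h3.le)

private noncomputable def Lam (hx : IsUncond 𝕜 x) : X →ₗ[𝕜] lp (fun _ : Finset J => X) ⊤ where
  toFun v := ⟨fun F => ∑ j ∈ F, aco hx v j • x j, aco_bdd hx v⟩
  map_add' v w := by
    ext F
    simp only [lp.coeFn_add, Pi.add_apply]
    rw [aco_add, ← Finset.sum_add_distrib]
    exact Finset.sum_congr rfl fun j _ => by rw [Pi.add_apply, add_smul]
  map_smul' r v := by
    ext F
    simp only [RingHom.id_apply, lp.coeFn_smul, Pi.smul_apply]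
    rw [aco_smul, Finset.smul_sum]
    exact Finset.sum_congr rfl fun j _ => by rw [Pi.smul_apply, smul_assoc]

private theorem Lam_apply (hx : IsUncond 𝕜 x) (v : X) (F : Finset J) :
    (Lam hx v : ∀ _ : Finset J, X) F = ∑ j ∈ F, aco hx v j • x j := rfl

private theorem Lam_cont (hx : IsUncond 𝕜 x) : Continuous (Lam hx) := by
  classical
  refine LinearMap.continuous_of_seq_closed_graph _ fun u v φ hu hφ => ?_
  -- pointwise convergence
  have hpt : ∀ F : Finset J, Tendsto (fun n => ∑ j ∈ F, aco hx (u n) j • x j) atTop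
      (𝓝 ((φ : ∀ _ : Finset J, X) F)) := by
    intro F
    rw [tendsto_iff_norm_sub_tendsto_zero]
    have h1 := tendsto_iff_norm_sub_tendsto_zero.1 hφ
    refine squeeze_zero (fun _ => norm_nonneg _) (fun n => ?_) h1
    have h2 := lp.norm_apply_le_norm (E := fun _ : Finset J => X) ENNReal.top_ne_zero
      ((Lam hx ∘ u) n - φ) F
    exact h2
  have hcoef : ∀ j : J, ∃ β : 𝕜, Tendsto (fun n => aco hx (u n) j) atTop (𝓝 β) := by
    intro j
    have hj := aut_ne hx j
    obtain ⟨g, _, hg⟩ := exists_dual_vector 𝕜 (x j) (norm_ne_zero_iff.2 hj)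
    have h1 := hpt {j}
    simp only [Finset.sum_singleton] at h1
    have h2 := (g.continuous.tendsto _).comp h1
    have hn : ((‖x j‖ : ℝ) : 𝕜) ≠ 0 := by
      simpa using hj
    have h3 := h2.div_const ((‖x j‖ : ℝ) : 𝕜)
    refine ⟨_, h3.congr fun n => ?_⟩
    simp only [Function.comp_apply, map_smul, smul_eq_mul, hg]
    rw [mul_div_assoc, div_self hn, mul_one]
  choose β hβ using hcoef
  have hφF : ∀ F : Finset J, (φ : ∀ _ : Finset J, X) F = ∑ j ∈ F, β j • x j := by
    intro F
    refine tendsto_nhds_unique (hpt F) ?_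
    exact tendsto_finsetSum _ fun j _ => (hβ j).smul_const (x j)
  have hsum : HasSum (fun j => β j • x j) v := by
    rw [HasSum, SummationFilter.unconditional_filter, Metric.tendsto_atTop]
    intro ε hε
    have e1 := Metric.tendsto_atTop.1 hu (ε / 3) (by positivity)
    have e2 := Metric.tendsto_atTop.1 hφ (ε / 3) (by positivity)
    obtain ⟨N1, hN1⟩ := e1
    obtain ⟨N2, hN2⟩ := e2
    have h1 := hN1 (max N1 N2) (le_max_left _ _)
    have h2 := hN2 (max N1 N2) (le_max_right _ _)
    have h3 := aco_hs hx (u (max N1 N2))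
    rw [HasSum, SummationFilter.unconditional_filter, Metric.tendsto_atTop] at h3
    obtain ⟨F₀, hF₀⟩ := h3 (ε / 3) (by positivity)
    refine ⟨F₀, fun F hF => ?_⟩
    have h4 := hF₀ F hF
    have h5 := lp.norm_apply_le_norm (E := fun _ : Finset J => X) ENNReal.top_ne_zero
      ((Lam hx ∘ u) (max N1 N2) - φ) F
    have h6 : ‖∑ j ∈ F, aco hx (u (max N1 N2)) j • x j - ∑ j ∈ F, β j • x j‖ < ε / 3 := by
      rw [← hφF F]
      rw [dist_eq_norm] at h2
      exact lt_of_le_of_lt h5 h2
    rw [dist_eq_norm] at h1 h4 ⊢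
    have h7 : ∑ j ∈ F, β j • x j - v =
        -(∑ j ∈ F, aco hx (u (max N1 N2)) j • x j - ∑ j ∈ F, β j • x j) +
        (∑ j ∈ F, aco hx (u (max N1 N2)) j • x j - u (max N1 N2)) + (u (max N1 N2) - v) := by
      abel
    rw [h7]
    have h8 := norm_add₃_le (a := -(∑ j ∈ F, aco hx (u (max N1 N2)) j • x j - ∑ j ∈ F, β j • x j))
      (b := ∑ j ∈ F, aco hx (u (max N1 N2)) j • x j - u (max N1 N2)) (c := u (max N1 N2) - v)
    rw [norm_neg] at h8
    linarith
  have hβa := aco_uniq hx hsum
  ext F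
  rw [hφF F, Lam_apply, hβa]

end aut

theorem exists_UB (x : J → X) (hx : IsUncond 𝕜 x) : ∃ b : UB 𝕜 J X, b.e = x := by
  classical
  have hc := Lam_cont hx
  let L : X →L[𝕜] lp (fun _ : Finset J => X) ⊤ := ⟨Lam hx, hc⟩
  have hb : ∀ j v, ‖aco hx v j‖ ≤ (‖L‖ / ‖x j‖) * ‖v‖ := by
    intro j v
    have hj : 0 < ‖x j‖ := norm_pos_iff.2 (aut_ne hx j)
    have h1 := lp.norm_apply_le_norm (E := fun _ : Finset J => X) ENNReal.top_ne_zero (L v) {j}
    have h2 := L.le_opNorm v
    have h3 : ((L v : lp (fun _ : Finset J => X) ⊤) : ∀ _ : Finset J, X) {j} =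
        aco hx v j • x j := by
      change (Lam hx v : ∀ _ : Finset J, X) {j} = _
      rw [Lam_apply, Finset.sum_singleton]
    rw [h3, norm_smul] at h1
    rw [div_mul_eq_mul_div, le_div_iff₀ hj]
    exact h1.trans h2
  let c : J → X →L[𝕜] 𝕜 := fun j => LinearMap.mkContinuous
    { toFun := fun v => aco hx v j
      map_add' := fun v w => by rw [aco_add]; rfl
      map_smul' := fun r v => by rw [aco_smul]; rfl } (‖L‖ / ‖x j‖) (hb j)
  have hcv : ∀ j v, c j v = aco hx v j := fun j v => rfl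
  have hsingle : ∀ j, aco hx (x j) = Pi.single j (1 : 𝕜) := by
    intro j
    symm
    apply aco_uniq
    have h2 : (fun i => (Pi.single j (1 : 𝕜) : J → 𝕜) i • x i) =
        fun i => if i = j then x j else 0 := by
      funext i
      by_cases hij : i = j
      · subst hij; simp
      · rw [Pi.single_eq_of_ne hij, zero_smul, if_neg hij]
    rw [h2]
    exact hasSum_ite_eq j (x j)
  refine ⟨{ e := x, c := c, ce := fun i => ?_, cn := fun i j hij => ?_, hs := fun v => ?_ }, rfl⟩
  · rw [hcv, hsingle, Pi.single_eq_same]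
  · rw [hcv, hsingle, Pi.single_eq_of_ne hij]
  · simpa only [hcv] using aco_hs hx v

theorem UB.isUncond (b : UB 𝕜 J X) : IsUncond 𝕜 b.e := by
  intro v
  refine ⟨fun j => b.c j v, b.hs v, fun a ha => ?_⟩
  funext i
  have h1 := ha.mapL (b.c i)
  have h2 : HasSum (fun j => b.c i (a j • b.e j)) (b.c i (a i • b.e i)) :=
    hasSum_single i fun j hj => by rw [map_smul, b.cn i j (Ne.symm hj), smul_zero]
  have h3 := h1.unique h2
  rw [map_smul, b.ce, smul_eq_mul, mul_one] at h3
  exact h3.symm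

end Pool.Agent.UBS
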