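import Mathlib
import Pool.Agent.UBS.Defs

/-!
# UBS: basic calculus of coordinate projections `b.M A` and multipliers `b.mlt f`
-/

set_option autoImplicit false

open Filter Topology Function

namespace Pool.Agent.UBS

variable {𝕜 : Type*} [RCLike 𝕜] {U : Type*} [NormedAddCommGroup U] [NormedSpace 𝕜 U]
  [CompleteSpace U] {ι : Type*}

theorem UB.ext (b : UB 𝕜 ι U) {x y : U} (h : ∀ i, b.c i x = b.c i y) : x = y := by
  have h1 := b.hs x
  have h3 : (fun i => b.c i x • b.e i) = fun i => b.c i y • b.e i := funext fun i => by rw [h i]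
  rw [h3] at h1
  exact h1.unique (b.hs y)

theorem UB.ext_e (b : UB 𝕜 ι U) {S T : U →L[𝕜] U} (h : ∀ i, S (b.e i) = T (b.e i)) : S = T := by
  ext x
  have h1 := (b.hs x).mapL S
  have h2 := (b.hs x).mapL T
  have h3 : (fun i => S (b.c i x • b.e i)) = fun i => T (b.c i x • b.e i) := funext fun i => by
    rw [map_smul, map_smul, h i]
  rw [h3] at h1
  exact h1.unique h2

theorem UB.hasSum_mlt (b : UB 𝕜 ι U) {f : ι → 𝕜} (hf : ∃ C : ℝ, ∀ i, ‖f i‖ ≤ C) (x : U) :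
    HasSum (fun i => (f i * b.c i x) • b.e i) (b.mlt f x) := by
  unfold UB.mlt
  rw [dif_pos hf]
  exact (b.exists_mlt f hf.choose hf.choose_spec).choose_spec.1 x

theorem UB.norm_mlt_le (b : UB 𝕜 ι U) {f : ι → 𝕜} {C : ℝ} (hC : ∀ i, ‖f i‖ ≤ C) (x : U) :
    ‖b.mlt f x‖ ≤ b.K * C * ‖x‖ :=
  le_of_tendsto (b.hasSum_mlt ⟨C, hC⟩ x).norm (Eventually.of_forall fun s =>
    b.norm_fin_le f C hC x s)

theorem UB.c_e (b : UB 𝕜 ι U) [DecidableEq ι] (i j : ι) : b.c i (b.e j) = if i = j then 1 else 0 := by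
  split_ifs with h
  · subst h; exact b.ce _
  · exact b.cn i j h

theorem UB.c_hasSum (b : UB 𝕜 ι U) {a : ι → 𝕜} {x : U} (h : HasSum (fun i => a i • b.e i) x)
    (i : ι) : b.c i x = a i := by
  have h1 := h.mapL (b.c i)
  have h2 : HasSum (fun j => b.c i (a j • b.e j)) (b.c i (a i • b.e i)) :=
    hasSum_single i fun j hj => by rw [map_smul, b.cn i j hj.symm, smul_zero]
  rw [h1.unique h2, map_smul, b.ce, smul_eq_mul, mul_one]

theorem UB.c_mlt (b : UB 𝕜 ι U) {f : ι → 𝕜} (hf : ∃ C : ℝ, ∀ i, ‖f i‖ ≤ C) (i : ι) (x : U) :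
    b.c i (b.mlt f x) = f i * b.c i x :=
  b.c_hasSum (b.hasSum_mlt hf x) i

theorem UB.mlt_mlt (b : UB 𝕜 ι U) {f g : ι → 𝕜} (hf : ∃ C : ℝ, ∀ i, ‖f i‖ ≤ C)
    (hg : ∃ C : ℝ, ∀ i, ‖g i‖ ≤ C) (hfg : ∃ C : ℝ, ∀ i, ‖f i * g i‖ ≤ C) :
    b.mlt f * b.mlt g = b.mlt fun i => f i * g i := by
  ext x
  refine b.ext fun i => ?_
  rw [mul_apply_eq_comp, b.c_mlt hf, b.c_mlt hg, b.c_mlt hfg, mul_assoc]

theorem UB.mlt_comm (b : UB 𝕜 ι U) {f g : ι → 𝕜} (hf : ∃ C : ℝ, ∀ i, ‖f i‖ ≤ C)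
    (hg : ∃ C : ℝ, ∀ i, ‖g i‖ ≤ C) : b.mlt f * b.mlt g = b.mlt g * b.mlt f := by
  ext x
  refine b.ext fun i => ?_
  rw [mul_apply_eq_comp, mul_apply_eq_comp, b.c_mlt hf, b.c_mlt hg,
    b.c_mlt hg, b.c_mlt hf, ← mul_assoc, ← mul_assoc, mul_comm (f i)]

theorem bdd_ind (A : Set ι) : ∃ C : ℝ, ∀ i, ‖A.indicator (fun _ => (1 : 𝕜)) i‖ ≤ C :=
  ⟨1, fun i => by by_cases h : i ∈ A <;> simp [h]⟩

theorem UB.c_M (b : UB 𝕜 ι U) (A : Set ι) (i : ι) (x : U) :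
    b.c i (b.M A x) = A.indicator (fun i => b.c i x) i := by
  unfold UB.M
  rw [b.c_mlt (bdd_ind A)]
  by_cases h : i ∈ A <;> simp [h]

theorem UB.c_M_mem (b : UB 𝕜 ι U) {A : Set ι} {i : ι} (h : i ∈ A) (x : U) :
    b.c i (b.M A x) = b.c i x := by
  rw [b.c_M, Set.indicator_of_mem h]

theorem UB.c_M_not (b : UB 𝕜 ι U) {A : Set ι} {i : ι} (h : i ∉ A) (x : U) :
    b.c i (b.M A x) = 0 := by
  rw [b.c_M, Set.indicator_of_notMem h]

theorem UB.norm_M_apply_le (b : UB 𝕜 ι U) (A : Set ι) (x : U) : ‖b.M A x‖ ≤ b.K * ‖x‖ := by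
  have h := b.norm_mlt_le (f := A.indicator fun _ => (1 : 𝕜)) (C := 1)
    (fun i => by by_cases h : i ∈ A <;> simp [h]) x
  rwa [mul_one] at h

theorem UB.norm_M_le (b : UB 𝕜 ι U) (A : Set ι) : ‖b.M A‖ ≤ b.K :=
  ContinuousLinearMap.opNorm_le_bound _ b.K_pos.le (b.norm_M_apply_le A)

theorem UB.M_M (b : UB 𝕜 ι U) (A B : Set ι) (x : U) : b.M A (b.M B x) = b.M (A ∩ B) x := by
  refine b.ext fun i => ?_
  by_cases hA : i ∈ A
  · rw [b.c_M_mem hA]
    by_cases hB : i ∈ B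
    · rw [b.c_M_mem hB, b.c_M_mem (A := A ∩ B) ⟨hA, hB⟩]
    · rw [b.c_M_not hB, b.c_M_not (A := A ∩ B) fun h => hB h.2]
  · rw [b.c_M_not hA, b.c_M_not (A := A ∩ B) fun h => hA h.1]

theorem UB.M_mul (b : UB 𝕜 ι U) (A B : Set ι) : b.M A * b.M B = b.M (A ∩ B) := by
  ext x
  exact b.M_M A B x

theorem UB.M_idem (b : UB 𝕜 ι U) (A : Set ι) : b.M A * b.M A = b.M A := by
  rw [b.M_mul, Set.inter_self]

theorem UB.M_comm (b : UB 𝕜 ι U) (A B : Set ι) : b.M A * b.M B = b.M B * b.M A := by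
  rw [b.M_mul, b.M_mul, Set.inter_comm]

theorem UB.M_empty (b : UB 𝕜 ι U) : b.M ∅ = 0 := by
  ext x
  refine b.ext fun i => ?_
  rw [b.c_M_not (Set.notMem_empty i)]
  simp

theorem UB.M_univ (b : UB 𝕜 ι U) : b.M Set.univ = 1 := by
  ext x
  refine b.ext fun i => ?_
  rw [b.c_M_mem (Set.mem_univ i)]
  simp

theorem UB.M_union (b : UB 𝕜 ι U) {A B : Set ι} (h : Disjoint A B) :
    b.M (A ∪ B) = b.M A + b.M B := by
  ext x
  refine b.ext fun i => ?_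
  rw [add_apply, map_add]
  by_cases hA : i ∈ A
  · have hB : i ∉ B := fun hB => Set.disjoint_left.1 h hA hB
    rw [b.c_M_mem (Or.inl hA), b.c_M_mem hA, b.c_M_not hB, add_zero]
  · by_cases hB : i ∈ B
    · rw [b.c_M_mem (Or.inr hB), b.c_M_not hA, b.c_M_mem hB, zero_add]
    · rw [b.c_M_not (fun h => h.elim hA hB), b.c_M_not hA, b.c_M_not hB, add_zero]

theorem UB.M_compl (b : UB 𝕜 ι U) (A : Set ι) : b.M Aᶜ = 1 - b.M A := by
  have h := b.M_union (disjoint_compl_right (a := A))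
  rw [Set.union_compl_self, b.M_univ] at h
  rw [h]; abel

theorem UB.M_diff (b : UB 𝕜 ι U) {A B : Set ι} (h : B ⊆ A) : b.M (A \ B) = b.M A - b.M B := by
  have h1 := b.M_union (A := A \ B) (B := B) Set.disjoint_sdiff_left
  rw [Set.sdiff_union_of_subset h] at h1
  rw [h1]; abel

theorem UB.M_mul_disj (b : UB 𝕜 ι U) {A B : Set ι} (h : Disjoint A B) : b.M A * b.M B = 0 := by
  rw [b.M_mul, h.inter_eq, b.M_empty]

theorem UB.M_M_disj (b : UB 𝕜 ι U) {A B : Set ι} (h : Disjoint A B) (x : U) :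
    b.M A (b.M B x) = 0 := by
  rw [b.M_M, h.inter_eq, b.M_empty]; rfl

theorem UB.M_mul_of_subset (b : UB 𝕜 ι U) {A B : Set ι} (h : A ⊆ B) : b.M A * b.M B = b.M A := by
  rw [b.M_mul, Set.inter_eq_left.2 h]

theorem UB.M_mul_of_superset (b : UB 𝕜 ι U) {A B : Set ι} (h : A ⊆ B) :
    b.M B * b.M A = b.M A := by
  rw [b.M_mul, Set.inter_eq_right.2 h]

theorem UB.M_fix_of_subset (b : UB 𝕜 ι U) {A B : Set ι} (h : A ⊆ B) {x : U} (hx : b.M A x = x) :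
    b.M B x = x := by
  rw [← hx, b.M_M, Set.inter_eq_right.2 h]

theorem UB.M_fix_disj (b : UB 𝕜 ι U) {A B : Set ι} (h : Disjoint B A) {x : U}
    (hx : b.M A x = x) : b.M B x = 0 := by
  rw [← hx, b.M_M_disj h]

theorem UB.M_e_mem (b : UB 𝕜 ι U) {A : Set ι} {i : ι} (h : i ∈ A) : b.M A (b.e i) = b.e i := by
  refine b.ext fun j => ?_
  by_cases hj : j ∈ A
  · rw [b.c_M_mem hj]
  · rw [b.c_M_not hj, b.cn j i]
    rintro rfl
    exact hj h

theorem UB.M_e_not (b : UB 𝕜 ι U) {A : Set ι} {i : ι} (h : i ∉ A) : b.M A (b.e i) = 0 := by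
  refine b.ext fun j => ?_
  by_cases hj : j ∈ A
  · rw [b.c_M_mem hj, b.cn j i, map_zero]
    rintro rfl
    exact h hj
  · rw [b.c_M_not hj, map_zero]

theorem UB.mlt_M_comm (b : UB 𝕜 ι U) {f : ι → 𝕜} (hf : ∃ C : ℝ, ∀ i, ‖f i‖ ≤ C) (A : Set ι) :
    b.mlt f * b.M A = b.M A * b.mlt f :=
  b.mlt_comm hf (bdd_ind A)

theorem UB.mlt_const_on (b : UB 𝕜 ι U) {f : ι → 𝕜} (hf : ∃ C : ℝ, ∀ i, ‖f i‖ ≤ C) {A : Set ι}
    {r : 𝕜} (h : ∀ i ∈ A, f i = r) {x : U} (hx : b.M A x = x) : b.mlt f x = r • x := by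
  refine b.ext fun i => ?_
  rw [b.c_mlt hf, map_smul, smul_eq_mul]
  by_cases hi : i ∈ A
  · rw [h i hi]
  · have : b.c i x = 0 := by rw [← hx, b.c_M_not hi]
    rw [this, mul_zero, mul_zero]

theorem UB.M_fin (b : UB 𝕜 ι U) (s : Finset ι) (x : U) :
    b.M (s : Set ι) x = ∑ i ∈ s, b.c i x • b.e i := by
  classical
  refine b.ext fun j => ?_
  rw [map_sum]
  by_cases hj : j ∈ s
  · rw [b.c_M_mem (by exact_mod_cast hj), Finset.sum_eq_single j]
    · rw [map_smul, b.ce, smul_eq_mul, mul_one]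
    · intro i _ hi
      rw [map_smul, b.cn j i hi.symm, smul_zero]
    · intro h; exact absurd hj h
  · rw [b.c_M_not (by exact_mod_cast hj)]
    symm
    refine Finset.sum_eq_zero fun i hi => ?_
    rw [map_smul, b.cn j i, smul_zero]
    rintro rfl
    exact hj hi

/-- Tails are small. -/
theorem UB.tail (b : UB 𝕜 ι U) (x : U) {ε : ℝ} (hε : 0 < ε) :
    ∃ F : Set ι, F.Finite ∧ ∀ A : Set ι, Disjoint A F → ‖b.M A x‖ ≤ ε := by
  have hK := b.K_pos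
  have h : Tendsto (fun s : Finset ι => ∑ i ∈ s, b.c i x • b.e i) atTop (𝓝 x) := b.hs x
  have h1 : ∀ᶠ s : Finset ι in atTop, dist (∑ i ∈ s, b.c i x • b.e i) x < ε / b.K :=
    h (Metric.ball_mem_nhds x (div_pos hε hK))
  obtain ⟨s, h2⟩ := h1.exists
  refine ⟨s, s.finite_toSet, fun A hA => ?_⟩
  rw [dist_eq_norm] at h2
  have h3 : b.M A x = b.M A (x - ∑ i ∈ s, b.c i x • b.e i) := by
    rw [map_sub, ← b.M_fin s x, b.M_M_disj hA, sub_zero]
  rw [h3]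
  calc ‖b.M A (x - ∑ i ∈ s, b.c i x • b.e i)‖ ≤ b.K * ‖x - ∑ i ∈ s, b.c i x • b.e i‖ :=
        b.norm_M_apply_le _ _
    _ ≤ b.K * (ε / b.K) := by
        rw [norm_sub_rev]
        gcongr
    _ = ε := by field_simp

/-- Approximation by finitely supported vectors. -/
theorem UB.approx (b : UB 𝕜 ι U) (x : U) {ε : ℝ} (hε : 0 < ε) :
    ∃ F : Set ι, F.Finite ∧ ∀ G : Set ι, F ⊆ G → ‖b.M G x - x‖ ≤ ε := by
  obtain ⟨F, hF, h⟩ := b.tail x hε
  refine ⟨F, hF, fun G hG => ?_⟩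
  have h1 := h Gᶜ (Set.disjoint_compl_left_iff_subset.2 hG)
  rw [b.M_compl] at h1
  rw [norm_sub_rev]
  simpa using h1

/-- Lower parts are small: `‖M_A T M_I‖` is small for `I` finite and `A` far away. -/
theorem UB.tail_op (b : UB 𝕜 ι U) (T : U →L[𝕜] U) {I : Set ι} (hI : I.Finite) {ε : ℝ}
    (hε : 0 < ε) :
    ∃ F : Set ι, F.Finite ∧ ∀ A : Set ι, Disjoint A F → ‖b.M A * T * b.M I‖ ≤ ε := by
  classical
  obtain ⟨s, rfl⟩ := hI.exists_finset_coe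
  have h1 : ∀ i ∈ s, ∃ F : Set ι, F.Finite ∧ ∀ A : Set ι, Disjoint A F →
      ‖b.M A (T (b.e i))‖ ≤ ε / ((s.card + 1) * (‖b.c i‖ + 1)) :=
    fun i _ => b.tail _ (by positivity)
  choose! F hF hF' using h1
  refine ⟨⋃ i ∈ s, F i, s.finite_toSet.biUnion fun i hi => hF i (by exact_mod_cast hi),
    fun A hA => ?_⟩
  refine ContinuousLinearMap.opNorm_le_bound _ hε.le fun x => ?_
  have h2 : (b.M A * T * b.M s) x = ∑ i ∈ s, b.c i x • b.M A (T (b.e i)) := by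
    rw [mul_apply_eq_comp, mul_apply_eq_comp, b.M_fin, map_sum, map_sum]
    exact Finset.sum_congr rfl fun i _ => by rw [map_smul, map_smul]
  rw [h2]
  calc ‖∑ i ∈ s, b.c i x • b.M A (T (b.e i))‖ ≤ ∑ i ∈ s, ε / (s.card + 1) * ‖x‖ := by
        refine (norm_sum_le _ _).trans (Finset.sum_le_sum fun i hi => ?_)
        rw [norm_smul]
        have h3 := hF' i hi A (hA.mono_right (Set.subset_biUnion_of_mem (u := F) hi))
        calc ‖b.c i x‖ * ‖b.M A (T (b.e i))‖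
            ≤ (‖b.c i‖ * ‖x‖) * (ε / ((s.card + 1) * (‖b.c i‖ + 1))) := by
              gcongr
              exact (b.c i).le_opNorm x
          _ ≤ ((‖b.c i‖ + 1) * ‖x‖) * (ε / ((s.card + 1) * (‖b.c i‖ + 1))) := by
              gcongr
              linarith
          _ = ε / (s.card + 1) * ‖x‖ := by
              have : (‖b.c i‖ + 1) ≠ 0 := by positivity
              field_simp
    _ = s.card * (ε / (s.card + 1)) * ‖x‖ := by
        rw [Finset.sum_const, nsmul_eq_mul]; ring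
    _ ≤ ε * ‖x‖ := by
        gcongr
        rw [mul_div_assoc', div_le_iff₀ (by positivity)]
        nlinarith

/-- Sums over disjoint blocks. -/
theorem UB.sum_blocks (b : UB 𝕜 ι U) {κ : Type*} (I : κ → Set ι)
    (hd : Pairwise (Disjoint on I)) (g : U →L[𝕜] 𝕜) (x : U) (s : Finset κ) :
    ∑ k ∈ s, ‖g (b.M (I k) x)‖ ≤ b.K * ‖g‖ * ‖x‖ := by
  classical
  have ha : ∀ t : Finset ι, ∑ i ∈ t, ‖g (b.e i)‖ * ‖b.c i x‖ ≤ b.K * ‖g‖ * ‖x‖ := b.sum_le g x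
  have hsum : Summable fun i => ‖g (b.e i)‖ * ‖b.c i x‖ :=
    summable_of_sum_le (fun i => by positivity) ha
  have hle : ∑' i, ‖g (b.e i)‖ * ‖b.c i x‖ ≤ b.K * ‖g‖ * ‖x‖ :=
    Real.tsum_le_of_sum_le (fun i => by positivity) ha
  have h1 : ∀ A : Set ι, ‖g (b.M A x)‖ ≤ ∑' i, A.indicator (fun i => ‖g (b.e i)‖ * ‖b.c i x‖) i := by
    intro A
    have h2 := (b.hasSum_mlt (bdd_ind (𝕜 := 𝕜) A) x).mapL g
    have h3 : Summable fun i => A.indicator (fun i => ‖g (b.e i)‖ * ‖b.c i x‖) i :=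
      hsum.indicator A
    have h4 : ∀ i, ‖g ((A.indicator (fun _ => (1 : 𝕜)) i * b.c i x) • b.e i)‖ ≤
        A.indicator (fun i => ‖g (b.e i)‖ * ‖b.c i x‖) i := by
      intro i
      by_cases hi : i ∈ A
      · simp [hi, mul_comm]
      · simp [hi]
    have h5 := tsum_of_norm_bounded h3.hasSum h4
    rwa [h2.tsum_eq] at h5
  calc ∑ k ∈ s, ‖g (b.M (I k) x)‖
      ≤ ∑ k ∈ s, ∑' i, (I k).indicator (fun i => ‖g (b.e i)‖ * ‖b.c i x‖) i :=
        Finset.sum_le_sum fun k _ => h1 _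
    _ = ∑' i, ∑ k ∈ s, (I k).indicator (fun i => ‖g (b.e i)‖ * ‖b.c i x‖) i := by
        rw [Summable.tsum_finsetSum]
        exact fun k _ => hsum.indicator _
    _ ≤ ∑' i, ‖g (b.e i)‖ * ‖b.c i x‖ := by
        refine Summable.tsum_le_tsum (fun i => ?_) (summable_sum fun k _ => hsum.indicator _) hsum
        by_cases h : ∃ k ∈ s, i ∈ I k
        · obtain ⟨k, hk, hi⟩ := h
          rw [Finset.sum_eq_single k]
          · rw [Set.indicator_of_mem hi]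
          · intro l _ hl
            exact Set.indicator_of_notMem (fun hil => Set.disjoint_left.1 (hd hl) hil hi) _
          · intro h; exact absurd hk h
        · push Not at h
          rw [Finset.sum_eq_zero]
          · positivity
          · intro k hk
            exact Set.indicator_of_notMem (h k hk) _
    _ ≤ b.K * ‖g‖ * ‖x‖ := hle

theorem UB.M_finUnion (b : UB 𝕜 ι U) {κ : Type*} (I : κ → Set ι)
    (hd : Pairwise (Disjoint on I)) (s : Finset κ) (x : U) :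
    ∑ k ∈ s, b.M (I k) x = b.M (⋃ k ∈ s, I k) x := by
  classical
  induction s using Finset.induction_on with
  | empty => simp [b.M_empty]
  | insert k s hk ih =>
    rw [Finset.sum_insert hk, ih, Finset.set_biUnion_insert, b.M_union]
    · rfl
    · rw [Set.disjoint_iUnion₂_right]
      intro l hl
      exact hd (by rintro rfl; exact hk hl)

/-- Decomposition over disjoint blocks. -/
theorem UB.hasSum_blocks (b : UB 𝕜 ι U) {κ : Type*} (I : κ → Set ι)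
    (hd : Pairwise (Disjoint on I)) (x : U) :
    HasSum (fun k => b.M (I k) x) (b.M (⋃ k, I k) x) := by
  classical
  rw [HasSum]
  simp only [SummationFilter.unconditional_filter]
  rw [Metric.tendsto_atTop]
  intro ε hε
  obtain ⟨F, hF, h⟩ := b.tail x (half_pos hε)
  have h1 : ∃ s : Finset κ, ∀ i ∈ F, (∃ k, i ∈ I k) → ∃ k ∈ s, i ∈ I k := by
    have : ∀ i : ι, ∃ s : Finset κ, (∃ k, i ∈ I k) → ∃ k ∈ s, i ∈ I k := by
      intro i
      by_cases hi : ∃ k, i ∈ I k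
      · obtain ⟨k, hk⟩ := hi
        exact ⟨{k}, fun _ => ⟨k, Finset.mem_singleton_self k, hk⟩⟩
      · exact ⟨∅, fun h => absurd h hi⟩
    choose s hs using this
    refine ⟨hF.toFinset.biUnion s, fun i hi hk => ?_⟩
    obtain ⟨k, hk1, hk2⟩ := hs i hk
    exact ⟨k, Finset.mem_biUnion.2 ⟨i, hF.mem_toFinset.2 hi, hk1⟩, hk2⟩
  obtain ⟨s0, hs0⟩ := h1
  refine ⟨s0, fun s hs => ?_⟩
  rw [b.M_finUnion I hd s x, dist_eq_norm, norm_sub_rev]
  have hsub : (⋃ k ∈ s, I k) ⊆ ⋃ k, I k := Set.iUnion₂_subset fun k _ => Set.subset_iUnion I k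
  have h2 : b.M (⋃ k, I k) x - b.M (⋃ k ∈ s, I k) x =
      b.M ((⋃ k, I k) \ ⋃ k ∈ s, I k) x := by
    rw [b.M_diff hsub]; rfl
  rw [h2]
  refine lt_of_le_of_lt (h _ ?_) (half_lt_self hε)
  rw [Set.disjoint_left]
  rintro i ⟨hi1, hi2⟩ hi3
  obtain ⟨k, hk, hik⟩ := hs0 i hi3 (Set.mem_iUnion.1 hi1)
  exact hi2 (Set.mem_biUnion (hs hk) hik)

end Pool.Agent.UBS
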