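import Mathlib
import Pool.Agent.UBS.Defs

/-!
# UBS / KSW: symmetry of the condition `Kc`; `Kc` for a product

`kc_swap`: put `Q = 1 - P`, `P = 1 - Q`.  If `v = α Q β P γ v` then `w := Q β P γ v` satisfies
`v = α w`, `Q w = w` and `w = (Q β) P (γ α) Q w`, so `w ∈ ker (1 - (Q β) P (γ α) Q 1)`, finite
dimensional, and the kernel in question is contained in its image under `α`.

`kc_of_essInc`: `P = inl ∘ fst`.  If `v = α P β (1 - P) γ v` put `A = fst ∘ β ∘ inr`,
`B = snd ∘ γ ∘ α ∘ inl`, `w = fst (β ((1 - P) (γ v))) = A (snd (γ v))`; then `v = α (inl w)` and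
`w = A B w`.
-/

set_option autoImplicit false

open Filter Topology Function

namespace Pool.Agent.UBS

variable {𝕜 : Type*} [RCLike 𝕜] {U : Type*} [NormedAddCommGroup U] [NormedSpace 𝕜 U]
  [CompleteSpace U] {ι : Type*}

theorem kc_swap {P : U →L[𝕜] U} (hP : P * P = P) (h : Kc P) : Kc (1 - P) := by
  intro α β γ
  have hf := h ((1 - P) * β) (γ * α) 1
  have hPP : ∀ x, P (P x) = P x := fun x => by
    have := congrArg (fun T : U →L[𝕜] U => T x) hP
    simpa using this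
  have hle : LinearMap.ker ((1 : U →L[𝕜] U) - α * (1 - P) * β * (1 - (1 - P)) * γ).toLinearMap ≤
      (LinearMap.ker ((1 : U →L[𝕜] U) -
        (1 - P) * β * P * (γ * α) * (1 - P) * 1).toLinearMap).map α.toLinearMap := by
    intro v hv
    rw [LinearMap.mem_ker] at hv
    have hv1 : v = α ((1 - P) (β (P (γ v)))) := by
      have : v - α ((1 - P) (β ((1 - (1 - P)) (γ v)))) = 0 := hv
      rw [sub_sub_cancel] at this
      exact sub_eq_zero.1 this
    refine ⟨(1 - P) (β (P (γ v))), ?_, hv1.symm⟩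
    rw [SetLike.mem_coe, LinearMap.mem_ker]
    have h2 : (1 - P) ((1 - P) (β (P (γ v)))) = (1 - P) (β (P (γ v))) := by
      simp only [sub_apply, one_apply_eq_self, map_sub, hPP, sub_self, sub_zero]
    have h3 : (1 - P) (β (P (γ v))) -
        (1 - P) (β (P (γ (α ((1 - P) ((1 - P) (β (P (γ v))))))))) = 0 := by
      rw [h2, ← hv1, sub_self]
    exact h3
  exact Submodule.finiteDimensional_of_le hle

/-- The projection of `X × Y` onto `X`. -/
noncomputable def prX (𝕜 : Type*) [RCLike 𝕜] (X Y : Type*) [NormedAddCommGroup X]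
    [NormedSpace 𝕜 X] [NormedAddCommGroup Y] [NormedSpace 𝕜 Y] : (X × Y) →L[𝕜] (X × Y) :=
  (ContinuousLinearMap.inl 𝕜 X Y).comp (ContinuousLinearMap.fst 𝕜 X Y)

theorem kc_of_essInc {X Y : Type*} [NormedAddCommGroup X] [NormedSpace 𝕜 X]
    [NormedAddCommGroup Y] [NormedSpace 𝕜 Y] (h : EssInc 𝕜 X Y) : Kc (prX 𝕜 X Y) := by
  intro α β γ
  have hf := h ((ContinuousLinearMap.fst 𝕜 X Y).comp (β.comp (ContinuousLinearMap.inr 𝕜 X Y)))
    ((ContinuousLinearMap.snd 𝕜 X Y).comp (γ.comp (α.comp (ContinuousLinearMap.inl 𝕜 X Y))))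
  have hle : LinearMap.ker ((1 : (X × Y) →L[𝕜] (X × Y)) -
      α * prX 𝕜 X Y * β * (1 - prX 𝕜 X Y) * γ).toLinearMap ≤
      (LinearMap.ker ((1 : X →L[𝕜] X) -
        ((ContinuousLinearMap.fst 𝕜 X Y).comp (β.comp (ContinuousLinearMap.inr 𝕜 X Y))).comp
        ((ContinuousLinearMap.snd 𝕜 X Y).comp
          (γ.comp (α.comp (ContinuousLinearMap.inl 𝕜 X Y))))).toLinearMap).map
        (α.comp (ContinuousLinearMap.inl 𝕜 X Y)).toLinearMap := by
    intro v hv
    rw [LinearMap.mem_ker] at hv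
    have hQ : ∀ x : X × Y, (1 - prX 𝕜 X Y) x = (0, x.2) := by
      rintro ⟨x, y⟩
      simp [prX]
    have hP : ∀ x : X × Y, prX 𝕜 X Y x = (x.1, 0) := by
      rintro ⟨x, y⟩
      simp [prX]
    have hv1 : v = α ((β (0, (γ v).2)).1, 0) := by
      have h1 : v - α (prX 𝕜 X Y (β ((1 - prX 𝕜 X Y) (γ v)))) = 0 := hv
      rw [hQ, hP] at h1
      exact sub_eq_zero.1 h1
    refine ⟨(β (0, (γ v).2)).1, ?_, hv1.symm⟩
    rw [SetLike.mem_coe, LinearMap.mem_ker]
    have h3 : (β (0, (γ v).2)).1 - (β (0, (γ (α ((β (0, (γ v).2)).1, 0))).2)).1 = 0 := by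
      rw [← hv1, sub_self]
    exact h3
  exact Submodule.finiteDimensional_of_le hle

end Pool.Agent.UBS
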