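import Mathlib
import Pool.Agent.UBS.Defs

/-!
# UBS / PE: permutative equivalence

`permEquiv_image`: `Summable (a j • x j) ↔ Summable (a j • Φ (x j))` for an invertible `Φ`.
`isUncond_image`: transport of the expansions by `Φ`.
`permEquiv_sum`: a family on `J ⊕ I` is summable iff its two parts are; vectors in `X × 0`
and `0 × Y`: `Summable (a j • (x j, 0)) ↔ Summable (a j • x j)`.
-/

set_option autoImplicit false

open Filter Topology Function

namespace Pool.Agent.UBS

variable {𝕜 : Type*} [RCLike 𝕜] {U : Type*} [NormedAddCommGroup U] [NormedSpace 𝕜 U]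
  [CompleteSpace U] {ι : Type*}

section
variable {X Y Z W : Type*} [NormedAddCommGroup X] [NormedSpace 𝕜 X] [NormedAddCommGroup Y]
  [NormedSpace 𝕜 Y] [NormedAddCommGroup Z] [NormedSpace 𝕜 Z] [NormedAddCommGroup W]
  [NormedSpace 𝕜 W]

theorem PermEquiv.symm {J I : Type*} {x : J → X} {y : I → Y} (h : PermEquiv 𝕜 x y) :
    PermEquiv 𝕜 y x := by
  obtain ⟨p, hp⟩ := h
  refine ⟨p.symm, fun a => ?_⟩
  have h1 := hp (fun j => a (p j))
  have h2 : (Summable fun j => a (p j) • y (p j)) ↔ Summable fun i => a i • y i :=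
    p.summable_iff (f := fun i => a i • y i)
  have h3 : (Summable fun i => a (p (p.symm i)) • x (p.symm i)) ↔
      Summable fun j => a (p j) • x j :=
    p.symm.summable_iff (f := fun j => a (p j) • x j)
  simp only [Equiv.apply_symm_apply] at h3
  rw [← h2, ← h1, h3]

theorem PermEquiv.trans {J I L : Type*} {x : J → X} {y : I → Y} {z : L → Z}
    (h : PermEquiv 𝕜 x y) (h' : PermEquiv 𝕜 y z) : PermEquiv 𝕜 x z := by
  obtain ⟨p, hp⟩ := h
  obtain ⟨q, hq⟩ := h'
  refine ⟨p.trans q, fun a => ?_⟩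
  have h1 := hp a
  have h2 := hq (fun i => a (p.symm i))
  have h3 : (Summable fun j => a (p.symm (p j)) • y (p j)) ↔
      Summable fun i => a (p.symm i) • y i :=
    p.summable_iff (f := fun i => a (p.symm i) • y i)
  have h4 : (Summable fun j => a (p.symm (p j)) • z (q (p j))) ↔
      Summable fun i => a (p.symm i) • z (q i) :=
    p.summable_iff (f := fun i => a (p.symm i) • z (q i))
  simp only [Equiv.symm_apply_apply] at h3 h4
  rw [h1, h3, h2, ← h4]
  rfl

theorem permEquiv_reindex {J I : Type*} (x : J → X) (p : I ≃ J) :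
    PermEquiv 𝕜 x (fun i => x (p i)) := by
  refine ⟨p.symm, fun a => ?_⟩
  simp only [Equiv.apply_symm_apply]

theorem permEquiv_image {J : Type*} (x : J → X) (Φ : X ≃L[𝕜] Y) :
    PermEquiv 𝕜 x (fun j => Φ (x j)) := by
  refine ⟨Equiv.refl J, fun a => ?_⟩
  have h : (fun j => a j • Φ (x (Equiv.refl J j))) = fun j => Φ (a j • x j) := by
    funext j
    rw [map_smul]
    rfl
  simp only [Equiv.refl_apply] at h ⊢
  rw [h]
  exact (Φ.summable (f := fun j => a j • x j)).symm

theorem isUncond_image {J : Type*} {x : J → X} (hx : IsUncond 𝕜 x) (Φ : X ≃L[𝕜] Y) :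
    IsUncond 𝕜 (fun j => Φ (x j)) := by
  intro w
  obtain ⟨a, ha, hu⟩ := hx (Φ.symm w)
  refine ⟨a, ?_, fun a' ha' => hu a' ?_⟩
  · have h := Φ.hasSum'.2 ha
    simpa using h
  · have h : HasSum (fun j => Φ (a' j • x j)) w := by simpa using ha'
    have h' := Φ.symm.hasSum'.2 h
    simpa using h'

theorem semiNormalized_image {J : Type*} {x : J → X} (hx : SemiNormalized x) (Φ : X ≃L[𝕜] Y) :
    SemiNormalized (fun j => Φ (x j)) := by
  obtain ⟨r, R, hr, h⟩ := hx
  have hc : 0 < ‖(Φ.symm : Y →L[𝕜] X)‖ + 1 := by positivity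
  refine ⟨r / (‖(Φ.symm : Y →L[𝕜] X)‖ + 1), ‖(Φ : X →L[𝕜] Y)‖ * R, by positivity, fun j => ⟨?_, ?_⟩⟩
  · rw [div_le_iff₀ hc]
    have h1 := (Φ.symm : Y →L[𝕜] X).le_opNorm (Φ (x j))
    have h2 : (Φ.symm : Y →L[𝕜] X) (Φ (x j)) = x j := Φ.symm_apply_apply (x j)
    rw [h2] at h1
    have h3 := (h j).1
    have h4 := norm_nonneg (Φ (x j))
    nlinarith
  · have h1 := (Φ : X →L[𝕜] Y).le_opNorm (x j)
    have h3 := (h j).2
    have h4 := norm_nonneg (Φ : X →L[𝕜] Y)
    calc ‖Φ (x j)‖ ≤ ‖(Φ : X →L[𝕜] Y)‖ * ‖x j‖ := h1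
      _ ≤ ‖(Φ : X →L[𝕜] Y)‖ * R := by gcongr

/-- The family `(x j, 0)`, `(0, y i)`. -/
def sumFam {J I : Type*} (x : J → X) (y : I → Y) : J ⊕ I → X × Y :=
  Sum.elim (fun j => (x j, 0)) fun i => (0, y i)

private theorem pe_summable_sum {J I : Type*} {x : J → X} {y : I → Y} (a : J ⊕ I → 𝕜) :
    (Summable fun k => a k • sumFam x y k) ↔
      (Summable fun j => a (Sum.inl j) • x j) ∧ (Summable fun i => a (Sum.inr i) • y i) := by
  constructor
  · intro h
    constructor
    · have h2 := h.map (ContinuousLinearMap.fst 𝕜 X Y) (ContinuousLinearMap.fst 𝕜 X Y).continuous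
      have h3 : Summable ((⇑(ContinuousLinearMap.fst 𝕜 X Y) ∘ fun k => a k • sumFam x y k) ∘
          (Sum.inl : J → J ⊕ I)) := by
        refine (Function.Injective.summable_iff Sum.inl_injective fun k hk => ?_).2 h2
        cases k with
        | inl j => exact absurd ⟨j, rfl⟩ hk
        | inr i => simp [sumFam]
      refine h3.congr fun j => ?_
      simp [sumFam]
    · have h2 := h.map (ContinuousLinearMap.snd 𝕜 X Y) (ContinuousLinearMap.snd 𝕜 X Y).continuous
      have h3 : Summable ((⇑(ContinuousLinearMap.snd 𝕜 X Y) ∘ fun k => a k • sumFam x y k) ∘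
          (Sum.inr : I → J ⊕ I)) := by
        refine (Function.Injective.summable_iff Sum.inr_injective fun k hk => ?_).2 h2
        cases k with
        | inl j => simp [sumFam]
        | inr i => exact absurd ⟨i, rfl⟩ hk
      refine h3.congr fun j => ?_
      simp [sumFam]
  · rintro ⟨⟨u, hu⟩, ⟨v, hv⟩⟩
    have h1 : HasSum (fun j => a (Sum.inl j) • sumFam x y (Sum.inl j)) ((u, 0) : X × Y) := by
      have := hu.mapL (ContinuousLinearMap.inl 𝕜 X Y)
      simpa [sumFam] using this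
    have h2 : HasSum (fun i => a (Sum.inr i) • sumFam x y (Sum.inr i)) ((0, v) : X × Y) := by
      have := hv.mapL (ContinuousLinearMap.inr 𝕜 X Y)
      simpa [sumFam] using this
    exact (HasSum.sum (f := fun k => a k • sumFam x y k) h1 h2).summable

theorem permEquiv_sum {J I J' I' : Type*} {x : J → X} {y : I → Y} {x' : J' → Z} {y' : I' → W}
    (h : PermEquiv 𝕜 x x') (h' : PermEquiv 𝕜 y y') :
    PermEquiv 𝕜 (sumFam x y) (sumFam x' y') := by
  obtain ⟨p, hp⟩ := h
  obtain ⟨q, hq⟩ := h'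
  refine ⟨Equiv.sumCongr p q, fun a => ?_⟩
  have h3 : (fun k => a k • sumFam x' y' (Equiv.sumCongr p q k)) =
      fun k => a k • sumFam (fun j => x' (p j)) (fun i => y' (q i)) k := by
    funext k
    cases k <;> rfl
  rw [h3, pe_summable_sum, pe_summable_sum, hp, hq]

theorem isUncond_sum {J I : Type*} {x : J → X} {y : I → Y} (hx : IsUncond 𝕜 x)
    (hy : IsUncond 𝕜 y) : IsUncond 𝕜 (sumFam x y) := by
  rintro ⟨u, v⟩
  obtain ⟨a, ha, hau⟩ := hx u
  obtain ⟨b, hb, hbu⟩ := hy v
  refine ⟨Sum.elim a b, ?_, fun c hc => ?_⟩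
  · have h1 : HasSum (fun j => (Sum.elim a b : J ⊕ I → 𝕜) (Sum.inl j) • sumFam x y (Sum.inl j))
        ((u, 0) : X × Y) := by
      have := ha.mapL (ContinuousLinearMap.inl 𝕜 X Y)
      simpa [sumFam] using this
    have h2 : HasSum (fun i => (Sum.elim a b : J ⊕ I → 𝕜) (Sum.inr i) • sumFam x y (Sum.inr i))
        ((0, v) : X × Y) := by
      have := hb.mapL (ContinuousLinearMap.inr 𝕜 X Y)
      simpa [sumFam] using this
    have h3 := HasSum.sum (f := fun k => (Sum.elim a b : J ⊕ I → 𝕜) k • sumFam x y k) h1 h2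
    simpa using h3
  · have hs := pe_summable_sum (𝕜 := 𝕜) (x := x) (y := y) c |>.1 hc.summable
    obtain ⟨⟨u', hu'⟩, ⟨v', hv'⟩⟩ := hs
    have h1 : HasSum (fun j => c (Sum.inl j) • sumFam x y (Sum.inl j)) ((u', 0) : X × Y) := by
      have := hu'.mapL (ContinuousLinearMap.inl 𝕜 X Y)
      simpa [sumFam] using this
    have h2 : HasSum (fun i => c (Sum.inr i) • sumFam x y (Sum.inr i)) ((0, v') : X × Y) := by
      have := hv'.mapL (ContinuousLinearMap.inr 𝕜 X Y)
      simpa [sumFam] using this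
    have h3 := HasSum.sum (f := fun k => c k • sumFam x y k) h1 h2
    have h4 := h3.unique hc
    have h5 : u' = u ∧ v' = v := by simpa using h4
    obtain ⟨rfl, rfl⟩ := h5
    have h6 := hau (fun j => c (Sum.inl j)) hu'
    have h7 := hbu (fun i => c (Sum.inr i)) hv'
    funext k
    cases k with
    | inl j => exact congrFun h6 j
    | inr i => exact congrFun h7 i

theorem semiNormalized_sum {J I : Type*} {x : J → X} {y : I → Y} (hx : SemiNormalized x)
    (hy : SemiNormalized y) : SemiNormalized (sumFam x y) := by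
  obtain ⟨r, R, hr, h⟩ := hx
  obtain ⟨r', R', hr', h'⟩ := hy
  refine ⟨min r r', max R R', lt_min hr hr', fun k => ?_⟩
  cases k with
  | inl j =>
    have h1 : ‖sumFam x y (Sum.inl j : J ⊕ I)‖ = ‖x j‖ := by simp [sumFam, Prod.norm_def]
    rw [h1]
    exact ⟨(min_le_left _ _).trans (h j).1, (h j).2.trans (le_max_left _ _)⟩
  | inr i =>
    have h1 : ‖sumFam x y (Sum.inr i : J ⊕ I)‖ = ‖y i‖ := by simp [sumFam, Prod.norm_def]
    rw [h1]
    exact ⟨(min_le_right _ _).trans (h' i).1, (h' i).2.trans (le_max_right _ _)⟩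

end

end Pool.Agent.UBS
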