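import Mathlib

/-!
# UBS / CTM: bounded below operators and the continuity method

`isUnit_of_lb`: `X` is bounded below, so injective with closed range
(`AntilipschitzWith.isClosed_range`), dense range, hence bijective;
`ContinuousLinearEquiv.ofBijective` gives the inverse.

`cont_method`: the set of `t ∈ [0, 1]` with `X t` a unit is relatively open (units are open) and
closed: if `t₀` is in the closure, by uniform continuity choose `t` in the set with
`‖X t - X t₀‖ < c`; the inverse of `X t` has norm `≤ 1 / c`, so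
`X t₀ = X t (1 + (X t)⁻¹ (X t₀ - X t))` is a unit.  Use e.g. `IsPreconnected` of `Set.Icc 0 1`, or a
finite chain `0 = t_0 < ... < t_m = 1` with `‖X t_{i+1} - X t_i‖ < c` (uniform continuity on the
compact interval) and induction.
-/

set_option autoImplicit false

open Filter Topology Function

namespace Pool.Agent.UBS

variable {𝕜 : Type*} [RCLike 𝕜] {U : Type*} [NormedAddCommGroup U] [NormedSpace 𝕜 U]
  [CompleteSpace U] {ι : Type*}

theorem isUnit_of_lb (X : U →L[𝕜] U) {c : ℝ} (hc : 0 < c) (hlb : ∀ v, c * ‖v‖ ≤ ‖X v‖)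
    (hd : DenseRange X) : IsUnit X := by
  rw [ContinuousLinearMap.isUnit_iff_bijective]
  have hanti : AntilipschitzWith (Real.toNNReal c⁻¹) X := by
    refine AddMonoidHomClass.antilipschitz_of_bound X fun x => ?_
    rw [Real.coe_toNNReal _ (inv_nonneg.mpr hc.le), inv_mul_eq_div, le_div_iff₀ hc, mul_comm]
    exact hlb x
  refine ⟨hanti.injective, ?_⟩
  have hcl : IsClosed (Set.range X) := hanti.isClosed_range X.uniformContinuous
  rw [← Set.range_eq_univ, ← hcl.closure_eq]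
  exact hd.closure_range

/-- The inverse of a unit which is bounded below. -/
theorem norm_inv_le (X : (U →L[𝕜] U)ˣ) {c : ℝ} (hc : 0 < c)
    (hlb : ∀ v, c * ‖v‖ ≤ ‖(X : U →L[𝕜] U) v‖) :
    ‖((X⁻¹ : (U →L[𝕜] U)ˣ) : U →L[𝕜] U)‖ ≤ c⁻¹ := by
  refine ContinuousLinearMap.opNorm_le_bound _ (inv_nonneg.mpr hc.le) fun v => ?_
  have h := hlb (((X⁻¹ : (U →L[𝕜] U)ˣ) : U →L[𝕜] U) v)
  have h2 : (X : U →L[𝕜] U) (((X⁻¹ : (U →L[𝕜] U)ˣ) : U →L[𝕜] U) v) = v := by
    have := congrArg (fun T : U →L[𝕜] U => T v) X.mul_inv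
    exact this
  rw [h2] at h
  rw [inv_mul_eq_div, le_div_iff₀ hc, mul_comm]
  exact h

private theorem ctm_step {A B : U →L[𝕜] U} (hA : IsUnit A) {c : ℝ} (hc : 0 < c)
    (hlb : ∀ v, c * ‖v‖ ≤ ‖A v‖) (hAB : ‖B - A‖ < c) : IsUnit B := by
  obtain ⟨x, rfl⟩ := hA
  rcases subsingleton_or_nontrivial U with hU | hU
  · have : B = x := by
      ext v
      exact Subsingleton.elim _ _
    rw [this]
    exact x.isUnit
  · have h1 := norm_inv_le x hc hlb
    have hpos : 0 < ‖((x⁻¹ : (U →L[𝕜] U)ˣ) : U →L[𝕜] U)‖ := Units.norm_pos x⁻¹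
    have h2 : ‖B - x‖ < ‖((x⁻¹ : (U →L[𝕜] U)ˣ) : U →L[𝕜] U)‖⁻¹ := by
      refine hAB.trans_le ?_
      rw [le_inv_comm₀ hc hpos]
      exact h1
    have h3 : B = (x.add (B - x) h2 : (U →L[𝕜] U)ˣ) := by
      rw [Units.val_add]
      abel
    rw [h3]
    exact Units.isUnit _

theorem cont_method (X : ℝ → U →L[𝕜] U) (hX : ContinuousOn X (Set.Icc 0 1)) {c : ℝ} (hc : 0 < c)
    (hlb : ∀ t ∈ Set.Icc (0 : ℝ) 1, ∀ v, c * ‖v‖ ≤ ‖X t v‖) (h0 : IsUnit (X 0)) :
    IsUnit (X 1) := by
  have huc : UniformContinuousOn X (Set.Icc 0 1) :=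
    isCompact_Icc.uniformContinuousOn_of_continuous hX
  rw [Metric.uniformContinuousOn_iff] at huc
  obtain ⟨δ, hδ, hδ'⟩ := huc c hc
  obtain ⟨N, hN⟩ := exists_nat_gt (1 / δ)
  have hN0 : (0 : ℝ) < N := lt_trans (by positivity) hN
  have hstep : (1 : ℝ) / N < δ := by
    rw [div_lt_iff₀ hN0]
    rw [div_lt_iff₀ hδ] at hN
    linarith
  have key : ∀ i : ℕ, i ≤ N → IsUnit (X (i / N)) := by
    intro i
    induction i with
    | zero => intro _; simpa using h0
    | succ i ih =>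
      intro hi
      have hi' : (i : ℝ) + 1 ≤ N := by exact_mod_cast hi
      have hi0 : (0 : ℝ) ≤ i := Nat.cast_nonneg i
      have m1 : (i : ℝ) / N ∈ Set.Icc (0 : ℝ) 1 := by
        refine ⟨by positivity, ?_⟩
        rw [div_le_one hN0]
        linarith
      have m2 : ((i + 1 : ℕ) : ℝ) / N ∈ Set.Icc (0 : ℝ) 1 := by
        refine ⟨by positivity, ?_⟩
        rw [div_le_one hN0]
        push_cast
        exact hi'
      refine ctm_step (ih (by omega)) hc (hlb _ m1) ?_
      rw [← dist_eq_norm]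
      refine hδ' _ m2 _ m1 ?_
      rw [Real.dist_eq]
      have : ((i + 1 : ℕ) : ℝ) / N - (i : ℝ) / N = 1 / N := by
        push_cast
        ring
      rw [this, abs_of_pos (by positivity)]
      exact hstep
  have h1 := key N le_rfl
  rwa [div_self hN0.ne'] at h1

end Pool.Agent.UBS
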