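import Mathlib
import Pool.Agent.UBS.Defs

/-!
# UBS / CX: the embedding of the scalars in `ℂ`

`cx z = re z + im z * I`; ring homomorphism by `RCLike.mul_re`, `RCLike.mul_im`.
-/

set_option autoImplicit false

open Filter Topology Function

namespace Pool.Agent.UBS

/-- The canonical embedding of `ℝ` or `ℂ` in `ℂ`. -/
noncomputable def cx (𝕜 : Type*) [RCLike 𝕜] : 𝕜 →+* ℂ where
  toFun z := (RCLike.re z : ℝ) + (RCLike.im z : ℝ) * Complex.I
  map_one' := by simp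
  map_mul' x y := by
    apply Complex.ext <;> simp [RCLike.mul_re, RCLike.mul_im]
  map_zero' := by simp
  map_add' x y := by
    apply Complex.ext <;> simp

theorem cx_re {𝕜 : Type*} [RCLike 𝕜] (z : 𝕜) : (cx 𝕜 z).re = RCLike.re z := by simp [cx]

theorem cx_im {𝕜 : Type*} [RCLike 𝕜] (z : 𝕜) : (cx 𝕜 z).im = RCLike.im z := by simp [cx]

theorem norm_cx {𝕜 : Type*} [RCLike 𝕜] (z : 𝕜) : ‖cx 𝕜 z‖ = ‖z‖ := by
  have h1 : ‖cx 𝕜 z‖ ^ 2 = ‖z‖ ^ 2 := by
    rw [RCLike.norm_sq_eq_def (K := 𝕜), Complex.sq_norm, Complex.normSq_apply, cx_re, cx_im]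
  exact (pow_left_inj₀ (norm_nonneg _) (norm_nonneg _) two_ne_zero).1 h1

theorem cx_ofReal {𝕜 : Type*} [RCLike 𝕜] (r : ℝ) : cx 𝕜 (r : 𝕜) = (r : ℂ) := by
  apply Complex.ext
  · rw [cx_re]; simp
  · rw [cx_im]; simp

end Pool.Agent.UBS
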