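import Mathlib
import Pool.Agent.UBS.Base

/-!
# UBS / GLU: gluing block operators with uniformly bounded finite sums

For `x` the sum `∑ R k x` converges: given `ε`, choose by `UB.approx` a finite `F` with
`‖b.M F x - x‖ ≤ ε`; the set `s₀` of `k` with `I k ∩ F ≠ ∅` is finite (the `I k` are disjoint and
`F` is finite); for a finite `t` disjoint from `s₀`, `R k (b.M F x) = R k (b.M (I k) (b.M F x)) = 0`
for `k ∈ t`, so `‖∑ k ∈ t, R k x‖ = ‖∑ k ∈ t, R k (x - b.M F x)‖ ≤ C ε`
(`summable_iff_vanishing_norm`).  `T x = ∑' k, R k x` (`LinearMap.mkContinuous`, bound by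
`le_of_tendsto`).  `T * M (I k) = R k` as `R j * M (I k) = R j * M (I j) * M (I k) = 0` for
`j ≠ k`; `M (I k) * T = R k` since `M (I k) * R j = 0` for `j ≠ k`.
`T * M (⋃ k, I k) = T`: `R k * M (⋃ k, I k) = R k * M (I k) * M (⋃ k, I k) = R k`.
-/

set_option autoImplicit false

open Filter Topology Function

namespace Pool.Agent.UBS

variable {𝕜 : Type*} [RCLike 𝕜] {U : Type*} [NormedAddCommGroup U] [NormedSpace 𝕜 U]
  [CompleteSpace U] {ι : Type*}

theorem exists_glue (b : UB 𝕜 ι U) (I : ℕ → Set ι) (hd : Pairwise (Disjoint on I))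
    (R : ℕ → U →L[𝕜] U) (hR : ∀ k, b.M (I k) * R k = R k ∧ R k * b.M (I k) = R k) {C : ℝ}
    (hC : ∀ (s : Finset ℕ) (x : U), ‖∑ k ∈ s, R k x‖ ≤ C * ‖x‖) :
    ∃ T : U →L[𝕜] U, BD b I T ∧ (∀ k, T * b.M (I k) = R k) ∧ ∀ x, ‖T x‖ ≤ C * ‖x‖ := by
  classical
  have hRr : ∀ k x, R k (b.M (I k) x) = R k x := fun k x =>
    congrArg (fun T : U →L[𝕜] U => T x) (hR k).2
  have hRl : ∀ k x, b.M (I k) (R k x) = R k x := fun k x =>
    congrArg (fun T : U →L[𝕜] U => T x) (hR k).1
  have hRdisj : ∀ j (A : Set ι), Disjoint (I j) A → ∀ x, R j (b.M A x) = 0 := by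
    intro j A hA x
    rw [← hRr, b.M_M_disj hA, map_zero]
  have hC0 : ∀ x : U, 0 ≤ C * ‖x‖ := fun x => by
    have := hC ∅ x
    simpa using this
  -- summability
  have hsum : ∀ x, Summable fun k => R k x := by
    intro x
    rw [summable_iff_vanishing_norm]
    intro ε hε
    set δ : ℝ := ε / (|C| + 1) with hδ
    have hδ0 : 0 < δ := by positivity
    obtain ⟨F, hF, hFx⟩ := b.approx x hδ0
    have hx := hFx F le_rfl
    have hfin : {k : ℕ | ¬ Disjoint (I k) F}.Finite := by
      refine (hF.biUnion (t := fun i => {k : ℕ | i ∈ I k}) fun i _ => ?_).subset ?_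
      · refine Set.Subsingleton.finite fun k hk l hl => ?_
        by_contra hne
        exact Set.disjoint_left.mp (hd hne) hk hl
      · intro k hk
        obtain ⟨i, hi1, hi2⟩ := Set.not_disjoint_iff.mp hk
        exact Set.mem_biUnion hi2 hi1
    refine ⟨hfin.toFinset, fun t ht => ?_⟩
    have h1 : ∑ k ∈ t, R k x = ∑ k ∈ t, R k (x - b.M F x) := by
      refine Finset.sum_congr rfl fun k hk => ?_
      have hkF : Disjoint (I k) F := by
        by_contra hcon
        exact Finset.disjoint_left.mp ht hk (hfin.mem_toFinset.mpr hcon)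
      rw [map_sub, hRdisj k F hkF, sub_zero]
    rw [h1]
    have h2 := hC t (x - b.M F x)
    calc ‖∑ k ∈ t, R k (x - b.M F x)‖ ≤ C * ‖x - b.M F x‖ := h2
      _ ≤ |C| * δ := by
          refine mul_le_mul (le_abs_self C) ?_ (norm_nonneg _) (abs_nonneg _)
          rw [norm_sub_rev]
          exact hx
      _ < (|C| + 1) * δ := by nlinarith
      _ = ε := by rw [hδ]; field_simp
  have hs : ∀ x, HasSum (fun k => R k x) (∑' k, R k x) := fun x => (hsum x).hasSum
  have hb : ∀ x, ‖∑' k, R k x‖ ≤ C * ‖x‖ := fun x =>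
    le_of_tendsto (hs x).norm (Eventually.of_forall fun s => hC s x)
  let T : U →L[𝕜] U := LinearMap.mkContinuous
    { toFun := fun x => ∑' k, R k x
      map_add' := fun x y => by
        refine HasSum.tsum_eq ?_
        have := (hs x).add (hs y)
        simpa only [map_add] using this
      map_smul' := fun r x => by
        refine HasSum.tsum_eq ?_
        have h1 := (hs x).const_smul r
        rw [RingHom.id_apply]
        simpa only [map_smul] using h1 } C hb
  have hT : ∀ x, HasSum (fun k => R k x) (T x) := hs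
  have hTk : ∀ k x, T (b.M (I k) x) = R k x := by
    intro k x
    have h1 := hT (b.M (I k) x)
    have h2 : HasSum (fun j => R j (b.M (I k) x)) (R k (b.M (I k) x)) :=
      hasSum_single k fun j hj => hRdisj j (I k) (hd hj) x
    rw [h1.unique h2, hRr]
  have hkT : ∀ k x, b.M (I k) (T x) = R k x := by
    intro k x
    have h1 := (hT x).mapL (b.M (I k))
    have h2 : HasSum (fun j => b.M (I k) (R j x)) (b.M (I k) (R k x)) := by
      refine hasSum_single k fun j hj => ?_
      rw [← hRl j x, b.M_M_disj (hd hj.symm)]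
    rw [h1.unique h2, hRl]
  refine ⟨T, ⟨fun k => ?_, ?_⟩, fun k => ?_, hb⟩
  · ext x
    change T (b.M (I k) x) = b.M (I k) (T x)
    rw [hTk, hkT]
  · ext x
    change T (b.M (⋃ k, I k) x) = T x
    have h1 := hT (b.M (⋃ k, I k) x)
    have h2 : (fun k => R k (b.M (⋃ k, I k) x)) = fun k => R k x := by
      funext k
      rw [← hRr, b.M_M, Set.inter_eq_left.2 (Set.subset_iUnion I k), hRr]
    rw [h2] at h1
    exact h1.unique (hT x)
  · ext x
    exact hTk k x

end Pool.Agent.UBS
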