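import Mathlib
import Pool.Agent.UBS.Base
import Pool.Agent.UBS.GLU

/-!
# UBS / AVG: the block diagonal part of an operator (sign averaging)

`norm_block_le`: for `A ⊆ s` let `σ A : ι → 𝕜` be `1` on `I k`, `k ∈ A`, `-1` on `I k`,
`k ∈ s \ A`, and `0` elsewhere; `D A = b.mlt (σ A)`, `‖D A x‖ ≤ K ‖x‖` (`UB.norm_mlt_le`).
`D A = ∑ k ∈ s, ε A k • M (I k)`, `ε A k = 1` if `k ∈ A`, `-1` otherwise, so
`∑ A ∈ s.powerset, D A X D A x = ∑ j, k ∈ s (∑ A, ε A j ε A k) M (I j) X M (I k) x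
= 2 ^ s.card ∑ k ∈ s, M (I k) X M (I k) x`: for `j ≠ k` the involution `A ↦ A ∆ {j}`
(`Finset.sum_involution`) gives `∑ A, ε A j ε A k = 0`.  Take norms.

`exists_diag`: `exists_glue` with `R k = M (I k) X M (I k)`, `C = K ^ 2 ‖X‖`.
-/

set_option autoImplicit false

open Filter Topology Function

namespace Pool.Agent.UBS

variable {𝕜 : Type*} [RCLike 𝕜] {U : Type*} [NormedAddCommGroup U] [NormedSpace 𝕜 U]
  [CompleteSpace U] {ι : Type*}

/-- The sign of `k` with respect to `A`. -/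
private noncomputable def AVG_eps (𝕜 : Type*) [RCLike 𝕜] (A : Finset ℕ) (k : ℕ) : 𝕜 :=
  open Classical in if k ∈ A then 1 else -1

private theorem AVG_eps_sq (A : Finset ℕ) (k : ℕ) : AVG_eps 𝕜 A k * AVG_eps 𝕜 A k = 1 := by
  unfold AVG_eps
  split_ifs <;> simp

private theorem AVG_norm_eps (A : Finset ℕ) (k : ℕ) : ‖AVG_eps 𝕜 A k‖ = 1 := by
  unfold AVG_eps
  split_ifs <;> simp

private theorem AVG_orth (s : Finset ℕ) {j k : ℕ} (hj : j ∈ s) (hjk : j ≠ k) :
    ∑ A ∈ s.powerset, AVG_eps 𝕜 A j * AVG_eps 𝕜 A k = 0 := by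
  classical
  have hsd : ∀ A : Finset ℕ, ∀ l, l ∈ symmDiff A {j} ↔ (if l = j then ¬ l ∈ A else l ∈ A) := by
    intro A l
    rw [Finset.mem_symmDiff, Finset.mem_singleton]
    split_ifs with h <;> simp [h]
  refine Finset.sum_involution (fun A _ => symmDiff A {j}) ?_ ?_ ?_ ?_
  · intro A _
    have h1 : AVG_eps 𝕜 (symmDiff A {j}) j = - AVG_eps 𝕜 A j := by
      unfold AVG_eps
      rw [if_congr (hsd A j) rfl rfl]
      by_cases h : j ∈ A <;> simp [h]
    have h2 : AVG_eps 𝕜 (symmDiff A {j}) k = AVG_eps 𝕜 A k := by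
      unfold AVG_eps
      rw [if_congr (hsd A k) rfl rfl]
      simp [hjk.symm]
    rw [h1, h2]; ring
  · intro A _ _ h
    have h1 := hsd A j
    rw [h] at h1
    simp at h1
  · intro A hA
    rw [Finset.mem_powerset] at hA ⊢
    intro l hl
    rw [hsd A l] at hl
    split_ifs at hl with h
    · rw [h]; exact hj
    · exact hA hl
  · intro A _
    exact symmDiff_symmDiff_cancel_right _ _

theorem norm_block_le (b : UB 𝕜 ι U) (I : ℕ → Set ι) (hd : Pairwise (Disjoint on I))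
    (X : U →L[𝕜] U) (s : Finset ℕ) (x : U) :
    ‖∑ k ∈ s, b.M (I k) (X (b.M (I k) x))‖ ≤ b.K ^ 2 * ‖X‖ * ‖x‖ := by
  classical
  have hK := b.K_pos
  -- the signed projections
  have hD : ∀ (A : Finset ℕ) (y : U), ‖∑ k ∈ s, AVG_eps 𝕜 A k • b.M (I k) y‖ ≤ b.K * ‖y‖ := by
    intro A y
    let σ : ι → 𝕜 := fun i => ∑ k ∈ s, AVG_eps 𝕜 A k * (I k).indicator (fun _ => (1 : 𝕜)) i
    have hσ : ∀ i, ‖σ i‖ ≤ 1 := by
      intro i
      by_cases h : ∃ k ∈ s, i ∈ I k
      · obtain ⟨k, hk, hi⟩ := h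
        have : σ i = AVG_eps 𝕜 A k := by
          show ∑ k ∈ s, AVG_eps 𝕜 A k * (I k).indicator (fun _ => (1 : 𝕜)) i = _
          rw [Finset.sum_eq_single k]
          · rw [Set.indicator_of_mem hi, mul_one]
          · intro l _ hl
            rw [Set.indicator_of_notMem (fun hil => Set.disjoint_left.1 (hd hl) hil hi), mul_zero]
          · intro h; exact absurd hk h
        rw [this, AVG_norm_eps]
      · push Not at h
        have : σ i = 0 := by
          show ∑ k ∈ s, AVG_eps 𝕜 A k * (I k).indicator (fun _ => (1 : 𝕜)) i = _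
          refine Finset.sum_eq_zero fun k hk => ?_
          rw [Set.indicator_of_notMem (h k hk), mul_zero]
        rw [this, norm_zero]
        exact zero_le_one
    have h1 : ∑ k ∈ s, AVG_eps 𝕜 A k • b.M (I k) y = b.mlt σ y := by
      refine b.ext fun i => ?_
      rw [b.c_mlt ⟨1, hσ⟩, map_sum, Finset.sum_mul]
      refine Finset.sum_congr rfl fun k _ => ?_
      rw [map_smul, smul_eq_mul, b.c_M]
      by_cases hi : i ∈ I k
      · rw [Set.indicator_of_mem hi, Set.indicator_of_mem hi]; ring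
      · rw [Set.indicator_of_notMem hi, Set.indicator_of_notMem hi]; ring
    rw [h1]
    have h2 := b.norm_mlt_le hσ y
    rwa [mul_one] at h2
  have hsum : ∑ A ∈ s.powerset, (∑ j ∈ s, AVG_eps 𝕜 A j • b.M (I j)
      (X (∑ k ∈ s, AVG_eps 𝕜 A k • b.M (I k) x))) =
      ((2 : 𝕜) ^ s.card) • ∑ k ∈ s, b.M (I k) (X (b.M (I k) x)) := by
    calc ∑ A ∈ s.powerset, (∑ j ∈ s, AVG_eps 𝕜 A j • b.M (I j)
          (X (∑ k ∈ s, AVG_eps 𝕜 A k • b.M (I k) x)))
        = ∑ A ∈ s.powerset, ∑ j ∈ s, ∑ k ∈ s, (AVG_eps 𝕜 A j * AVG_eps 𝕜 A k) •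
            b.M (I j) (X (b.M (I k) x)) := by
          refine Finset.sum_congr rfl fun A _ => Finset.sum_congr rfl fun j _ => ?_
          rw [map_sum, map_sum, Finset.smul_sum]
          refine Finset.sum_congr rfl fun k _ => ?_
          rw [map_smul, map_smul, smul_smul]
      _ = ∑ j ∈ s, ∑ k ∈ s, (∑ A ∈ s.powerset, AVG_eps 𝕜 A j * AVG_eps 𝕜 A k) •
            b.M (I j) (X (b.M (I k) x)) := by
          rw [Finset.sum_comm]
          refine Finset.sum_congr rfl fun j _ => ?_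
          rw [Finset.sum_comm]
          refine Finset.sum_congr rfl fun k _ => ?_
          rw [Finset.sum_smul]
      _ = ∑ j ∈ s, ((2 : 𝕜) ^ s.card) • b.M (I j) (X (b.M (I j) x)) := by
          refine Finset.sum_congr rfl fun j hj => ?_
          rw [Finset.sum_eq_single j]
          · congr 1
            rw [Finset.sum_congr rfl fun A _ => AVG_eps_sq A j, Finset.sum_const,
              Finset.card_powerset, nsmul_eq_mul, mul_one]
            push_cast
            rfl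
          · intro k _ hk
            rw [AVG_orth s hj hk.symm, zero_smul]
          · intro h; exact absurd hj h
      _ = ((2 : 𝕜) ^ s.card) • ∑ k ∈ s, b.M (I k) (X (b.M (I k) x)) := by
          rw [Finset.smul_sum]
  have h1 : ‖((2 : 𝕜) ^ s.card) • ∑ k ∈ s, b.M (I k) (X (b.M (I k) x))‖ ≤
      (2 : ℝ) ^ s.card * (b.K ^ 2 * ‖X‖ * ‖x‖) := by
    rw [← hsum]
    calc ‖∑ A ∈ s.powerset, (∑ j ∈ s, AVG_eps 𝕜 A j • b.M (I j)
          (X (∑ k ∈ s, AVG_eps 𝕜 A k • b.M (I k) x)))‖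
        ≤ ∑ A ∈ s.powerset, b.K ^ 2 * ‖X‖ * ‖x‖ := by
          refine (norm_sum_le _ _).trans (Finset.sum_le_sum fun A _ => ?_)
          calc ‖∑ j ∈ s, AVG_eps 𝕜 A j • b.M (I j)
                (X (∑ k ∈ s, AVG_eps 𝕜 A k • b.M (I k) x))‖
              ≤ b.K * ‖X (∑ k ∈ s, AVG_eps 𝕜 A k • b.M (I k) x)‖ := hD A _
            _ ≤ b.K * (‖X‖ * (b.K * ‖x‖)) := by
                gcongr
                exact (X.le_opNorm _).trans (mul_le_mul_of_nonneg_left (hD A x) (norm_nonneg _))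
            _ = b.K ^ 2 * ‖X‖ * ‖x‖ := by ring
      _ = (2 : ℝ) ^ s.card * (b.K ^ 2 * ‖X‖ * ‖x‖) := by
          rw [Finset.sum_const, Finset.card_powerset, nsmul_eq_mul]
          push_cast
          rfl
  rw [norm_smul, norm_pow, RCLike.norm_ofNat] at h1
  exact le_of_mul_le_mul_left h1 (by positivity)

theorem exists_diag (b : UB 𝕜 ι U) (I : ℕ → Set ι) (hd : Pairwise (Disjoint on I))
    (X : U →L[𝕜] U) :
    ∃ T : U →L[𝕜] U, BD b I T ∧ (∀ k, T * b.M (I k) = b.M (I k) * X * b.M (I k)) ∧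
      ∀ x, ‖T x‖ ≤ b.K ^ 2 * ‖X‖ * ‖x‖ := by
  refine exists_glue b I hd (fun k => b.M (I k) * X * b.M (I k)) (fun k => ⟨?_, ?_⟩)
    (C := b.K ^ 2 * ‖X‖) fun s x => ?_
  · rw [← mul_assoc, ← mul_assoc, b.M_idem]
  · rw [mul_assoc, b.M_idem]
  · exact norm_block_le b I hd X s x

end Pool.Agent.UBS
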