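import Mathlib
import Pool.Agent.UBS.Base

/-!
# UBS / BDL: calculus of block diagonal operators

`BD.left`: `R x = R (M Z x)`, `M Z x = ∑ M (I k) x` (`UB.hasSum_blocks`), so
`R x = ∑ M (I k) R x` and `M Z` fixes every term.
`BD.sub_seq`: `R * M (⋃ k, I (φ k))`; commutation with `M (I (φ k))` by `UB.M_comm` and
`BD.1`.
`exists_blockmul`: `b.mlt f` with `f i = r k` for `i ∈ I k`, `f i = 0` if `i` is in no block.
-/

set_option autoImplicit false

open Filter Topology Function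

namespace Pool.Agent.UBS

variable {𝕜 : Type*} [RCLike 𝕜] {U : Type*} [NormedAddCommGroup U] [NormedSpace 𝕜 U]
  [CompleteSpace U] {ι : Type*}

theorem BD.fix {b : UB 𝕜 ι U} {I : ℕ → Set ι} {R : U →L[𝕜] U} (h : BD b I R) {k : ℕ} {v : U}
    (hv : b.M (I k) v = v) : b.M (I k) (R v) = R v := by
  have h1 := congrArg (fun T : U →L[𝕜] U => T v) (h.1 k)
  simp only [mul_apply_eq_comp] at h1
  rw [hv] at h1
  exact h1.symm

theorem BD.comm_apply {b : UB 𝕜 ι U} {I : ℕ → Set ι} {R : U →L[𝕜] U} (h : BD b I R) (k : ℕ)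
    (x : U) : R (b.M (I k) x) = b.M (I k) (R x) := by
  have h1 := congrArg (fun T : U →L[𝕜] U => T x) (h.1 k)
  simpa only [mul_apply_eq_comp] using h1

theorem BD.left {b : UB 𝕜 ι U} {I : ℕ → Set ι} (hd : Pairwise (Disjoint on I)) {R : U →L[𝕜] U}
    (h : BD b I R) : b.M (⋃ k, I k) * R = R := by
  ext x
  have h1 : R (b.M (⋃ k, I k) x) = R x := by
    have := congrArg (fun T : U →L[𝕜] U => T x) h.2
    simpa only [mul_apply_eq_comp] using this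
  have h2 := (b.hasSum_blocks I hd x).mapL R
  rw [h1] at h2
  have h3 := h2.mapL (b.M (⋃ k, I k))
  have h4 : (fun k => b.M (⋃ k, I k) (R (b.M (I k) x))) = fun k => R (b.M (I k) x) := by
    funext k
    refine b.M_fix_of_subset (Set.subset_iUnion I k) (h.fix ?_)
    rw [b.M_M, Set.inter_self]
  rw [h4] at h3
  rw [mul_apply_eq_comp]
  exact h3.unique h2

theorem BD.mul {b : UB 𝕜 ι U} {I : ℕ → Set ι} {R S : U →L[𝕜] U} (hR : BD b I R)
    (hS : BD b I S) : BD b I (R * S) := by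
  refine ⟨fun k => ?_, ?_⟩
  · rw [mul_assoc, hS.1 k, ← mul_assoc, hR.1 k, mul_assoc]
  · rw [mul_assoc, hS.2]

theorem BD.add {b : UB 𝕜 ι U} {I : ℕ → Set ι} {R S : U →L[𝕜] U} (hR : BD b I R)
    (hS : BD b I S) : BD b I (R + S) := by
  refine ⟨fun k => ?_, ?_⟩
  · rw [add_mul, mul_add, hR.1 k, hS.1 k]
  · rw [add_mul, hR.2, hS.2]

theorem BD.sub {b : UB 𝕜 ι U} {I : ℕ → Set ι} {R S : U →L[𝕜] U} (hR : BD b I R)
    (hS : BD b I S) : BD b I (R - S) := by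
  refine ⟨fun k => ?_, ?_⟩
  · rw [sub_mul, mul_sub, hR.1 k, hS.1 k]
  · rw [sub_mul, hR.2, hS.2]

theorem BD.smul {b : UB 𝕜 ι U} {I : ℕ → Set ι} {R : U →L[𝕜] U} (r : 𝕜) (hR : BD b I R) :
    BD b I (r • R) := by
  refine ⟨fun k => ?_, ?_⟩
  · rw [smul_mul_assoc, mul_smul_comm, hR.1 k]
  · rw [smul_mul_assoc, hR.2]

theorem BD.one (b : UB 𝕜 ι U) (I : ℕ → Set ι) : BD b I (b.M (⋃ k, I k)) :=
  ⟨fun k => b.M_comm _ _, b.M_idem _⟩

/-- A diagonal operator composed with a block diagonal operator. -/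
theorem BD.mlt_mul {b : UB 𝕜 ι U} {I : ℕ → Set ι} {R : U →L[𝕜] U} (hR : BD b I R) {f : ι → 𝕜}
    (hf : ∃ C : ℝ, ∀ i, ‖f i‖ ≤ C) : BD b I (b.mlt f * R) := by
  refine ⟨fun k => ?_, ?_⟩
  · rw [mul_assoc, hR.1 k, ← mul_assoc, b.mlt_M_comm hf, mul_assoc]
  · rw [mul_assoc, hR.2]

theorem BD.sub_seq {b : UB 𝕜 ι U} {I : ℕ → Set ι} {R : U →L[𝕜] U} (hR : BD b I R)
    (φ : ℕ → ℕ) : BD b (fun k => I (φ k)) (R * b.M (⋃ k, I (φ k))) ∧
      ∀ k v, b.M (I (φ k)) v = v → (R * b.M (⋃ k, I (φ k))) v = R v := by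
  refine ⟨⟨fun k => ?_, ?_⟩, fun k v hv => ?_⟩
  · rw [mul_assoc, b.M_comm, ← mul_assoc, hR.1 (φ k), mul_assoc]
  · rw [mul_assoc, b.M_idem]
  · rw [mul_apply_eq_comp]
    congr 1
    exact b.M_fix_of_subset (Set.subset_iUnion (fun k => I (φ k)) k) hv

theorem exists_blockmul (b : UB 𝕜 ι U) (I : ℕ → Set ι) (hd : Pairwise (Disjoint on I))
    (r : ℕ → 𝕜) {C : ℝ} (hr : ∀ k, ‖r k‖ ≤ C) :
    ∃ T : U →L[𝕜] U, BD b I T ∧ ∀ k v, b.M (I k) v = v → T v = r k • v := by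
  classical
  let f : ι → 𝕜 := fun i => if h : ∃ k, i ∈ I k then r h.choose else 0
  have hfk : ∀ k, ∀ i ∈ I k, f i = r k := by
    intro k i hi
    have h : ∃ k, i ∈ I k := ⟨k, hi⟩
    have h1 : f i = r h.choose := dif_pos h
    rw [h1]
    by_contra hne
    have h2 : h.choose ≠ k := fun h3 => hne (by rw [h3])
    exact Set.disjoint_left.1 (hd h2) h.choose_spec hi
  have hf0 : ∀ i, i ∉ (⋃ k, I k) → f i = 0 := by
    intro i hi
    refine dif_neg fun h => hi (Set.mem_iUnion.2 h)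
  have hf : ∃ C : ℝ, ∀ i, ‖f i‖ ≤ C := by
    refine ⟨C, fun i => ?_⟩
    by_cases h : i ∈ ⋃ k, I k
    · obtain ⟨k, hk⟩ := Set.mem_iUnion.1 h
      rw [hfk k i hk]
      exact hr k
    · rw [hf0 i h, norm_zero]
      exact (norm_nonneg _).trans (hr 0)
  refine ⟨b.mlt f, ⟨fun k => b.mlt_M_comm hf _, ?_⟩, fun k v hv => ?_⟩
  · ext x
    refine b.ext fun i => ?_
    rw [mul_apply_eq_comp, b.c_mlt hf, b.c_mlt hf]
    by_cases h : i ∈ ⋃ k, I k
    · rw [b.c_M_mem h]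
    · rw [hf0 i h, zero_mul, zero_mul]
  · exact b.mlt_const_on hf (hfk k) hv

/-- `R` is block diagonal for the subblocks `I k ∩ A`: it is block diagonal for `I k`. -/
theorem BD.of_inter {b : UB 𝕜 ι U} {I : ℕ → Set ι} (hd : Pairwise (Disjoint on I)) {A : Set ι}
    {R : U →L[𝕜] U} (hR : BD b (fun k => I k ∩ A) R) : BD b I R := by
  have hdA : Pairwise (Disjoint on fun k => I k ∩ A) := fun k l hkl =>
    (hd hkl).mono Set.inter_subset_left Set.inter_subset_left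
  have hU : (⋃ k, I k ∩ A) ⊆ ⋃ k, I k := Set.iUnion_mono fun k => Set.inter_subset_left
  have hleft := hR.left hdA
  have h2 := hR.2
  simp only at hleft h2
  have hI : ∀ k, (⋃ k, I k ∩ A) ∩ I k = I k ∩ A := by
    intro k
    ext i
    simp only [Set.mem_inter_iff, Set.mem_iUnion]
    constructor
    · rintro ⟨⟨l, _, hA⟩, hk⟩
      exact ⟨hk, hA⟩
    · rintro ⟨hk, hA⟩
      exact ⟨⟨k, hk, hA⟩, hk⟩
  refine ⟨fun k => ?_, ?_⟩
  · calc R * b.M (I k) = R * b.M (⋃ k, I k ∩ A) * b.M (I k) := by rw [h2]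
      _ = R * b.M (I k ∩ A) := by rw [mul_assoc, b.M_mul, hI]
      _ = b.M (I k ∩ A) * R := hR.1 k
      _ = b.M (I k) * (b.M (⋃ k, I k ∩ A) * R) := by
        rw [← mul_assoc, b.M_mul, Set.inter_comm (I k) (⋃ k, I k ∩ A), hI]
      _ = b.M (I k) * R := by rw [hleft]
  · calc R * b.M (⋃ k, I k) = R * b.M (⋃ k, I k ∩ A) * b.M (⋃ k, I k) := by rw [h2]
      _ = R * b.M (⋃ k, I k ∩ A) := by rw [mul_assoc, b.M_mul_of_subset hU]
      _ = R := h2

end Pool.Agent.UBS
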