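import Mathlib
import Pool.Agent.UBS.Base

/-!
# UBS / ROP: sums of rank one operators on disjoint blocks

`exists_ropB`: `∑ k, ‖f (M (I k) x) • w k‖ ≤ C ∑ k, ‖f (M (I k) x)‖ ≤ C K ‖f‖ ‖x‖` by
`UB.sum_blocks`; so the sum converges absolutely; define `T x` as the `tsum`, linear, bounded
(`LinearMap.mkContinuous`).

`exists_ropA`: `‖g k (M (I k) x)‖ ≤ ‖M (I k) x‖ ≤ K ‖x‖`; the sum is dominated by
`K ‖x‖ ‖w k‖`.
-/

set_option autoImplicit false

open Filter Topology Function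

namespace Pool.Agent.UBS

variable {𝕜 : Type*} [RCLike 𝕜] {U : Type*} [NormedAddCommGroup U] [NormedSpace 𝕜 U]
  [CompleteSpace U] {ι : Type*}

/-- General principle: a sum of rank one operators with bounded absolute sums. -/
private theorem rop_gen (h : ℕ → U →L[𝕜] 𝕜) (w : ℕ → U) {D : ℝ}
    (hD : ∀ (x : U) (s : Finset ℕ), ∑ k ∈ s, ‖h k x • w k‖ ≤ D * ‖x‖) :
    ∃ T : U →L[𝕜] U, (∀ x, HasSum (fun k => h k x • w k) (T x)) ∧ ∀ x, ‖T x‖ ≤ D * ‖x‖ := by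
  have hsn : ∀ x, Summable fun k => ‖h k x • w k‖ := fun x =>
    summable_of_sum_le (fun k => norm_nonneg _) (hD x)
  have hs : ∀ x, HasSum (fun k => h k x • w k) (∑' k, h k x • w k) := fun x =>
    (hsn x).of_norm.hasSum
  have hb : ∀ x, ‖∑' k, h k x • w k‖ ≤ D * ‖x‖ := fun x =>
    (norm_tsum_le_tsum_norm (hsn x)).trans
      (Real.tsum_le_of_sum_le (fun k => norm_nonneg _) (hD x))
  refine ⟨LinearMap.mkContinuous
    { toFun := fun x => ∑' k, h k x • w k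
      map_add' := fun x y => ?_
      map_smul' := fun r x => ?_ } D hb, fun x => hs x, hb⟩
  · refine HasSum.tsum_eq ?_
    have := (hs x).add (hs y)
    simpa only [map_add, add_smul] using this
  · refine HasSum.tsum_eq ?_
    have h1 := (hs x).const_smul r
    rw [RingHom.id_apply]
    simpa only [map_smul, smul_smul, smul_eq_mul] using h1

theorem exists_ropB (b : UB 𝕜 ι U) (I : ℕ → Set ι) (hd : Pairwise (Disjoint on I))
    (f : U →L[𝕜] 𝕜) (w : ℕ → U) {C : ℝ} (hC : ∀ k, ‖w k‖ ≤ C) :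
    ∃ T : U →L[𝕜] U, (∀ x, HasSum (fun k => f (b.M (I k) x) • w k) (T x)) ∧
      ∀ x, ‖T x‖ ≤ b.K * ‖f‖ * C * ‖x‖ := by
  have hC0 : 0 ≤ C := (norm_nonneg _).trans (hC 0)
  refine rop_gen (fun k => f.comp (b.M (I k))) w fun x s => ?_
  calc ∑ k ∈ s, ‖(f.comp (b.M (I k))) x • w k‖ ≤ ∑ k ∈ s, C * ‖f (b.M (I k) x)‖ := by
        refine Finset.sum_le_sum fun k _ => ?_
        rw [norm_smul, ContinuousLinearMap.comp_apply, mul_comm]
        exact mul_le_mul_of_nonneg_right (hC k) (norm_nonneg _)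
    _ = C * ∑ k ∈ s, ‖f (b.M (I k) x)‖ := by rw [Finset.mul_sum]
    _ ≤ C * (b.K * ‖f‖ * ‖x‖) := mul_le_mul_of_nonneg_left (b.sum_blocks I hd f x s) hC0
    _ = b.K * ‖f‖ * C * ‖x‖ := by ring

theorem exists_ropA (b : UB 𝕜 ι U) (I : ℕ → Set ι) (g : ℕ → U →L[𝕜] 𝕜) (hg : ∀ k, ‖g k‖ ≤ 1)
    (w : ℕ → U) (hw : Summable fun k => ‖w k‖) :
    ∃ T : U →L[𝕜] U, (∀ x, HasSum (fun k => g k (b.M (I k) x) • w k) (T x)) ∧
      ∀ x, ‖T x‖ ≤ b.K * (∑' k, ‖w k‖) * ‖x‖ := by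
  have hK := b.K_pos
  refine rop_gen (fun k => (g k).comp (b.M (I k))) w fun x s => ?_
  calc ∑ k ∈ s, ‖((g k).comp (b.M (I k))) x • w k‖ ≤ ∑ k ∈ s, (b.K * ‖x‖) * ‖w k‖ := by
        refine Finset.sum_le_sum fun k _ => ?_
        rw [norm_smul, ContinuousLinearMap.comp_apply]
        refine mul_le_mul_of_nonneg_right ?_ (norm_nonneg _)
        calc ‖g k (b.M (I k) x)‖ ≤ ‖g k‖ * ‖b.M (I k) x‖ := (g k).le_opNorm _
          _ ≤ 1 * (b.K * ‖x‖) := mul_le_mul (hg k) (b.norm_M_apply_le _ _) (norm_nonneg _)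
              zero_le_one
          _ = b.K * ‖x‖ := one_mul _
    _ = (b.K * ‖x‖) * ∑ k ∈ s, ‖w k‖ := by rw [Finset.mul_sum]
    _ ≤ (b.K * ‖x‖) * ∑' k, ‖w k‖ := by
        refine mul_le_mul_of_nonneg_left ?_ (by positivity)
        exact hw.sum_le_tsum s fun k _ => norm_nonneg _
    _ = b.K * (∑' k, ‖w k‖) * ‖x‖ := by ring

end Pool.Agent.UBS
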