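import Mathlib

/-!
# UBS / EXT: extraction of a subsequence with conditions on pairs

Proof: for every `j` and every `f : ℕ → ℕ` there is `k` with `f i < k` for all `i < j`,
`Pr i j (f i) k` for all `i < j` and `Qr j k` (finitely many eventual conditions).  Choose
`next j f`.  Define `g 0 = 0`, `g (j + 1) = Function.update (g j) j (next j (g j))` and
`φ j = g (j + 1) j`; then `g j i = φ i` for `i < j`.
-/

set_option autoImplicit false

open Filter Topology Function

namespace Pool.Agent.UBS

theorem exists_extract (Pr : ℕ → ℕ → ℕ → ℕ → Prop) (Qr : ℕ → ℕ → Prop)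
    (h : ∀ i j l, ∀ᶠ k in atTop, Pr i j l k) (h2 : ∀ j, ∀ᶠ k in atTop, Qr j k) :
    ∃ φ : ℕ → ℕ, StrictMono φ ∧ (∀ i j, i < j → Pr i j (φ i) (φ j)) ∧ ∀ j, Qr j (φ j) := by
  have hex : ∀ (j : ℕ) (f : ℕ → ℕ), ∃ k, (∀ i, i < j → f i < k ∧ Pr i j (f i) k) ∧ Qr j k := by
    intro j f
    have h1 : ∀ᶠ k in atTop, ∀ i ∈ Finset.range j, f i < k ∧ Pr i j (f i) k := by
      rw [Filter.eventually_all_finset]
      intro i _
      exact (eventually_gt_atTop (f i)).and (h i j (f i))
    obtain ⟨k, hk⟩ := (h1.and (h2 j)).exists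
    exact ⟨k, fun i hi => hk.1 i (Finset.mem_range.2 hi), hk.2⟩
  choose nxt hn1 hn2 using hex
  let g : ℕ → ℕ → ℕ := fun j => Nat.rec (fun _ => 0) (fun j f => Function.update f j (nxt j f)) j
  have hg : ∀ j, g (j + 1) = Function.update (g j) j (nxt j (g j)) := fun j => rfl
  let φ : ℕ → ℕ := fun j => nxt j (g j)
  have hφ : ∀ j i, i < j → g j i = φ i := by
    intro j
    induction j with
    | zero => intro i hi; omega
    | succ j ih =>
      intro i hi
      rw [hg]
      by_cases hij : i = j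
      · subst hij
        simp [φ]
      · rw [Function.update_of_ne hij]
        exact ih i (by omega)
  refine ⟨φ, ?_, ?_, ?_⟩
  · refine strictMono_nat_of_lt_succ (fun n => ?_)
    have h3 := (hn1 (n + 1) (g (n + 1)) n (Nat.lt_succ_self n)).1
    rw [hφ (n + 1) n (Nat.lt_succ_self n)] at h3
    exact h3
  · intro i j hij
    have h3 := (hn1 j (g j) i hij).2
    rw [hφ j i hij] at h3
    exact h3
  · intro j
    exact hn2 j (g j)

end Pool.Agent.UBS
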