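import Mathlib
import Pool.Agent.UBS.Base
import Pool.Agent.UBS.EXT

/-!
# UBS / SEL: limits used for the selection of subsequences of blocks

`tendsto_lower`: given `ε`, `UB.tail_op` gives a finite `F` with `‖M A * T * M (I l)‖ ≤ ε` for `A`
disjoint from `F`; only finitely many of the disjoint sets `I k` meet the finite set `F`.
`tendsto_head`: `M F y = ∑ i ∈ F, c i y • e i` (`UB.M_fin`).
`eventually_disjoint`: only finitely many of the disjoint sets `I k` meet the finite set `F`.
`infdim_of_blocks`: the `v k` are linearly independent: apply `M (I j)` to a relation.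
`kc_false`: the `v k` lie in the kernel of `1 - α P β (1 - P) γ`.
-/

set_option autoImplicit false

open Filter Topology Function

namespace Pool.Agent.UBS

variable {𝕜 : Type*} [RCLike 𝕜] {U : Type*} [NormedAddCommGroup U] [NormedSpace 𝕜 U]
  [CompleteSpace U] {ι : Type*}

theorem eventually_disjoint (I : ℕ → Set ι) (hd : Pairwise (Disjoint on I)) {F : Set ι}
    (hF : F.Finite) : ∀ᶠ k in atTop, Disjoint (I k) F := by
  have h1 : ∀ i ∈ F, ∀ᶠ k in atTop, i ∉ I k := by
    intro i _
    by_cases h : ∃ k, i ∈ I k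
    · obtain ⟨k, hk⟩ := h
      filter_upwards [eventually_gt_atTop k] with l hl hi
      exact Set.disjoint_left.1 (hd hl.ne) hk hi
    · push Not at h
      exact Eventually.of_forall h
  have h2 := (Filter.eventually_all_finite hF).2 h1
  filter_upwards [h2] with k hk
  exact Set.disjoint_left.2 fun i hi hiF => hk i hiF hi

theorem tendsto_lower (b : UB 𝕜 ι U) (T : U →L[𝕜] U) (I : ℕ → Set ι)
    (hfin : ∀ k, (I k).Finite) (hd : Pairwise (Disjoint on I)) (l : ℕ) :
    Tendsto (fun k => ‖b.M (I k) * T * b.M (I l)‖) atTop (𝓝 0) := by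
  rw [Metric.tendsto_atTop']
  intro ε hε
  obtain ⟨F, hF, h⟩ := b.tail_op T (hfin l) (half_pos hε)
  obtain ⟨N, hN⟩ := eventually_atTop.1 (eventually_disjoint I hd hF)
  refine ⟨N, fun k hk => ?_⟩
  have h1 := h _ (hN k hk.le)
  rw [dist_zero_right, norm_norm]
  linarith

theorem tendsto_head (b : UB 𝕜 ι U) {F : Set ι} (hF : F.Finite) (y : ℕ → U)
    (h : ∀ i, Tendsto (fun k => b.c i (y k)) atTop (𝓝 0)) :
    Tendsto (fun k => ‖b.M F (y k)‖) atTop (𝓝 0) := by
  obtain ⟨s, rfl⟩ := hF.exists_finset_coe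
  have h1 : Tendsto (fun k => ∑ i ∈ s, b.c i (y k) • b.e i) atTop (𝓝 (∑ i ∈ s, (0 : 𝕜) • b.e i)) :=
    tendsto_finsetSum _ fun i _ => (h i).smul_const _
  simp only [zero_smul, Finset.sum_const_zero] at h1
  have h2 := h1.norm
  rw [norm_zero] at h2
  simpa only [b.M_fin] using h2

theorem infdim_of_blocks (b : UB 𝕜 ι U) (I : ℕ → Set ι) (hd : Pairwise (Disjoint on I))
    (W : Submodule 𝕜 U) (v : ℕ → U) (hv : ∀ k, b.M (I k) (v k) = v k) (h0 : ∀ k, v k ≠ 0)
    (hW : ∀ k, v k ∈ W) : ¬ FiniteDimensional 𝕜 W := by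
  intro hfd
  have hli : LinearIndependent 𝕜 v := by
    rw [linearIndependent_iff']
    intro s g hg j hj
    have h1 := congrArg (b.M (I j)) hg
    rw [map_sum, map_zero, Finset.sum_eq_single j] at h1
    · rw [map_smul, hv] at h1
      exact (smul_eq_zero.1 h1).resolve_right (h0 j)
    · intro k _ hk
      rw [map_smul, b.M_fix_disj (hd hk.symm) (hv k), smul_zero]
    · intro h; exact absurd hj h
  let w : ℕ → W := fun k => ⟨v k, hW k⟩
  have hw : LinearIndependent 𝕜 w := by
    apply LinearIndependent.of_comp W.subtype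
    exact hli
  exact not_finite_iff_infinite.2 (inferInstance : Infinite ℕ) hw.finite

theorem kc_false (b : UB 𝕜 ι U) {P : U →L[𝕜] U} (hK : Kc P) (I : ℕ → Set ι)
    (hd : Pairwise (Disjoint on I)) (v : ℕ → U) (hv : ∀ k, b.M (I k) (v k) = v k)
    (h0 : ∀ k, v k ≠ 0) (α β γ : U →L[𝕜] U)
    (h : ∀ k, α (P (β ((1 - P) (γ (v k))))) = v k) : False := by
  refine infdim_of_blocks b I hd _ v hv h0 (fun k => ?_) (hK α β γ)
  rw [LinearMap.mem_ker]
  have h3 : v k - α (P (β ((1 - P) (γ (v k))))) = 0 := by rw [h, sub_self]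
  exact h3

end Pool.Agent.UBS
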