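import Mathlib
import Pool.Agent.UBS.Base
import Pool.Agent.UBS.ROP
import Pool.Agent.UBS.BDL
import Pool.Agent.UBS.SEL
import Pool.Agent.UBS.CTM

/-!
# UBS / GA: Lemma G when the heads vanish

Notation: `M k = b.M (I k)`, `Q = 1 - P`, `v' k = S (M k (Q (v k)))` (so `M k (v' k) = v' k`,
`‖v' k‖ ≤ C`).  `h1`, `h2`: all coordinates of `P (v k)` and of `P (v' k)` tend to `0`; so by
`tendsto_head` `‖M l (P (v k))‖ → 0` and `‖M l (P (v' k))‖ → 0` as `k → ∞` for every `l`.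

1. `exists_extract`: a subsequence `φ` with, for `l < k`, `‖M k P M l‖`, `‖M l (P (v k))‖`,
   `‖M l (P (v' k))‖ ≤ δ (1/2)^(k+l)` and `‖R M k P S M k Q v k - v k‖ ≤ δ (1/2)^k` (all for the
   sets `I (φ k)`).  Put `Z = ⋃ k, I (φ k)`, `R' = R * M Z`, `S' = S * M Z` (`BD.sub_seq`).
2. `M Z (Q (v k)) = ∑ l, M l (Q (v k))` (`UB.hasSum_blocks`); `l = k` main term; for `l < k`
   `M l (Q (v k)) = - M l (P (v k))` (as `M l (v k) = 0`), small; for `l > k`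
   `‖M l Q M k‖ = ‖M l P M k‖` small.  So `‖S' (Q (v k)) - v' k‖ ≤ C₁ δ (1/2)^k`.
   In the same way `‖M Z (P (v' k)) - M k (P (v' k))‖ ≤ C₂ δ (1/2)^k`.  Hence
   `e k := v k - R' (P (S' (Q (v k))))` satisfies `‖e k‖ ≤ C₃ δ (1/2)^k`.
3. `g k` a functional of norm `≤ 1` with `g k (v k) = 1` (Hahn-Banach, `exists_dual_vector`),
   `N x = ∑ k, g k (M k x) • e k` (`exists_ropA`), `‖N‖ ≤ K ∑ ‖e k‖ ≤ 1/2` for `δ` small,
   `N (v k) = e k`.  `α = (1 - N)⁻¹ R'`, `β = S'`, `γ = 1` in `kc_false`.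
-/

set_option autoImplicit false

open Filter Topology Function

namespace Pool.Agent.UBS

variable {𝕜 : Type*} [RCLike 𝕜] {U : Type*} [NormedAddCommGroup U] [NormedSpace 𝕜 U]
  [CompleteSpace U] {ι : Type*}

theorem GA_tail (b : UB 𝕜 ι U) (J : ℕ → Set ι) (hd : Pairwise (Disjoint on J)) (y : U) (k : ℕ)
    {D : ℝ} (h : ∀ l, l ≠ k → ‖b.M (J l) y‖ ≤ D * (1 / 2) ^ l) (hD : 0 ≤ D) :
    ‖b.M (⋃ l, J l) y - b.M (J k) y‖ ≤ 2 * D := by
  classical
  have h1 := b.hasSum_blocks J hd y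
  have h2 : HasSum (fun l => if l = k then b.M (J k) y else 0) (b.M (J k) y) :=
    hasSum_ite_eq k _
  have h3 := h1.sub h2
  have hg : HasSum (fun l : ℕ => D * (1 / 2 : ℝ) ^ l) (D * 2) := hasSum_geometric_two.mul_left D
  have h4 : ∀ l, ‖b.M (J l) y - (if l = k then b.M (J k) y else 0)‖ ≤ D * (1 / 2) ^ l := by
    intro l
    split_ifs with hl
    · subst hl
      rw [sub_self, norm_zero]
      positivity
    · rw [sub_zero]
      exact h l hl
  have h5 := tsum_of_norm_bounded hg h4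
  rw [h3.tsum_eq] at h5
  linarith

theorem lemG_A (b : UB 𝕜 ι U) {P : U →L[𝕜] U} (hP : P * P = P) (hK : Kc P) (I : ℕ → Set ι)
    (hfin : ∀ k, (I k).Finite) (hd : Pairwise (Disjoint on I)) (R S : U →L[𝕜] U)
    (hR : BD b I R) (hS : BD b I S) (v : ℕ → U) (hv : ∀ k, b.M (I k) (v k) = v k)
    (hn : ∀ k, ‖v k‖ = 1)
    (hlim : Tendsto (fun k => ‖R (b.M (I k) (P (S (b.M (I k) ((1 - P) (v k)))))) - v k‖)
      atTop (𝓝 0))
    (h1 : ∀ i, Tendsto (fun k => b.c i (P (v k))) atTop (𝓝 0))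
    (h2 : ∀ i, Tendsto (fun k => b.c i (P (S (b.M (I k) ((1 - P) (v k)))))) atTop (𝓝 0)) :
    False := by
  have hKp := b.K_pos
  set Q : U →L[𝕜] U := 1 - P with hQ
  set v' : ℕ → U := fun k => S (b.M (I k) (Q (v k))) with hv'
  have hv'f : ∀ k, b.M (I k) (v' k) = v' k := fun k =>
    hS.fix (by rw [b.M_M, Set.inter_self])
  obtain ⟨CU, hCU⟩ : ∃ CU : ℝ, CU = ‖S‖ * (b.K * ‖Q‖) := ⟨_, rfl⟩
  have hCU0 : 0 ≤ CU := by rw [hCU]; positivity
  have hv'n : ∀ k, ‖v' k‖ ≤ CU := by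
    intro k
    calc ‖v' k‖ ≤ ‖S‖ * ‖b.M (I k) (Q (v k))‖ := S.le_opNorm _
      _ ≤ ‖S‖ * (b.K * (‖Q‖ * ‖v k‖)) := by
          gcongr
          exact (b.norm_M_apply_le _ _).trans (by gcongr; exact Q.le_opNorm _)
      _ = CU := by rw [hn, hCU]; ring
  obtain ⟨C3, hC3⟩ : ∃ C3 : ℝ, C3 = 1 + 2 * ‖R‖ * (1 + CU) + 2 * ‖R‖ * b.K * ‖P‖ * ‖S‖ := ⟨_, rfl⟩
  have hC3p : 0 < C3 := by rw [hC3]; positivity
  obtain ⟨δ, hδ⟩ : ∃ δ : ℝ, δ = 1 / (4 * b.K * C3) := ⟨_, rfl⟩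
  have hδp : 0 < δ := by rw [hδ]; positivity
  -- extraction
  obtain ⟨φ, hφ, hφ1, hφ2⟩ := exists_extract
    (fun i j l k => ‖b.M (I k) * P * b.M (I l)‖ ≤ δ * (1 / 2) ^ (i + j) ∧
      ‖b.M (I l) (P (v k))‖ ≤ δ * (1 / 2) ^ (i + j) ∧
      ‖b.M (I l) (P (v' k))‖ ≤ δ * (1 / 2) ^ (i + j))
    (fun j k => ‖R (b.M (I k) (P (v' k))) - v k‖ ≤ δ * (1 / 2) ^ j)
    (by
      intro i j l
      have hp : (0 : ℝ) < δ * (1 / 2) ^ (i + j) := by positivity
      have e1 := (tendsto_lower b P I hfin hd l).eventually (Iic_mem_nhds hp)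
      have e2 := (tendsto_head b (hfin l) (fun k => P (v k)) h1).eventually (Iic_mem_nhds hp)
      have e3 := (tendsto_head b (hfin l) (fun k => P (v' k)) h2).eventually (Iic_mem_nhds hp)
      filter_upwards [e1, e2, e3] with k h1 h2 h3
      exact ⟨h1, h2, h3⟩)
    (by
      intro j
      have hp : (0 : ℝ) < δ * (1 / 2) ^ j := by positivity
      exact hlim.eventually (Iic_mem_nhds hp))
  set J : ℕ → Set ι := fun k => I (φ k) with hJ
  have hdJ : Pairwise (Disjoint on J) := fun i j hij => hd (hφ.injective.ne hij)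
  obtain ⟨hR', hR'f⟩ := hR.sub_seq φ
  obtain ⟨hS', hS'f⟩ := hS.sub_seq φ
  have hu0 : ∀ k, v (φ k) ≠ 0 := fun k h => by
    have := hn (φ k)
    rw [h, norm_zero] at this
    exact zero_ne_one this
  have huJ : ∀ k, b.M (J k) (v (φ k)) = v (φ k) := fun k => hv (φ k)
  have hul : ∀ k l, l ≠ k → b.M (J l) (v (φ k)) = 0 := fun k l hl =>
    b.M_fix_disj (hdJ hl) (huJ k)
  -- first estimate
  have est1 : ∀ k, ‖b.M (⋃ l, J l) (Q (v (φ k))) - b.M (J k) (Q (v (φ k)))‖ ≤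
      2 * (δ * (1 / 2) ^ k) := by
    intro k
    refine GA_tail b J hdJ _ k (fun l hl => ?_) (by positivity)
    have e1 : b.M (J l) (Q (v (φ k))) = - b.M (J l) (P (v (φ k))) := by
      rw [hQ, sub_apply, one_apply_eq_self, map_sub, hul k l hl, zero_sub]
    rw [e1, norm_neg]
    rcases lt_or_gt_of_ne hl with h | h
    · refine (hφ1 l k h).2.1.trans (le_of_eq ?_)
      rw [pow_add]; ring
    · have e2 : b.M (J l) (P (v (φ k))) = (b.M (J l) * P * b.M (J k)) (v (φ k)) := by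
        rw [mul_apply_eq_comp, mul_apply_eq_comp, huJ]
      rw [e2]
      refine (ContinuousLinearMap.le_opNorm _ _).trans ?_
      rw [hn, mul_one]
      refine (hφ1 k l h).1.trans (le_of_eq ?_)
      rw [pow_add]; ring
  have est2 : ∀ k, ‖b.M (⋃ l, J l) (P (v' (φ k))) - b.M (J k) (P (v' (φ k)))‖ ≤
      2 * (δ * (1 / 2) ^ k * (1 + CU)) := by
    intro k
    refine GA_tail b J hdJ _ k (fun l hl => ?_) (by positivity)
    rcases lt_or_gt_of_ne hl with h | h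
    · refine (hφ1 l k h).2.2.trans ?_
      rw [pow_add]
      have : 0 ≤ δ * ((1 / 2 : ℝ) ^ l * (1 / 2) ^ k) * CU := by positivity
      nlinarith
    · have e2 : b.M (J l) (P (v' (φ k))) = (b.M (J l) * P * b.M (J k)) (v' (φ k)) := by
        rw [mul_apply_eq_comp, mul_apply_eq_comp]
        rw [show b.M (J k) (v' (φ k)) = v' (φ k) from hv'f (φ k)]
      rw [e2]
      refine (ContinuousLinearMap.le_opNorm _ _).trans ?_
      have h3 := (hφ1 k l h).1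
      have h4 := hv'n (φ k)
      calc ‖b.M (J l) * P * b.M (J k)‖ * ‖v' (φ k)‖ ≤ δ * (1 / 2) ^ (k + l) * (1 + CU) := by
            gcongr
            linarith
        _ = δ * (1 / 2) ^ k * (1 + CU) * (1 / 2) ^ l := by rw [pow_add]; ring
  -- the error vectors
  set R' : U →L[𝕜] U := R * b.M (⋃ k, I (φ k)) with hRd
  set S' : U →L[𝕜] U := S * b.M (⋃ k, I (φ k)) with hSd
  have herr : ∀ k, ‖v (φ k) - R' (P (S' (Q (v (φ k)))))‖ ≤ C3 * δ * (1 / 2) ^ k := by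
    intro k
    have a1 : ‖S' (Q (v (φ k))) - v' (φ k)‖ ≤ ‖S‖ * (2 * (δ * (1 / 2) ^ k)) := by
      have : S' (Q (v (φ k))) - v' (φ k) =
          S (b.M (⋃ l, J l) (Q (v (φ k))) - b.M (J k) (Q (v (φ k)))) := by
        rw [map_sub]; rfl
      rw [this]
      exact (S.le_opNorm _).trans (by gcongr; exact est1 k)
    have a2 : ‖R' (P (S' (Q (v (φ k))))) - R' (P (v' (φ k)))‖ ≤
        ‖R‖ * (b.K * (‖P‖ * (‖S‖ * (2 * (δ * (1 / 2) ^ k))))) := by
      rw [← map_sub, ← map_sub]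
      have : R' (P (S' (Q (v (φ k))) - v' (φ k))) =
          R (b.M (⋃ l, J l) (P (S' (Q (v (φ k))) - v' (φ k)))) := rfl
      rw [this]
      refine (R.le_opNorm _).trans ?_
      gcongr
      refine (b.norm_M_apply_le _ _).trans ?_
      gcongr
      exact (P.le_opNorm _).trans (by gcongr)
    have a3 : ‖R' (P (v' (φ k))) - R (b.M (J k) (P (v' (φ k))))‖ ≤
        ‖R‖ * (2 * (δ * (1 / 2) ^ k * (1 + CU))) := by
      have : R' (P (v' (φ k))) - R (b.M (J k) (P (v' (φ k)))) =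
          R (b.M (⋃ l, J l) (P (v' (φ k))) - b.M (J k) (P (v' (φ k)))) := by
        rw [map_sub]; rfl
      rw [this]
      exact (R.le_opNorm _).trans (by gcongr; exact est2 k)
    have a4 := hφ2 k
    have a5 : v (φ k) - R' (P (S' (Q (v (φ k))))) =
        -(R (b.M (J k) (P (v' (φ k)))) - v (φ k)) - (R' (P (v' (φ k))) -
          R (b.M (J k) (P (v' (φ k))))) - (R' (P (S' (Q (v (φ k))))) - R' (P (v' (φ k)))) := by
      abel
    rw [a5]
    refine (norm_sub_le _ _).trans ?_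
    have a6 := norm_sub_le (-(R (b.M (J k) (P (v' (φ k)))) - v (φ k)))
      (R' (P (v' (φ k))) - R (b.M (J k) (P (v' (φ k)))))
    rw [norm_neg] at a6
    have a7 : ‖R (b.M (J k) (P (v' (φ k)))) - v (φ k)‖ ≤ δ * (1 / 2) ^ k := a4
    calc _ ≤ δ * (1 / 2) ^ k + ‖R‖ * (2 * (δ * (1 / 2) ^ k * (1 + CU))) +
          ‖R‖ * (b.K * (‖P‖ * (‖S‖ * (2 * (δ * (1 / 2) ^ k))))) := by linarith
      _ = C3 * δ * (1 / 2) ^ k := by rw [hC3]; ring
  have hgeo : HasSum (fun k : ℕ => C3 * δ * (1 / 2 : ℝ) ^ k) (C3 * δ * 2) :=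
    hasSum_geometric_two.mul_left _
  have hsum : Summable fun k => ‖v (φ k) - R' (P (S' (Q (v (φ k)))))‖ :=
    Summable.of_nonneg_of_le (fun k => norm_nonneg _) herr hgeo.summable
  have hsumle : ∑' k, ‖v (φ k) - R' (P (S' (Q (v (φ k)))))‖ ≤ C3 * δ * 2 := by
    rw [← hgeo.tsum_eq]
    exact hsum.tsum_le_tsum herr hgeo.summable
  have hg : ∀ k, ∃ g : U →L[𝕜] 𝕜, ‖g‖ ≤ 1 ∧ g (v (φ k)) = 1 := by
    intro k
    obtain ⟨g, hg1, hg2⟩ := exists_dual_vector 𝕜 (v (φ k)) (by rw [hn]; exact one_ne_zero)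
    refine ⟨g, hg1.le, ?_⟩
    rw [hg2, hn]
    simp
  choose g hg1 hg2 using hg
  obtain ⟨N, hN1, hN2⟩ := exists_ropA b J g hg1 (fun k => v (φ k) - R' (P (S' (Q (v (φ k))))))
    hsum
  have hNv : ∀ k, N (v (φ k)) = v (φ k) - R' (P (S' (Q (v (φ k))))) := by
    intro k
    have h3 := hN1 (v (φ k))
    have h4 : HasSum (fun l => g l (b.M (J l) (v (φ k))) •
        (v (φ l) - R' (P (S' (Q (v (φ l))))))) (g k (b.M (J k) (v (φ k))) •
        (v (φ k) - R' (P (S' (Q (v (φ k))))))) :=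
      hasSum_single k fun l hl => by rw [hul k l hl, map_zero, zero_smul]
    rw [h3.unique h4, huJ, hg2, one_smul]
  have hNn : ‖N‖ < 1 := by
    have h5 : ‖N‖ ≤ 1 / 2 := by
      refine ContinuousLinearMap.opNorm_le_bound _ (by norm_num) fun x => ?_
      refine (hN2 x).trans ?_
      gcongr
      calc b.K * ∑' k, ‖v (φ k) - R' (P (S' (Q (v (φ k)))))‖ ≤ b.K * (C3 * δ * 2) := by gcongr
        _ = 1 / 2 := by rw [hδ]; field_simp; ring
    linarith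
  obtain ⟨w, hw⟩ := isUnit_one_sub_of_norm_lt_one hNn
  refine kc_false b hK J hdJ (fun k => v (φ k)) huJ hu0 ((w⁻¹ : (U →L[𝕜] U)ˣ) * R') S' 1
    fun k => ?_
  have h6 : R' (P (S' (Q (v (φ k))))) = (w : U →L[𝕜] U) (v (φ k)) := by
    have h7 : (1 - N : U →L[𝕜] U) (v (φ k)) = v (φ k) - N (v (φ k)) := rfl
    rw [hw, h7, hNv]
    abel
  rw [mul_apply_eq_comp, one_apply_eq_self]
  show (w⁻¹ : (U →L[𝕜] U)ˣ).val (R' (P (S' (Q (v (φ k)))))) = v (φ k)
  rw [h6, ← mul_apply_eq_comp, w.inv_mul, one_apply_eq_self]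

end Pool.Agent.UBS
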