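import Mathlib

/-!
# UBS / ROS: Rosenthal's lemma

Proof.  By induction on `n` with `C ≤ n * ε`: for every infinite set (given as a strictly
monotone sequence; pass to `a (ψ k) (ψ j)`) with all OFF DIAGONAL sums
`∑ j ∈ s, a k j ≤ C`, `k ∉ s`, there is `φ`.  If `C ≤ ε` take `φ = id`.  Otherwise split `ℕ` into
infinitely many infinite sets `A i` (`A i = {k | (Nat.unpair k).1 = i}`).  If for some `i` the
enumeration of `A i` works, done.  If not, for each `i` there are `k i ∈ A i` and a finite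
`s i ⊆ A i \ {k i}` with `∑ j ∈ s i, a (k i) j > ε`.  The points `k i` are distinct; pass to a
strictly monotone enumeration `ψ` of `{k i}`.  For finite `t ⊆ range k`, `k i ∉ t`, the sets
`t` and `s i` are disjoint (`t ∩ A i ⊆ {k i}`), so `∑ j ∈ t, a (k i) j ≤ C - ε`; apply the
induction hypothesis to `a (ψ k) (ψ j)`.
-/

set_option autoImplicit false

open Filter Topology Function

namespace Pool.Agent.UBS

private theorem ros_aux51 {ε : ℝ} (hε : 0 < ε) (n : ℕ) : ∀ a : ℕ → ℕ → ℝ, (∀ k j, 0 ≤ a k j) →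
    (∀ k (s : Finset ℕ), k ∉ s → ∑ j ∈ s, a k j ≤ n * ε) →
    ∃ φ : ℕ → ℕ, StrictMono φ ∧ ∀ k (s : Finset ℕ), k ∉ s → ∑ j ∈ s, a (φ k) (φ j) ≤ ε := by
  induction n with
  | zero =>
    intro a _ h
    refine ⟨id, strictMono_id, fun k s hk => ?_⟩
    have := h k s hk
    simp only [Nat.cast_zero, zero_mul] at this
    simpa using this.trans hε.le
  | succ n ih =>
    intro a ha h
    by_cases hc : ∃ i, ∀ k (s : Finset ℕ), k ∉ s →
        ∑ j ∈ s, a (Nat.pair i k) (Nat.pair i j) ≤ ε
    · obtain ⟨i, hi⟩ := hc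
      exact ⟨Nat.pair i, fun x y hxy => Nat.pair_lt_pair_right i hxy, hi⟩
    · push Not at hc
      choose kk ss hks hlt using hc
      have hpinj : Function.Injective (fun i => Nat.pair i (kk i)) := by
        intro i j hij
        have := (Nat.pair_eq_pair.1 hij).1
        exact this
      obtain ⟨θ, hθ, hpθ⟩ := Filter.strictMono_subseq_of_tendsto_atTop
        hpinj.nat_tendsto_atTop
      set ψ : ℕ → ℕ := (fun i => Nat.pair i (kk i)) ∘ θ with hψ
      obtain ⟨φ, hφ, hφ2⟩ := ih (fun k j => a (ψ k) (ψ j)) (fun k j => ha _ _) (by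
        intro k s hk
        have h1 : Disjoint (s.image ψ) ((ss (θ k)).image (Nat.pair (θ k))) := by
          rw [Finset.disjoint_left]
          intro x hx hx2
          obtain ⟨j, hj, rfl⟩ := Finset.mem_image.1 hx
          obtain ⟨l, hl, hl2⟩ := Finset.mem_image.1 hx2
          have h3 : θ k = θ j := (Nat.pair_eq_pair.1 hl2).1
          rw [← hθ.injective h3] at hj
          exact hk hj
        have h2 : ψ k ∉ s.image ψ ∪ (ss (θ k)).image (Nat.pair (θ k)) := by
          intro hx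
          rcases Finset.mem_union.1 hx with hx | hx
          · obtain ⟨j, hj, hj2⟩ := Finset.mem_image.1 hx
            rw [hpθ.injective hj2] at hj
            exact hk hj
          · obtain ⟨l, hl, hl2⟩ := Finset.mem_image.1 hx
            have h3 : l = kk (θ k) := (Nat.pair_eq_pair.1 hl2).2
            rw [h3] at hl
            exact hks _ hl
        have h4 := h (ψ k) _ h2
        rw [Finset.sum_union h1, Finset.sum_image (fun x _ y _ hxy => hpθ.injective hxy),
          Finset.sum_image (fun x _ y _ hxy => (Nat.pair_eq_pair.1 hxy).2)] at h4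
        have h5 := hlt (θ k)
        have h6 : ∑ j ∈ ss (θ k), a (Nat.pair (θ k) (kk (θ k))) (Nat.pair (θ k) j) =
          ∑ x ∈ ss (θ k), a (ψ k) (Nat.pair (θ k) x) := rfl
        rw [h6] at h5
        push_cast at h4
        show ∑ j ∈ s, a (ψ k) (ψ j) ≤ n * ε
        linarith)
      refine ⟨ψ ∘ φ, hpθ.comp hφ, fun k s hk => hφ2 k s hk⟩

theorem rosenthal (a : ℕ → ℕ → ℝ) (ha : ∀ k j, 0 ≤ a k j) (C : ℝ)
    (hC : ∀ k (s : Finset ℕ), ∑ j ∈ s, a k j ≤ C) {ε : ℝ} (hε : 0 < ε) :
    ∃ φ : ℕ → ℕ, StrictMono φ ∧ ∀ k (s : Finset ℕ), k ∉ s → ∑ j ∈ s, a (φ k) (φ j) ≤ ε := by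
  obtain ⟨n, hn⟩ := exists_nat_ge (C / ε)
  have hn2 : C ≤ n * ε := by
    rw [div_le_iff₀ hε] at hn
    exact hn
  exact ros_aux51 hε n a ha (fun k s _ => (hC k s).trans hn2)

end Pool.Agent.UBS
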