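import Mathlib
import Pool.Agent.UBS.Base
import Pool.Agent.UBS.ROS
import Pool.Agent.UBS.ROP
import Pool.Agent.UBS.BDL
import Pool.Agent.UBS.SEL
import Pool.Agent.UBS.CTM

/-!
# UBS / GB: the `ℓ₁` case of Lemma G

Notation: `M k = b.M (I k)`, `Q = 1 - P`.  `f` is a functional with `‖f (v k)‖ ≥ η` for all `k`.

0. Fix `τ > 0` small: `K ‖f‖ τ / η ^ 2 ≤ 1/2`.  By `exists_extract` (with `tendsto_lower` for `P`,
   and `hlim`) pass to a subsequence with `‖M k * P * M l‖ ≤ δ (1/2) ^ (k + l)` for `l < k` and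
   `‖R M k P S M k Q v k - v k‖ ≤ δ` (replace `R`, `S` by `BD.sub_seq`), with `δ` tiny.  Note
   `M k Q M l = - M k P M l` for `k ≠ l` (`M k M l = 0`).
1. `a k j = ‖f (M j (R (P (S (Q (v k))))))‖`, `∑ j ∈ s, a k j ≤ K ‖f‖ ‖R P S Q‖ =: C`
   (`UB.sum_blocks`).  `rosenthal` (with `ε = δ`): `φ` with off diagonal sums
   `≤ δ`; only the blocks `I (φ k)` and the vectors `v (φ k)` are used below, but `R`, `S` are kept.
2. Diagonal: `f (M k (R (P (S (Q (v k)))))) = f (R (M k (P (S (Q (v k))))))` and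
   `S (Q (v k)) = ∑ l, S (M l (Q (v k)))` (`S = S * M Z`, `UB.hasSum_blocks`), so
   `M k P S Q v k = M k P S M k Q v k + ∑_{l ≠ k} (M k P M l) S (M l Q M k v k)`;
   for `l < k`: `‖M k P M l‖ ≤ δ (1/2)^(k+l)`; for `l > k`: `‖M l Q M k‖ ≤ δ (1/2)^(k+l)`.
   Hence `‖f (M k (R P S Q v k)) - f (v k)‖ ≤ C' δ`.
3. `B x = ∑ k, f (M (φ k) x) • ((f (v (φ k)))⁻¹ • v (φ k))` (`exists_ropB`, vectors of norm
   `≤ 1 / η`).  `B (R (P (S (Q (v (φ k)))))) = v (φ k) - e k`,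
   `‖e k‖ ≤ (δ + C' δ) / η ≤ τ`: evaluate the sum, separate the term `j = k`.
4. `N x = ∑ k, f (M (φ k) x) • ((f (v (φ k)))⁻¹ • e k)`, `‖N‖ ≤ K ‖f‖ τ / η < 1`
   and `N (v (φ k)) = e k`.  So `1 - N` is a unit (`isUnit_one_sub_of_norm_lt_one`) and with
   `α = (1 - N)⁻¹ B R`: `α P S Q v (φ k) = v (φ k)`; `kc_false` (`β = S`, `γ = 1`).
-/

set_option autoImplicit false

open Filter Topology Function

namespace Pool.Agent.UBS

variable {𝕜 : Type*} [RCLike 𝕜] {U : Type*} [NormedAddCommGroup U] [NormedSpace 𝕜 U]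
  [CompleteSpace U] {ι : Type*}

private theorem GB_single {E : Type*} [NormedAddCommGroup E] {g : ℕ → E} {y : E}
    (h : HasSum g y) {k : ℕ} {D : ℝ} (hD : 0 ≤ D) (hg : ∀ l, l ≠ k → ‖g l‖ ≤ D * (1 / 2) ^ l) :
    ‖y - g k‖ ≤ 2 * D := by
  classical
  have h2 : HasSum (fun l => if l = k then g k else 0) (g k) := hasSum_ite_eq k _
  have h3 := h.sub h2
  have h5 : HasSum (fun l : ℕ => D * (1 / 2 : ℝ) ^ l) (D * 2) := hasSum_geometric_two.mul_left D
  have h4 : ∀ l, ‖g l - (if l = k then g k else 0)‖ ≤ D * (1 / 2) ^ l := by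
    intro l
    split_ifs with hl
    · subst hl
      rw [sub_self, norm_zero]
      positivity
    · rw [sub_zero]
      exact hg l hl
  have h6 := tsum_of_norm_bounded h5 h4
  rw [h3.tsum_eq] at h6
  linarith

/-- The diagonal estimate. -/
private theorem GB_diag (b : UB 𝕜 ι U) {P : U →L[𝕜] U} (I : ℕ → Set ι)
    (hd : Pairwise (Disjoint on I)) (R S : U →L[𝕜] U)
    (hR : BD b I R) (hS : BD b I S) (v : ℕ → U) (hv : ∀ k, b.M (I k) (v k) = v k)
    (hn : ∀ k, ‖v k‖ = 1) {δ CR CS : ℝ} (hδ : 0 < δ) (hCR : ‖R‖ ≤ CR) (hCS : ‖S‖ ≤ CS)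
    (h1 : ∀ l k, l < k → ‖b.M (I k) * P * b.M (I l)‖ ≤ δ * (1 / 2) ^ (l + k))
    (h2 : ∀ k, ‖R (b.M (I k) (P (S (b.M (I k) ((1 - P) (v k)))))) - v k‖ ≤ δ) (k : ℕ) :
    ‖b.M (I k) (R (P (S ((1 - P) (v k))))) - v k‖ ≤
      δ * (1 + 2 * (CR * (CS * (b.K * ‖1 - P‖) + b.K * ‖P‖ * CS))) := by
  have hKp := b.K_pos
  set Q : U →L[𝕜] U := 1 - P with hQ
  have hCR0 : 0 ≤ CR := (norm_nonneg _).trans hCR
  have hCS0 : 0 ≤ CS := (norm_nonneg _).trans hCS
  set D : ℝ := CS * (b.K * ‖Q‖) + b.K * ‖P‖ * CS with hD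
  have hD0 : 0 ≤ D := by positivity
  have hS2 : S (Q (v k)) = S (b.M (⋃ k, I k) (Q (v k))) := by
    have := congrArg (fun T : U →L[𝕜] U => T (Q (v k))) hS.2
    simpa only [mul_apply_eq_comp] using this.symm
  have hs : HasSum (fun l => b.M (I k) (P (S (b.M (I l) (Q (v k))))))
      (b.M (I k) (P (S (Q (v k))))) := by
    rw [hS2]
    exact (((b.hasSum_blocks I hd (Q (v k))).mapL S).mapL P).mapL (b.M (I k))
  have hbd : ∀ l, l ≠ k → ‖b.M (I k) (P (S (b.M (I l) (Q (v k)))))‖ ≤ δ * D * (1 / 2) ^ l := by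
    intro l hl
    rcases lt_or_gt_of_ne hl with h | h
    · have e1 : b.M (I k) (P (S (b.M (I l) (Q (v k))))) =
          (b.M (I k) * P * b.M (I l)) (S (b.M (I l) (Q (v k)))) := by
        rw [mul_apply_eq_comp, mul_apply_eq_comp, hS.fix (k := l) (by rw [b.M_M, Set.inter_self])]
      rw [e1]
      calc ‖(b.M (I k) * P * b.M (I l)) (S (b.M (I l) (Q (v k))))‖
          ≤ ‖b.M (I k) * P * b.M (I l)‖ * ‖S (b.M (I l) (Q (v k)))‖ :=
            ContinuousLinearMap.le_opNorm _ _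
        _ ≤ (δ * (1 / 2) ^ (l + k)) * (CS * (b.K * (‖Q‖ * 1))) := by
            gcongr
            · exact h1 l k h
            · refine (S.le_opNorm _).trans ?_
              gcongr
              refine (b.norm_M_apply_le _ _).trans ?_
              gcongr
              rw [← hn k]
              exact Q.le_opNorm _
        _ = δ * (CS * (b.K * ‖Q‖)) * (1 / 2) ^ l * (1 / 2) ^ k := by
            rw [pow_add]; ring
        _ ≤ δ * D * (1 / 2) ^ l * 1 := by
            gcongr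
            · rw [hD]
              have : 0 ≤ b.K * ‖P‖ * CS := by positivity
              linarith
            · exact pow_le_one₀ (by norm_num) (by norm_num)
        _ = δ * D * (1 / 2) ^ l := by ring
    · have e1 : b.M (I l) (Q (v k)) = - (b.M (I l) * P * b.M (I k)) (v k) := by
        rw [mul_apply_eq_comp, mul_apply_eq_comp, hv k, hQ, sub_apply, one_apply_eq_self,
          map_sub, b.M_fix_disj (hd hl) (hv k), zero_sub]
      have e2 : ‖b.M (I l) (Q (v k))‖ ≤ δ * (1 / 2) ^ (k + l) := by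
        rw [e1, norm_neg]
        refine (ContinuousLinearMap.le_opNorm _ _).trans ?_
        rw [hn, mul_one]
        exact h1 k l h
      calc ‖b.M (I k) (P (S (b.M (I l) (Q (v k)))))‖
          ≤ b.K * (‖P‖ * (CS * (δ * (1 / 2) ^ (k + l)))) := by
            refine (b.norm_M_apply_le _ _).trans ?_
            gcongr
            refine (P.le_opNorm _).trans ?_
            gcongr
            refine (S.le_opNorm _).trans ?_
            gcongr
        _ = δ * (b.K * ‖P‖ * CS) * (1 / 2) ^ l * (1 / 2) ^ k := by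
            rw [pow_add]; ring
        _ ≤ δ * D * (1 / 2) ^ l * 1 := by
            gcongr
            · rw [hD]
              have : 0 ≤ CS * (b.K * ‖Q‖) := by positivity
              linarith
            · exact pow_le_one₀ (by norm_num) (by norm_num)
        _ = δ * D * (1 / 2) ^ l := by ring
  have h3 := GB_single hs (k := k) (D := δ * D) (by positivity) hbd
  have h4 : b.M (I k) (R (P (S (Q (v k))))) - v k =
      R (b.M (I k) (P (S (Q (v k)))) - b.M (I k) (P (S (b.M (I k) (Q (v k)))))) +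
      (R (b.M (I k) (P (S (b.M (I k) (Q (v k)))))) - v k) := by
    rw [map_sub, hR.comm_apply k (P (S (Q (v k))))]
    abel
  rw [h4]
  calc ‖R (b.M (I k) (P (S (Q (v k)))) - b.M (I k) (P (S (b.M (I k) (Q (v k)))))) +
      (R (b.M (I k) (P (S (b.M (I k) (Q (v k)))))) - v k)‖
      ≤ CR * (2 * (δ * D)) + δ := by
        refine (norm_add_le _ _).trans ?_
        gcongr
        · refine (R.le_opNorm _).trans ?_
          gcongr
        · exact h2 k
    _ = δ * (1 + 2 * (CR * D)) := by ring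

private theorem GB_core (b : UB 𝕜 ι U) {P : U →L[𝕜] U} (hK : Kc P) (I : ℕ → Set ι)
    (hd : Pairwise (Disjoint on I)) (R S : U →L[𝕜] U)
    (hR : BD b I R) (hS : BD b I S) (v : ℕ → U) (hv : ∀ k, b.M (I k) (v k) = v k)
    (hn : ∀ k, ‖v k‖ = 1) {δ CR CS : ℝ} (hδ : 0 < δ) (hCR : ‖R‖ ≤ CR) (hCS : ‖S‖ ≤ CS)
    (h1 : ∀ l k, l < k → ‖b.M (I k) * P * b.M (I l)‖ ≤ δ * (1 / 2) ^ (l + k))
    (h2 : ∀ k, ‖R (b.M (I k) (P (S (b.M (I k) ((1 - P) (v k)))))) - v k‖ ≤ δ)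
    (f : U →L[𝕜] 𝕜) {η : ℝ} (hη : 0 < η) (hf : ∀ k, η ≤ ‖f (v k)‖)
    (h3 : δ * (‖f‖ * (1 + 2 * (CR * (CS * (b.K * ‖1 - P‖) + b.K * ‖P‖ * CS))) + 1) *
      (b.K * ‖f‖) ≤ η ^ 2 / 2) : False := by
  have hKp := b.K_pos
  obtain ⟨Cd, hCd⟩ : ∃ Cd : ℝ, Cd = 1 + 2 * (CR * (CS * (b.K * ‖1 - P‖) + b.K * ‖P‖ * CS)) :=
    ⟨_, rfl⟩
  have hdiag := GB_diag b I hd R S hR hS v hv hn hδ hCR hCS h1 h2
  rw [← hCd] at h3
  rw [← hCd] at hdiag
  set Q : U →L[𝕜] U := 1 - P with hQ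
  set T : U →L[𝕜] U := R * P * S * Q with hT
  have hTv : ∀ x, T x = R (P (S (Q x))) := fun x => rfl
  obtain ⟨ψ, hψ, hros⟩ := rosenthal (fun k j => ‖f (b.M (I j) (T (v k)))‖)
    (fun _ _ => norm_nonneg _) (b.K * ‖f‖ * ‖T‖) (by
      intro k s
      refine (b.sum_blocks I hd f (T (v k)) s).trans ?_
      gcongr
      refine (T.le_opNorm _).trans ?_
      rw [hn, mul_one]) hδ
  set J : ℕ → Set ι := fun k => I (ψ k) with hJ
  set u : ℕ → U := fun k => v (ψ k) with hu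
  have hdJ : Pairwise (Disjoint on J) := fun i j hij => hd (hψ.injective.ne hij)
  have huJ : ∀ k, b.M (J k) (u k) = u k := fun k => hv (ψ k)
  have hun : ∀ k, ‖u k‖ = 1 := fun k => hn (ψ k)
  have hfu : ∀ k, η ≤ ‖f (u k)‖ := fun k => hf (ψ k)
  have hfu0 : ∀ k, f (u k) ≠ 0 := fun k h => by
    have := hfu k
    rw [h, norm_zero] at this
    linarith
  have hfi : ∀ k, ‖(f (u k))⁻¹‖ ≤ 1 / η := fun k => by
    rw [norm_inv, inv_eq_one_div]
    exact one_div_le_one_div_of_le hη (hfu k)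
  have hdg : ∀ k, ‖f (b.M (J k) (T (u k))) - f (u k)‖ ≤ ‖f‖ * (δ * Cd) := by
    intro k
    rw [← map_sub]
    refine (f.le_opNorm _).trans ?_
    gcongr
    exact hdiag (ψ k)
  obtain ⟨B, hB, _⟩ := exists_ropB b J hdJ f (fun k => (f (u k))⁻¹ • u k) (C := 1 / η) (by
    intro k
    rw [norm_smul, hun, mul_one]
    exact hfi k)
  have he : ∀ k, ‖u k - B (T (u k))‖ ≤ (δ * (‖f‖ * Cd + 1)) / η := by
    intro k
    have hs := hB (T (u k))
    classical
    have h5 : HasSum (fun j => if j = k then f (u k) • ((f (u k))⁻¹ • u k) else 0)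
        (f (u k) • ((f (u k))⁻¹ • u k)) := hasSum_ite_eq k _
    rw [smul_smul, mul_inv_cancel₀ (hfu0 k), one_smul] at h5
    have h6 := h5.sub hs
    refine le_of_tendsto h6.norm (Eventually.of_forall fun s => ?_)
    refine (norm_sum_le _ _).trans ?_
    have h7 : ∀ j ∈ s, ‖(if j = k then u k else 0) - f (b.M (J j) (T (u k))) • ((f (u j))⁻¹ • u j)‖
        ≤ (if j = k then ‖f‖ * (δ * Cd) / η else 0) +
          (if j = k then 0 else ‖f (b.M (J j) (T (u k)))‖) / η := by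
      intro j _
      split_ifs with hj
      · subst hj
        have h8 : u j - f (b.M (J j) (T (u j))) • ((f (u j))⁻¹ • u j) =
            (f (u j) - f (b.M (J j) (T (u j)))) • ((f (u j))⁻¹ • u j) := by
          rw [sub_smul, smul_smul (f (u j)), mul_inv_cancel₀ (hfu0 j), one_smul]
        rw [h8, norm_smul, norm_smul, hun, mul_one, norm_sub_rev, zero_div, add_zero]
        calc ‖f (b.M (J j) (T (u j))) - f (u j)‖ * ‖(f (u j))⁻¹‖
            ≤ (‖f‖ * (δ * Cd)) * (1 / η) := by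
              refine mul_le_mul (hdg j) (hfi j) (norm_nonneg _) ((norm_nonneg _).trans (hdg j))
          _ = ‖f‖ * (δ * Cd) / η := by ring
      · rw [zero_sub, norm_neg, norm_smul, norm_smul, hun, mul_one, zero_add]
        calc ‖f (b.M (J j) (T (u k)))‖ * ‖(f (u j))⁻¹‖
            ≤ ‖f (b.M (J j) (T (u k)))‖ * (1 / η) := by
              gcongr
              exact hfi j
          _ = ‖f (b.M (J j) (T (u k)))‖ / η := by ring
    have h9 : ∑ j ∈ s, (if j = k then 0 else ‖f (b.M (J j) (T (u k)))‖) ≤ δ := by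
      have h10 := hros k (s.erase k) (Finset.notMem_erase k s)
      refine le_trans (le_of_eq ?_) h10
      rw [← Finset.sum_filter_add_sum_filter_not s (fun j => j = k)]
      rw [Finset.sum_congr rfl (g := fun _ => (0 : ℝ)) (fun j hj => by
        rw [if_pos (Finset.mem_filter.1 hj).2])]
      rw [Finset.sum_const_zero, zero_add]
      refine Finset.sum_congr ?_ fun j hj => ?_
      · ext j
        simp only [Finset.mem_filter, Finset.mem_erase]
        exact and_comm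
      · rw [if_neg (Finset.mem_erase.1 hj).1]
    have h11 : ∑ j ∈ s, (if j = k then ‖f‖ * (δ * Cd) / η else 0) ≤ ‖f‖ * (δ * Cd) / η := by
      rw [Finset.sum_ite_eq' s k]
      split_ifs
      · exact le_rfl
      · exact div_nonneg ((norm_nonneg _).trans (hdg k)) hη.le
    refine (Finset.sum_le_sum h7).trans ?_
    rw [Finset.sum_add_distrib, ← Finset.sum_div]
    calc ∑ j ∈ s, (if j = k then ‖f‖ * (δ * Cd) / η else 0) +
        (∑ j ∈ s, (if j = k then 0 else ‖f (b.M (J j) (T (u k)))‖)) / η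
        ≤ ‖f‖ * (δ * Cd) / η + δ / η := by gcongr
      _ = (δ * (‖f‖ * Cd + 1)) / η := by ring
  obtain ⟨N, hN, hNn⟩ := exists_ropB b J hdJ f (fun k => (f (u k))⁻¹ • (u k - B (T (u k))))
    (C := (δ * (‖f‖ * Cd + 1)) / η ^ 2) (by
      intro k
      rw [norm_smul]
      calc ‖(f (u k))⁻¹‖ * ‖u k - B (T (u k))‖ ≤ (1 / η) * ((δ * (‖f‖ * Cd + 1)) / η) :=
            mul_le_mul (hfi k) (he k) (norm_nonneg _) (by positivity)
        _ = (δ * (‖f‖ * Cd + 1)) / η ^ 2 := by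
            field_simp)
  have hNu : ∀ k, N (u k) = u k - B (T (u k)) := by
    intro k
    refine (hN (u k)).unique ?_
    have h5 : HasSum (fun j => f (b.M (J j) (u k)) • ((f (u j))⁻¹ • (u j - B (T (u j)))))
        (f (b.M (J k) (u k)) • ((f (u k))⁻¹ • (u k - B (T (u k))))) :=
      hasSum_single k fun j hj => by
        rw [b.M_fix_disj (hdJ hj) (huJ k), map_zero, zero_smul]
    rw [huJ k, smul_smul, mul_inv_cancel₀ (hfu0 k), one_smul] at h5
    exact h5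
  have hN1 : ‖N‖ < 1 := by
    have hpos : 0 ≤ (δ * (‖f‖ * Cd + 1)) / η := (norm_nonneg _).trans (he 0)
    have hpos2 : 0 ≤ δ * (‖f‖ * Cd + 1) := by
      have h12 := mul_nonneg hpos hη.le
      rwa [div_mul_cancel₀ _ hη.ne'] at h12
    refine lt_of_le_of_lt (ContinuousLinearMap.opNorm_le_bound _ (by positivity) hNn) ?_
    have h12 : b.K * ‖f‖ * (δ * (‖f‖ * Cd + 1) / η ^ 2) =
        (δ * (‖f‖ * Cd + 1) * (b.K * ‖f‖)) / η ^ 2 := by ring
    rw [h12, div_lt_one (by positivity)]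
    have : 0 < η ^ 2 := by positivity
    linarith
  obtain ⟨X, hX⟩ := isUnit_one_sub_of_norm_lt_one hN1
  refine kc_false b hK J hdJ u huJ (fun k h => ?_)
    ((((X⁻¹ : (U →L[𝕜] U)ˣ) : U →L[𝕜] U)) * B * R) S 1 (fun k => ?_)
  · have := hun k
    rw [h, norm_zero] at this
    exact zero_ne_one this
  · have h5 : (X : U →L[𝕜] U) (u k) = B (T (u k)) := by
      rw [hX, sub_apply, one_apply_eq_self, hNu]
      abel
    show ((X⁻¹ : (U →L[𝕜] U)ˣ) : U →L[𝕜] U) (B (T (u k))) = u k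
    rw [← h5]
    have h6 := congrArg (fun Y : U →L[𝕜] U => Y (u k)) X.inv_mul
    exact h6

theorem lemG_B (b : UB 𝕜 ι U) {P : U →L[𝕜] U} (hP : P * P = P) (hK : Kc P) (I : ℕ → Set ι)
    (hfin : ∀ k, (I k).Finite) (hd : Pairwise (Disjoint on I)) (R S : U →L[𝕜] U)
    (hR : BD b I R) (hS : BD b I S) (v : ℕ → U) (hv : ∀ k, b.M (I k) (v k) = v k)
    (hn : ∀ k, ‖v k‖ = 1)
    (hlim : Tendsto (fun k => ‖R (b.M (I k) (P (S (b.M (I k) ((1 - P) (v k)))))) - v k‖)
      atTop (𝓝 0))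
    (f : U →L[𝕜] 𝕜) {η : ℝ} (hη : 0 < η) (hf : ∀ k, η ≤ ‖f (v k)‖) : False := by
  have hKp := b.K_pos
  obtain ⟨CR, hCR⟩ : ∃ CR : ℝ, CR = ‖R‖ * b.K := ⟨_, rfl⟩
  obtain ⟨CS, hCS⟩ : ∃ CS : ℝ, CS = ‖S‖ * b.K := ⟨_, rfl⟩
  have hCR0 : 0 ≤ CR := by rw [hCR]; positivity
  have hCS0 : 0 ≤ CS := by rw [hCS]; positivity
  obtain ⟨E, hE⟩ : ∃ E : ℝ, E = (‖f‖ * (1 + 2 * (CR * (CS * (b.K * ‖1 - P‖) +
    b.K * ‖P‖ * CS))) + 1) * (b.K * ‖f‖) := ⟨_, rfl⟩
  have hE0 : 0 ≤ E := by rw [hE]; positivity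
  obtain ⟨δ, hδ⟩ : ∃ δ : ℝ, δ = η ^ 2 / 2 / (E + 1) := ⟨_, rfl⟩
  have hδ0 : 0 < δ := by rw [hδ]; positivity
  obtain ⟨φ, hφ, hφ1, hφ2⟩ := exists_extract
    (fun i j l k => ‖b.M (I k) * P * b.M (I l)‖ ≤ δ * (1 / 2) ^ (i + j))
    (fun _ k => ‖R (b.M (I k) (P (S (b.M (I k) ((1 - P) (v k)))))) - v k‖ ≤ δ)
    (by
      intro i j l
      have hp : (0 : ℝ) < δ * (1 / 2) ^ (i + j) := by positivity
      exact (tendsto_lower b P I hfin hd l).eventually (Iic_mem_nhds hp))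
    (fun _ => hlim.eventually (Iic_mem_nhds hδ0))
  have hdJ : Pairwise (Disjoint on fun k => I (φ k)) := fun i j hij => hd (hφ.injective.ne hij)
  obtain ⟨hR', hR'f⟩ := hR.sub_seq φ
  obtain ⟨hS', hS'f⟩ := hS.sub_seq φ
  refine GB_core b hK (fun k => I (φ k)) hdJ _ _ hR' hS' (fun k => v (φ k))
    (fun k => hv (φ k)) (fun k => hn (φ k)) hδ0 (CR := CR) (CS := CS) ?_ ?_
    (fun l k hlk => hφ1 l k hlk) ?_ f hη (fun k => hf (φ k)) ?_
  · rw [hCR]
    refine (norm_mul_le _ _).trans ?_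
    gcongr
    exact b.norm_M_le _
  · rw [hCS]
    refine (norm_mul_le _ _).trans ?_
    gcongr
    exact b.norm_M_le _
  · intro k
    rw [hS'f k _ (by rw [b.M_M, Set.inter_self]), hR'f k _ (by rw [b.M_M, Set.inter_self])]
    exact hφ2 k
  · rw [mul_assoc, ← hE, hδ, div_mul_eq_mul_div, div_le_iff₀ (by positivity)]
    have : 0 < η ^ 2 / 2 := by positivity
    nlinarith

end Pool.Agent.UBS
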