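import Mathlib
import Pool.Agent.UBS.Base
import Pool.Agent.UBS.GA
import Pool.Agent.UBS.GB
import Pool.Agent.UBS.KSW

/-!
# UBS / GG: Lemma G

If `h1` of `lemG_A` fails there are `i`, `η > 0` and a subsequence with
`η ≤ ‖b.c i (P (v k))‖`: `lemG_B` with `f = (b.c i).comp P` for the subsequence
(`BD.sub_seq`; on vectors of the block the restricted operators agree with `R`, `S`).
If `h2` fails there are `i`, `η` and a subsequence with `η ≤ ‖f (v' k)‖`, `f = (b.c i).comp P`,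
`v' k = S (M k (Q (v k)))`, `‖v' k‖ ≤ C`.  Put `w k = ‖v' k‖⁻¹ • v' k`.  Then
`S (M k (Q (R (M k (P (v' k)))))) - v' k = S (M k (Q (R M k P v' k - v k)))` has norm
`≤ ‖S‖ K ‖Q‖ ‖R M k P S M k Q v k - v k‖ → 0` and `‖v' k‖ ≥ η / ‖f‖`: apply `lemG_B` to `1 - P`
(`kc_swap`, `1 - (1 - P) = P`) with `R`, `S` exchanged and the vectors `w k`,
`‖f (w k)‖ ≥ η / C`.
-/

set_option autoImplicit false

open Filter Topology Function

namespace Pool.Agent.UBS

variable {𝕜 : Type*} [RCLike 𝕜] {U : Type*} [NormedAddCommGroup U] [NormedSpace 𝕜 U]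
  [CompleteSpace U] {ι : Type*}

theorem GG_B (b : UB 𝕜 ι U) {P : U →L[𝕜] U} (hP : P * P = P) (hK : Kc P) (I : ℕ → Set ι)
    (hfin : ∀ k, (I k).Finite) (hd : Pairwise (Disjoint on I)) (R S : U →L[𝕜] U)
    (hR : BD b I R) (hS : BD b I S) (φ : ℕ → ℕ) (hφ : StrictMono φ) (u : ℕ → U)
    (hu : ∀ k, b.M (I (φ k)) (u k) = u k) (hn : ∀ k, ‖u k‖ = 1)
    (hlim : Tendsto (fun k => ‖R (b.M (I (φ k)) (P (S (b.M (I (φ k)) ((1 - P) (u k)))))) - u k‖)
      atTop (𝓝 0)) (f : U →L[𝕜] 𝕜) {η : ℝ} (hη : 0 < η) (hf : ∀ k, η ≤ ‖f (u k)‖) : False := by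
  obtain ⟨hR', hR'f⟩ := hR.sub_seq φ
  obtain ⟨hS', hS'f⟩ := hS.sub_seq φ
  refine lemG_B b hP hK (fun k => I (φ k)) (fun k => hfin _)
    (fun i j hij => hd (hφ.injective.ne hij)) _ _ hR' hS' u hu hn ?_ f hη hf
  refine hlim.congr fun k => ?_
  have e1 : ∀ x, b.M (I (φ k)) (b.M (I (φ k)) x) = b.M (I (φ k)) x := fun x => by
    rw [b.M_M, Set.inter_self]
  rw [hS'f k _ (e1 _), hR'f k _ (e1 _)]

theorem GG_freq {y : ℕ → 𝕜} (h : ¬ Tendsto y atTop (𝓝 0)) :
    ∃ η : ℝ, 0 < η ∧ ∃ φ : ℕ → ℕ, StrictMono φ ∧ ∀ k, η ≤ ‖y (φ k)‖ := by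
  rw [Metric.tendsto_atTop] at h
  push Not at h
  obtain ⟨η, hη, h⟩ := h
  have h1 : ∃ᶠ k in atTop, η ≤ ‖y k‖ := by
    rw [Filter.frequently_atTop]
    intro a
    obtain ⟨n, hn, h2⟩ := h a
    exact ⟨n, hn, by rwa [dist_zero_right] at h2⟩
  obtain ⟨φ, hφ, h2⟩ := Filter.extraction_of_frequently_atTop h1
  exact ⟨η, hη, φ, hφ, h2⟩

theorem lemG (b : UB 𝕜 ι U) {P : U →L[𝕜] U} (hP : P * P = P) (hK : Kc P) (I : ℕ → Set ι)
    (hfin : ∀ k, (I k).Finite) (hd : Pairwise (Disjoint on I)) (R S : U →L[𝕜] U)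
    (hR : BD b I R) (hS : BD b I S) (v : ℕ → U) (hv : ∀ k, b.M (I k) (v k) = v k)
    (hn : ∀ k, ‖v k‖ = 1)
    (hlim : Tendsto (fun k => ‖R (b.M (I k) (P (S (b.M (I k) ((1 - P) (v k)))))) - v k‖)
      atTop (𝓝 0)) : False := by
  by_cases h1 : ∀ i, Tendsto (fun k => b.c i (P (v k))) atTop (𝓝 0)
  · by_cases h2 : ∀ i, Tendsto (fun k => b.c i (P (S (b.M (I k) ((1 - P) (v k)))))) atTop (𝓝 0)
    · exact lemG_A b hP hK I hfin hd R S hR hS v hv hn hlim h1 h2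
    · push Not at h2
      obtain ⟨i, hi⟩ := h2
      obtain ⟨η, hη, φ, hφ, hy⟩ := GG_freq hi
      set f : U →L[𝕜] 𝕜 := (b.c i).comp P with hf
      set v' : ℕ → U := fun k => S (b.M (I k) ((1 - P) (v k))) with hv'
      have hPP : (1 : U →L[𝕜] U) - (1 - P) = P := sub_sub_cancel 1 P
      have hv'f : ∀ k, b.M (I k) (v' k) = v' k := fun k =>
        hS.fix (by rw [b.M_M, Set.inter_self])
      have hy' : ∀ k, η ≤ ‖f (v' (φ k))‖ := hy
      have hfn : ∀ k, η ≤ (‖f‖ + 1) * ‖v' (φ k)‖ := fun k =>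
        (hy' k).trans ((f.le_opNorm _).trans (by gcongr; linarith))
      have hpos : ∀ k, 0 < ‖v' (φ k)‖ := by
        intro k
        by_contra h0
        have h3 : ‖v' (φ k)‖ = 0 := le_antisymm (not_lt.1 h0) (norm_nonneg _)
        have := hfn k
        rw [h3, mul_zero] at this
        linarith
      have hKp := b.K_pos
      obtain ⟨CU, hCU⟩ : ∃ CU : ℝ, CU = ‖S‖ * (b.K * ‖(1 - P : U →L[𝕜] U)‖) := ⟨_, rfl⟩
      have hCU0 : 0 ≤ CU := by rw [hCU]; positivity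
      have hv'n : ∀ k, ‖v' k‖ ≤ CU := by
        intro k
        calc ‖v' k‖ ≤ ‖S‖ * ‖b.M (I k) ((1 - P) (v k))‖ := S.le_opNorm _
          _ ≤ ‖S‖ * (b.K * (‖(1 - P : U →L[𝕜] U)‖ * ‖v k‖)) := by
              gcongr
              exact (b.norm_M_apply_le _ _).trans (by
                gcongr; exact (1 - P : U →L[𝕜] U).le_opNorm _)
          _ = CU := by rw [hn, hCU]; ring
      refine GG_B b (P := 1 - P) ?_ (kc_swap hP hK) I hfin hd S R hS hR φ hφ
        (fun k => ((‖v' (φ k)‖⁻¹ : ℝ) : 𝕜) • v' (φ k)) ?_ ?_ ?_ f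
        (η := η / (CU + 1)) (by positivity) ?_
      · rw [mul_sub, mul_one, sub_mul, one_mul, hP, sub_self, sub_zero]
      · intro k
        rw [map_smul, hv'f]
      · intro k
        rw [norm_smul, RCLike.norm_ofReal, abs_of_pos (inv_pos.2 (hpos k)),
          inv_mul_cancel₀ (hpos k).ne']
      · rw [hPP]
        have h4 : Tendsto (fun k => (‖f‖ + 1) / η * (‖S‖ * (b.K * (‖(1 - P : U →L[𝕜] U)‖ *
            ‖R (b.M (I (φ k)) (P (v' (φ k)))) - v (φ k)‖)))) atTop (𝓝 0) := by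
          have h5 : Tendsto (fun k => ‖R (b.M (I (φ k)) (P (v' (φ k)))) - v (φ k)‖) atTop
              (𝓝 0) := hlim.comp hφ.tendsto_atTop
          have h6 := (((h5.const_mul ‖(1 - P : U →L[𝕜] U)‖).const_mul b.K).const_mul
            ‖S‖).const_mul ((‖f‖ + 1) / η)
          simpa using h6
        refine squeeze_zero (fun k => norm_nonneg _) (fun k => ?_) h4
        have h7 : S (b.M (I (φ k)) ((1 - P) (R (b.M (I (φ k))
            (P (((‖v' (φ k)‖⁻¹ : ℝ) : 𝕜) • v' (φ k))))))) -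
              ((‖v' (φ k)‖⁻¹ : ℝ) : 𝕜) • v' (φ k) =
            ((‖v' (φ k)‖⁻¹ : ℝ) : 𝕜) • S (b.M (I (φ k)) ((1 - P)
              (R (b.M (I (φ k)) (P (v' (φ k)))) - v (φ k)))) := by
          rw [map_smul, map_smul, map_smul, map_smul, map_smul, map_smul, map_sub, map_sub,
            map_sub, smul_sub]
        rw [h7, norm_smul, RCLike.norm_ofReal, abs_of_pos (inv_pos.2 (hpos k))]
        have h8 : ‖v' (φ k)‖⁻¹ ≤ (‖f‖ + 1) / η := by
          rw [inv_le_comm₀ (hpos k) (by positivity), inv_div, div_le_iff₀ (by positivity)]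
          have := hfn k
          linarith
        gcongr
        refine (S.le_opNorm _).trans ?_
        gcongr
        refine (b.norm_M_apply_le _ _).trans ?_
        gcongr
        exact (1 - P : U →L[𝕜] U).le_opNorm _
      · intro k
        rw [map_smul, norm_smul, RCLike.norm_ofReal, abs_of_pos (inv_pos.2 (hpos k)),
          inv_mul_eq_div]
        have h9 := hv'n (φ k)
        exact div_le_div₀ (norm_nonneg _) (hy' k) (hpos k) (by linarith)
  · push Not at h1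
    obtain ⟨i, hi⟩ := h1
    obtain ⟨η, hη, φ, hφ, hy⟩ := GG_freq hi
    exact GG_B b hP hK I hfin hd R S hR hS φ hφ (fun k => v (φ k)) (fun k => hv _)
      (fun k => hn _) (hlim.comp hφ.tendsto_atTop) ((b.c i).comp P) hη hy

end Pool.Agent.UBS
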