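import Mathlib
import Pool.Agent.UBS.Base
import Pool.Agent.UBS.GG
import Pool.Agent.UBS.AVG
import Pool.Agent.UBS.BDL

/-!
# UBS / LM: Lemma M, uniform invertibility of `q (M_J P M_J)` for finite `J` far away

By contradiction: for every finite `F` and `c > 0` there are `J`, `z`, `v` violating the bound; `v ≠ 0`,
normalise `‖v‖ = 1`.  Choose recursively (`F` = union of the previous `J`) a sequence
`I k`, `z k`, `v k` of pairwise disjoint finite sets with `‖qop (b.cp P (I k)) (z k) (v k)‖ ≤ 1/(k+1)`.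
Put `p = - 2 Re z`, `q₀ = ‖z‖ ^ 2 ≥ ε ^ 2`, `1 + p + q₀ = ‖1 - z‖ ^ 2 ≥ ε ^ 2` and
`α = (q₀ - p - p ^ 2) / (q₀ (1 + p + q₀))`, `β = - (1 + p) / (q₀ (1 + p + q₀))` (real, bounded).  With
`E = b.cp P (I k)` and `v` in the block, as polynomials in `E`:
`(α + β t) (t - t ^ 2) = 1 + (- β t - 1 / q₀) (t ^ 2 + p t + q₀)`, hence
`‖(α + β E) (E - E ^ 2) v - v‖ ≤ C ‖qop E z v‖ → 0`.
`R = D₁ + D₂ * Δ` with `D₁`, `D₂` the block multipliers (`exists_blockmul`) of `α k`, `β k` and `Δ` the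
block diagonal part of `P` (`exists_diag`); `S = b.M (⋃ k, I k)`.  On the block
`R u = (α + β E) u`, and `M k P S M k (1 - P) v = E (v - E v)`.  `lemG` gives the contradiction.
-/

set_option autoImplicit false

open Filter Topology Function

namespace Pool.Agent.UBS

variable {𝕜 : Type*} [RCLike 𝕜] {U : Type*} [NormedAddCommGroup U] [NormedSpace 𝕜 U]
  [CompleteSpace U] {ι : Type*}

private theorem lm_norm_one_sub (z : ℂ) : ‖z - 1‖ ^ 2 = 1 - 2 * z.re + ‖z‖ ^ 2 := by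
  rw [← Complex.normSq_eq_norm_sq, ← Complex.normSq_eq_norm_sq, Complex.normSq_apply,
    Complex.normSq_apply]
  simp only [Complex.sub_re, Complex.sub_im, Complex.one_re, Complex.one_im]
  ring

/-- the real coefficients -/
private noncomputable def lmD (z : ℂ) : ℝ := ‖z‖ ^ 2 * (1 + (-2 * z.re) + ‖z‖ ^ 2)

private noncomputable def lmA (z : ℂ) : ℝ :=
  (‖z‖ ^ 2 - (-2 * z.re) - (-2 * z.re) ^ 2) / lmD z

private noncomputable def lmB (z : ℂ) : ℝ := - (1 + (-2 * z.re)) / lmD z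

private theorem lmD_ge {z : ℂ} {ε : ℝ} (hε : 0 < ε) (h1 : ε ≤ ‖z‖) (h2 : ε ≤ ‖z - 1‖) :
    ε ^ 4 ≤ lmD z := by
  unfold lmD
  have h3 : ε ^ 2 ≤ ‖z‖ ^ 2 := by gcongr
  have h4 : ε ^ 2 ≤ 1 + (-2 * z.re) + ‖z‖ ^ 2 := by
    have : ε ^ 2 ≤ ‖z - 1‖ ^ 2 := by gcongr
    rw [lm_norm_one_sub] at this
    linarith
  calc ε ^ 4 = ε ^ 2 * ε ^ 2 := by ring
    _ ≤ _ := mul_le_mul h3 h4 (by positivity) (by positivity)

private theorem lm_re {z : ℂ} {C : ℝ} (h : ‖z‖ ≤ C) : |z.re| ≤ C :=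
  (Complex.abs_re_le_norm z).trans h

private theorem lmA_le {z : ℂ} {ε C : ℝ} (hε : 0 < ε) (h1 : ε ≤ ‖z‖) (h2 : ε ≤ ‖z - 1‖)
    (h3 : ‖z‖ ≤ C) : |lmA z| ≤ (C ^ 2 + 2 * C + 4 * C ^ 2) / ε ^ 4 := by
  have hD := lmD_ge hε h1 h2
  have hre := lm_re h3
  have hC : 0 ≤ C := (norm_nonneg _).trans h3
  unfold lmA
  rw [abs_div, abs_of_pos (lt_of_lt_of_le (by positivity) hD)]
  refine div_le_div₀ (by positivity) ?_ (by positivity) hD
  have h4 : ‖z‖ ^ 2 ≤ C ^ 2 := by gcongr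
  have h5 : z.re ^ 2 ≤ C ^ 2 := by
    rw [← sq_abs]; gcongr
  have h6 := abs_le.1 hre
  rw [abs_le]
  constructor
  · nlinarith [sq_nonneg ‖z‖]
  · nlinarith [sq_nonneg z.re]

private theorem lmB_le {z : ℂ} {ε C : ℝ} (hε : 0 < ε) (h1 : ε ≤ ‖z‖) (h2 : ε ≤ ‖z - 1‖)
    (h3 : ‖z‖ ≤ C) : |lmB z| ≤ (1 + 2 * C) / ε ^ 4 := by
  have hD := lmD_ge hε h1 h2
  have hre := lm_re h3
  have hC : 0 ≤ C := (norm_nonneg _).trans h3
  unfold lmB
  rw [abs_div, abs_of_pos (lt_of_lt_of_le (by positivity) hD)]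
  refine div_le_div₀ (by positivity) ?_ (by positivity) hD
  have h6 := abs_le.1 hre
  rw [abs_le]
  constructor <;> linarith

private theorem lm_r1 (q p : ℝ) (hq : q ≠ 0) (h : 1 + p + q ≠ 0) :
    (q - p - p ^ 2) / (q * (1 + p + q)) = - (1 + p) / (q * (1 + p + q)) * (1 + p) + q⁻¹ := by
  rw [div_eq_iff (mul_ne_zero hq h), add_mul, div_mul_eq_mul_div,
    div_mul_cancel₀ _ (mul_ne_zero hq h), ← mul_assoc, inv_mul_cancel₀ hq]
  ring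

private theorem lm_r2 (q p : ℝ) (hq : q ≠ 0) (h : 1 + p + q ≠ 0) :
    - (1 + p) / (q * (1 + p + q)) * q = - ((q - p - p ^ 2) / (q * (1 + p + q))) + q⁻¹ * (- p) := by
  rw [lm_r1 q p hq h]
  have h1 : - (1 + p) / (q * (1 + p + q)) * q * (1 + p + q) = - (1 + p) := by
    rw [mul_assoc, div_mul_cancel₀ _ (mul_ne_zero hq h)]
  have h2 : q⁻¹ * q = 1 := inv_mul_cancel₀ hq
  set t := - (1 + p) / (q * (1 + p + q))
  have h3 : t * (1 + p) + t * q = - (1 + p) * q⁻¹ := by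
    have h4 : (t * q) * (1 + p + q) = - (1 + p) := h1
    have h5 : t * (1 + p + q) = (t * (1 + p + q)) * (q⁻¹ * q) := by rw [h2, mul_one]
    calc t * (1 + p) + t * q = t * (1 + p + q) := by ring
      _ = (t * (1 + p + q)) * (q⁻¹ * q) := h5
      _ = ((t * q) * (1 + p + q)) * q⁻¹ := by ring
      _ = - (1 + p) * q⁻¹ := by rw [h4]
  linear_combination h3

omit [CompleteSpace U] in
/-- the polynomial identity applied to an operator -/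
private theorem lm_poly (E : U →L[𝕜] U) (z : ℂ) (hz : ‖z‖ ^ 2 ≠ 0)
    (hz1 : 1 + (-2 * z.re) + ‖z‖ ^ 2 ≠ 0) (v : U) :
    ((lmA z : ℝ) : 𝕜) • (E v - E (E v)) + ((lmB z : ℝ) : 𝕜) • E (E v - E (E v)) - v =
      - (((lmB z : ℝ) : 𝕜) • E (qop E z v) + (((‖z‖ ^ 2)⁻¹ : ℝ) : 𝕜) • qop E z v) := by
  have hq : qop E z v = E (E v) - ((2 * z.re : ℝ) : 𝕜) • E v + ((‖z‖ ^ 2 : ℝ) : 𝕜) • v := rfl
  rw [hq]
  simp only [map_add, map_sub, map_smul]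
  set x1 := E v
  set x2 := E x1
  set x3 := E x2
  have e1 : ((lmA z : ℝ) : 𝕜) = ((lmB z * (1 + (-2 * z.re)) + (‖z‖ ^ 2)⁻¹ : ℝ) : 𝕜) := by
    congr 1
    exact lm_r1 (‖z‖ ^ 2) (-2 * z.re) hz hz1
  have e2 : ((lmB z : ℝ) : 𝕜) * ((‖z‖ ^ 2 : ℝ) : 𝕜) =
      - ((lmA z : ℝ) : 𝕜) + (((‖z‖ ^ 2)⁻¹ : ℝ) : 𝕜) * ((2 * z.re : ℝ) : 𝕜) := by
    rw [← RCLike.ofReal_mul, ← RCLike.ofReal_mul, ← RCLike.ofReal_neg, ← RCLike.ofReal_add]
    congr 1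
    have h := lm_r2 (‖z‖ ^ 2) (-2 * z.re) hz hz1
    have h2 : -(-2 * z.re) = 2 * z.re := by ring
    rw [h2] at h
    exact h
  have e3 : (((‖z‖ ^ 2)⁻¹ : ℝ) : 𝕜) * ((‖z‖ ^ 2 : ℝ) : 𝕜) = 1 := by
    rw [← RCLike.ofReal_mul, inv_mul_cancel₀ hz, RCLike.ofReal_one]
  have e4 : ((lmA z : ℝ) : 𝕜) = ((lmB z : ℝ) : 𝕜) - ((lmB z : ℝ) : 𝕜) * ((2 * z.re : ℝ) : 𝕜) +
      (((‖z‖ ^ 2)⁻¹ : ℝ) : 𝕜) := by
    rw [e1]
    push_cast
    ring
  simp only [smul_add, smul_sub, smul_smul]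
  rw [e2, e3, one_smul]
  have e5 : ((lmB z : ℝ) : 𝕜) • x2 = (((lmA z : ℝ) : 𝕜) + ((lmB z : ℝ) : 𝕜) * ((2 * z.re : ℝ) : 𝕜)
      - (((‖z‖ ^ 2)⁻¹ : ℝ) : 𝕜)) • x2 := by
    congr 1
    rw [e4]; ring
  rw [e5]
  module

private theorem lm_norm_cp (b : UB 𝕜 ι U) (P : U →L[𝕜] U) (I : Set ι) (x : U) :
    ‖b.cp P I x‖ ≤ b.K * (‖P‖ * b.K) * ‖x‖ := by
  have h1 : b.cp P I x = b.M I (P (b.M I x)) := rfl
  rw [h1]
  have hK := b.K_pos
  calc ‖b.M I (P (b.M I x))‖ ≤ b.K * ‖P (b.M I x)‖ := b.norm_M_apply_le _ _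
    _ ≤ b.K * (‖P‖ * (b.K * ‖x‖)) := by
        refine mul_le_mul_of_nonneg_left ?_ hK.le
        exact (P.le_opNorm _).trans (mul_le_mul_of_nonneg_left (b.norm_M_apply_le _ _)
          (norm_nonneg _))
    _ = _ := by ring

theorem lemM (b : UB 𝕜 ι U) {P : U →L[𝕜] U} (hP : P * P = P) (hK : Kc P) {ε : ℝ} (C : ℝ)
    (hε : 0 < ε) :
    ∃ F : Set ι, F.Finite ∧ ∃ c : ℝ, 0 < c ∧ ∀ J : Set ι, J.Finite → Disjoint J F → ∀ z : ℂ,
      ε ≤ ‖z‖ → ε ≤ ‖z - 1‖ → ‖z‖ ≤ C → ∀ v, b.M J v = v →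
        c * ‖v‖ ≤ ‖qop (b.cp P J) z v‖ := by
  classical
  by_contra hcon
  have h1 : ∀ (F : {F : Set ι // F.Finite}) (n : ℕ), ∃ (J : {F : Set ι // F.Finite}) (z : ℂ)
      (v : U), Disjoint J.1 F.1 ∧ ε ≤ ‖z‖ ∧ ε ≤ ‖z - 1‖ ∧ ‖z‖ ≤ C ∧ b.M J.1 v = v ∧ ‖v‖ = 1 ∧
        ‖qop (b.cp P J.1) z v‖ ≤ 1 / ((n : ℝ) + 1) := by
    intro F n
    by_contra hno
    apply hcon
    refine ⟨F.1, F.2, 1 / ((n : ℝ) + 1), by positivity, ?_⟩
    intro J hJ hJF z hz1 hz2 hz3 v hv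
    by_contra hlt
    rw [not_le] at hlt
    have hv0 : 0 < ‖v‖ := by
      by_contra h0
      have h00 : ‖v‖ = 0 := le_antisymm (not_lt.1 h0) (norm_nonneg _)
      rw [h00, mul_zero] at hlt
      exact absurd hlt (not_lt.2 (norm_nonneg _))
    apply hno
    refine ⟨⟨J, hJ⟩, z, ((‖v‖⁻¹ : ℝ) : 𝕜) • v, hJF, hz1, hz2, hz3, ?_, ?_, ?_⟩
    · rw [map_smul, hv]
    · rw [norm_smul, RCLike.norm_ofReal, abs_of_pos (inv_pos.2 hv0), inv_mul_cancel₀ hv0.ne']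
    · rw [map_smul, norm_smul, RCLike.norm_ofReal, abs_of_pos (inv_pos.2 hv0)]
      rw [inv_mul_le_iff₀ hv0, mul_comm]
      exact hlt.le
  choose Jf zf vf hf using h1
  let G : ℕ → {F : Set ι // F.Finite} := fun n =>
    Nat.rec ⟨∅, Set.finite_empty⟩ (fun n F => ⟨F.1 ∪ (Jf F n).1, F.2.union (Jf F n).2⟩) n
  have hG : ∀ n, (G (n + 1)).1 = (G n).1 ∪ (Jf (G n) n).1 := fun n => rfl
  have hGm : Monotone fun n => (G n).1 := monotone_nat_of_le_succ fun n => by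
    rw [hG]; exact Set.subset_union_left
  let I : ℕ → Set ι := fun k => (Jf (G k) k).1
  let z : ℕ → ℂ := fun k => zf (G k) k
  let v : ℕ → U := fun k => vf (G k) k
  have hfin : ∀ k, (I k).Finite := fun k => (Jf (G k) k).2
  have hdl : ∀ j k, j < k → Disjoint (I j) (I k) := by
    intro j k hjk
    have h2 : I j ⊆ (G k).1 := by
      refine Set.Subset.trans ?_ (hGm (Nat.succ_le_of_lt hjk))
      change I j ⊆ (G (j + 1)).1
      rw [hG]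
      exact Set.subset_union_right
    exact ((hf (G k) k).1.mono_right h2).symm
  have hd : Pairwise (Disjoint on I) := by
    intro j k hjk
    rcases lt_or_gt_of_ne hjk with h | h
    · exact hdl j k h
    · exact (hdl k j h).symm
  have hz1 : ∀ k, ε ≤ ‖z k‖ := fun k => (hf (G k) k).2.1
  have hz2 : ∀ k, ε ≤ ‖z k - 1‖ := fun k => (hf (G k) k).2.2.1
  have hz3 : ∀ k, ‖z k‖ ≤ C := fun k => (hf (G k) k).2.2.2.1
  have hv : ∀ k, b.M (I k) (v k) = v k := fun k => (hf (G k) k).2.2.2.2.1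
  have hn : ∀ k, ‖v k‖ = 1 := fun k => (hf (G k) k).2.2.2.2.2.1
  have hq : ∀ k, ‖qop (b.cp P (I k)) (z k) (v k)‖ ≤ 1 / ((k : ℝ) + 1) :=
    fun k => (hf (G k) k).2.2.2.2.2.2
  obtain ⟨D1, hD1, hD1'⟩ := exists_blockmul b I hd (fun k => ((lmA (z k) : ℝ) : 𝕜))
    (C := (C ^ 2 + 2 * C + 4 * C ^ 2) / ε ^ 4) (fun k => by
      rw [RCLike.norm_ofReal]; exact lmA_le hε (hz1 k) (hz2 k) (hz3 k))
  obtain ⟨D2, hD2, hD2'⟩ := exists_blockmul b I hd (fun k => ((lmB (z k) : ℝ) : 𝕜))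
    (C := (1 + 2 * C) / ε ^ 4) (fun k => by
      rw [RCLike.norm_ofReal]; exact lmB_le hε (hz1 k) (hz2 k) (hz3 k))
  obtain ⟨Δ, hΔ, hΔ', -⟩ := exists_diag b I hd P
  have hR : BD b I (D1 + D2 * Δ) := hD1.add (hD2.mul hΔ)
  refine lemG b hP hK I hfin hd (D1 + D2 * Δ) (b.M (⋃ k, I k)) hR (BD.one b I) v hv hn ?_
  have hKp := b.K_pos
  have hlim : Tendsto (fun k : ℕ => ((1 + 2 * C) / ε ^ 4 * (b.K * (‖P‖ * b.K)) + (ε ^ 2)⁻¹) *
      (1 / ((k : ℝ) + 1))) atTop (𝓝 0) := by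
    have := (tendsto_one_div_add_atTop_nhds_zero_nat (𝕜 := ℝ)).const_mul
      ((1 + 2 * C) / ε ^ 4 * (b.K * (‖P‖ * b.K)) + (ε ^ 2)⁻¹)
    rwa [mul_zero] at this
  refine squeeze_zero (fun k => norm_nonneg _) (fun k => ?_) hlim
  -- the computation on the block
  have hC0 : 0 ≤ C := (norm_nonneg _).trans (hz3 k)
  set E := b.cp P (I k) with hE
  have hEv : ∀ u, b.M (I k) u = u → E u = b.M (I k) (P u) := by
    intro u hu
    have : E u = b.M (I k) (P (b.M (I k) u)) := rfl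
    rw [this, hu]
  have hME : ∀ u, b.M (I k) (E u) = E u := by
    intro u
    have h2 : E u = b.M (I k) (P (b.M (I k) u)) := rfl
    rw [h2, b.M_M, Set.inter_self]
  have h3 : b.M (I k) ((1 - P) (v k)) = v k - E (v k) := by
    have h4 : (1 - P) (v k) = v k - P (v k) := rfl
    rw [h4, map_sub, hv k, hEv _ (hv k)]
  have hw : b.M (I k) (v k - E (v k)) = v k - E (v k) := by
    rw [map_sub, hv k, hME]
  have h5 : b.M (⋃ k, I k) (v k - E (v k)) = v k - E (v k) :=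
    b.M_fix_of_subset (Set.subset_iUnion I k) hw
  have h6 : b.M (I k) (P (v k - E (v k))) = E (v k) - E (E (v k)) := by
    rw [← hEv _ hw, map_sub]
  have hu : b.M (I k) (E (v k) - E (E (v k))) = E (v k) - E (E (v k)) := by
    rw [map_sub, hME, hME]
  have hΔu : Δ (E (v k) - E (E (v k))) = E (E (v k) - E (E (v k))) := by
    have h7 : (Δ * b.M (I k)) (E (v k) - E (E (v k))) =
        (b.M (I k) * P * b.M (I k)) (E (v k) - E (E (v k))) := by rw [hΔ' k]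
    have h8 : (Δ * b.M (I k)) (E (v k) - E (E (v k))) =
        Δ (b.M (I k) (E (v k) - E (E (v k)))) := rfl
    rw [h8, hu] at h7
    exact h7
  have h9 : (D1 + D2 * Δ) (E (v k) - E (E (v k))) =
      ((lmA (z k) : ℝ) : 𝕜) • (E (v k) - E (E (v k))) +
        ((lmB (z k) : ℝ) : 𝕜) • E (E (v k) - E (E (v k))) := by
    have h10 : (D1 + D2 * Δ) (E (v k) - E (E (v k))) =
        D1 (E (v k) - E (E (v k))) + D2 (Δ (E (v k) - E (E (v k)))) := rfl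
    rw [h10, hΔu, hD1' k _ hu, hD2' k _ (hME _)]
  rw [h3, h5, h6, h9]
  have hzpos : 0 < ‖z k‖ := hε.trans_le (hz1 k)
  have hz1pos : 0 < ‖z k - 1‖ := hε.trans_le (hz2 k)
  have hne1 : ‖z k‖ ^ 2 ≠ 0 := by positivity
  have hne2 : 1 + (-2 * (z k).re) + ‖z k‖ ^ 2 ≠ 0 := by
    have h11 : 0 < ‖z k - 1‖ ^ 2 := by positivity
    rw [lm_norm_one_sub] at h11
    intro h12
    linarith
  rw [lm_poly E (z k) hne1 hne2 (v k), norm_neg]
  have hB := lmB_le hε (hz1 k) (hz2 k) (hz3 k)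
  have hqi : (‖z k‖ ^ 2)⁻¹ ≤ (ε ^ 2)⁻¹ := by
    have : ε ^ 2 ≤ ‖z k‖ ^ 2 := by
      have := hz1 k
      gcongr
    exact inv_anti₀ (by positivity) this
  calc ‖((lmB (z k) : ℝ) : 𝕜) • E (qop E (z k) (v k)) +
        (((‖z k‖ ^ 2)⁻¹ : ℝ) : 𝕜) • qop E (z k) (v k)‖
      ≤ ‖((lmB (z k) : ℝ) : 𝕜) • E (qop E (z k) (v k))‖ +
        ‖(((‖z k‖ ^ 2)⁻¹ : ℝ) : 𝕜) • qop E (z k) (v k)‖ := norm_add_le _ _
    _ = |lmB (z k)| * ‖E (qop E (z k) (v k))‖ + (‖z k‖ ^ 2)⁻¹ * ‖qop E (z k) (v k)‖ := by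
        rw [norm_smul, norm_smul, RCLike.norm_ofReal, RCLike.norm_ofReal,
          abs_of_nonneg (by positivity : 0 ≤ (‖z k‖ ^ 2)⁻¹)]
    _ ≤ (1 + 2 * C) / ε ^ 4 * (b.K * (‖P‖ * b.K) * ‖qop E (z k) (v k)‖) +
        (ε ^ 2)⁻¹ * ‖qop E (z k) (v k)‖ := by
        refine add_le_add ?_ ?_
        · exact mul_le_mul hB (lm_norm_cp b P (I k) _) (norm_nonneg _) (by positivity)
        · exact mul_le_mul_of_nonneg_right hqi (norm_nonneg _)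
    _ = ((1 + 2 * C) / ε ^ 4 * (b.K * (‖P‖ * b.K)) + (ε ^ 2)⁻¹) * ‖qop E (z k) (v k)‖ := by ring
    _ ≤ _ := by
        refine mul_le_mul_of_nonneg_left (hq k) ?_
        positivity

end Pool.Agent.UBS
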