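import Mathlib
import Pool.Agent.UBS.Base
import Pool.Agent.UBS.LM
import Pool.Agent.UBS.CX

/-!
# UBS / DN: the diagonal entries accumulate only at `0` and `1`

`J = {n}`: `b.cp P {n} (e n) = d • e n`, `d = b.c n (P (b.e n))`; `‖d‖ ‖e n‖ ≤ K ^ 2 ‖P‖ ‖e n‖`, so
`‖d‖ ≤ C := K ^ 2 ‖P‖`.  With `z = cx d`: `qop (b.cp P {n}) z (e n) = (d ^ 2 - 2 Re d d + ‖d‖ ^ 2) e n
= 0`.  `lemM` with these `ε`, `C` gives `F`; for `n ∉ F` one of `ε ≤ ‖d‖`, `ε ≤ ‖d - 1‖` fails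
(`norm_cx`).
-/

set_option autoImplicit false

open Filter Topology Function

namespace Pool.Agent.UBS

variable {𝕜 : Type*} [RCLike 𝕜] {U : Type*} [NormedAddCommGroup U] [NormedSpace 𝕜 U]
  [CompleteSpace U] {ι : Type*}

private theorem DN_alg (d : 𝕜) :
    d * d - ((2 * RCLike.re d : ℝ) : 𝕜) * d + ((‖d‖ ^ 2 : ℝ) : 𝕜) = 0 := by
  have h1 := RCLike.add_conj d
  have h2 := RCLike.mul_conj d
  have h3 : ((2 * RCLike.re d : ℝ) : 𝕜) = d + (starRingEnd 𝕜) d := by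
    rw [h1]; push_cast; ring
  have h4 : ((‖d‖ ^ 2 : ℝ) : 𝕜) = d * (starRingEnd 𝕜) d := by
    rw [h2]; push_cast; ring
  rw [h3, h4]
  ring

theorem diag_near (b : UB 𝕜 ι U) {P : U →L[𝕜] U} (hP : P * P = P) (hK : Kc P) {ε : ℝ}
    (hε : 0 < ε) : ∃ F : Set ι, F.Finite ∧ ∀ n, n ∉ F →
      ‖b.c n (P (b.e n))‖ < ε ∨ ‖b.c n (P (b.e n)) - 1‖ < ε := by
  classical
  have hK0 := b.K_pos
  obtain ⟨F, hF, c, hc, H⟩ := lemM b hP hK (b.K * ‖P‖) hε
  refine ⟨F, hF, fun n hn => ?_⟩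
  by_contra hcon
  push Not at hcon
  obtain ⟨h1, h2⟩ := hcon
  set d : 𝕜 := b.c n (P (b.e n)) with hd
  have hen : b.e n ≠ 0 := by
    intro h
    have := b.ce n
    rw [h, map_zero] at this
    exact zero_ne_one this
  have hen' : 0 < ‖b.e n‖ := norm_pos_iff.2 hen
  have hMe : b.M {n} (b.e n) = b.e n := b.M_e_mem (Set.mem_singleton n)
  have hMx : ∀ x : U, b.M {n} x = b.c n x • b.e n := by
    intro x
    have := b.M_fin {n} x
    rw [Finset.coe_singleton, Finset.sum_singleton] at this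
    exact this
  have hcp : b.cp P {n} (b.e n) = d • b.e n := by
    unfold UB.cp
    rw [mul_apply_eq_comp, mul_apply_eq_comp, hMe, hMx]
  have hdn : ‖d‖ ≤ b.K * ‖P‖ := by
    have e1 : ‖d • b.e n‖ ≤ b.K * (‖P‖ * ‖b.e n‖) := by
      rw [← hMx]
      exact (b.norm_M_apply_le _ _).trans (mul_le_mul_of_nonneg_left (P.le_opNorm _) hK0.le)
    rw [norm_smul, ← mul_assoc] at e1
    exact le_of_mul_le_mul_right e1 hen'
  have h3 := H {n} (Set.finite_singleton n) (Set.disjoint_singleton_left.2 hn) (cx 𝕜 d)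
    (by rw [norm_cx]; exact h1)
    (by
      have : cx 𝕜 d - 1 = cx 𝕜 (d - 1) := by rw [map_sub, map_one]
      rw [this, norm_cx]; exact h2)
    (by rw [norm_cx]; exact hdn) (b.e n) hMe
  have h4 : qop (b.cp P {n}) (cx 𝕜 d) (b.e n) = 0 := by
    unfold qop
    rw [add_apply, sub_apply, mul_apply_eq_comp, smul_apply, smul_apply, hcp, map_smul, hcp,
      cx_re, norm_cx, one_apply_eq_self, smul_smul, smul_smul, ← sub_smul, ← add_smul, DN_alg,
      zero_smul]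
  rw [h4, norm_zero] at h3
  have := mul_pos hc hen'
  linarith

end Pool.Agent.UBS
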