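import Mathlib

/-!
# UBS / CA: the complex analytic step

`Res E I z G`: the matrix `G` is the two-sided inverse on `I` of the matrix `E - z`.

`res_unique`: left inverse = right inverse (finite sums).

`ca_step` (main).  Induction on `I` (`Finset.induction_on`), for all subsets of `N`.
`I = ∅`: `G = 0`.  Step `J = insert n I`, `G` for `I`.  Put
`s z = E n n - z - ∑ m ∈ I, ∑ l ∈ I, E n m * G z m l * E l n`, which is `DiffContOnCl` on the ball.
On the circle let `G'` be the inverse on `J` given by `H`: its column `w m = G' m n` satisfies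
`w l = - ∑ k ∈ I, G z l k * E k n * w n` for `l ∈ I` (apply the left inverse `G z` of `E - z` on
`I`), and the row `n` gives `s z * w n = 1`; since `‖w n + 1 / z‖ ≤ 1/12` and `1/2 ≤ ‖z‖ ≤ 3/2`,
`s z = 1 / w n`, so `s z + z = z (1 + z w n) * (- ... )`: with `w n = - 1 / z + η`, `‖η‖ ≤ 1/12`,
`s z + z = - z ^ 2 η / (1 - z η)` and `‖s z + z‖ ≤ (9/4)(1/12)/(1 - 1/8) ≤ 1/4`.
By the maximum modulus principle (`Complex.norm_le_of_forall_mem_frontier_norm_le`)
`‖s z + z‖ ≤ 1/4` on the closed ball, so `‖s z‖ ≥ ‖z‖ - 1/4 ≥ 1/4`, `s z ≠ 0`.  Define the new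
inverse by the block formula (for `m, l ∈ I`, with `s = s z`, `G = G z`)
`m l ↦ G m l + (∑ k, G m k E k n) (∑ k, E n k G k l) / s`, `m n ↦ - (∑ k, G m k E k n) / s`,
`n l ↦ - (∑ k, E n k G k l) / s`, `n n ↦ 1 / s`.  Entries outside `J` may be put equal to `0`.
`DiffContOnCl` is stable under sums, products and inverses of functions not vanishing on the
closure (`DiffContOnCl.inv`).

`ca_bound`: maximum modulus principle for a finite linear combination of the entries.
-/

set_option autoImplicit false

open Filter Topology Function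

namespace Pool.Agent.UBS

/-- `G` is the two-sided inverse of `E - z` on the finite set `I`. -/
def Res {ι : Type*} [DecidableEq ι] (E : ι → ι → ℂ) (I : Finset ι) (z : ℂ) (G : ι → ι → ℂ) :
    Prop :=
  (∀ n ∈ I, ∀ l ∈ I, ∑ m ∈ I, (E n m - if n = m then z else 0) * G m l =
      if n = l then 1 else 0) ∧
    ∀ n ∈ I, ∀ l ∈ I, ∑ m ∈ I, G n m * (E m l - if m = l then z else 0) =
      if n = l then 1 else 0

theorem res_unique {ι : Type*} [DecidableEq ι] {E : ι → ι → ℂ} {I : Finset ι} {z : ℂ}
    {G G' : ι → ι → ℂ} (h : Res E I z G) (h' : Res E I z G') :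
    ∀ n ∈ I, ∀ l ∈ I, G n l = G' n l := by
  intro n hn l hl
  have e1 : G n l = ∑ m ∈ I, G n m * (if m = l then 1 else 0) := by
    rw [Finset.sum_eq_single l]
    · simp
    · intro m _ hm
      rw [if_neg hm, mul_zero]
    · intro h2
      exact absurd hl h2
  have e2 : G' n l = ∑ m ∈ I, (if n = m then 1 else 0) * G' m l := by
    rw [Finset.sum_eq_single n]
    · simp
    · intro m _ hm
      rw [if_neg (Ne.symm hm), zero_mul]
    · intro h2
      exact absurd hn h2
  have e3 : ∀ m ∈ I, G n m * (if m = l then 1 else 0) =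
      ∑ k ∈ I, G n m * ((E m k - if m = k then z else 0) * G' k l) := by
    intro m hm
    rw [← Finset.mul_sum, h'.1 m hm l hl]
  have e4 : ∀ k ∈ I, (if n = k then 1 else 0) * G' k l =
      ∑ m ∈ I, G n m * ((E m k - if m = k then z else 0) * G' k l) := by
    intro k hk
    rw [← h.2 n hn k hk, Finset.sum_mul]
    refine Finset.sum_congr rfl (fun m _ => ?_)
    ring
  rw [e1, e2, Finset.sum_congr rfl e3, Finset.sum_congr rfl e4, Finset.sum_comm]

private theorem dc_mul51 {f g : ℂ → ℂ} {U : Set ℂ} (hf : DiffContOnCl ℂ f U)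
    (hg : DiffContOnCl ℂ g U) : DiffContOnCl ℂ (fun z => f z * g z) U :=
  ⟨hf.1.mul hg.1, hf.2.mul hg.2⟩

private theorem dc_sum51 {ι : Type*} (I : Finset ι) {f : ι → ℂ → ℂ} {U : Set ℂ}
    (hf : ∀ i ∈ I, DiffContOnCl ℂ (f i) U) : DiffContOnCl ℂ (fun z => ∑ i ∈ I, f i z) U := by
  refine ⟨?_, ?_⟩
  · exact DifferentiableOn.fun_sum (fun i hi => (hf i hi).1)
  · exact continuousOn_finsetSum _ (fun i hi => (hf i hi).2)

/-- the Schur complement -/
private noncomputable def sch51 {ι : Type*} (E : ι → ι → ℂ) (I : Finset ι) (n : ι) (G : ι → ι → ℂ) (z : ℂ) : ℂ :=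
  E n n - z - ∑ m ∈ I, ∑ l ∈ I, E n m * G m l * E l n

private theorem sch_row51 {ι : Type*} [DecidableEq ι] {E : ι → ι → ℂ} {I : Finset ι} {n : ι}
    (hn : n ∉ I) {z : ℂ} {G G' : ι → ι → ℂ} (hG : Res E I z G) (hG' : Res E (insert n I) z G') :
    sch51 E I n G z * G' n n = 1 := by
  have hw : ∀ l ∈ I, G' l n = - ∑ k ∈ I, G l k * E k n * G' n n := by
    intro l hl
    have e1 : ∀ i ∈ I, E i n * G' n n + ∑ m ∈ I, (E i m - if i = m then z else 0) * G' m n = 0 := by
      intro i hi
      have hin : i ≠ n := fun h => hn (h ▸ hi)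
      have := hG'.1 i (Finset.mem_insert_of_mem hi) n (Finset.mem_insert_self n I)
      rw [Finset.sum_insert hn, if_neg hin, if_neg hin, sub_zero] at this
      exact this
    have e2 : ∑ i ∈ I, G l i * (E i n * G' n n +
        ∑ m ∈ I, (E i m - if i = m then z else 0) * G' m n) = 0 :=
      Finset.sum_eq_zero (fun i hi => by rw [e1 i hi, mul_zero])
    have e3 : ∑ i ∈ I, G l i * (E i n * G' n n +
        ∑ m ∈ I, (E i m - if i = m then z else 0) * G' m n) =
        ∑ i ∈ I, G l i * E i n * G' n n + G' l n := by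
      have e4 : ∀ i ∈ I, G l i * (E i n * G' n n +
        ∑ m ∈ I, (E i m - if i = m then z else 0) * G' m n) =
        G l i * E i n * G' n n +
          ∑ m ∈ I, G l i * (E i m - if i = m then z else 0) * G' m n := by
        intro i _
        rw [mul_add, Finset.mul_sum]
        congr 1
        · ring
        · exact Finset.sum_congr rfl (fun m _ => by ring)
      rw [Finset.sum_congr rfl e4, Finset.sum_add_distrib]
      congr 1
      rw [Finset.sum_comm]
      have e5 : ∀ m ∈ I, ∑ i ∈ I, G l i * (E i m - if i = m then z else 0) * G' m n =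
          (if l = m then 1 else 0) * G' m n := by
        intro m hm
        rw [← Finset.sum_mul, hG.2 l hl m hm]
      rw [Finset.sum_congr rfl e5, Finset.sum_eq_single l]
      · simp
      · intro m _ hm
        rw [if_neg (Ne.symm hm), zero_mul]
      · intro h
        exact absurd hl h
    rw [e3] at e2
    linear_combination e2
  have hr := hG'.1 n (Finset.mem_insert_self n I) n (Finset.mem_insert_self n I)
  rw [Finset.sum_insert hn, if_pos rfl, if_pos rfl] at hr
  have e6 : ∑ m ∈ I, (E n m - if n = m then z else 0) * G' m n =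
      - ∑ m ∈ I, ∑ l ∈ I, E n m * G m l * E l n * G' n n := by
    rw [← Finset.sum_neg_distrib]
    refine Finset.sum_congr rfl (fun m hm => ?_)
    have hnm : n ≠ m := fun h => hn (h ▸ hm)
    rw [if_neg hnm, sub_zero, hw m hm, mul_neg, Finset.mul_sum]
    congr 1
    exact Finset.sum_congr rfl (fun k _ => by ring)
  rw [e6] at hr
  rw [sch51, sub_mul, Finset.sum_mul]
  have e7 : ∀ m ∈ I, (∑ l ∈ I, E n m * G m l * E l n) * G' n n =
      ∑ l ∈ I, E n m * G m l * E l n * G' n n := fun m _ => Finset.sum_mul _ _ _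
  rw [Finset.sum_congr rfl e7]
  linear_combination hr

private theorem sch_bd51 {z s w : ℂ} (hz : ‖z - 1‖ = 1 / 2) (hs : s * w = 1)
    (hw : ‖w + 1 / z‖ ≤ 1 / 12) : ‖s + z‖ ≤ 1 / 4 := by
  have h1 : ‖z‖ ≤ 3 / 2 := by
    have : ‖z‖ ≤ ‖z - 1‖ + ‖(1 : ℂ)‖ := by
      have := norm_add_le (z - 1) (1 : ℂ)
      rwa [sub_add_cancel] at this
    rw [hz, norm_one] at this
    linarith
  have h2 : 1 / 2 ≤ ‖z‖ := by
    have : ‖(1 : ℂ)‖ ≤ ‖z‖ + ‖z - 1‖ := by
      have := norm_sub_le z (z - 1)
      rwa [sub_sub_cancel] at this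
    rw [hz, norm_one] at this
    linarith
  have hz0 : z ≠ 0 := by
    intro h
    rw [h, norm_zero] at h2
    linarith
  have hw0 : w ≠ 0 := by
    intro h
    rw [h, mul_zero] at hs
    exact zero_ne_one hs
  have h3 : (s + z) * w = z * (w + 1 / z) := by
    have : z * (1 / z) = 1 := mul_one_div_cancel hz0
    linear_combination hs - this
  have h4 : ‖s + z‖ * ‖w‖ ≤ ‖z‖ / 12 := by
    rw [← norm_mul, h3, norm_mul]
    have := mul_le_mul_of_nonneg_left hw (norm_nonneg z)
    linarith
  have h5 : 1 / ‖z‖ - 1 / 12 ≤ ‖w‖ := by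
    have : ‖(1 : ℂ) / z‖ ≤ ‖w + 1 / z‖ + ‖w‖ := by
      have := norm_sub_le (w + 1 / z) w
      rwa [add_sub_cancel_left] at this
    rw [norm_div, norm_one] at this
    linarith
  have h6 : 2 / 3 ≤ 1 / ‖z‖ := by
    rw [le_div_iff₀ (by linarith)]
    linarith
  have h7 : 7 / 12 ≤ ‖w‖ := by linarith
  have h8 : ‖s + z‖ * (7 / 12) ≤ ‖s + z‖ * ‖w‖ := mul_le_mul_of_nonneg_left h7 (norm_nonneg _)
  linarith

/-- the new inverse -/
private noncomputable def newG51 {ι : Type*} [DecidableEq ι] (E : ι → ι → ℂ) (I : Finset ι) (n : ι)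
    (G : ι → ι → ℂ) (z : ℂ) (i j : ι) : ℂ :=
  (if i = n ∨ j = n then 0 else G i j) +
    (if i = n then 1 else - ∑ k ∈ I, G i k * E k n) *
    (if j = n then 1 else - ∑ k ∈ I, E n k * G k j) * (sch51 E I n G z)⁻¹

private theorem newG_res51 {ι : Type*} [DecidableEq ι] {E : ι → ι → ℂ} {I : Finset ι} {n : ι}
    (hn : n ∉ I) {z : ℂ} {G : ι → ι → ℂ} (hG : Res E I z G) (hs : sch51 E I n G z ≠ 0) :
    Res E (insert n I) z (newG51 E I n G z) := by
  set s := sch51 E I n G z with hsdef
  have hss : s * s⁻¹ = 1 := mul_inv_cancel₀ hs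
  constructor
  · intro i hi l hl
    rw [Finset.sum_insert hn]
    have a1 : ∑ m ∈ I, (E i m - if i = m then z else 0) * newG51 E I n G z m l =
        (if l = n then 0 else ∑ m ∈ I, (E i m - if i = m then z else 0) * G m l) -
        (∑ m ∈ I, (E i m - if i = m then z else 0) * ∑ k ∈ I, G m k * E k n) *
          (if l = n then 1 else - ∑ k ∈ I, E n k * G k l) * s⁻¹ := by
      have a2 : ∀ m ∈ I, (E i m - if i = m then z else 0) * newG51 E I n G z m l =
          (E i m - if i = m then z else 0) * (if l = n then 0 else G m l) -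
          ((E i m - if i = m then z else 0) * ∑ k ∈ I, G m k * E k n) *
          ((if l = n then 1 else - ∑ k ∈ I, E n k * G k l) * s⁻¹) := by
        intro m hm
        have hmn : m ≠ n := fun h => hn (h ▸ hm)
        simp only [newG51, hmn, false_or, if_false, ← hsdef]
        ring
      rw [Finset.sum_congr rfl a2, Finset.sum_sub_distrib, ← Finset.sum_mul]
      rw [mul_assoc]
      congr 1
      split_ifs with h
      · exact Finset.sum_eq_zero (fun m _ => mul_zero _)
      · rfl
    rw [a1]
    have a3 : newG51 E I n G z n l = (if l = n then 1 else - ∑ k ∈ I, E n k * G k l) * s⁻¹ := by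
      simp only [newG51, true_or, if_true, ← hsdef]
      ring
    rw [a3]
    rcases Finset.mem_insert.1 hi with hin | hiI
    · subst hin
      have a4 : ∑ m ∈ I, (E i m - if i = m then z else 0) * ∑ k ∈ I, G m k * E k i =
          ∑ m ∈ I, ∑ l ∈ I, E i m * G m l * E l i := by
        refine Finset.sum_congr rfl (fun m hm => ?_)
        have him : i ≠ m := fun h => hn (h ▸ hm)
        rw [if_neg him, sub_zero, Finset.mul_sum]
        exact Finset.sum_congr rfl (fun k _ => by ring)
      rw [a4, if_pos rfl]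
      have a5 : E i i - z - ∑ m ∈ I, ∑ l ∈ I, E i m * G m l * E l i = s := rfl
      by_cases hli : l = i
      · subst hli
        simp only [if_true]
        linear_combination hss + s⁻¹ * a5
      · have hil : i ≠ l := fun h => hli h.symm
        simp only [hli, hil, if_false]
        have a6 : ∑ m ∈ I, (E i m - if i = m then z else 0) * G m l = ∑ k ∈ I, E i k * G k l := by
          refine Finset.sum_congr rfl (fun m hm => ?_)
          have him : i ≠ m := fun h => hn (h ▸ hm)
          rw [if_neg him, sub_zero]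
        rw [a6]
        linear_combination (- ∑ k ∈ I, E i k * G k l) * hss +
          (- ∑ k ∈ I, E i k * G k l) * s⁻¹ * a5
    · have hin : i ≠ n := fun h => hn (h ▸ hiI)
      have a4 : ∑ m ∈ I, (E i m - if i = m then z else 0) * ∑ k ∈ I, G m k * E k n = E i n := by
        have a5 : ∀ m ∈ I, (E i m - if i = m then z else 0) * ∑ k ∈ I, G m k * E k n =
            ∑ k ∈ I, (E i m - if i = m then z else 0) * G m k * E k n := by
          intro m _
          rw [Finset.mul_sum]
          exact Finset.sum_congr rfl (fun k _ => by ring)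
        rw [Finset.sum_congr rfl a5, Finset.sum_comm]
        have a6 : ∀ k ∈ I, ∑ m ∈ I, (E i m - if i = m then z else 0) * G m k * E k n =
            (if i = k then 1 else 0) * E k n := by
          intro k hk
          rw [← Finset.sum_mul, hG.1 i hiI k hk]
        rw [Finset.sum_congr rfl a6, Finset.sum_eq_single i]
        · simp
        · intro m _ hm
          rw [if_neg (Ne.symm hm), zero_mul]
        · intro h
          exact absurd hiI h
      rw [a4]
      simp only [hin, if_false, sub_zero]
      rcases Finset.mem_insert.1 hl with hln | hlI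
      · subst hln
        simp only [if_true, hin, if_false]
        ring
      · have hln : l ≠ n := fun h => hn (h ▸ hlI)
        simp only [hln, if_false]
        rw [hG.1 i hiI l hlI]
        ring
  · intro i hi l hl
    rw [Finset.sum_insert hn]
    have a1 : ∑ m ∈ I, newG51 E I n G z i m * (E m l - if m = l then z else 0) =
        (if i = n then 0 else ∑ m ∈ I, G i m * (E m l - if m = l then z else 0)) -
        (if i = n then 1 else - ∑ k ∈ I, G i k * E k n) * s⁻¹ *
        (∑ m ∈ I, (∑ k ∈ I, E n k * G k m) * (E m l - if m = l then z else 0)) := by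
      have a2 : ∀ m ∈ I, newG51 E I n G z i m * (E m l - if m = l then z else 0) =
          (if i = n then 0 else G i m) * (E m l - if m = l then z else 0) -
          (if i = n then 1 else - ∑ k ∈ I, G i k * E k n) * s⁻¹ *
          ((∑ k ∈ I, E n k * G k m) * (E m l - if m = l then z else 0)) := by
        intro m hm
        have hmn : m ≠ n := fun h => hn (h ▸ hm)
        simp only [newG51, hmn, or_false, if_false, ← hsdef]
        ring
      rw [Finset.sum_congr rfl a2, Finset.sum_sub_distrib, ← Finset.mul_sum]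
      congr 1
      split_ifs with h
      · exact Finset.sum_eq_zero (fun m _ => zero_mul _)
      · rfl
    rw [a1]
    have a3 : newG51 E I n G z i n = (if i = n then 1 else - ∑ k ∈ I, G i k * E k n) * s⁻¹ := by
      simp only [newG51, or_true, if_true, ← hsdef]
      ring
    rw [a3]
    rcases Finset.mem_insert.1 hl with hln | hlI
    · subst hln
      have a4 : ∑ m ∈ I, (∑ k ∈ I, E l k * G k m) * (E m l - if m = l then z else 0) =
          ∑ m ∈ I, ∑ l' ∈ I, E l m * G m l' * E l' l := by
        have a5 : ∀ m ∈ I, (∑ k ∈ I, E l k * G k m) * (E m l - if m = l then z else 0) =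
            ∑ k ∈ I, E l k * G k m * E m l := by
          intro m hm
          have hml : m ≠ l := fun h => hn (h ▸ hm)
          rw [if_neg hml, sub_zero, Finset.sum_mul]
        rw [Finset.sum_congr rfl a5, Finset.sum_comm]
      rw [a4, if_pos rfl]
      have a5 : E l l - z - ∑ m ∈ I, ∑ l' ∈ I, E l m * G m l' * E l' l = s := rfl
      by_cases hli : i = l
      · subst hli
        simp only [if_true]
        linear_combination hss + s⁻¹ * a5
      · simp only [hli, if_false]
        have a6 : ∑ m ∈ I, G i m * (E m l - if m = l then z else 0) = ∑ k ∈ I, G i k * E k l := by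
          refine Finset.sum_congr rfl (fun m hm => ?_)
          have hml : m ≠ l := fun h => hn (h ▸ hm)
          rw [if_neg hml, sub_zero]
        rw [a6]
        linear_combination (- ∑ k ∈ I, G i k * E k l) * hss +
          (- ∑ k ∈ I, G i k * E k l) * s⁻¹ * a5
    · have hln : l ≠ n := fun h => hn (h ▸ hlI)
      have hnl : n ≠ l := fun h => hln h.symm
      have a4 : ∑ m ∈ I, (∑ k ∈ I, E n k * G k m) * (E m l - if m = l then z else 0) = E n l := by
        have a5 : ∀ m ∈ I, (∑ k ∈ I, E n k * G k m) * (E m l - if m = l then z else 0) =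
            ∑ k ∈ I, E n k * (G k m * (E m l - if m = l then z else 0)) := by
          intro m _
          rw [Finset.sum_mul]
          exact Finset.sum_congr rfl (fun k _ => by ring)
        rw [Finset.sum_congr rfl a5, Finset.sum_comm]
        have a6 : ∀ k ∈ I, ∑ m ∈ I, E n k * (G k m * (E m l - if m = l then z else 0)) =
            E n k * (if k = l then 1 else 0) := by
          intro k hk
          rw [← Finset.mul_sum, hG.2 k hk l hlI]
        rw [Finset.sum_congr rfl a6, Finset.sum_eq_single l]
        · simp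
        · intro m _ hm
          rw [if_neg hm, mul_zero]
        · intro h
          exact absurd hlI h
      rw [a4]
      simp only [hnl, if_false, sub_zero]
      rcases Finset.mem_insert.1 hi with hin | hiI
      · subst hin
        simp only [if_true, hnl, if_false]
        ring
      · have hin : i ≠ n := fun h => hn (h ▸ hiI)
        simp only [hin, if_false]
        rw [hG.2 i hiI l hlI]
        ring

theorem ca_step {ι : Type*} [DecidableEq ι] (E : ι → ι → ℂ) (N : Set ι)
    (H : ∀ I : Finset ι, (I : Set ι) ⊆ N → ∀ z : ℂ, ‖z - 1‖ = 1 / 2 →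
      ∃ G, Res E I z G ∧ ∀ n ∈ I, ‖G n n + 1 / z‖ ≤ 1 / 12)
    (I : Finset ι) (hI : (I : Set ι) ⊆ N) :
    ∃ G : ℂ → ι → ι → ℂ, (∀ z ∈ Metric.closedBall (1 : ℂ) (1 / 2), Res E I z (G z)) ∧
      ∀ n m, DiffContOnCl ℂ (fun z => G z n m) (Metric.ball (1 : ℂ) (1 / 2)) := by
  induction I using Finset.induction_on with
  | empty =>
    refine ⟨fun _ _ _ => 0, fun z _ => ⟨?_, ?_⟩, fun n m => diffContOnCl_const⟩
    · intro n hn
      simp at hn
    · intro n hn
      simp at hn
  | insert n I hn ih =>
    obtain ⟨G, hG, hd⟩ := ih (fun x hx => hI (by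
      rw [Finset.coe_insert]
      exact Set.mem_insert_of_mem _ hx))
    have hcl : closure (Metric.ball (1 : ℂ) (1 / 2)) = Metric.closedBall (1 : ℂ) (1 / 2) :=
      closure_ball _ (by norm_num)
    have hsd : DiffContOnCl ℂ (fun z => sch51 E I n (G z) z) (Metric.ball (1 : ℂ) (1 / 2)) := by
      have h1 : DiffContOnCl ℂ (fun z : ℂ => E n n - z) (Metric.ball (1 : ℂ) (1 / 2)) :=
        (differentiable_id.diffContOnCl).const_sub (E n n)
      have h2 : DiffContOnCl ℂ (fun z : ℂ => ∑ m ∈ I, ∑ l ∈ I, E n m * G z m l * E l n)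
          (Metric.ball (1 : ℂ) (1 / 2)) := by
        refine dc_sum51 I (fun m _ => dc_sum51 I (fun l _ => ?_))
        exact dc_mul51 (dc_mul51 diffContOnCl_const (hd m l)) diffContOnCl_const
      exact h1.sub h2
    have hfr : ∀ z ∈ frontier (Metric.ball (1 : ℂ) (1 / 2)), ‖sch51 E I n (G z) z + z‖ ≤ 1 / 4 := by
      intro z hz
      rw [frontier_ball _ (by norm_num)] at hz
      have hz1 : ‖z - 1‖ = 1 / 2 := by
        rw [mem_sphere_iff_norm] at hz
        exact hz
      obtain ⟨G', hG', hb⟩ := H (insert n I) hI z hz1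
      have hz2 : z ∈ Metric.closedBall (1 : ℂ) (1 / 2) := by
        rw [mem_closedBall_iff_norm]
        exact hz1.le
      exact sch_bd51 hz1 (sch_row51 hn (hG z hz2) hG') (hb n (Finset.mem_insert_self n I))
    have hs0 : ∀ z ∈ Metric.closedBall (1 : ℂ) (1 / 2), sch51 E I n (G z) z ≠ 0 := by
      intro z hz h0
      have h1 : DiffContOnCl ℂ (fun z => sch51 E I n (G z) z + z) (Metric.ball (1 : ℂ) (1 / 2)) :=
        hsd.add differentiable_id.diffContOnCl
      have h2 := Complex.norm_le_of_forall_mem_frontier_norm_le Metric.isBounded_ball h1 hfr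
        (hcl ▸ hz)
      rw [h0, zero_add] at h2
      rw [mem_closedBall_iff_norm] at hz
      have h3 : ‖(1 : ℂ)‖ ≤ ‖z‖ + ‖z - 1‖ := by
        have := norm_sub_le z (z - 1)
        rwa [sub_sub_cancel] at this
      rw [norm_one] at h3
      linarith
    have hsi : DiffContOnCl ℂ (fun z => (sch51 E I n (G z) z)⁻¹) (Metric.ball (1 : ℂ) (1 / 2)) := by
      refine DiffContOnCl.inv hsd (fun z hz => ?_)
      rw [hcl] at hz
      exact hs0 z hz
    refine ⟨fun z => newG51 E I n (G z) z, fun z hz => newG_res51 hn (hG z hz) (hs0 z hz), ?_⟩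
    intro i j
    have h1 : DiffContOnCl ℂ (fun z : ℂ => if i = n ∨ j = n then 0 else G z i j)
        (Metric.ball (1 : ℂ) (1 / 2)) := by
      by_cases h : i = n ∨ j = n
      · simp only [h, if_true]
        exact diffContOnCl_const
      · simp only [h, if_false]
        exact hd i j
    have h2 : DiffContOnCl ℂ (fun z : ℂ => if i = n then 1 else - ∑ k ∈ I, G z i k * E k n)
        (Metric.ball (1 : ℂ) (1 / 2)) := by
      by_cases h : i = n
      · simp only [h, if_true]
        exact diffContOnCl_const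
      · simp only [h, if_false]
        exact (dc_sum51 I (fun k _ => dc_mul51 (hd i k) diffContOnCl_const)).neg
    have h3 : DiffContOnCl ℂ (fun z : ℂ => if j = n then 1 else - ∑ k ∈ I, E n k * G z k j)
        (Metric.ball (1 : ℂ) (1 / 2)) := by
      by_cases h : j = n
      · simp only [h, if_true]
        exact diffContOnCl_const
      · simp only [h, if_false]
        exact (dc_sum51 I (fun k _ => dc_mul51 diffContOnCl_const (hd k j))).neg
    exact h1.add (dc_mul51 (dc_mul51 h2 h3) hsi)

theorem ca_bound {ι : Type*} (I : Finset ι) (G : ℂ → ι → ι → ℂ)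
    (hG : ∀ n m, DiffContOnCl ℂ (fun z => G z n m) (Metric.ball (1 : ℂ) (1 / 2)))
    (x y : ι → ℂ) (B : ℝ)
    (hB : ∀ z : ℂ, ‖z - 1‖ = 1 / 2 → ‖∑ n ∈ I, ∑ l ∈ I, x n * G z n l * y l‖ ≤ B)
    (z : ℂ) (hz : ‖z - 1‖ ≤ 1 / 2) : ‖∑ n ∈ I, ∑ l ∈ I, x n * G z n l * y l‖ ≤ B := by
  have h1 : DiffContOnCl ℂ (fun z => ∑ n ∈ I, ∑ l ∈ I, x n * G z n l * y l)
      (Metric.ball (1 : ℂ) (1 / 2)) :=
    dc_sum51 I (fun n _ => dc_sum51 I (fun l _ =>
      dc_mul51 (dc_mul51 diffContOnCl_const (hG n l)) diffContOnCl_const))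
  refine Complex.norm_le_of_forall_mem_frontier_norm_le Metric.isBounded_ball h1 ?_ ?_
  · intro w hw
    rw [frontier_ball _ (by norm_num), mem_sphere_iff_norm] at hw
    exact hB w hw
  · rw [closure_ball _ (by norm_num), mem_closedBall_iff_norm]
    exact hz

end Pool.Agent.UBS
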