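import Mathlib
import Pool.Agent.UBS.Base

/-!
# UBS / LOW: the lower triangular part of an operator on sparse blocks

`L = ∑_{l < k} M (I k) T M (I l)`: the family of operators indexed by `ℕ × ℕ` (zero unless
`l < k`) is dominated by `δ (1/2)^(k + 1) (1/2)^(l + 1)`, summable with sum `δ`; `L = tsum`.
Multiply the sum by `M (I j)` on the left and `M (I i)` on the right
(`ContinuousLinearMap`/`HasSum.mul_left`...): only one term survives.
-/

set_option autoImplicit false

open Filter Topology Function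

namespace Pool.Agent.UBS

variable {𝕜 : Type*} [RCLike 𝕜] {U : Type*} [NormedAddCommGroup U] [NormedSpace 𝕜 U]
  [CompleteSpace U] {ι : Type*}

theorem exists_lower (b : UB 𝕜 ι U) (T : U →L[𝕜] U) (I : ℕ → Set ι)
    (hd : Pairwise (Disjoint on I)) {δ : ℝ} (hδ : 0 ≤ δ)
    (h : ∀ l k, l < k → ‖b.M (I k) * T * b.M (I l)‖ ≤ δ * ((1 / 2) ^ (k + 1) * (1 / 2) ^ (l + 1))) :
    ∃ L : U →L[𝕜] U, ‖L‖ ≤ δ ∧ (∀ i j, b.M (I j) * L * b.M (I i) =
        if i < j then b.M (I j) * T * b.M (I i) else 0) ∧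
      b.M (⋃ k, I k) * L = L ∧ L * b.M (⋃ k, I k) = L := by
  classical
  let F : ℕ × ℕ → U →L[𝕜] U := fun p => if p.1 < p.2 then b.M (I p.2) * T * b.M (I p.1) else 0
  have hgeo : HasSum (fun n : ℕ => (1 / 2 : ℝ) ^ (n + 1)) 1 := by
    have h1 := (hasSum_geometric_two).mul_left (1 / 2 : ℝ)
    have h2 : (fun n : ℕ => (1 / 2 : ℝ) ^ (n + 1)) = fun n => 1 / 2 * (1 / 2 : ℝ) ^ n :=
      funext fun n => by rw [pow_succ]; ring
    rw [h2]
    simpa using h1
  have hprod : HasSum (fun p : ℕ × ℕ => (1 / 2 : ℝ) ^ (p.1 + 1) * (1 / 2) ^ (p.2 + 1)) (1 * 1) :=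
    hgeo.mul hgeo (hgeo.summable.mul_of_nonneg hgeo.summable
      (fun n => by positivity) (fun n => by positivity))
  have hg : HasSum (fun p : ℕ × ℕ => δ * ((1 / 2 : ℝ) ^ (p.1 + 1) * (1 / 2) ^ (p.2 + 1))) δ := by
    simpa using hprod.mul_left δ
  have hF : ∀ p, ‖F p‖ ≤ δ * ((1 / 2 : ℝ) ^ (p.1 + 1) * (1 / 2) ^ (p.2 + 1)) := by
    rintro ⟨l, k⟩
    simp only [F]
    split_ifs with hlk
    · have := h l k hlk
      rwa [mul_comm ((1 / 2 : ℝ) ^ (k + 1))] at this
    · rw [norm_zero]; positivity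
  have hs : Summable F := Summable.of_norm_bounded hg.summable hF
  have hsum := hs.hasSum
  refine ⟨∑' p, F p, tsum_of_norm_bounded hg hF, fun i j => ?_, ?_, ?_⟩
  · have h1 := (hsum.mul_left (b.M (I j))).mul_right (b.M (I i))
    have h2 : HasSum (fun p => b.M (I j) * F p * b.M (I i)) (b.M (I j) * F (i, j) * b.M (I i)) := by
      refine hasSum_single (i, j) ?_
      rintro ⟨l, k⟩ hne
      simp only [F]
      split_ifs with hlk
      · by_cases hk : j = k
        · by_cases hl : l = i
          · subst hk; subst hl; exact absurd rfl hne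
          · have h3 : b.M (I l) * b.M (I i) = 0 := b.M_mul_disj (hd hl)
            calc b.M (I j) * (b.M (I k) * T * b.M (I l)) * b.M (I i)
                = b.M (I j) * (b.M (I k) * T) * (b.M (I l) * b.M (I i)) := by noncomm_ring
              _ = 0 := by rw [h3, mul_zero]
        · have h3 : b.M (I j) * b.M (I k) = 0 := b.M_mul_disj (hd hk)
          calc b.M (I j) * (b.M (I k) * T * b.M (I l)) * b.M (I i)
              = (b.M (I j) * b.M (I k)) * (T * b.M (I l) * b.M (I i)) := by noncomm_ring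
            _ = 0 := by rw [h3, zero_mul]
      · rw [mul_zero, zero_mul]
    rw [h1.unique h2]
    simp only [F]
    split_ifs with hij
    · calc b.M (I j) * (b.M (I j) * T * b.M (I i)) * b.M (I i)
          = (b.M (I j) * b.M (I j)) * T * (b.M (I i) * b.M (I i)) := by noncomm_ring
        _ = b.M (I j) * T * b.M (I i) := by rw [b.M_idem, b.M_idem]
    · rw [mul_zero, zero_mul]
  · have h1 := hsum.mul_left (b.M (⋃ k, I k))
    have h2 : (fun p => b.M (⋃ k, I k) * F p) = F := by
      funext ⟨l, k⟩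
      simp only [F]
      split_ifs with hlk
      · rw [← mul_assoc, ← mul_assoc, b.M_mul_of_superset (Set.subset_iUnion I k)]
      · rw [mul_zero]
    rw [h2] at h1
    exact h1.unique hsum
  · have h1 := hsum.mul_right (b.M (⋃ k, I k))
    have h2 : (fun p => F p * b.M (⋃ k, I k)) = F := by
      funext ⟨l, k⟩
      simp only [F]
      split_ifs with hlk
      · rw [mul_assoc, b.M_mul_of_subset (Set.subset_iUnion I l)]
      · rw [zero_mul]
    rw [h2] at h1
    exact h1.unique hsum

end Pool.Agent.UBS
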