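import Mathlib
import Pool.Agent.UBS.Base
import Pool.Agent.UBS.AVG
import Pool.Agent.UBS.BDL
import Pool.Agent.UBS.CTM

/-!
# UBS / LT: inverses of the diagonal blocks of a block upper triangular operator

`Z = ⋃ k, I k`, `V n = ⋃ k ∈ range n, I k` (finite set), `M k = b.M (I k)`.
`X' = X + (1 - M Z)`.
1. `X` maps the range of `M (V n)` into itself: for `u` with `M (V n) u = u`,
   `X u = M Z X u = ∑ j, M j X u` and `M j X u = ∑_{k < n} M j X M k u = 0` for `j ≥ n`.
2. `X` is injective on this finite dimensional space, hence onto it.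
3. `X` is bounded below by `c` on all `u` with `M Z u = u`: `M (V n) u → u`.  So `X'` is bounded
   below by some `c' > 0` (`x = M Z x + (1 - M Z) x`, `M Z X' x = X (M Z x)`,
   `(1 - M Z) X' x = (1 - M Z) x`).
4. Dense range: the range of `X'` contains the ranges of `M (V n)` and of `1 - M Z`; with
   `UB.approx`.  `isUnit_of_lb`: `X'` is a unit, `Y = X'⁻¹`; by 2. `Y` preserves the ranges of
   `M (V n)`.
5. `R` = block diagonal part of `Y` (`exists_diag`): `R * M k = M k * Y * M k`.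
   For `M k v = v`: `v = M k X' Y v = M k X (Y v)` and `Y v = M (V (k+1)) (Y v)
   = ∑_{j ≤ k} M j Y v`, `M k X M j = 0` for `j < k`: `v = M k X M k Y v = M k (X (R v))`.
   `R (M k (X v)) = M k Y M k X v` and `M k X v = X v - M (V k) X v`,
   `Y X v = v`, `M k Y M (V k) = 0` by 4.: equals `M k v = v`.
-/

set_option autoImplicit false

open Filter Topology Function

namespace Pool.Agent.UBS

variable {𝕜 : Type*} [RCLike 𝕜] {U : Type*} [NormedAddCommGroup U] [NormedSpace 𝕜 U]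
  [CompleteSpace U] {ι : Type*}

/-- The fixed space of `M A`. -/
noncomputable def LT_sub (b : UB 𝕜 ι U) (A : Set ι) : Submodule 𝕜 U :=
  LinearMap.ker ((b.M A : U →L[𝕜] U) - 1).toLinearMap

theorem LT_mem (b : UB 𝕜 ι U) (A : Set ι) (u : U) : u ∈ LT_sub b A ↔ b.M A u = u := by
  unfold LT_sub
  rw [LinearMap.mem_ker]
  simp [sub_eq_zero]

theorem LT_fin (b : UB 𝕜 ι U) {A : Set ι} (hA : A.Finite) :
    FiniteDimensional 𝕜 (LT_sub b A) := by
  classical
  have h1 : FiniteDimensional 𝕜 (Submodule.span 𝕜 (b.e '' A)) :=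
    FiniteDimensional.span_of_finite 𝕜 (hA.image b.e)
  refine Submodule.finiteDimensional_of_le (S₂ := Submodule.span 𝕜 (b.e '' A)) ?_
  intro u hu
  rw [LT_mem] at hu
  obtain ⟨s, rfl⟩ := hA.exists_finset_coe
  rw [← hu, b.M_fin]
  exact Submodule.sum_mem _ fun i hi => Submodule.smul_mem _ _
    (Submodule.subset_span ⟨i, by exact_mod_cast hi, rfl⟩)

theorem LT_maps (b : UB 𝕜 ι U) (I : ℕ → Set ι) (hd : Pairwise (Disjoint on I)) (X : U →L[𝕜] U)
    (hup : ∀ i j, i < j → b.M (I j) * X * b.M (I i) = 0)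
    (hZl : b.M (⋃ k, I k) * X = X) (n : ℕ) {u : U}
    (hu : b.M (⋃ k ∈ Finset.range n, I k) u = u) :
    b.M (⋃ k ∈ Finset.range n, I k) (X u) = X u := by
  have h1 : HasSum (fun k => b.M (I k) (X u)) (X u) := by
    have h := b.hasSum_blocks I hd (X u)
    have h2 : b.M (⋃ k, I k) (X u) = X u := by
      rw [← mul_apply_eq_comp, hZl]
    rwa [h2] at h
  have h2 : ∀ k ∉ Finset.range n, b.M (I k) (X u) = 0 := by
    intro k hk
    have hk' : n ≤ k := by simpa using hk
    have h3 := b.M_finUnion I hd (Finset.range n) u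
    rw [← hu, ← h3, map_sum, map_sum]
    refine Finset.sum_eq_zero fun j hj => ?_
    have hj' : j < n := Finset.mem_range.1 hj
    have h4 := hup j k (lt_of_lt_of_le hj' hk')
    have h5 : (b.M (I k) * X * b.M (I j)) u = 0 := by rw [h4]; rfl
    exact h5
  have h3 : X u = ∑ k ∈ Finset.range n, b.M (I k) (X u) := by
    refine h1.unique ?_
    exact hasSum_sum_of_ne_finset_zero h2
  rw [← b.M_finUnion I hd, ← h3]

theorem LT_tendsto (b : UB 𝕜 ι U) (I : ℕ → Set ι) (hd : Pairwise (Disjoint on I)) (x : U) :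
    Tendsto (fun n => b.M (⋃ k ∈ Finset.range n, I k) x) atTop (𝓝 (b.M (⋃ k, I k) x)) := by
  have h := (b.hasSum_blocks I hd x).tendsto_sum_nat
  refine h.congr fun n => ?_
  rw [b.M_finUnion I hd]

theorem LT_disj (I : ℕ → Set ι) (hd : Pairwise (Disjoint on I)) (k : ℕ) :
    Disjoint (I k) (⋃ j ∈ Finset.range k, I j) := by
  rw [Set.disjoint_iUnion₂_right]
  intro l hl
  exact hd (Ne.symm (ne_of_lt (Finset.mem_range.1 hl)))

theorem LT_succ (b : UB 𝕜 ι U) (I : ℕ → Set ι) (hd : Pairwise (Disjoint on I)) (k : ℕ) (x : U) :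
    b.M (⋃ j ∈ Finset.range (k + 1), I j) x =
      b.M (⋃ j ∈ Finset.range k, I j) x + b.M (I k) x := by
  rw [← b.M_finUnion I hd, ← b.M_finUnion I hd, Finset.sum_range_succ]

theorem lemT (b : UB 𝕜 ι U) (I : ℕ → Set ι) (hfin : ∀ k, (I k).Finite)
    (hd : Pairwise (Disjoint on I)) (X : U →L[𝕜] U) {c : ℝ} (hc : 0 < c)
    (hup : ∀ i j, i < j → b.M (I j) * X * b.M (I i) = 0)
    (hZl : b.M (⋃ k, I k) * X = X) (hZr : X * b.M (⋃ k, I k) = X)
    (hlb : ∀ n v, b.M (⋃ k ∈ Finset.range n, I k) v = v → c * ‖v‖ ≤ ‖X v‖) :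
    ∃ R : U →L[𝕜] U, BD b I R ∧ (∀ k v, b.M (I k) v = v → R (b.M (I k) (X v)) = v) ∧
      ∀ k v, b.M (I k) v = v → b.M (I k) (X (R v)) = v := by
  classical
  have hmaps := fun n {u : U} => LT_maps b I hd X hup hZl n (u := u)
  have hZl' : ∀ u, b.M (⋃ k, I k) (X u) = X u := fun u => by
    rw [← mul_apply_eq_comp, hZl]
  have hZr' : ∀ u, X (b.M (⋃ k, I k) u) = X u := fun u => by
    rw [← mul_apply_eq_comp, hZr]
  have hsub : ∀ n, (⋃ k ∈ Finset.range n, I k) ⊆ ⋃ k, I k := fun n =>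
    Set.iUnion₂_subset fun k _ => Set.subset_iUnion I k
  have hfinV : ∀ n, (⋃ k ∈ Finset.range n, I k).Finite := fun n =>
    (Finset.range n).finite_toSet.biUnion fun k _ => hfin k
  -- onto
  have honto : ∀ n v, b.M (⋃ k ∈ Finset.range n, I k) v = v →
      ∃ u, b.M (⋃ k ∈ Finset.range n, I k) u = u ∧ X u = v := by
    intro n v hv
    have hFD := LT_fin b (hfinV n)
    let S := LT_sub b (⋃ k ∈ Finset.range n, I k)
    have hS : ∀ u ∈ S, X.toLinearMap u ∈ S := by
      intro u hu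
      rw [LT_mem] at hu ⊢
      exact hmaps n hu
    let f : S →ₗ[𝕜] S := X.toLinearMap.restrict hS
    have hinj : Function.Injective f := by
      rw [injective_iff_map_eq_zero]
      intro u hu
      have h1 : X (u : U) = 0 := congrArg Subtype.val hu
      have h2 := hlb n u ((LT_mem b _ _).1 u.2)
      rw [h1, norm_zero] at h2
      have h3 : ‖(u : U)‖ ≤ 0 := by
        by_contra h
        push Not at h
        have := mul_pos hc h
        linarith
      have h4 : (u : U) = 0 := norm_le_zero_iff.1 h3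
      exact Subtype.ext h4
    have hsurj : Function.Surjective f := LinearMap.injective_iff_surjective.1 hinj
    obtain ⟨u, hu⟩ := hsurj ⟨v, (LT_mem b _ _).2 hv⟩
    exact ⟨u, (LT_mem b _ _).1 u.2, congrArg Subtype.val hu⟩
  -- lower bound
  have hlbZ : ∀ u, b.M (⋃ k, I k) u = u → c * ‖u‖ ≤ ‖X u‖ := by
    intro u hu
    have h1 := LT_tendsto b I hd u
    rw [hu] at h1
    have h2 : Tendsto (fun n => X (b.M (⋃ k ∈ Finset.range n, I k) u)) atTop (𝓝 (X u)) :=
      (X.continuous.tendsto u).comp h1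
    refine le_of_tendsto_of_tendsto' (h1.norm.const_mul c) h2.norm fun n => ?_
    refine hlb n _ ?_
    rw [b.M_M, Set.inter_self]
  set X' : U →L[𝕜] U := X + (1 - b.M (⋃ k, I k)) with hX'
  have hX'a : ∀ x, X' x = X x + (x - b.M (⋃ k, I k) x) := fun x => rfl
  have hX'Z : ∀ x, b.M (⋃ k, I k) x = x → X' x = X x := by
    intro x hx
    rw [hX'a, hx, sub_self, add_zero]
  have hMX' : ∀ x, b.M (⋃ k, I k) (X' x) = X (b.M (⋃ k, I k) x) := by
    intro x
    rw [hX'a, map_add, map_sub, b.M_M, Set.inter_self, sub_self, add_zero, hZl', hZr']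
  have hK := b.K_pos
  have hlb' : ∀ x, (b.K / c + 1 + b.K)⁻¹ * ‖x‖ ≤ ‖X' x‖ := by
    intro x
    have h1 : c * ‖b.M (⋃ k, I k) x‖ ≤ b.K * ‖X' x‖ := by
      refine (hlbZ _ (by rw [b.M_M, Set.inter_self])).trans ?_
      rw [← hMX']
      exact b.norm_M_apply_le _ _
    have h2 : ‖x - b.M (⋃ k, I k) x‖ ≤ (1 + b.K) * ‖X' x‖ := by
      have h3 : x - b.M (⋃ k, I k) x = X' x - b.M (⋃ k, I k) (X' x) := by
        rw [hMX', hX'a, hZr']; abel
      rw [h3]
      calc ‖X' x - b.M (⋃ k, I k) (X' x)‖ ≤ ‖X' x‖ + ‖b.M (⋃ k, I k) (X' x)‖ := norm_sub_le _ _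
        _ ≤ ‖X' x‖ + b.K * ‖X' x‖ := by
          gcongr
          exact b.norm_M_apply_le _ _
        _ = (1 + b.K) * ‖X' x‖ := by ring
    have h4 : ‖b.M (⋃ k, I k) x‖ ≤ b.K / c * ‖X' x‖ := by
      rw [div_mul_eq_mul_div, le_div_iff₀ hc, mul_comm]
      exact h1
    have h5 : ‖x‖ ≤ (b.K / c + 1 + b.K) * ‖X' x‖ := by
      have h6 : x = b.M (⋃ k, I k) x + (x - b.M (⋃ k, I k) x) := by abel
      calc ‖x‖ = ‖b.M (⋃ k, I k) x + (x - b.M (⋃ k, I k) x)‖ := by rw [← h6]
        _ ≤ ‖b.M (⋃ k, I k) x‖ + ‖x - b.M (⋃ k, I k) x‖ := norm_add_le _ _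
        _ ≤ b.K / c * ‖X' x‖ + (1 + b.K) * ‖X' x‖ := add_le_add h4 h2
        _ = (b.K / c + 1 + b.K) * ‖X' x‖ := by ring
    rw [inv_mul_eq_div, div_le_iff₀ (by positivity), mul_comm]
    exact h5
  have hdense : DenseRange X' := by
    intro x
    have h1 := (LT_tendsto b I hd x).add_const (x - b.M (⋃ k, I k) x)
    rw [add_sub_cancel] at h1
    refine mem_closure_of_tendsto h1 (Eventually.of_forall fun n => ?_)
    obtain ⟨u, hu1, hu2⟩ := honto n (b.M (⋃ k ∈ Finset.range n, I k) x)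
      (by rw [b.M_M, Set.inter_self])
    refine ⟨u + (x - b.M (⋃ k, I k) x), ?_⟩
    rw [map_add, hX'Z u (b.M_fix_of_subset (hsub n) hu1), hu2]
    congr 1
    rw [hX'a, map_sub, hZr', sub_self, zero_add, map_sub, b.M_M, Set.inter_self, sub_self,
      sub_zero]
  obtain ⟨X'', hX''⟩ := isUnit_of_lb X' (c := (b.K / c + 1 + b.K)⁻¹) (by positivity) hlb' hdense
  set Y : U →L[𝕜] U := ((X''⁻¹ : (U →L[𝕜] U)ˣ) : U →L[𝕜] U) with hY
  have hXY : ∀ v, X' (Y v) = v := by
    intro v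
    have h := congrArg (fun T : U →L[𝕜] U => T v) X''.mul_inv
    rw [hX''] at h
    exact h
  have hYX : ∀ v, Y (X' v) = v := by
    intro v
    have h := congrArg (fun T : U →L[𝕜] U => T v) X''.inv_mul
    rw [hX''] at h
    exact h
  have hYS : ∀ n v, b.M (⋃ k ∈ Finset.range n, I k) v = v →
      b.M (⋃ k ∈ Finset.range n, I k) (Y v) = Y v := by
    intro n v hv
    obtain ⟨u, hu1, hu2⟩ := honto n v hv
    have h1 : X' u = v := by rw [hX'Z u (b.M_fix_of_subset (hsub n) hu1), hu2]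
    have h2 : Y v = u := by rw [← h1, hYX]
    rw [h2, hu1]
  obtain ⟨R, hR1, hR2, _⟩ := exists_diag b I hd Y
  have hR : ∀ k v, b.M (I k) v = v → R v = b.M (I k) (Y v) := by
    intro k v hv
    have h := congrArg (fun T : U →L[𝕜] U => T v) (hR2 k)
    change R (b.M (I k) v) = b.M (I k) (Y (b.M (I k) v)) at h
    rwa [hv] at h
  have hk1 : ∀ k, I k ⊆ ⋃ j ∈ Finset.range (k + 1), I j := fun k =>
    Set.subset_biUnion_of_mem (u := I) (Finset.mem_coe.2 (Finset.self_mem_range_succ k))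
  refine ⟨R, hR1, fun k v hv => ?_, fun k v hv => ?_⟩
  · have hvS := b.M_fix_of_subset (hk1 k) hv
    have hvZ := b.M_fix_of_subset (hsub (k + 1)) hvS
    rw [hR k _ (by rw [b.M_M, Set.inter_self])]
    have h1 := hmaps (k + 1) hvS
    rw [LT_succ b I hd] at h1
    have h2 : b.M (I k) (X v) = X v - b.M (⋃ j ∈ Finset.range k, I j) (X v) :=
      eq_sub_of_add_eq' h1
    rw [h2, map_sub, map_sub, ← hX'Z v hvZ, hYX, hv]
    have h3 := hYS k (b.M (⋃ j ∈ Finset.range k, I j) (X' v)) (by rw [b.M_M, Set.inter_self])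
    rw [b.M_fix_disj (LT_disj I hd k) h3, sub_zero]
  · have hvS := b.M_fix_of_subset (hk1 k) hv
    rw [hR k v hv]
    have h1 := hYS (k + 1) v hvS
    have h1Z := b.M_fix_of_subset (hsub (k + 1)) h1
    rw [LT_succ b I hd] at h1
    have h2 : b.M (I k) (Y v) = Y v - b.M (⋃ j ∈ Finset.range k, I j) (Y v) :=
      eq_sub_of_add_eq' h1
    rw [h2, map_sub, map_sub, ← hX'Z (Y v) h1Z, hXY, hv]
    have h3 := hmaps k (u := b.M (⋃ j ∈ Finset.range k, I j) (Y v))
      (by rw [b.M_M, Set.inter_self])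
    rw [b.M_fix_disj (LT_disj I hd k) h3, sub_zero]

end Pool.Agent.UBS
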