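import Mathlib
import Pool.Agent.UBS.Base
import Pool.Agent.UBS.LT
import Pool.Agent.UBS.LOW
import Pool.Agent.UBS.SEL

/-!
# UBS / LTQ: block diagonal inverses for compressions

`lemTl` (linear).  By `exists_extract`, `tendsto_lower` choose `φ` with
`‖M k X M l‖ ≤ δ (1/2)^(k+1) (1/2)^(l+1)`, `l < k` (sets `I (φ k)`), `K δ ≤ c / 2`.  Let `L` be the
lower part (`exists_lower`), `Z = ⋃ k, I (φ k)`, `X₁ = M Z * X * M Z - L`, block upper triangular:
`M j X₁ M i = 0` for `i < j`, and `M k X₁ M k = M k X M k`.  For `v` with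
`M (V n) v = v`, `V n = ⋃ k ∈ range n, I (φ k)`: `X₁ v = M (V n) X₁ v = M (V n) X v - M (V n) L v`
(upper triangular: `M j X₁ v = 0` for `j ≥ n`), so `‖X₁ v‖ ≥ c ‖v‖ - K δ ‖v‖ ≥ (c/2) ‖v‖`.  `lemT`.

`lemTq` (quadratic).  The same with `E = M Z * P * M Z - L` (block upper triangular) and
`X₁ = qop E z * M Z`: products of block upper triangular operators are block upper triangular with
`M k (E * E) M k = (M k P M k) * (M k P M k)`, so `M k X₁ M k = qop (b.cp P (I (φ k))) z * M k`.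
For `M (V n) v = v`: `E v = M (V n) E v`, `‖E v - b.cp P (V n) v‖ ≤ K δ ‖v‖`, so
`‖X₁ v - qop (b.cp P (V n)) z v‖ ≤ C δ ‖v‖` with `C` depending on `K`, `‖P‖`, `z`; choose `δ`
small: `X₁` is bounded below by `c / 2`.  `lemT` gives `W`; for `M k v = v`
`M k (X₁ v) = qop (b.cp P (I (φ k))) z v`.
-/

set_option autoImplicit false

open Filter Topology Function

namespace Pool.Agent.UBS

variable {𝕜 : Type*} [RCLike 𝕜] {U : Type*} [NormedAddCommGroup U] [NormedSpace 𝕜 U]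
  [CompleteSpace U] {ι : Type*}

private theorem LTQ_setup (b : UB 𝕜 ι U) (I : ℕ → Set ι) (hfin : ∀ k, (I k).Finite)
    (hd : Pairwise (Disjoint on I)) (P : U →L[𝕜] U) {δ : ℝ} (hδ : 0 < δ) :
    ∃ φ : ℕ → ℕ, StrictMono φ ∧ ∃ L : U →L[𝕜] U, ‖L‖ ≤ δ ∧
      (∀ i j, b.M (I (φ j)) * L * b.M (I (φ i)) =
        if i < j then b.M (I (φ j)) * P * b.M (I (φ i)) else 0) ∧
      b.M (⋃ k, I (φ k)) * L = L ∧ L * b.M (⋃ k, I (φ k)) = L := by
  obtain ⟨φ, hφ, h1, _⟩ := exists_extract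
    (fun i j l k => ‖b.M (I k) * P * b.M (I l)‖ ≤ δ * ((1 / 2) ^ (j + 1) * (1 / 2) ^ (i + 1)))
    (fun _ _ => True)
    (fun i j l => by
      have h := tendsto_lower b P I hfin hd l
      have hpos : (0 : ℝ) < δ * ((1 / 2) ^ (j + 1) * (1 / 2) ^ (i + 1)) := by positivity
      exact (h.eventually (ge_mem_nhds hpos)))
    (fun _ => Eventually.of_forall fun _ => trivial)
  have hd' : Pairwise (Disjoint on fun k => I (φ k)) := fun i j hij =>
    hd (hφ.injective.ne hij)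
  obtain ⟨L, hL1, hL2, hL3, hL4⟩ := exists_lower b P (fun k => I (φ k)) hd' hδ.le
    (fun l k hlk => h1 l k hlk)
  exact ⟨φ, hφ, L, hL1, hL2, hL3, hL4⟩

/-- `T` maps the ranges of the `M (V n)` into themselves. -/
private def LTQ_Up (b : UB 𝕜 ι U) (J : ℕ → Set ι) (T : U →L[𝕜] U) : Prop :=
  ∀ n v, b.M (⋃ k ∈ Finset.range n, J k) v = v → b.M (⋃ k ∈ Finset.range n, J k) (T v) = T v

private theorem LTQ_up_of (b : UB 𝕜 ι U) (J : ℕ → Set ι) (hd : Pairwise (Disjoint on J))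
    (T : U →L[𝕜] U) (h : ∀ i j, i < j → b.M (J j) * T * b.M (J i) = 0)
    (hZ : b.M (⋃ k, J k) * T = T) : LTQ_Up b J T := by
  intro n v hv
  refine b.ext fun i => ?_
  by_cases hi : i ∈ ⋃ k ∈ Finset.range n, J k
  · rw [b.c_M_mem hi]
  · rw [b.c_M_not hi]
    have hTv : b.M (⋃ k, J k) (T v) = T v := by
      rw [← mul_apply_eq_comp, hZ]
    by_cases hi2 : i ∈ ⋃ k, J k
    · obtain ⟨j, hj⟩ := Set.mem_iUnion.1 hi2
      have hnj : n ≤ j := by
        by_contra hlt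
        exact hi (Set.mem_biUnion (Finset.mem_coe.2 (Finset.mem_range.2 (not_le.1 hlt))) hj)
      have h1 : b.M (J j) (T v) = 0 := by
        rw [← hv, ← b.M_finUnion J hd, map_sum, map_sum]
        refine Finset.sum_eq_zero fun k hk => ?_
        have h2 := h k j (lt_of_lt_of_le (Finset.mem_range.1 hk) hnj)
        have h3 := congrArg (fun S : U →L[𝕜] U => S v) h2
        simpa only [mul_apply_eq_comp, zero_apply] using h3
      have h4 := b.c_M_mem hj (T v)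
      rw [h1, map_zero] at h4
      exact h4
    · have h4 := b.c_M_not hi2 (T v)
      rw [hTv] at h4
      exact h4.symm

private theorem LTQ_of_up (b : UB 𝕜 ι U) (J : ℕ → Set ι) (hd : Pairwise (Disjoint on J))
    (T : U →L[𝕜] U) (h : LTQ_Up b J T) {i j : ℕ} (hij : i < j) :
    b.M (J j) * T * b.M (J i) = 0 := by
  ext x
  rw [mul_apply_eq_comp, mul_apply_eq_comp, zero_apply]
  have hsub : J i ⊆ ⋃ k ∈ Finset.range (i + 1), J k := by
    intro a ha
    exact Set.mem_biUnion (Finset.mem_coe.2 (Finset.mem_range.2 (Nat.lt_succ_self i))) ha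
  have h1 : b.M (⋃ k ∈ Finset.range (i + 1), J k) (b.M (J i) x) = b.M (J i) x := by
    rw [b.M_M, Set.inter_eq_right.2 hsub]
  rw [← h (i + 1) _ h1]
  refine b.M_M_disj ?_ _
  rw [Set.disjoint_iUnion₂_right]
  intro k hk
  refine hd ?_
  have := Finset.mem_range.1 hk
  omega

private theorem LTQ_V_sub (J : ℕ → Set ι) (n : ℕ) :
    (⋃ k ∈ Finset.range n, J k) ⊆ ⋃ k, J k :=
  Set.iUnion₂_subset fun k _ => Set.subset_iUnion J k

/-- The data of the construction: `E = M Z P M Z - L`. -/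
private theorem LTQ_E (b : UB 𝕜 ι U) (J : ℕ → Set ι) (hd : Pairwise (Disjoint on J))
    (P L : U →L[𝕜] U)
    (hL : ∀ i j, b.M (J j) * L * b.M (J i) = if i < j then b.M (J j) * P * b.M (J i) else 0)
    (hZl : b.M (⋃ k, J k) * L = L) (hZr : L * b.M (⋃ k, J k) = L) {E : U →L[𝕜] U}
    (hE : E = b.M (⋃ k, J k) * P * b.M (⋃ k, J k) - L) :
    LTQ_Up b J E ∧ b.M (⋃ k, J k) * E = E ∧ E * b.M (⋃ k, J k) = E ∧
      (∀ k v, b.M (J k) v = v → b.M (J k) (E v) = b.M (J k) (P v)) ∧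
      ∀ n v, b.M (⋃ k ∈ Finset.range n, J k) v = v →
        E v = b.M (⋃ k ∈ Finset.range n, J k) (P v) - b.M (⋃ k ∈ Finset.range n, J k) (L v) := by
  set Z := ⋃ k, J k with hZ
  have hJZ : ∀ k, J k ⊆ Z := fun k => Set.subset_iUnion J k
  have h1 : b.M Z * E = E := by
    rw [hE, mul_sub, hZl, ← mul_assoc, ← mul_assoc, b.M_idem]
  have h2 : E * b.M Z = E := by
    rw [hE, sub_mul, hZr, mul_assoc (b.M Z * P), b.M_idem]
  have h3 : ∀ i j, b.M (J j) * E * b.M (J i) =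
      b.M (J j) * P * b.M (J i) - b.M (J j) * L * b.M (J i) := by
    intro i j
    rw [hE, mul_sub, sub_mul, ← mul_assoc, ← mul_assoc, b.M_mul_of_subset (hJZ j),
      mul_assoc (b.M (J j) * P), b.M_mul_of_superset (hJZ i)]
  have hup : LTQ_Up b J E := by
    refine LTQ_up_of b J hd E (fun i j hij => ?_) h1
    rw [h3, hL, if_pos hij, sub_self]
  refine ⟨hup, h1, h2, ?_, ?_⟩
  · intro k v hv
    have h4 := h3 k k
    rw [hL, if_neg (lt_irrefl k), sub_zero] at h4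
    have h5 := congrArg (fun S : U →L[𝕜] U => S v) h4
    simpa only [mul_apply_eq_comp, hv] using h5
  · intro n v hv
    have hsub := LTQ_V_sub J n
    have hMv : b.M Z v = v := b.M_fix_of_subset hsub hv
    have h4 := hup n v hv
    rw [← h4, hE, sub_apply, mul_apply_eq_comp, mul_apply_eq_comp, hMv, map_sub, b.M_M,
      Set.inter_eq_left.2 hsub]

theorem lemTl (b : UB 𝕜 ι U) (I : ℕ → Set ι) (hfin : ∀ k, (I k).Finite)
    (hd : Pairwise (Disjoint on I)) (X : U →L[𝕜] U) {c : ℝ} (hc : 0 < c)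
    (hlb : ∀ J : Set ι, J.Finite → J ⊆ ⋃ k, I k → ∀ v, b.M J v = v → c * ‖v‖ ≤ ‖b.M J (X v)‖) :
    ∃ φ : ℕ → ℕ, StrictMono φ ∧ ∃ W : U →L[𝕜] U, BD b (fun k => I (φ k)) W ∧
      (∀ k v, b.M (I (φ k)) v = v → W (b.M (I (φ k)) (X v)) = v) ∧
      ∀ k v, b.M (I (φ k)) v = v → b.M (I (φ k)) (X (W v)) = v := by
  have hK := b.K_pos
  obtain ⟨φ, hφ, L, hL1, hL2, hL3, hL4⟩ := LTQ_setup b I hfin hd X
    (δ := c / (2 * b.K)) (by positivity)
  have hd' : Pairwise (Disjoint on fun k => I (φ k)) := fun i j hij =>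
    hd (hφ.injective.ne hij)
  obtain ⟨hup, h1, h2, h3, h4⟩ := LTQ_E b (fun k => I (φ k)) hd' X L hL2 hL3 hL4 rfl
  set E : U →L[𝕜] U := b.M (⋃ k, I (φ k)) * X * b.M (⋃ k, I (φ k)) - L with hE
  have hlb' : ∀ n v, b.M (⋃ k ∈ Finset.range n, I (φ k)) v = v → c / 2 * ‖v‖ ≤ ‖E v‖ := by
    intro n v hv
    rw [h4 n v hv]
    have hfin' : (⋃ k ∈ Finset.range n, I (φ k)).Finite :=
      (Finset.range n).finite_toSet.biUnion fun k _ => hfin (φ k)
    have hsub : (⋃ k ∈ Finset.range n, I (φ k)) ⊆ ⋃ k, I k :=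
      Set.iUnion₂_subset fun k _ => Set.subset_iUnion I (φ k)
    have e1 := hlb _ hfin' hsub v hv
    have e2 : ‖b.M (⋃ k ∈ Finset.range n, I (φ k)) (L v)‖ ≤ c / 2 * ‖v‖ := by
      calc ‖b.M (⋃ k ∈ Finset.range n, I (φ k)) (L v)‖ ≤ b.K * ‖L v‖ := b.norm_M_apply_le _ _
        _ ≤ b.K * (c / (2 * b.K) * ‖v‖) := by
            refine mul_le_mul_of_nonneg_left ?_ hK.le
            exact (L.le_opNorm v).trans (mul_le_mul_of_nonneg_right hL1 (norm_nonneg _))
        _ = c / 2 * ‖v‖ := by field_simp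
    have e3 := norm_sub_norm_le (b.M (⋃ k ∈ Finset.range n, I (φ k)) (X v))
      (b.M (⋃ k ∈ Finset.range n, I (φ k)) (L v))
    linarith
  obtain ⟨R, hR, hR1, hR2⟩ := lemT b (fun k => I (φ k)) (fun k => hfin (φ k)) hd' E
    (half_pos hc) (fun i j hij => LTQ_of_up b _ hd' E hup hij) h1 h2 hlb'
  refine ⟨φ, hφ, R, hR, fun k v hv => ?_, fun k v hv => ?_⟩
  · have e1 := hR1 k v hv
    rwa [h3 k v hv] at e1
  · have e1 := hR2 k v hv
    have e2 : b.M (I (φ k)) (R v) = R v := BD.fix hR hv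
    rwa [h3 k (R v) e2] at e1

theorem lemTq (b : UB 𝕜 ι U) (I : ℕ → Set ι) (hfin : ∀ k, (I k).Finite)
    (hd : Pairwise (Disjoint on I)) (P : U →L[𝕜] U) (z : ℂ) {c : ℝ} (hc : 0 < c)
    (hlb : ∀ J : Set ι, J.Finite → J ⊆ ⋃ k, I k → ∀ v, b.M J v = v →
      c * ‖v‖ ≤ ‖qop (b.cp P J) z v‖) :
    ∃ φ : ℕ → ℕ, StrictMono φ ∧ ∃ W : U →L[𝕜] U, BD b (fun k => I (φ k)) W ∧
      (∀ k v, b.M (I (φ k)) v = v → W (qop (b.cp P (I (φ k))) z v) = v) ∧
      ∀ k v, b.M (I (φ k)) v = v → qop (b.cp P (I (φ k))) z (W v) = v := by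
  have hK := b.K_pos
  set S : ℝ := b.K * (2 * (b.K ^ 2 * ‖P‖) + b.K + 2 * ‖z‖) with hS
  have hS0 : 0 < S := by positivity
  set δ : ℝ := min 1 (c / (2 * S)) with hδ
  have hδ0 : 0 < δ := lt_min one_pos (by positivity)
  have hδ1 : δ ≤ 1 := min_le_left _ _
  have hδ2 : δ * S ≤ c / 2 := by
    have : δ ≤ c / (2 * S) := min_le_right _ _
    calc δ * S ≤ c / (2 * S) * S := mul_le_mul_of_nonneg_right this hS0.le
      _ = c / 2 := by field_simp
  obtain ⟨φ, hφ, L, hL1, hL2, hL3, hL4⟩ := LTQ_setup b I hfin hd P hδ0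
  have hd' : Pairwise (Disjoint on fun k => I (φ k)) := fun i j hij =>
    hd (hφ.injective.ne hij)
  obtain ⟨hup, h1, h2, h3, h4⟩ := LTQ_E b (fun k => I (φ k)) hd' P L hL2 hL3 hL4 rfl
  set J : ℕ → Set ι := fun k => I (φ k) with hJ
  set E : U →L[𝕜] U := b.M (⋃ k, J k) * P * b.M (⋃ k, J k) - L with hE
  set X : U →L[𝕜] U := qop E z * b.M (⋃ k, J k) with hX
  have hJZ : ∀ k, J k ⊆ ⋃ k, J k := fun k => Set.subset_iUnion J k
  have hqa : ∀ (T : U →L[𝕜] U) (v : U), qop T z v =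
      T (T v) - ((2 * z.re : ℝ) : 𝕜) • T v + ((‖z‖ ^ 2 : ℝ) : 𝕜) • v := by
    intro T v
    unfold qop
    rw [add_apply, sub_apply, mul_apply_eq_comp, smul_apply, smul_apply, one_apply_eq_self]
  have hXa : ∀ v, b.M (⋃ k, J k) v = v → X v =
      E (E v) - ((2 * z.re : ℝ) : 𝕜) • E v + ((‖z‖ ^ 2 : ℝ) : 𝕜) • v := by
    intro v hv
    rw [hX, mul_apply_eq_comp, hv, hqa]
  have hXup : LTQ_Up b J X := by
    intro n v hv
    have hv' : b.M (⋃ k, J k) v = v := b.M_fix_of_subset (LTQ_V_sub J n) hv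
    have e1 := hup n v hv
    have e2 := hup n _ e1
    rw [hXa v hv', map_add, map_sub, map_smul, map_smul, e1, e2, hv]
  have hXl : b.M (⋃ k, J k) * X = X := by
    rw [hX]
    unfold qop
    rw [← mul_assoc, mul_add, mul_sub, ← mul_assoc, h1, mul_smul_comm, h1, mul_smul_comm, mul_one,
      add_mul, add_mul, smul_mul_assoc, smul_mul_assoc, b.M_idem, one_mul]
  have hXr : X * b.M (⋃ k, J k) = X := by
    rw [hX, mul_assoc, b.M_idem]
  have hXd : ∀ k v, b.M (J k) v = v → b.M (J k) (X v) = qop (b.cp P (J k)) z v := by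
    intro k v hv
    have hv' : b.M (⋃ k, J k) v = v := b.M_fix_of_subset (hJZ k) hv
    have hA : ∀ x, b.M (J k) x = x → b.cp P (J k) x = b.M (J k) (E x) := by
      intro x hx
      unfold UB.cp
      rw [mul_apply_eq_comp, mul_apply_eq_comp, hx, h3 k x hx]
    have hJV : J k ⊆ ⋃ l ∈ Finset.range (k + 1), J l := by
      intro a ha
      exact Set.mem_biUnion (Finset.mem_coe.2 (Finset.mem_range.2 (Nat.lt_succ_self k))) ha
    have hvV : b.M (⋃ l ∈ Finset.range (k + 1), J l) v = v := b.M_fix_of_subset hJV hv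
    have e1 : E v = b.M (⋃ l ∈ Finset.range k, J l) (E v) + b.M (J k) (E v) := by
      have e0 := hup (k + 1) v hvV
      rw [← b.M_finUnion J hd', Finset.sum_range_succ, b.M_finUnion J hd'] at e0
      exact e0.symm
    have e2 : b.M (J k) (E (b.M (⋃ l ∈ Finset.range k, J l) (E v))) = 0 := by
      have e3 : b.M (⋃ l ∈ Finset.range k, J l) (b.M (⋃ l ∈ Finset.range k, J l) (E v)) =
          b.M (⋃ l ∈ Finset.range k, J l) (E v) := by
        rw [b.M_M, Set.inter_self]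
      rw [← hup k _ e3]
      refine b.M_M_disj ?_ _
      rw [Set.disjoint_iUnion₂_right]
      intro l hl
      refine hd' ?_
      have := Finset.mem_range.1 hl
      omega
    have e4 : b.M (J k) (E (E v)) = b.M (J k) (E (b.M (J k) (E v))) := by
      conv_lhs => rw [e1]
      rw [map_add, map_add, e2, zero_add]
    have e5 : b.M (J k) (b.M (J k) (E v)) = b.M (J k) (E v) := by
      rw [b.M_M, Set.inter_self]
    rw [hXa v hv', map_add, map_sub, map_smul, map_smul, hv, e4, hqa, hA v hv, hA _ e5]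
  have hlb' : ∀ n v, b.M (⋃ k ∈ Finset.range n, J k) v = v → c / 2 * ‖v‖ ≤ ‖X v‖ := by
    intro n v hv
    have hv' : b.M (⋃ k, J k) v = v := b.M_fix_of_subset (LTQ_V_sub J n) hv
    have hfin' : (⋃ k ∈ Finset.range n, J k).Finite :=
      (Finset.range n).finite_toSet.biUnion fun k _ => hfin (φ k)
    have hsub : (⋃ k ∈ Finset.range n, J k) ⊆ ⋃ k, I k :=
      Set.iUnion₂_subset fun k _ => Set.subset_iUnion I (φ k)
    have e1 := hlb _ hfin' hsub v hv
    set V : Set ι := ⋃ k ∈ Finset.range n, J k with hV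
    have hB : ∀ x, b.M V x = x → b.cp P V x = E x + b.M V (L x) := by
      intro x hx
      unfold UB.cp
      rw [mul_apply_eq_comp, mul_apply_eq_comp, hx, h4 n x hx]
      abel
    have hBn : ∀ x, ‖b.cp P V x‖ ≤ b.K ^ 2 * ‖P‖ * ‖x‖ := by
      intro x
      unfold UB.cp
      rw [mul_apply_eq_comp, mul_apply_eq_comp]
      calc ‖b.M V (P (b.M V x))‖ ≤ b.K * ‖P (b.M V x)‖ := b.norm_M_apply_le _ _
        _ ≤ b.K * (‖P‖ * (b.K * ‖x‖)) := by
            refine mul_le_mul_of_nonneg_left ?_ hK.le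
            exact (P.le_opNorm _).trans
              (mul_le_mul_of_nonneg_left (b.norm_M_apply_le _ _) (norm_nonneg _))
        _ = b.K ^ 2 * ‖P‖ * ‖x‖ := by ring
    have hLn : ∀ x, ‖b.M V (L x)‖ ≤ b.K * δ * ‖x‖ := by
      intro x
      calc ‖b.M V (L x)‖ ≤ b.K * ‖L x‖ := b.norm_M_apply_le _ _
        _ ≤ b.K * (δ * ‖x‖) := by
            refine mul_le_mul_of_nonneg_left ?_ hK.le
            exact (L.le_opNorm x).trans (mul_le_mul_of_nonneg_right hL1 (norm_nonneg _))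
        _ = b.K * δ * ‖x‖ := by ring
    have hEv : b.M V (E v) = E v := hup n v hv
    have hEe : E v = b.cp P V v - b.M V (L v) := by rw [hB v hv]; abel
    have hEE : E (E v) = b.cp P V (b.cp P V v) - b.cp P V (b.M V (L v)) - b.M V (L (E v)) := by
      have e2 : E (E v) = b.cp P V (E v) - b.M V (L (E v)) := by rw [hB _ hEv]; abel
      rw [e2]
      congr 1
      conv_lhs => rw [hEe]
      rw [map_sub]
    have hdiff : X v - qop (b.cp P V) z v =
        -(b.cp P V (b.M V (L v))) - b.M V (L (E v)) +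
          ((2 * z.re : ℝ) : 𝕜) • b.M V (L v) := by
      rw [hXa v hv', hqa, hEE]
      have e3 : ((2 * z.re : ℝ) : 𝕜) • E v = ((2 * z.re : ℝ) : 𝕜) • b.cp P V v -
          ((2 * z.re : ℝ) : 𝕜) • b.M V (L v) := by
        conv_lhs => rw [hEe]
        rw [smul_sub]
      rw [e3]
      abel
    have hEn : ‖E v‖ ≤ (b.K ^ 2 * ‖P‖ + b.K * δ) * ‖v‖ := by
      rw [hEe]
      have := norm_sub_le (b.cp P V v) (b.M V (L v))
      have e2 := hBn v
      have e3 := hLn v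
      linarith
    have n1 : ‖b.cp P V (b.M V (L v))‖ ≤ b.K ^ 2 * ‖P‖ * (b.K * δ * ‖v‖) :=
      (hBn _).trans (mul_le_mul_of_nonneg_left (hLn v) (by positivity))
    have n2 : ‖b.M V (L (E v))‖ ≤ b.K * δ * ((b.K ^ 2 * ‖P‖ + b.K * δ) * ‖v‖) :=
      (hLn _).trans (mul_le_mul_of_nonneg_left hEn (by positivity))
    have n3 : ‖((2 * z.re : ℝ) : 𝕜) • b.M V (L v)‖ ≤ 2 * ‖z‖ * (b.K * δ * ‖v‖) := by
      rw [norm_smul, RCLike.norm_ofReal, abs_mul, abs_two]
      have : |z.re| ≤ ‖z‖ := Complex.abs_re_le_norm z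
      have h0 : 0 ≤ ‖b.M V (L v)‖ := norm_nonneg _
      exact mul_le_mul (by linarith) (hLn v) h0 (by positivity)
    have n4 : ‖X v - qop (b.cp P V) z v‖ ≤ δ * S * ‖v‖ := by
      rw [hdiff]
      have t1 := norm_add_le (-(b.cp P V (b.M V (L v))) - b.M V (L (E v)))
        (((2 * z.re : ℝ) : 𝕜) • b.M V (L v))
      have t2 := norm_sub_le (-(b.cp P V (b.M V (L v)))) (b.M V (L (E v)))
      rw [norm_neg] at t2
      have t3 : b.K * δ * ((b.K ^ 2 * ‖P‖ + b.K * δ) * ‖v‖) ≤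
          b.K * δ * ((b.K ^ 2 * ‖P‖ + b.K * 1) * ‖v‖) := by
        gcongr
      have t4 : δ * S * ‖v‖ = b.K ^ 2 * ‖P‖ * (b.K * δ * ‖v‖) +
          b.K * δ * ((b.K ^ 2 * ‖P‖ + b.K * 1) * ‖v‖) + 2 * ‖z‖ * (b.K * δ * ‖v‖) := by
        rw [hS]; ring
      linarith
    have n5 : δ * S * ‖v‖ ≤ c / 2 * ‖v‖ := mul_le_mul_of_nonneg_right hδ2 (norm_nonneg _)
    have n6 : ‖qop (b.cp P V) z v‖ ≤ ‖X v‖ + ‖X v - qop (b.cp P V) z v‖ := by
      have := norm_sub_norm_le (qop (b.cp P V) z v) (X v)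
      rw [norm_sub_rev] at this
      linarith
    linarith
  obtain ⟨R, hR, hR1, hR2⟩ := lemT b J (fun k => hfin (φ k)) hd' X
    (half_pos hc) (fun i j hij => LTQ_of_up b J hd' X hXup hij) hXl hXr hlb'
  refine ⟨φ, hφ, R, hR, fun k v hv => ?_, fun k v hv => ?_⟩
  · have e1 := hR1 k v hv
    rwa [hXd k v hv] at e1
  · have e1 := hR2 k v hv
    have e2 : b.M (J k) (R v) = R v := BD.fix hR hv
    rwa [hXd k (R v) e2] at e1

end Pool.Agent.UBS
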