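import Mathlib
import Pool.Agent.UBS.Base
import Pool.Agent.UBS.LM
import Pool.Agent.UBS.LTQ
import Pool.Agent.UBS.GG

/-!
# UBS / LD: Lemma D for fixed `z`

`IsInvOn b P J z W`: `W` is the inverse of `q_z (M_J P M_J)` on the range of `M_J`.

By contradiction (for the first, resp. the second inequality; `j = 0`, `1`): for every finite `F` there
are `J`, `n ∈ J`, `W` with `‖c n (E^j (W (E (e n - E e n))))‖ > ε`, `E = b.cp P J`.  Choose a sequence
`I k`, `n k`, `W k` with pairwise disjoint sets, disjoint also from the set `F₀` of `lemM`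
(`ε' = min ‖z‖ ‖z - 1‖`, `C = ‖z‖`), so that `lemTq` applies: pass to the subsequence; `W` block
diagonal which agrees with `W k` on the block (both are inverses).  Let `Δ` be the block diagonal part
of `P` (`exists_diag`), `T = W` or `Δ * W`; `c k = b.c (n k) (T (E (1 - E) e (n k)))`, `‖c k‖ > ε`.
`f : ι → 𝕜`, `f (n k) = (c k)⁻¹`, `0` elsewhere (bounded by `1/ε`), `R = b.mlt f * T` (`BD.mlt_mul`),
`S = b.M (⋃ k, I k)`, `v k = ‖e (n k)‖⁻¹ • e (n k)`:
`R (M k P S M k (1 - P) v k) = v k` exactly; `lemG`.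
-/

set_option autoImplicit false

open Filter Topology Function

namespace Pool.Agent.UBS

variable {𝕜 : Type*} [RCLike 𝕜] {U : Type*} [NormedAddCommGroup U] [NormedSpace 𝕜 U]
  [CompleteSpace U] {ι : Type*}

/-- `W` is the inverse of `q_z (M_J P M_J)` on the range of `M_J`. -/
def IsInvOn (b : UB 𝕜 ι U) (P : U →L[𝕜] U) (J : Set ι) (z : ℂ) (W : U →L[𝕜] U) : Prop :=
  ∀ v, b.M J v = v → b.M J (W v) = W v ∧ W (qop (b.cp P J) z v) = v ∧
    qop (b.cp P J) z (W v) = v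

theorem LD_qop_block (b : UB 𝕜 ι U) (P : U →L[𝕜] U) (J : Set ι) (z : ℂ) {v : U}
    (hv : b.M J v = v) : b.M J (qop (b.cp P J) z v) = qop (b.cp P J) z v := by
  have hE : ∀ w, b.M J (b.cp P J w) = b.cp P J w := by
    intro w
    change b.M J (b.M J (P (b.M J w))) = b.M J (P (b.M J w))
    rw [b.M_M, Set.inter_self]
  have h1 : qop (b.cp P J) z v = b.cp P J (b.cp P J v) - ((2 * z.re : ℝ) : 𝕜) • b.cp P J v +
      ((‖z‖ ^ 2 : ℝ) : 𝕜) • v := rfl
  rw [h1, map_add, map_sub, map_smul, map_smul, hE, hE, hv]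

/-- A sequence of pairwise disjoint finite sets. -/
theorem LD_seq {α : Type*} (Q : Set ι → α → Prop) (F₀ : Set ι) (hF₀ : F₀.Finite)
    (h : ∀ F : Set ι, F.Finite → ∃ J : Set ι, ∃ a : α, J.Finite ∧ Disjoint J F ∧ Q J a) :
    ∃ (I : ℕ → Set ι) (a : ℕ → α), (∀ k, (I k).Finite) ∧ Pairwise (Disjoint on I) ∧
      (∀ k, Disjoint (I k) F₀) ∧ ∀ k, Q (I k) (a k) := by
  choose! J a h1 h2 h3 using h
  let G : ℕ → Set ι := fun k => Nat.rec F₀ (fun _ g => g ∪ J g) k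
  have hG0 : G 0 = F₀ := rfl
  have hG1 : ∀ k, G (k + 1) = G k ∪ J (G k) := fun k => rfl
  have hfin : ∀ k, (G k).Finite := by
    intro k
    induction k with
    | zero => exact hF₀
    | succ k ih => rw [hG1]; exact ih.union (h1 _ ih)
  have hmono : Monotone G := monotone_nat_of_le_succ fun k => by
    rw [hG1]; exact Set.subset_union_left
  have key : ∀ l k, l < k → Disjoint (J (G l)) (J (G k)) := by
    intro l k hlk
    have h4 : J (G l) ⊆ G k := by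
      have h5 : J (G l) ⊆ G (l + 1) := by rw [hG1]; exact Set.subset_union_right
      exact h5.trans (hmono hlk)
    exact (h2 (G k) (hfin k)).symm.mono_left h4
  refine ⟨fun k => J (G k), fun k => a (G k) (hfin k), fun k => h1 _ (hfin k), ?_, ?_,
    fun k => h3 _ (hfin k)⟩
  · intro l k hlk
    rcases lt_or_gt_of_ne hlk with h | h
    · exact key l k h
    · exact (key k l h).symm
  · intro k
    exact (h2 (G k) (hfin k)).mono_right (hmono (Nat.zero_le k))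

theorem LD_aux (b : UB 𝕜 ι U) {P : U →L[𝕜] U} (hP : P * P = P) (hK : Kc P) {z : ℂ} (hz0 : z ≠ 0)
    (hz1 : z ≠ 1) {ε : ℝ} (hε : 0 < ε) (t : Bool) :
    ∃ F : Set ι, F.Finite ∧ ∀ J : Set ι, J.Finite → Disjoint J F → ∀ n ∈ J, ∀ W : U →L[𝕜] U,
      IsInvOn b P J z W →
        ‖b.c n ((bif t then b.cp P J * W else W) (b.cp P J (b.e n - b.cp P J (b.e n))))‖ ≤ ε := by
  by_contra hcon
  push Not at hcon
  have hz1' : z - 1 ≠ 0 := sub_ne_zero.2 hz1
  obtain ⟨F₀, hF₀, c, hc, hM⟩ := lemM b hP hK (ε := min ‖z‖ ‖z - 1‖) ‖z‖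
    (lt_min (norm_pos_iff.2 hz0) (norm_pos_iff.2 hz1'))
  obtain ⟨I, a, hIf, hId, hI0, hQ⟩ := LD_seq (α := ι × (U →L[𝕜] U))
    (fun J a => a.1 ∈ J ∧ IsInvOn b P J z a.2 ∧
      ε < ‖b.c a.1 ((bif t then b.cp P J * a.2 else a.2)
        (b.cp P J (b.e a.1 - b.cp P J (b.e a.1))))‖) F₀ hF₀ (by
    intro F hF
    obtain ⟨J, hJ, hJF, n, hn, W, hW, h⟩ := hcon F hF
    exact ⟨J, (n, W), hJ, hJF, hn, hW, h⟩)
  obtain ⟨φ, hφ, W, hWbd, hW1, hW2⟩ := lemTq b I hIf hId P z hc (by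
    intro J hJ hJI v hv
    refine hM J hJ ?_ z (min_le_left _ _) (min_le_right _ _) le_rfl v hv
    rw [Set.disjoint_left]
    intro i hi hi0
    obtain ⟨k, hk⟩ := Set.mem_iUnion.1 (hJI hi)
    exact Set.disjoint_left.1 (hI0 k) hk hi0)
  have hd' : Pairwise (Disjoint on fun k => I (φ k)) := fun i j hij =>
    hId (fun h => hij (hφ.injective h))
  obtain ⟨D, hDbd, hD, -⟩ := exists_diag b (fun k => I (φ k)) hd' P
  set n : ℕ → ι := fun k => (a (φ k)).1 with hn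
  have hnmem : ∀ k, n k ∈ I (φ k) := fun k => (hQ (φ k)).1
  have hninj : Injective n := by
    intro k l hkl
    by_contra hne
    have h1 := hd' hne
    refine Set.disjoint_left.1 h1 (hnmem k) ?_
    rw [hkl]
    exact hnmem l
  -- the block diagonal operator
  set T : U →L[𝕜] U := bif t then D * W else W with hT
  have hTbd : BD b (fun k => I (φ k)) T := by
    rw [hT]
    cases t
    · exact hWbd
    · exact hDbd.mul hWbd
  have hWk : ∀ k v, b.M (I (φ k)) v = v → W v = (a (φ k)).2 v := by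
    intro k v hv
    obtain ⟨h1, h2, h3⟩ := (hQ (φ k)).2.1 v hv
    have h4 := hW1 k ((a (φ k)).2 v) h1
    rw [h3] at h4
    exact h4
  have hTk : ∀ k v, b.M (I (φ k)) v = v →
      T v = (bif t then b.cp P (I (φ k)) * (a (φ k)).2 else (a (φ k)).2) v := by
    intro k v hv
    rw [hT]
    cases t
    · exact hWk k v hv
    · change D (W v) = b.cp P (I (φ k)) ((a (φ k)).2 v)
      rw [← hWk k v hv]
      have h1 : b.M (I (φ k)) (W v) = W v := hWbd.fix hv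
      rw [← h1]
      have h2 := DFunLike.congr_fun (hD k) (W v)
      change D (b.M (I (φ k)) (W v)) = b.M (I (φ k)) (P (b.M (I (φ k)) (W v))) at h2
      rw [h2]
      change _ = b.M (I (φ k)) (P (b.M (I (φ k)) (b.M (I (φ k)) (W v))))
      rw [h1, h1]
  have hE : ∀ k w, b.M (I (φ k)) (b.cp P (I (φ k)) w) = b.cp P (I (φ k)) w := by
    intro k w
    change b.M (I (φ k)) (b.M (I (φ k)) (P (b.M (I (φ k)) w))) = b.M (I (φ k)) (P (b.M (I (φ k)) w))
    rw [b.M_M, Set.inter_self]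
  have hE' : ∀ k w, b.M (I (φ k)) w = w → b.cp P (I (φ k)) w = b.M (I (φ k)) (P w) := by
    intro k w hw
    change b.M (I (φ k)) (P (b.M (I (φ k)) w)) = _
    rw [hw]
  have hev : ∀ k, b.M (I (φ k)) (b.e (n k)) = b.e (n k) := fun k => b.M_e_mem (hnmem k)
  set y : ℕ → U := fun k => T (b.cp P (I (φ k)) (b.e (n k) - b.cp P (I (φ k)) (b.e (n k)))) with hy
  have hyb : ∀ k, b.M (I (φ k)) (y k) = y k := fun k => hTbd.fix (hE k _)
  set cc : ℕ → 𝕜 := fun k => b.c (n k) (y k) with hcc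
  have hcc1 : ∀ k, ε < ‖cc k‖ := by
    intro k
    have h1 := (hQ (φ k)).2.2
    rw [← hTk k _ (hE k _)] at h1
    exact h1
  have hcc0 : ∀ k, cc k ≠ 0 := fun k => norm_pos_iff.1 (hε.trans (hcc1 k))
  set f : ι → 𝕜 := Function.extend n (fun k => (cc k)⁻¹) 0 with hf
  have hfn : ∀ k, f (n k) = (cc k)⁻¹ := fun k => hninj.extend_apply _ _ k
  have hf0 : ∀ i, (¬ ∃ k, n k = i) → f i = 0 := fun i hi => by
    rw [hf, Function.extend_apply' _ _ _ hi]; rfl
  have hfb : ∃ C : ℝ, ∀ i, ‖f i‖ ≤ C := by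
    refine ⟨ε⁻¹, fun i => ?_⟩
    by_cases hi : ∃ k, n k = i
    · obtain ⟨k, rfl⟩ := hi
      rw [hfn, norm_inv]
      exact inv_anti₀ hε (hcc1 k).le
    · rw [hf0 i hi, norm_zero]
      exact (inv_pos.2 hε).le
  have hfy : ∀ k, b.mlt f (y k) = b.e (n k) := by
    intro k
    refine b.ext fun i => ?_
    rw [b.c_mlt hfb]
    by_cases hi : i = n k
    · subst hi
      rw [hfn, b.ce]
      exact inv_mul_cancel₀ (hcc0 k)
    · rw [b.cn i (n k) hi]
      by_cases hik : i ∈ I (φ k)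
      · rw [hf0 i, zero_mul]
        rintro ⟨l, rfl⟩
        by_cases hlk : l = k
        · subst hlk; exact hi rfl
        · exact Set.disjoint_left.1 (hd' hlk) (hnmem l) hik
      · rw [← hyb k, b.c_M_not hik, mul_zero]
  have hene : ∀ k, b.e (n k) ≠ 0 := by
    intro k h0
    have h1 := b.ce (n k)
    rw [h0, map_zero] at h1
    exact zero_ne_one h1
  refine lemG b hP hK (fun k => I (φ k)) (fun k => hIf _) hd' (b.mlt f * T)
    (b.M (⋃ k, I (φ k))) (hTbd.mlt_mul hfb) (BD.one b _)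
    (fun k => ((‖b.e (n k)‖⁻¹ : ℝ) : 𝕜) • b.e (n k)) ?_ ?_ ?_
  · intro k
    change b.M (I (φ k)) (((‖b.e (n k)‖⁻¹ : ℝ) : 𝕜) • b.e (n k)) =
      ((‖b.e (n k)‖⁻¹ : ℝ) : 𝕜) • b.e (n k)
    rw [map_smul, hev]
  · intro k
    change ‖((‖b.e (n k)‖⁻¹ : ℝ) : 𝕜) • b.e (n k)‖ = 1
    rw [norm_smul, RCLike.norm_ofReal, abs_of_nonneg (by positivity)]
    exact inv_mul_cancel₀ (norm_ne_zero_iff.2 (hene k))
  · have h0 : ∀ k, (b.mlt f * T) (b.M (I (φ k)) (P (b.M (⋃ k, I (φ k)) (b.M (I (φ k))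
        ((1 - P) (((‖b.e (n k)‖⁻¹ : ℝ) : 𝕜) • b.e (n k))))))) -
        ((‖b.e (n k)‖⁻¹ : ℝ) : 𝕜) • b.e (n k) = 0 := by
      intro k
      simp only [map_smul]
      rw [← smul_sub]
      have h1 : b.M (I (φ k)) ((1 - P) (b.e (n k))) =
          b.e (n k) - b.cp P (I (φ k)) (b.e (n k)) := by
        change b.M (I (φ k)) (b.e (n k) - P (b.e (n k))) = _
        rw [map_sub, hev, hE' k _ (hev k)]
      have h2 : b.M (I (φ k)) (b.e (n k) - b.cp P (I (φ k)) (b.e (n k))) =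
          b.e (n k) - b.cp P (I (φ k)) (b.e (n k)) := by
        rw [map_sub, hev, hE]
      have h3 : b.M (⋃ k, I (φ k)) (b.e (n k) - b.cp P (I (φ k)) (b.e (n k))) =
          b.e (n k) - b.cp P (I (φ k)) (b.e (n k)) :=
        b.M_fix_of_subset (Set.subset_iUnion (fun k => I (φ k)) k) h2
      rw [h1, h3, ← hE' k _ h2]
      change _ • (b.mlt f (y k) - b.e (n k)) = 0
      rw [hfy, sub_self, smul_zero]
    have h1 : (fun k => ‖(b.mlt f * T) (b.M (I (φ k)) (P (b.M (⋃ k, I (φ k)) (b.M (I (φ k))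
        ((1 - P) (((‖b.e (n k)‖⁻¹ : ℝ) : 𝕜) • b.e (n k))))))) -
        ((‖b.e (n k)‖⁻¹ : ℝ) : 𝕜) • b.e (n k)‖) = fun _ => 0 := by
      funext k
      rw [h0, norm_zero]
    have h2 := tendsto_const_nhds (x := (0 : ℝ)) (f := (atTop : Filter ℕ))
    rw [← h1] at h2
    exact h2

theorem lemD (b : UB 𝕜 ι U) {P : U →L[𝕜] U} (hP : P * P = P) (hK : Kc P) {z : ℂ} (hz0 : z ≠ 0)
    (hz1 : z ≠ 1) {ε : ℝ} (hε : 0 < ε) :
    ∃ F : Set ι, F.Finite ∧ ∀ J : Set ι, J.Finite → Disjoint J F → ∀ n ∈ J, ∀ W : U →L[𝕜] U,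
      IsInvOn b P J z W →
        ‖b.c n (W (b.cp P J (b.e n - b.cp P J (b.e n))))‖ ≤ ε ∧
        ‖b.c n (b.cp P J (W (b.cp P J (b.e n - b.cp P J (b.e n)))))‖ ≤ ε := by
  obtain ⟨F₁, hF₁, h1⟩ := LD_aux b hP hK hz0 hz1 hε false
  obtain ⟨F₂, hF₂, h2⟩ := LD_aux b hP hK hz0 hz1 hε true
  refine ⟨F₁ ∪ F₂, hF₁.union hF₂, fun J hJ hJF n hn W hW => ?_⟩
  exact ⟨h1 J hJ (hJF.mono_right Set.subset_union_left) n hn W hW,
    h2 J hJ (hJF.mono_right Set.subset_union_right) n hn W hW⟩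

end Pool.Agent.UBS
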