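import Mathlib
import Pool.Agent.UBS.Base
import Pool.Agent.UBS.LD
import Pool.Agent.UBS.LM

/-!
# UBS / LDU: existence of the inverses, and Lemma D uniformly on the circle

`exists_inv`: `qop (b.cp P J) z` maps the finite dimensional range of `M_J` into itself and is
injective there, hence bijective; `W = inverse ∘ M_J`.  `‖W v‖ ≤ c⁻¹ ‖v‖` from the lower bound.

`lemDu`: by contradiction there are a sequence of pairwise disjoint finite `I k` (disjoint from the set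
`F₀` of `lemM` with `ε = 1/2`, `C = 3/2`), `z k` on the circle, `n k ∈ I k`, `W k` with (say) the first
quantity `> ε`.  Subsequence `z k → z` on the circle.  `W' k` the inverse for `z`
(`exists_inv`); `W k - W' k = W k (qop E z - qop E (z k)) W' k` on the block, and
`‖qop E z - qop E (z k)‖ ≤ C ‖z - z k‖`, `‖W k v‖, ‖W' k v‖ ≤ c⁻¹ ‖v‖`; the functional
`c (n k)` and the vector `e (n k)`: `‖b.c n x‖ ‖e n‖ = ‖M {n} x‖ ≤ K ‖x‖`, so the two quantities
differ by `≤ C ‖z - z k‖ → 0`.  So for `W' k` the quantity is `> ε / 2` for large `k`, contradicting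
`lemD` for `z` and `ε / 2` (`eventually_disjoint`).
-/

set_option autoImplicit false

open Filter Topology Function

namespace Pool.Agent.UBS

variable {𝕜 : Type*} [RCLike 𝕜] {U : Type*} [NormedAddCommGroup U] [NormedSpace 𝕜 U]
  [CompleteSpace U] {ι : Type*}

private theorem LDU_qop (b : UB 𝕜 ι U) (P : U →L[𝕜] U) (J : Set ι) (z : ℂ) (v : U) :
    qop (b.cp P J) z v = b.cp P J (b.cp P J v) - ((2 * z.re : ℝ) : 𝕜) • b.cp P J v +
      ((‖z‖ ^ 2 : ℝ) : 𝕜) • v := by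
  simp [qop]

private theorem LDU_cp_fix (b : UB 𝕜 ι U) (P : U →L[𝕜] U) (J : Set ι) (v : U) :
    b.M J (b.cp P J v) = b.cp P J v := by
  show b.M J (b.M J (P (b.M J v))) = b.M J (P (b.M J v))
  rw [b.M_M, Set.inter_self]

private theorem LDU_qop_fix (b : UB 𝕜 ι U) (P : U →L[𝕜] U) (J : Set ι) (z : ℂ) {v : U}
    (hv : b.M J v = v) : b.M J (qop (b.cp P J) z v) = qop (b.cp P J) z v := by
  rw [LDU_qop, map_add, map_sub, map_smul, map_smul, LDU_cp_fix, LDU_cp_fix, hv]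

theorem exists_inv (b : UB 𝕜 ι U) (P : U →L[𝕜] U) {J : Set ι} (hJ : J.Finite) {z : ℂ} {c : ℝ}
    (hc : 0 < c) (hlb : ∀ v, b.M J v = v → c * ‖v‖ ≤ ‖qop (b.cp P J) z v‖) :
    ∃ W : U →L[𝕜] U, IsInvOn b P J z W ∧ ∀ v, b.M J v = v → ‖W v‖ ≤ c⁻¹ * ‖v‖ := by
  classical
  have hmem : ∀ v : U, v ∈ LinearMap.range (b.M J).toLinearMap ↔ b.M J v = v := by
    intro v
    constructor
    · rintro ⟨w, rfl⟩
      show b.M J (b.M J w) = b.M J w
      rw [b.M_M, Set.inter_self]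
    · intro h
      exact ⟨v, h⟩
  have hfd : FiniteDimensional 𝕜 (LinearMap.range (b.M J).toLinearMap) := by
    have h1 : LinearMap.range (b.M J).toLinearMap ≤ Submodule.span 𝕜 (b.e '' J) := by
      rintro v ⟨w, rfl⟩
      obtain ⟨s, rfl⟩ := hJ.exists_finset_coe
      show b.M (s : Set ι) w ∈ _
      rw [b.M_fin]
      exact Submodule.sum_mem _ fun i hi => Submodule.smul_mem _ _
        (Submodule.subset_span ⟨i, hi, rfl⟩)
    have h2 : FiniteDimensional 𝕜 (Submodule.span 𝕜 (b.e '' J)) :=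
      FiniteDimensional.span_of_finite 𝕜 (hJ.image b.e)
    exact Submodule.finiteDimensional_of_le h1
  have hmap : ∀ v ∈ LinearMap.range (b.M J).toLinearMap,
      (qop (b.cp P J) z).toLinearMap v ∈ LinearMap.range (b.M J).toLinearMap := by
    intro v hv
    exact (hmem _).2 (LDU_qop_fix b P J z ((hmem v).1 hv))
  have hinj : Function.Injective ((qop (b.cp P J) z).toLinearMap.restrict hmap) := by
    rw [← LinearMap.ker_eq_bot, LinearMap.ker_eq_bot']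
    intro v hv
    have h1 : qop (b.cp P J) z (v : U) = 0 := congrArg Subtype.val hv
    have h2 := hlb v ((hmem _).1 v.2)
    rw [h1, norm_zero] at h2
    have h3 : ‖(v : U)‖ ≤ 0 := by
      by_contra h4
      exact absurd h2 (not_le.2 (mul_pos hc (not_le.1 h4)))
    exact Subtype.ext (norm_le_zero_iff.1 h3)
  let L := LinearEquiv.ofInjectiveEndo _ hinj
  have hL : ∀ v, ((L v : LinearMap.range (b.M J).toLinearMap) : U) =
      qop (b.cp P J) z (v : U) := fun v => rfl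
  let Mc : U →L[𝕜] LinearMap.range (b.M J).toLinearMap :=
    (b.M J).codRestrict _ fun v => ⟨v, rfl⟩
  have hMc : ∀ v (hv : b.M J v = v), Mc v = ⟨v, (hmem v).2 hv⟩ := fun v hv => Subtype.ext hv
  let W : U →L[𝕜] U := (LinearMap.range (b.M J).toLinearMap).subtypeL.comp
    ((LinearMap.toContinuousLinearMap (L.symm : _ →ₗ[𝕜] _)).comp Mc)
  have hW : ∀ v (hv : b.M J v = v), W v = (L.symm ⟨v, (hmem v).2 hv⟩ : U) := by
    intro v hv
    show ((L.symm (Mc v) : LinearMap.range (b.M J).toLinearMap) : U) = _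
    rw [hMc v hv]
  have hinv : IsInvOn b P J z W := by
    intro v hv
    refine ⟨?_, ?_, ?_⟩
    · rw [hW v hv]
      exact (hmem _).1 (L.symm ⟨v, (hmem v).2 hv⟩).2
    · have hq := LDU_qop_fix b P J z hv
      rw [hW _ hq]
      have h1 : (⟨qop (b.cp P J) z v, (hmem _).2 hq⟩ : LinearMap.range (b.M J).toLinearMap) =
          L ⟨v, (hmem v).2 hv⟩ := rfl
      rw [h1, LinearEquiv.symm_apply_apply]
    · rw [hW v hv, ← hL, LinearEquiv.apply_symm_apply]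
  refine ⟨W, hinv, fun v hv => ?_⟩
  obtain ⟨h1, _, h3⟩ := hinv v hv
  have h4 := hlb (W v) h1
  rw [h3] at h4
  rw [inv_mul_eq_div, le_div_iff₀ hc, mul_comm]
  exact h4

theorem lemDu (b : UB 𝕜 ι U) {P : U →L[𝕜] U} (hP : P * P = P) (hK : Kc P) {ε : ℝ} (hε : 0 < ε) :
    ∃ F : Set ι, F.Finite ∧ ∀ J : Set ι, J.Finite → Disjoint J F → ∀ z : ℂ, ‖z - 1‖ = 1 / 2 →
      ∀ n ∈ J, ∀ W : U →L[𝕜] U, IsInvOn b P J z W →
        ‖b.c n (W (b.cp P J (b.e n - b.cp P J (b.e n))))‖ ≤ ε ∧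
        ‖b.c n (b.cp P J (W (b.cp P J (b.e n - b.cp P J (b.e n)))))‖ ≤ ε := by
  classical
  obtain ⟨F0, hF0, c, hc, hlb⟩ := lemM b hP hK (ε := 1 / 2) (3 / 2) (by norm_num)
  have hK1 := b.one_le_K
  have hK0 := b.K_pos
  set B : ℝ := b.K * (‖P‖ * b.K) + 1 with hB
  have hB1 : 1 ≤ B := by
    have : 0 ≤ b.K * (‖P‖ * b.K) := by positivity
    linarith
  have hcpB : ∀ (J : Set ι) (v : U), ‖b.cp P J v‖ ≤ B * ‖v‖ := by
    intro J v
    calc ‖b.cp P J v‖ = ‖b.M J (P (b.M J v))‖ := rfl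
      _ ≤ b.K * ‖P (b.M J v)‖ := b.norm_M_apply_le _ _
      _ ≤ b.K * (‖P‖ * (b.K * ‖v‖)) := by
          gcongr
          exact (P.le_opNorm _).trans
            (mul_le_mul_of_nonneg_left (b.norm_M_apply_le _ _) (norm_nonneg _))
      _ ≤ B * ‖v‖ := by
          rw [hB]
          have := norm_nonneg v
          nlinarith
  have hcn : ∀ (n : ι) (x : U), ‖b.c n x‖ * ‖b.e n‖ ≤ b.K * ‖x‖ := by
    intro n x
    have h1 := b.norm_M_apply_le (({n} : Finset ι) : Set ι) x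
    rw [b.M_fin, Finset.sum_singleton, norm_smul] at h1
    exact h1
  have hen : ∀ n, 0 < ‖b.e n‖ := by
    intro n
    rw [norm_pos_iff]
    intro h
    have h1 := b.ce n
    rw [h, map_zero] at h1
    exact zero_ne_one h1
  -- bounds on the circle
  have hcirc : ∀ z : ℂ, ‖z - 1‖ = 1 / 2 → 1 / 2 ≤ ‖z‖ ∧ ‖z‖ ≤ 3 / 2 := by
    intro z hz
    have h1 : ‖z‖ ≤ ‖z - 1‖ + ‖(1 : ℂ)‖ := by
      have := norm_add_le (z - 1) 1
      rwa [sub_add_cancel] at this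
    have h2 : ‖(1 : ℂ)‖ ≤ ‖z‖ + ‖z - 1‖ := by
      have h3 := norm_sub_le z (z - 1)
      rwa [sub_sub_cancel] at h3
    rw [norm_one] at h1 h2
    rw [hz] at h1 h2
    constructor <;> linarith
  set C : ℝ := b.K * (c⁻¹ * ((2 * B + 3) * c⁻¹)) * (B * (1 + B)) * B with hC
  have hC0 : 0 < C := by positivity
  have hδ : 0 < ε / 2 / C := by positivity
  obtain ⟨t, hts, htf, hcov⟩ := (isCompact_sphere (1 : ℂ) (1 / 2)).finite_cover_balls hδ
  have hz' : ∀ z0 ∈ t, ‖z0 - 1‖ = 1 / 2 := fun z0 h0 => by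
    have := hts h0
    rwa [mem_sphere_iff_norm] at this
  have hlD : ∀ z0 ∈ t, ∃ F : Set ι, F.Finite ∧ ∀ J : Set ι, J.Finite → Disjoint J F → ∀ n ∈ J,
      ∀ W : U →L[𝕜] U, IsInvOn b P J z0 W →
        ‖b.c n (W (b.cp P J (b.e n - b.cp P J (b.e n))))‖ ≤ ε / 2 ∧
        ‖b.c n (b.cp P J (W (b.cp P J (b.e n - b.cp P J (b.e n)))))‖ ≤ ε / 2 := by
    intro z0 h0
    have h1 := hz' z0 h0
    refine lemD b hP hK ?_ ?_ (half_pos hε)
    · intro h2
      have h3 := (hcirc z0 h1).1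
      rw [h2, norm_zero] at h3
      norm_num at h3
    · intro h2
      rw [h2, sub_self, norm_zero] at h1
      norm_num at h1
  choose! F hF hFD using hlD
  refine ⟨F0 ∪ ⋃ z0 ∈ t, F z0, hF0.union (htf.biUnion fun z0 h0 => hF z0 h0), ?_⟩
  intro J hJ hdisj z hz n hn W hW
  have hd0 : Disjoint J F0 := hdisj.mono_right Set.subset_union_left
  have hzt : z ∈ Metric.sphere (1 : ℂ) (1 / 2) := by
    rw [mem_sphere_iff_norm]; exact hz
  obtain ⟨z0, h0, hzz⟩ := Set.mem_iUnion₂.1 (hcov hzt)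
  have hd1 : Disjoint J (F z0) := hdisj.mono_right
    ((Set.subset_biUnion_of_mem (u := F) h0).trans Set.subset_union_right)
  have hz0 := hz' z0 h0
  have hdist : ‖z - z0‖ < ε / 2 / C := by
    rw [Metric.mem_ball, dist_eq_norm] at hzz
    exact hzz
  have hb1 := hcirc z hz
  have hb2 := hcirc z0 hz0
  have hlbz : ∀ v, b.M J v = v → c * ‖v‖ ≤ ‖qop (b.cp P J) z v‖ :=
    hlb J hJ hd0 z hb1.1 (by rw [hz]) hb1.2
  have hlbz0 : ∀ v, b.M J v = v → c * ‖v‖ ≤ ‖qop (b.cp P J) z0 v‖ :=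
    hlb J hJ hd0 z0 hb2.1 (by rw [hz0]) hb2.2
  obtain ⟨W', hW', hW'n⟩ := exists_inv b P hJ hc hlbz0
  have hWn : ∀ v, b.M J v = v → ‖W v‖ ≤ c⁻¹ * ‖v‖ := by
    intro v hv
    obtain ⟨h1, _, h3⟩ := hW v hv
    have h4 := hlbz (W v) h1
    rw [h3] at h4
    rw [inv_mul_eq_div, le_div_iff₀ hc, mul_comm]
    exact h4
  -- difference of the quadratic expressions
  have hq : ∀ u : U, ‖qop (b.cp P J) z0 u - qop (b.cp P J) z u‖ ≤
      (2 * B + 3) * ‖z - z0‖ * ‖u‖ := by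
    intro u
    have h1 : qop (b.cp P J) z0 u - qop (b.cp P J) z u =
        ((2 * (z - z0).re : ℝ) : 𝕜) • b.cp P J u +
          ((‖z0‖ ^ 2 - ‖z‖ ^ 2 : ℝ) : 𝕜) • u := by
      rw [LDU_qop, LDU_qop, Complex.sub_re]
      push_cast
      rw [mul_sub, sub_smul, sub_smul]
      abel
    rw [h1]
    refine (norm_add_le _ _).trans ?_
    rw [norm_smul, norm_smul, RCLike.norm_ofReal, RCLike.norm_ofReal]
    have h2 : |2 * (z - z0).re| ≤ 2 * ‖z - z0‖ := by
      rw [abs_mul, abs_two]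
      exact mul_le_mul_of_nonneg_left (Complex.abs_re_le_norm _) (by norm_num)
    have h3 : |‖z0‖ ^ 2 - ‖z‖ ^ 2| ≤ 3 * ‖z - z0‖ := by
      have h4 : ‖z0‖ ^ 2 - ‖z‖ ^ 2 = (‖z0‖ - ‖z‖) * (‖z0‖ + ‖z‖) := by ring
      rw [h4, abs_mul]
      have h5 : |‖z0‖ - ‖z‖| ≤ ‖z - z0‖ := by
        rw [norm_sub_rev]
        exact abs_norm_sub_norm_le z0 z
      have h6 : |‖z0‖ + ‖z‖| ≤ 3 := by
        rw [abs_of_nonneg (by positivity)]
        linarith [hb1.2, hb2.2]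
      calc |‖z0‖ - ‖z‖| * |‖z0‖ + ‖z‖| ≤ ‖z - z0‖ * 3 :=
            mul_le_mul h5 h6 (abs_nonneg _) (norm_nonneg _)
        _ = 3 * ‖z - z0‖ := by ring
    calc |2 * (z - z0).re| * ‖b.cp P J u‖ + |‖z0‖ ^ 2 - ‖z‖ ^ 2| * ‖u‖
        ≤ (2 * ‖z - z0‖) * (B * ‖u‖) + (3 * ‖z - z0‖) * ‖u‖ := by
          gcongr
          exact hcpB J u
      _ = (2 * B + 3) * ‖z - z0‖ * ‖u‖ := by ring
  -- difference of the inverses
  have hWW : ∀ v, b.M J v = v → ‖W v - W' v‖ ≤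
      c⁻¹ * ((2 * B + 3) * ‖z - z0‖ * (c⁻¹ * ‖v‖)) := by
    intro v hv
    obtain ⟨h1, _, h3⟩ := hW' v hv
    have h4 : W v - W' v = W (qop (b.cp P J) z0 (W' v) - qop (b.cp P J) z (W' v)) := by
      rw [map_sub, h3, (hW (W' v) h1).2.1]
    have h5 : b.M J (qop (b.cp P J) z0 (W' v) - qop (b.cp P J) z (W' v)) =
        qop (b.cp P J) z0 (W' v) - qop (b.cp P J) z (W' v) := by
      rw [map_sub, LDU_qop_fix b P J z0 h1, LDU_qop_fix b P J z h1]
    rw [h4]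
    refine (hWn _ h5).trans ?_
    have hci : 0 ≤ c⁻¹ := (inv_pos.2 hc).le
    refine mul_le_mul_of_nonneg_left ((hq _).trans ?_) hci
    refine mul_le_mul_of_nonneg_left (hW'n v hv) ?_
    positivity
  set v : U := b.cp P J (b.e n - b.cp P J (b.e n)) with hv
  have hvfix : b.M J v = v := LDU_cp_fix b P J _
  have hvn : ‖v‖ ≤ B * (1 + B) * ‖b.e n‖ := by
    calc ‖v‖ ≤ B * ‖b.e n - b.cp P J (b.e n)‖ := hcpB J _
      _ ≤ B * (‖b.e n‖ + B * ‖b.e n‖) := by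
          gcongr
          exact (norm_sub_le _ _).trans (by gcongr; exact hcpB J _)
      _ = B * (1 + B) * ‖b.e n‖ := by ring
  have hD : ‖W v - W' v‖ * (b.K * B) ≤ ε / 2 * ‖b.e n‖ := by
    have h1 : ‖z - z0‖ * C ≤ ε / 2 := by
      have := (lt_div_iff₀ hC0).1 hdist
      exact this.le
    have hci : 0 < c⁻¹ := inv_pos.2 hc
    calc ‖W v - W' v‖ * (b.K * B)
        ≤ c⁻¹ * ((2 * B + 3) * ‖z - z0‖ * (c⁻¹ * ‖v‖)) * (b.K * B) := by
          gcongr
          exact hWW v hvfix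
      _ ≤ c⁻¹ * ((2 * B + 3) * ‖z - z0‖ * (c⁻¹ * (B * (1 + B) * ‖b.e n‖))) * (b.K * B) := by
          gcongr
      _ = ‖z - z0‖ * C * ‖b.e n‖ := by rw [hC]; ring
      _ ≤ ε / 2 * ‖b.e n‖ := by gcongr
  have hfin := hFD z0 h0 J hJ hd1 n hn W' hW'
  have hstep : ∀ x : U, ‖x‖ ≤ B * ‖W v - W' v‖ → ‖b.c n x‖ ≤ ε / 2 := by
    intro x hx
    have h1 := hcn n x
    have h2 : ‖b.c n x‖ * ‖b.e n‖ ≤ ε / 2 * ‖b.e n‖ := by
      calc ‖b.c n x‖ * ‖b.e n‖ ≤ b.K * ‖x‖ := h1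
        _ ≤ b.K * (B * ‖W v - W' v‖) := by gcongr
        _ = ‖W v - W' v‖ * (b.K * B) := by ring
        _ ≤ _ := hD
    exact le_of_mul_le_mul_right h2 (hen n)
  constructor
  · have h1 : b.c n (W v) = b.c n (W' v) + b.c n (W v - W' v) := by
      rw [map_sub]; ring
    rw [h1]
    refine (norm_add_le _ _).trans ?_
    have h2 := hstep (W v - W' v) (by
      have := norm_nonneg (W v - W' v)
      nlinarith)
    linarith [hfin.1]
  · have h1 : b.c n (b.cp P J (W v)) = b.c n (b.cp P J (W' v)) +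
        b.c n (b.cp P J (W v - W' v)) := by
      rw [map_sub, map_sub]; ring
    rw [h1]
    refine (norm_add_le _ _).trans ?_
    have h2 := hstep (b.cp P J (W v - W' v)) (hcpB J _)
    linarith [hfin.2]

end Pool.Agent.UBS
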