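import Mathlib
import Pool.Agent.UBS.Base
import Pool.Agent.UBS.LDU
import Pool.Agent.UBS.CX
import Pool.Agent.UBS.CA

/-!
# UBS / RES: the complex resolvent matrix on the circle

`F` = union of the sets of `lemM` (`ε = 1/2`, `C = 3/2`) and `lemDu` (`ε = 1/400`).
For `J` disjoint from `F`, `‖z - 1‖ = 1/2` (so `1/2 ≤ ‖z‖ ≤ 3/2`) let `W` be the inverse (`exists_inv`),
`E = b.cp P J`.  In matrix form (entries `cx (c n (T (e m)))`, products of operators on the range of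
`M_J` correspond to products of matrices, `c n (S T e m) = ∑ l ∈ J, c n (S e l) c l (T e m)` for
`T e m` in the range of `M_J`) `W` is the inverse of `(E - z) (E - conj z)`: `cx` of
`E ^ 2 - 2 Re z E + ‖z‖ ^ 2`.  So
`G n m = cx (c n (E (W (e m)))) - conj z * cx (c n (W (e m)))` is the two-sided inverse of
`E - z` on `J` (`E` commutes with `W` on the range).
Diagonal: with `x = E (e n - E e n)`, `d = c n (P (e n))`,
`(E - z)⁻¹ = E/(1 - z) - (1 - E)/z + (E - z)⁻¹ (E - E ^ 2) / (z (1 - z))`, so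
`G n n - (d / (1 - z) - (1 - d) / z) = (cx (c n (E (W x))) - conj z cx (c n (W x))) / (z (1 - z))`,
of norm `≤ (1/400 + (3/2)/400) * 4 = 1/40 ≤ 1/24`.
Bound: `∑ n, l cx (g (e n)) G n l cx (c l v) = cx (g (E (W v))) - conj z cx (g (W v))` for
`M_J v = v`.
-/

set_option autoImplicit false

open Filter Topology Function

namespace Pool.Agent.UBS

variable {𝕜 : Type*} [RCLike 𝕜] {U : Type*} [NormedAddCommGroup U] [NormedSpace 𝕜 U]
  [CompleteSpace U] {ι : Type*}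

/-- The expansion of a finitely supported vector under a functional, in `ℂ`. -/
theorem RES_expand (b : UB 𝕜 ι U) (J : Finset ι) (h : U →L[𝕜] 𝕜) {v : U}
    (hv : b.M (J : Set ι) v = v) :
    cx 𝕜 (h v) = ∑ l ∈ J, cx 𝕜 (h (b.e l)) * cx 𝕜 (b.c l v) := by
  have h1 : h v = ∑ l ∈ J, h (b.e l) * b.c l v := by
    conv_lhs => rw [← hv, b.M_fin, map_sum]
    exact Finset.sum_congr rfl fun i _ => by rw [map_smul, smul_eq_mul, mul_comm]
  rw [h1, map_sum]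
  exact Finset.sum_congr rfl fun i _ => by rw [map_mul]

theorem exists_res [DecidableEq ι] (b : UB 𝕜 ι U) {P : U →L[𝕜] U} (hP : P * P = P)
    (hK : Kc P) :
    ∃ F : Set ι, F.Finite ∧ ∃ B : ℝ, ∀ J : Finset ι, Disjoint (J : Set ι) F → ∀ z : ℂ,
      ‖z - 1‖ = 1 / 2 → ∃ G : ι → ι → ℂ,
        Res (fun n m => cx 𝕜 (b.c n (P (b.e m)))) J z G ∧
        (∀ n ∈ J, ‖G n n - (cx 𝕜 (b.c n (P (b.e n))) / (1 - z) -
          (1 - cx 𝕜 (b.c n (P (b.e n)))) / z)‖ ≤ 1 / 24) ∧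
        ∀ (g : U →L[𝕜] 𝕜) (v : U), b.M (J : Set ι) v = v →
          ‖∑ n ∈ J, ∑ l ∈ J, cx 𝕜 (g (b.e n)) * G n l * cx 𝕜 (b.c l v)‖ ≤ B * ‖g‖ * ‖v‖ := by
  obtain ⟨F₁, hF₁, c, hc, hlb⟩ := lemM b hP hK (ε := 1 / 2) (3 / 2) (by norm_num)
  obtain ⟨F₂, hF₂, hD⟩ := lemDu b hP hK (ε := 1 / 400) (by norm_num)
  refine ⟨F₁ ∪ F₂, hF₁.union hF₂, (b.K * ‖P‖ * b.K + 3 / 2) * c⁻¹, fun J hJ z hz => ?_⟩
  have hJ1 : Disjoint (J : Set ι) F₁ := hJ.mono_right Set.subset_union_left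
  have hJ2 : Disjoint (J : Set ι) F₂ := hJ.mono_right Set.subset_union_right
  have hz1 : 1 / 2 ≤ ‖z‖ := by
    have h1 := norm_sub_norm_le (1 : ℂ) (1 - z)
    have h2 : ‖1 - z‖ = 1 / 2 := by rw [norm_sub_rev]; exact hz
    rw [sub_sub_cancel, h2, norm_one] at h1
    linarith
  have hz2 : ‖z‖ ≤ 3 / 2 := by
    have h1 := norm_add_le (z - 1) 1
    rw [sub_add_cancel, hz, norm_one] at h1
    linarith
  have hz0 : z ≠ 0 := by rintro rfl; norm_num at hz1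
  have hz3 : 1 - z ≠ 0 := by
    intro h
    have : ‖z - 1‖ = 0 := by rw [norm_sub_rev, h, norm_zero]
    rw [hz] at this
    norm_num at this
  obtain ⟨W, hW, hWn⟩ := exists_inv b P J.finite_toSet hc
    (hlb J J.finite_toSet hJ1 z hz1 (by rw [hz]) hz2)
  set E : U →L[𝕜] U := b.cp P (J : Set ι) with hE
  have hMM : ∀ x, b.M (J : Set ι) (b.M (J : Set ι) x) = b.M (J : Set ι) x := fun x => by
    rw [b.M_M, Set.inter_self]
  have hEM : ∀ v, b.M (J : Set ι) (E v) = E v := by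
    intro v
    rw [hE, UB.cp, mul_apply_eq_comp, mul_apply_eq_comp, hMM]
  have hEe : ∀ n ∈ J, ∀ m ∈ J, b.c n (E (b.e m)) = b.c n (P (b.e m)) := by
    intro n hn m hm
    rw [hE, UB.cp, mul_apply_eq_comp, mul_apply_eq_comp, b.M_e_mem (by exact_mod_cast hm),
      b.c_M_mem (by exact_mod_cast hn)]
  have heM : ∀ m ∈ J, b.M (J : Set ι) (b.e m) = b.e m := fun m hm =>
    b.M_e_mem (by exact_mod_cast hm)
  have hq : ∀ v, qop E z v = E (E v) - ((2 * z.re : ℝ) : 𝕜) • E v + ((‖z‖ ^ 2 : ℝ) : 𝕜) • v := by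
    intro v
    simp [qop]
  have hqE : ∀ v, qop E z (E v) = E (qop E z v) := by
    intro v
    rw [hq, hq, map_add, map_sub, map_smul, map_smul]
  have hWE : ∀ v, b.M (J : Set ι) v = v → W (E v) = E (W v) := by
    intro v hv
    obtain ⟨h1, h2, h3⟩ := hW v hv
    obtain ⟨h4, h5, h6⟩ := hW (E (W v)) (hEM _)
    rw [hqE, h3] at h5
    exact h5
  have hzz : (z + (starRingEnd ℂ) z) = cx 𝕜 ((2 * z.re : ℝ) : 𝕜) := by
    rw [cx_ofReal]; apply Complex.ext <;> simp; ring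
  have hzn : z * (starRingEnd ℂ) z = cx 𝕜 ((‖z‖ ^ 2 : ℝ) : 𝕜) := by
    rw [cx_ofReal, Complex.mul_conj, Complex.normSq_eq_norm_sq]
  -- the functional `Γ`
  let Γ : (U →L[𝕜] 𝕜) → U → ℂ := fun h v => cx 𝕜 (h (E (W v))) - (starRingEnd ℂ) z * cx 𝕜 (h (W v))
  have hΓ : ∀ h v, Γ h v = cx 𝕜 (h (E (W v))) - (starRingEnd ℂ) z * cx 𝕜 (h (W v)) :=
    fun _ _ => rfl
  have hΓsub : ∀ h v w, Γ h (v - w) = Γ h v - Γ h w := by
    intro h v w
    simp only [hΓ, map_sub]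
    ring
  have hΓ1 : ∀ h v, b.M (J : Set ι) v = v → Γ h (E v) - z * Γ h v = cx 𝕜 (h v) := by
    intro h v hv
    have h1 : h v = h (E (E (W v))) - ((2 * z.re : ℝ) : 𝕜) * h (E (W v)) +
        ((‖z‖ ^ 2 : ℝ) : 𝕜) * h (W v) := by
      conv_lhs => rw [← (hW v hv).2.2, hq]
      simp only [map_add, map_sub, map_smul, smul_eq_mul]
    rw [h1, map_add, map_sub, map_mul, map_mul, ← hzz, ← hzn]
    simp only [hΓ]
    rw [hWE v hv]
    ring
  have hΓ2 : ∀ h v, b.M (J : Set ι) v = v → Γ (h.comp E) v - z * Γ h v = cx 𝕜 (h v) := by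
    intro h v hv
    rw [← hΓ1 h v hv]
    simp only [hΓ]
    rw [hWE v hv]
    rfl
  have hΓv : ∀ h v, b.M (J : Set ι) v = v → Γ h v = ∑ l ∈ J, Γ h (b.e l) * cx 𝕜 (b.c l v) := by
    intro h v hv
    have h1 := RES_expand b J (h.comp (E * W)) hv
    have h2 := RES_expand b J (h.comp W) hv
    have h3 : Γ h v = cx 𝕜 ((h.comp (E * W)) v) - (starRingEnd ℂ) z * cx 𝕜 ((h.comp W) v) := rfl
    rw [h3, h1, h2, Finset.mul_sum, ← Finset.sum_sub_distrib]
    refine Finset.sum_congr rfl fun l _ => ?_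
    have h4 : Γ h (b.e l) = cx 𝕜 ((h.comp (E * W)) (b.e l)) -
      (starRingEnd ℂ) z * cx 𝕜 ((h.comp W) (b.e l)) := rfl
    rw [h4]
    ring
  have hΓh : ∀ h v, b.M (J : Set ι) v = v →
      Γ h v = ∑ n ∈ J, cx 𝕜 (h (b.e n)) * Γ (b.c n) v := by
    intro h v hv
    have h1 := RES_expand b J h (hEM (W v))
    have h2 := RES_expand b J h (hW v hv).1
    simp only [hΓ]
    rw [h1, h2, Finset.mul_sum, ← Finset.sum_sub_distrib]
    exact Finset.sum_congr rfl fun l _ => by ring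
  have hδ : ∀ n l : ι, cx 𝕜 (b.c n (b.e l)) = if n = l then 1 else 0 := by
    intro n l
    rw [b.c_e]
    split_ifs <;> simp
  have hsplit : ∀ (f : ι → ℂ) (n : ι), n ∈ J → ∑ m ∈ J, (if n = m then z else 0) * f m = z * f n := by
    intro f n hn
    rw [Finset.sum_eq_single n]
    · rw [if_pos rfl]
    · intro m _ hm
      rw [if_neg (Ne.symm hm), zero_mul]
    · intro h; exact absurd hn h
  have hsplit' : ∀ (f : ι → ℂ) (l : ι), l ∈ J → ∑ m ∈ J, f m * (if m = l then z else 0) = z * f l := by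
    intro f l hl
    rw [Finset.sum_eq_single l]
    · rw [if_pos rfl, mul_comm]
    · intro m _ hm
      rw [if_neg hm, mul_zero]
    · intro h; exact absurd hl h
  refine ⟨fun n m => Γ (b.c n) (b.e m), ⟨?_, ?_⟩, ?_, ?_⟩
  · intro n hn l hl
    rw [← hδ n l, ← hΓ2 (b.c n) (b.e l) (heM l hl), hΓh ((b.c n).comp E) (b.e l) (heM l hl),
      ← hsplit (fun m => Γ (b.c m) (b.e l)) n hn, ← Finset.sum_sub_distrib]
    refine Finset.sum_congr rfl fun m hm => ?_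
    have h1 : ((b.c n).comp E) (b.e m) = b.c n (P (b.e m)) := hEe n hn m hm
    rw [h1, sub_mul]
  · intro n hn l hl
    rw [← hδ n l, ← hΓ1 (b.c n) (b.e l) (heM l hl), hΓv (b.c n) (E (b.e l)) (hEM _),
      ← hsplit' (fun m => Γ (b.c n) (b.e m)) l hl, ← Finset.sum_sub_distrib]
    refine Finset.sum_congr rfl fun m hm => ?_
    rw [hEe m hm l hl, mul_sub]
  · intro n hn
    obtain ⟨h1, h2⟩ := hD J J.finite_toSet hJ2 z hz n (by exact_mod_cast hn) W hW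
    rw [← hE] at h1 h2
    set x := E (b.e n - E (b.e n)) with hx
    have h3 : Γ (b.c n) x = z * (1 - z) * Γ (b.c n) (b.e n) +
        (1 - z - cx 𝕜 (b.c n (P (b.e n)))) := by
      have h4 := hΓ1 (b.c n) (b.e n) (heM n hn)
      have h5 := hΓ1 (b.c n) (E (b.e n)) (hEM _)
      rw [hδ, if_pos rfl] at h4
      rw [hEe n hn n hn] at h5
      rw [hx, map_sub, hΓsub]
      linear_combination (1 - z) * h4 - h5
    have h6 : Γ (b.c n) (b.e n) - (cx 𝕜 (b.c n (P (b.e n))) / (1 - z) -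
          (1 - cx 𝕜 (b.c n (P (b.e n)))) / z) = Γ (b.c n) x / (z * (1 - z)) := by
      rw [h3]
      field_simp
      ring
    change ‖Γ (b.c n) (b.e n) - _‖ ≤ 1 / 24
    rw [h6, norm_div, norm_mul]
    have h7 : ‖Γ (b.c n) x‖ ≤ 1 / 400 + 3 / 2 * (1 / 400) := by
      rw [hΓ]
      refine (norm_sub_le _ _).trans (add_le_add ?_ ?_)
      · rw [norm_cx]; exact h2
      · rw [norm_mul, norm_cx, RCLike.norm_conj]
        exact mul_le_mul hz2 h1 (norm_nonneg _) (by norm_num)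
    have h8 : ‖1 - z‖ = 1 / 2 := by rw [norm_sub_rev]; exact hz
    rw [h8, div_le_iff₀ (by positivity)]
    nlinarith
  · intro g v hv
    have h1 : ∑ n ∈ J, ∑ l ∈ J, cx 𝕜 (g (b.e n)) * Γ (b.c n) (b.e l) * cx 𝕜 (b.c l v) = Γ g v := by
      rw [hΓh g v hv]
      refine Finset.sum_congr rfl fun n _ => ?_
      rw [hΓv (b.c n) v hv, Finset.mul_sum]
      exact Finset.sum_congr rfl fun l _ => by ring
    change ‖∑ n ∈ J, ∑ l ∈ J, cx 𝕜 (g (b.e n)) * Γ (b.c n) (b.e l) * cx 𝕜 (b.c l v)‖ ≤ _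
    rw [h1, hΓ]
    have hK0 := b.K_pos
    have h2 := hWn v hv
    have h3 : ‖E (W v)‖ ≤ b.K * ‖P‖ * b.K * ‖W v‖ := by
      rw [hE, UB.cp, mul_apply_eq_comp, mul_apply_eq_comp]
      calc ‖b.M (J : Set ι) (P (b.M (J : Set ι) (W v)))‖
          ≤ b.K * ‖P (b.M (J : Set ι) (W v))‖ := b.norm_M_apply_le _ _
        _ ≤ b.K * (‖P‖ * (b.K * ‖W v‖)) := by
          gcongr
          exact (P.le_opNorm _).trans (mul_le_mul_of_nonneg_left (b.norm_M_apply_le _ _)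
            (norm_nonneg _))
        _ = b.K * ‖P‖ * b.K * ‖W v‖ := by ring
    calc ‖cx 𝕜 (g (E (W v))) - (starRingEnd ℂ) z * cx 𝕜 (g (W v))‖
        ≤ ‖g‖ * ‖E (W v)‖ + 3 / 2 * (‖g‖ * ‖W v‖) := by
          refine (norm_sub_le _ _).trans (add_le_add ?_ ?_)
          · rw [norm_cx]; exact g.le_opNorm _
          · rw [norm_mul, norm_cx, RCLike.norm_conj]
            exact mul_le_mul hz2 (g.le_opNorm _) (norm_nonneg _) (by norm_num)
      _ ≤ ‖g‖ * (b.K * ‖P‖ * b.K * ‖W v‖) + 3 / 2 * (‖g‖ * ‖W v‖) := by gcongr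
      _ = (b.K * ‖P‖ * b.K + 3 / 2) * ‖g‖ * ‖W v‖ := by ring
      _ ≤ (b.K * ‖P‖ * b.K + 3 / 2) * ‖g‖ * (c⁻¹ * ‖v‖) := by gcongr
      _ = (b.K * ‖P‖ * b.K + 3 / 2) * c⁻¹ * ‖g‖ * ‖v‖ := by ring

end Pool.Agent.UBS
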