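import Mathlib
import Pool.Agent.UBS.Base
import Pool.Agent.UBS.RES
import Pool.Agent.UBS.LM

/-!
# UBS / LB1: the lower bound for `t - M_J P M_J`, `t ≥ 1`, `J` finite, far away, with small diagonal

`F` = union of the sets of `exists_res` and of `lemM` (`ε = 1/2`, `C = K ^ 2 ‖P‖ + 2`).
Let `N = {n ∉ F | ‖c n (P (e n))‖ ≤ 1/96}`.
For `I ⊆ N` finite and `z` on the circle: `G n n + 1 / z = (G n n - (d/(1-z) - (1-d)/z)) +
d / (z (1 - z))`, norm `≤ 1/24 + 4/96 = 1/12`.  `ca_step` gives the analytic family `G z` on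
the closed ball.  On the circle it coincides with the matrix of `exists_res` (`res_unique`), so by
`ca_bound` `‖∑ cx (g e n) G z n l cx (c l w)‖ ≤ B ‖g‖ ‖w‖` on the closed ball.
For real `t ∈ [1, 3/2]`, `v` with `M_J v = v`, `w = b.cp P J v - t v`: `∑ l, G n l cx (c l w) = cx (c n v)`
(`G` is a left inverse), so the sum equals `cx (g v)`: `‖g v‖ ≤ B ‖g‖ ‖w‖` for all `g`, hence
`‖v‖ ≤ B ‖w‖`.
For `3/2 ≤ t ≤ C`: `lemM` with `z = t`: `qop E t v = (E - t) ((E - t) v)`, so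
`c ‖v‖ ≤ (K ^ 2 ‖P‖ + t) ‖(E - t) v‖`.  For `t ≥ K ^ 2 ‖P‖ + 1`: `‖(E - t) v‖ ≥ ‖v‖`.
-/

set_option autoImplicit false

open Filter Topology Function

namespace Pool.Agent.UBS

variable {𝕜 : Type*} [RCLike 𝕜] {U : Type*} [NormedAddCommGroup U] [NormedSpace 𝕜 U]
  [CompleteSpace U] {ι : Type*}

theorem LB1_expand (b : UB 𝕜 ι U) (J : Finset ι) (h : U →L[𝕜] 𝕜) {v : U}
    (hv : b.M (J : Set ι) v = v) : h v = ∑ l ∈ J, h (b.e l) * b.c l v := by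
  conv_lhs => rw [← hv, b.M_fin, map_sum]
  exact Finset.sum_congr rfl fun i _ => by rw [map_smul, smul_eq_mul, mul_comm]

theorem LB1_cp_le (b : UB 𝕜 ι U) (P : U →L[𝕜] U) (J : Set ι) (v : U) :
    ‖b.cp P J v‖ ≤ b.K ^ 2 * ‖P‖ * ‖v‖ := by
  have hK := b.K_pos
  calc ‖b.M J (P (b.M J v))‖ ≤ b.K * ‖P (b.M J v)‖ := b.norm_M_apply_le _ _
    _ ≤ b.K * (‖P‖ * (b.K * ‖v‖)) := by
      refine mul_le_mul_of_nonneg_left ?_ hK.le
      exact (P.le_opNorm _).trans (mul_le_mul_of_nonneg_left (b.norm_M_apply_le _ _)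
        (norm_nonneg _))
    _ = b.K ^ 2 * ‖P‖ * ‖v‖ := by ring

theorem LB1_cp_fix (b : UB 𝕜 ι U) (P : U →L[𝕜] U) (J : Set ι) (v : U) :
    b.M J (b.cp P J v) = b.cp P J v := by
  change b.M J (b.M J (P (b.M J v))) = b.M J (P (b.M J v))
  rw [b.M_M, Set.inter_self]

theorem LB1_small [DecidableEq ι] (b : UB 𝕜 ι U) (P : U →L[𝕜] U) {F : Set ι} {B : ℝ}
    (hB : ∀ J : Finset ι, Disjoint (J : Set ι) F → ∀ z : ℂ, ‖z - 1‖ = 1 / 2 → ∃ G : ι → ι → ℂ,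
        Res (fun n m => cx 𝕜 (b.c n (P (b.e m)))) J z G ∧
        (∀ n ∈ J, ‖G n n - (cx 𝕜 (b.c n (P (b.e n))) / (1 - z) -
          (1 - cx 𝕜 (b.c n (P (b.e n)))) / z)‖ ≤ 1 / 24) ∧
        ∀ (g : U →L[𝕜] 𝕜) (v : U), b.M (J : Set ι) v = v →
          ‖∑ n ∈ J, ∑ l ∈ J, cx 𝕜 (g (b.e n)) * G n l * cx 𝕜 (b.c l v)‖ ≤ B * ‖g‖ * ‖v‖)
    (J : Finset ι) (hJ : Disjoint (J : Set ι) F) (hsm : ∀ n ∈ J, ‖b.c n (P (b.e n))‖ ≤ 1 / 96)
    {t : ℝ} (ht1 : 1 ≤ t) (ht2 : t ≤ 3 / 2) {v : U} (hv : b.M (J : Set ι) v = v) :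
    ‖v‖ ≤ |B| * ‖b.cp P (J : Set ι) v - (t : 𝕜) • v‖ := by
  have hH : ∀ I : Finset ι, (I : Set ι) ⊆ (J : Set ι) → ∀ z : ℂ, ‖z - 1‖ = 1 / 2 →
      ∃ G, Res (fun n m => cx 𝕜 (b.c n (P (b.e m)))) I z G ∧
        ∀ n ∈ I, ‖G n n + 1 / z‖ ≤ 1 / 12 := by
    intro I hI z hz
    obtain ⟨G, hG1, hG2, _⟩ := hB I (hJ.mono_left hI) z hz
    refine ⟨G, hG1, fun n hn => ?_⟩
    have hz1 : 1 / 2 ≤ ‖z‖ := by
      have h1 := norm_sub_norm_le (1 : ℂ) (1 - z)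
      have h2 : ‖1 - z‖ = 1 / 2 := by rw [norm_sub_rev]; exact hz
      rw [sub_sub_cancel, h2, norm_one] at h1
      linarith
    have hz0 : z ≠ 0 := by rintro rfl; norm_num at hz1
    have hz3 : 1 - z ≠ 0 := by
      intro h
      have h1 : ‖z - 1‖ = 0 := by rw [norm_sub_rev, h, norm_zero]
      rw [hz] at h1
      norm_num at h1
    set d := cx 𝕜 (b.c n (P (b.e n))) with hd
    have e1 : G n n + 1 / z = (G n n - (d / (1 - z) - (1 - d) / z)) + d / (z * (1 - z)) := by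
      field_simp
      ring
    have e2 : ‖d / (z * (1 - z))‖ ≤ 1 / 24 := by
      have h2 : ‖1 - z‖ = 1 / 2 := by rw [norm_sub_rev]; exact hz
      have h3 : ‖d‖ ≤ 1 / 96 := by rw [hd, norm_cx]; exact hsm n (hI hn)
      rw [norm_div, norm_mul, h2, div_le_iff₀ (by positivity)]
      nlinarith
    rw [e1]
    refine (norm_add_le _ _).trans ((add_le_add (hG2 n hn) e2).trans ?_)
    norm_num
  obtain ⟨G, hG1, hG2⟩ := ca_step (fun n m => cx 𝕜 (b.c n (P (b.e m)))) (J : Set ι) hH J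
    (Set.Subset.refl _)
  set w : U := b.cp P (J : Set ι) v - (t : 𝕜) • v with hw
  have hwJ : b.M (J : Set ι) w = w := by
    rw [hw, map_sub, map_smul, hv, LB1_cp_fix]
  have hcirc : ∀ (g : U →L[𝕜] 𝕜) (z : ℂ), ‖z - 1‖ = 1 / 2 →
      ‖∑ n ∈ J, ∑ l ∈ J, cx 𝕜 (g (b.e n)) * G z n l * cx 𝕜 (b.c l w)‖ ≤ B * ‖g‖ * ‖w‖ := by
    intro g z hz
    obtain ⟨G', hG'1, _, hG'3⟩ := hB J hJ z hz
    have h1 := res_unique (hG1 z (by rw [mem_closedBall_iff_norm]; exact hz.le)) hG'1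
    have h2 : ∑ n ∈ J, ∑ l ∈ J, cx 𝕜 (g (b.e n)) * G z n l * cx 𝕜 (b.c l w) =
        ∑ n ∈ J, ∑ l ∈ J, cx 𝕜 (g (b.e n)) * G' n l * cx 𝕜 (b.c l w) :=
      Finset.sum_congr rfl fun n hn => Finset.sum_congr rfl fun l hl => by rw [h1 n hn l hl]
    rw [h2]
    exact hG'3 g w hwJ
  have htz : ‖(t : ℂ) - 1‖ ≤ 1 / 2 := by
    have h1 : (t : ℂ) - 1 = ((t - 1 : ℝ) : ℂ) := by push_cast; ring
    rw [h1, Complex.norm_real, Real.norm_eq_abs, abs_of_nonneg (by linarith)]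
    linarith
  have hres := hG1 (t : ℂ) (by rw [mem_closedBall_iff_norm]; exact htz)
  -- the coordinates of `w`
  have hcw : ∀ l ∈ J, cx 𝕜 (b.c l w) = ∑ m ∈ J, (cx 𝕜 (b.c l (P (b.e m))) -
      if l = m then (t : ℂ) else 0) * cx 𝕜 (b.c m v) := by
    intro l hl
    have h1 : b.c l w = b.c l (P v) - (t : 𝕜) * b.c l v := by
      rw [hw, map_sub, map_smul, smul_eq_mul]
      have h2 : b.cp P (J : Set ι) v = b.M (J : Set ι) (P (b.M (J : Set ι) v)) := rfl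
      rw [h2, hv, b.c_M_mem (by exact_mod_cast hl)]
    have h3 : b.c l (P v) = ∑ m ∈ J, b.c l (P (b.e m)) * b.c m v :=
      LB1_expand b J ((b.c l).comp P) hv
    rw [h1, h3, map_sub, map_sum, map_mul, cx_ofReal]
    have h4 : (t : ℂ) * cx 𝕜 (b.c l v) = ∑ m ∈ J, (if l = m then (t : ℂ) else 0) *
        cx 𝕜 (b.c m v) := by
      rw [Finset.sum_eq_single l]
      · rw [if_pos rfl]
      · intro m _ hm
        rw [if_neg (Ne.symm hm), zero_mul]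
      · intro h; exact absurd hl h
    rw [h4, ← Finset.sum_sub_distrib]
    exact Finset.sum_congr rfl fun m _ => by rw [map_mul]; ring
  have hGw : ∀ n ∈ J, ∑ l ∈ J, G (t : ℂ) n l * cx 𝕜 (b.c l w) = cx 𝕜 (b.c n v) := by
    intro n hn
    have h1 : ∑ l ∈ J, G (t : ℂ) n l * cx 𝕜 (b.c l w) = ∑ m ∈ J, (∑ l ∈ J, G (t : ℂ) n l *
        (cx 𝕜 (b.c l (P (b.e m))) - if l = m then (t : ℂ) else 0)) * cx 𝕜 (b.c m v) := by
      have h2 : ∀ l ∈ J, G (t : ℂ) n l * cx 𝕜 (b.c l w) = ∑ m ∈ J, G (t : ℂ) n l *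
          (cx 𝕜 (b.c l (P (b.e m))) - if l = m then (t : ℂ) else 0) * cx 𝕜 (b.c m v) := by
        intro l hl
        rw [hcw l hl, Finset.mul_sum]
        exact Finset.sum_congr rfl fun m _ => by ring
      rw [Finset.sum_congr rfl h2, Finset.sum_comm]
      exact Finset.sum_congr rfl fun m _ => by rw [Finset.sum_mul]
    rw [h1]
    have h3 : ∀ m ∈ J, (∑ l ∈ J, G (t : ℂ) n l * (cx 𝕜 (b.c l (P (b.e m))) -
        if l = m then (t : ℂ) else 0)) * cx 𝕜 (b.c m v) =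
        (if n = m then 1 else 0) * cx 𝕜 (b.c m v) := by
      intro m hm
      rw [← hres.2 n hn m hm]
    rw [Finset.sum_congr rfl h3, Finset.sum_eq_single n]
    · rw [if_pos rfl, one_mul]
    · intro m _ hm
      rw [if_neg (Ne.symm hm), zero_mul]
    · intro h; exact absurd hn h
  refine NormedSpace.norm_le_dual_bound 𝕜 v (by positivity) fun g => ?_
  have h1 := ca_bound J G hG2 (fun n => cx 𝕜 (g (b.e n))) (fun l => cx 𝕜 (b.c l w))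
    (B * ‖g‖ * ‖w‖) (hcirc g) (t : ℂ) htz
  have h2 : ∑ n ∈ J, ∑ l ∈ J, cx 𝕜 (g (b.e n)) * G (t : ℂ) n l * cx 𝕜 (b.c l w) =
      cx 𝕜 (g v) := by
    rw [LB1_expand b J g hv, map_sum]
    refine Finset.sum_congr rfl fun n hn => ?_
    rw [map_mul, ← hGw n hn, Finset.mul_sum]
    exact Finset.sum_congr rfl fun l _ => by ring
  rw [h2, norm_cx] at h1
  calc ‖g v‖ ≤ B * ‖g‖ * ‖w‖ := h1
    _ ≤ |B| * ‖g‖ * ‖w‖ := by gcongr; exact le_abs_self B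
    _ = |B| * ‖w‖ * ‖g‖ := by ring

theorem lb_one (b : UB 𝕜 ι U) {P : U →L[𝕜] U} (hP : P * P = P) (hK : Kc P) :
    ∃ F : Set ι, F.Finite ∧ ∃ c : ℝ, 0 < c ∧ ∀ J : Set ι, J.Finite → Disjoint J F →
      (∀ n ∈ J, ‖b.c n (P (b.e n))‖ ≤ 1 / 96) → ∀ t : ℝ, 1 ≤ t → ∀ v, b.M J v = v →
        c * ‖v‖ ≤ ‖b.cp P J v - (t : 𝕜) • v‖ := by
  classical
  obtain ⟨F₁, hF₁, B, hB⟩ := exists_res b hP hK
  obtain ⟨F₂, hF₂, c, hc, hlb⟩ := lemM b hP hK (ε := 1 / 2) (b.K ^ 2 * ‖P‖ + 2) (by norm_num)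
  have hKp := b.K_pos
  set T : ℝ := b.K ^ 2 * ‖P‖ with hT
  have hT0 : 0 ≤ T := by positivity
  have hc1 : 0 < (|B| + 1)⁻¹ := by positivity
  have hc2 : 0 < c / (2 * T + 2) := by positivity
  refine ⟨F₁ ∪ F₂, hF₁.union hF₂, min (min (|B| + 1)⁻¹ (c / (2 * T + 2))) 1,
    lt_min (lt_min hc1 hc2) one_pos, fun J hJ hJF hsm t ht v hv => ?_⟩
  have hJ1 : Disjoint J F₁ := hJF.mono_right Set.subset_union_left
  have hJ2 : Disjoint J F₂ := hJF.mono_right Set.subset_union_right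
  have hm1 : min (min (|B| + 1)⁻¹ (c / (2 * T + 2))) 1 ≤ (|B| + 1)⁻¹ :=
    (min_le_left _ _).trans (min_le_left _ _)
  have hm2 : min (min (|B| + 1)⁻¹ (c / (2 * T + 2))) 1 ≤ c / (2 * T + 2) :=
    (min_le_left _ _).trans (min_le_right _ _)
  have hm3 : min (min (|B| + 1)⁻¹ (c / (2 * T + 2))) 1 ≤ 1 := min_le_right _ _
  rcases le_total t (3 / 2) with h1 | h1
  · obtain ⟨s, rfl⟩ := hJ.exists_finset_coe
    have h2 := LB1_small b P hB s hJ1 (fun n hn => hsm n (by exact_mod_cast hn)) ht h1 hv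
    have h3 : ‖v‖ ≤ (|B| + 1) * ‖b.cp P (s : Set ι) v - (t : 𝕜) • v‖ := by
      refine h2.trans ?_
      gcongr
      linarith
    calc min (min (|B| + 1)⁻¹ (c / (2 * T + 2))) 1 * ‖v‖ ≤ (|B| + 1)⁻¹ * ‖v‖ := by gcongr
      _ ≤ (|B| + 1)⁻¹ * ((|B| + 1) * ‖b.cp P (s : Set ι) v - (t : 𝕜) • v‖) := by gcongr
      _ = ‖b.cp P (s : Set ι) v - (t : 𝕜) • v‖ := by
        rw [← mul_assoc, inv_mul_cancel₀ (by positivity), one_mul]
  · rcases le_total t (T + 2) with h2 | h2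
    · have hz1 : ‖(t : ℂ)‖ = t := by
        rw [Complex.norm_real, Real.norm_eq_abs, abs_of_nonneg (by linarith)]
      have hz2 : ‖(t : ℂ) - 1‖ = t - 1 := by
        have h3 : (t : ℂ) - 1 = ((t - 1 : ℝ) : ℂ) := by push_cast; ring
        rw [h3, Complex.norm_real, Real.norm_eq_abs, abs_of_nonneg (by linarith)]
      have h3 := hlb J hJ hJ2 (t : ℂ) (by rw [hz1]; linarith) (by rw [hz2]; linarith)
        (by rw [hz1]; exact h2) v hv
      have h4 : qop (b.cp P J) (t : ℂ) v = b.cp P J (b.cp P J v - (t : 𝕜) • v) -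
          (t : 𝕜) • (b.cp P J v - (t : 𝕜) • v) := by
        have h5 : qop (b.cp P J) (t : ℂ) v = b.cp P J (b.cp P J v) -
            ((2 * (t : ℂ).re : ℝ) : 𝕜) • b.cp P J v + ((‖(t : ℂ)‖ ^ 2 : ℝ) : 𝕜) • v := rfl
        rw [h5, hz1, map_sub, map_smul, Complex.ofReal_re, smul_sub, smul_smul]
        push_cast
        rw [two_mul, add_smul, ← pow_two]
        abel
      have h6 : ‖qop (b.cp P J) (t : ℂ) v‖ ≤ (2 * T + 2) * ‖b.cp P J v - (t : 𝕜) • v‖ := by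
        rw [h4]
        refine (norm_sub_le _ _).trans ?_
        rw [norm_smul, RCLike.norm_ofReal, abs_of_nonneg (by linarith : (0 : ℝ) ≤ t)]
        have h7 := LB1_cp_le b P J (b.cp P J v - (t : 𝕜) • v)
        rw [← hT] at h7
        nlinarith [norm_nonneg (b.cp P J v - (t : 𝕜) • v)]
      calc min (min (|B| + 1)⁻¹ (c / (2 * T + 2))) 1 * ‖v‖ ≤ c / (2 * T + 2) * ‖v‖ := by gcongr
        _ = (c * ‖v‖) / (2 * T + 2) := by ring
        _ ≤ ‖b.cp P J v - (t : 𝕜) • v‖ := by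
          rw [div_le_iff₀ (by positivity)]
          exact (h3.trans h6).trans (le_of_eq (mul_comm _ _))
    · have h3 := LB1_cp_le b P J v
      rw [← hT] at h3
      have h4 : ‖(t : 𝕜) • v‖ = t * ‖v‖ := by
        rw [norm_smul, RCLike.norm_ofReal, abs_of_nonneg (by linarith : (0 : ℝ) ≤ t)]
      have h5 : ‖(t : 𝕜) • v‖ ≤ ‖b.cp P J v‖ + ‖b.cp P J v - (t : 𝕜) • v‖ := by
        have h6 := norm_sub_le (b.cp P J v) (b.cp P J v - (t : 𝕜) • v)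
        rwa [sub_sub_cancel] at h6
      have h7 : ‖v‖ ≤ ‖b.cp P J v - (t : 𝕜) • v‖ := by
        rw [h4] at h5
        nlinarith [norm_nonneg v]
      calc min (min (|B| + 1)⁻¹ (c / (2 * T + 2))) 1 * ‖v‖ ≤ 1 * ‖v‖ := by gcongr
        _ = ‖v‖ := one_mul _
        _ ≤ _ := h7

end Pool.Agent.UBS
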