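import Mathlib
import Pool.Agent.UBS.Base
import Pool.Agent.UBS.LB1
import Pool.Agent.UBS.CTM

/-!
# UBS / INV: `1 - M_N P M_N` is invertible

Let `N` be any set (finite or not) disjoint from `F` with small diagonal.  For `v` with finite support
in `N` (`M_J v = v`, `J ⊆ N` finite) and `J ⊆ J' ⊆ N` finite, `b.cp P J' v = M_{J'} P v → M_N P v`
(`UB.approx`-type convergence along finite sets), so
`c ‖v‖ ≤ ‖b.cp P N v - t v‖` for all `t ≥ 1`; by density for all `v` with `M_N v = v`.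
For `X t = 1 - s(t) • b.cp P N` with `s(t) = t / (...)`: take `X s = 1 - s • b.cp P N`, `s ∈ [0, 1]`; for
`s > 0`, `v` with `M_N v = v`: `‖X s v‖ = s ‖b.cp P N v - s⁻¹ v‖ ≥ s c ‖v‖` and
`‖X s v‖ ≥ (1 - s ‖b.cp P N‖) ‖v‖`; so there is a uniform `c' > 0` on `[0, 1]` for such `v`.  For general
`v = M_N v + (v - M_N v)`, `X s v = X s (M_N v) + (v - M_N v)`, apply `M_N` and `1 - M_N`: uniform lower
bound.  `X 0 = 1`.  `cont_method`.
-/

set_option autoImplicit false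

open Filter Topology Function

namespace Pool.Agent.UBS

variable {𝕜 : Type*} [RCLike 𝕜] {U : Type*} [NormedAddCommGroup U] [NormedSpace 𝕜 U]
  [CompleteSpace U] {ι : Type*}

private theorem INV_cp_apply (b : UB 𝕜 ι U) (P : U →L[𝕜] U) (J : Set ι) (v : U) :
    b.cp P J v = b.M J (P (b.M J v)) := rfl

private theorem INV_step1 (b : UB 𝕜 ι U) (P : U →L[𝕜] U) (N : Set ι) {c : ℝ} (hc : 0 < c) (t : ℝ)
    (h : ∀ J : Set ι, J.Finite → J ⊆ N → ∀ v, b.M J v = v →
        c * ‖v‖ ≤ ‖b.cp P J v - (t : 𝕜) • v‖) (v : U) (hv : b.M N v = v) :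
    c * ‖v‖ ≤ ‖b.cp P N v - (t : 𝕜) • v‖ := by
  have hK := b.K_pos
  refine le_of_forall_pos_le_add fun ε hε => ?_
  set L : ℝ := b.K * (b.K * ‖P‖) + 1 + |t| + c with hL
  have hLpos : 0 < L := by
    have h1 := norm_nonneg P
    have h2 := abs_nonneg t
    have h3 : 0 ≤ b.K * (b.K * ‖P‖) := by positivity
    rw [hL]
    linarith
  obtain ⟨F1, hF1, h1⟩ := b.approx v (ε := ε / L) (div_pos hε hLpos)
  obtain ⟨F2, hF2, h2⟩ := b.approx (b.M N (P v)) (ε := ε / L) (div_pos hε hLpos)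
  have e1 := h1 (F1 ∪ F2) Set.subset_union_left
  have e2 := h2 (F1 ∪ F2) Set.subset_union_right
  have hG : (F1 ∪ F2).Finite := hF1.union hF2
  generalize F1 ∪ F2 = G at e1 e2 hG
  have hvG : b.M (G ∩ N) v = b.M G v := by rw [← b.M_M, hv]
  have hfix : b.M (G ∩ N) (b.M G v) = b.M G v := by
    rw [b.M_M, ← hvG]
    congr 2
    ext i
    simp only [Set.mem_inter_iff]
    tauto
  have e3 := h (G ∩ N) (hG.subset Set.inter_subset_left) Set.inter_subset_right (b.M G v) hfix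
  have e4 : b.cp P (G ∩ N) (b.M G v) = b.M G (b.M N (P (b.M G v))) := by
    rw [INV_cp_apply, hfix, b.M_M]
  have e5 : b.cp P N v = b.M N (P v) := by rw [INV_cp_apply, hv]
  have e6 : b.cp P (G ∩ N) (b.M G v) - (t : 𝕜) • b.M G v =
      (b.cp P N v - (t : 𝕜) • v) + (b.M G (b.M N (P (b.M G v - v))) +
        (b.M G (b.M N (P v)) - b.M N (P v)) - (t : 𝕜) • (b.M G v - v)) := by
    rw [e4, e5, map_sub, map_sub, map_sub, smul_sub]
    abel
  have e7 : ‖b.M G (b.M N (P (b.M G v - v)))‖ ≤ b.K * (b.K * ‖P‖) * (ε / L) := by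
    calc ‖b.M G (b.M N (P (b.M G v - v)))‖ ≤ b.K * ‖b.M N (P (b.M G v - v))‖ :=
          b.norm_M_apply_le _ _
      _ ≤ b.K * (b.K * ‖P (b.M G v - v)‖) := by
          gcongr
          exact b.norm_M_apply_le _ _
      _ ≤ b.K * (b.K * (‖P‖ * ‖b.M G v - v‖)) := by
          gcongr
          exact P.le_opNorm _
      _ ≤ b.K * (b.K * (‖P‖ * (ε / L))) := by gcongr
      _ = b.K * (b.K * ‖P‖) * (ε / L) := by ring
  have e8 : ‖(t : 𝕜) • (b.M G v - v)‖ ≤ |t| * (ε / L) := by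
    rw [norm_smul, RCLike.norm_ofReal]
    gcongr
  have e9 : ‖b.cp P (G ∩ N) (b.M G v) - (t : 𝕜) • b.M G v‖ ≤
      ‖b.cp P N v - (t : 𝕜) • v‖ + (b.K * (b.K * ‖P‖) + 1 + |t|) * (ε / L) := by
    rw [e6]
    refine (norm_add_le _ _).trans ?_
    gcongr
    refine (norm_sub_le _ _).trans ?_
    have := norm_add_le (b.M G (b.M N (P (b.M G v - v)))) (b.M G (b.M N (P v)) - b.M N (P v))
    linarith
  have e10 : ‖v‖ ≤ ‖b.M G v‖ + ε / L := by
    have := norm_sub_norm_le v (b.M G v)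
    rw [norm_sub_rev] at this
    linarith
  have e11 : L * (ε / L) = ε := by field_simp
  calc c * ‖v‖ ≤ c * (‖b.M G v‖ + ε / L) := by gcongr
    _ = c * ‖b.M G v‖ + c * (ε / L) := by ring
    _ ≤ ‖b.cp P N v - (t : 𝕜) • v‖ + (b.K * (b.K * ‖P‖) + 1 + |t|) * (ε / L) + c * (ε / L) := by
        linarith
    _ = ‖b.cp P N v - (t : 𝕜) • v‖ + L * (ε / L) := by rw [hL]; ring
    _ = ‖b.cp P N v - (t : 𝕜) • v‖ + ε := by rw [e11]

theorem isUnit_one_sub_cp (b : UB 𝕜 ι U) {P : U →L[𝕜] U} (hP : P * P = P) (hK : Kc P) :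
    ∃ F : Set ι, F.Finite ∧ ∃ c : ℝ, 0 < c ∧ ∀ N : Set ι, Disjoint N F →
      (∀ n ∈ N, ‖b.c n (P (b.e n))‖ ≤ 1 / 96) →
        IsUnit (1 - b.cp P N) ∧ ∀ v, b.M N v = v → c * ‖v‖ ≤ ‖v - b.cp P N v‖ := by
  obtain ⟨F, hF, c, hc, h⟩ := lb_one b hP hK
  refine ⟨F, hF, c, hc, fun N hN hdiag => ?_⟩
  have hKp := b.K_pos
  have s1 : ∀ t : ℝ, 1 ≤ t → ∀ v, b.M N v = v → c * ‖v‖ ≤ ‖b.cp P N v - (t : 𝕜) • v‖ := by
    intro t ht v hv
    exact INV_step1 b P N hc t (fun J hJ hJN w hw => h J hJ (hN.mono_left hJN)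
      (fun n hn => hdiag n (hJN hn)) t ht w hw) v hv
  have s2 : ∀ v, b.M N v = v → c * ‖v‖ ≤ ‖v - b.cp P N v‖ := by
    intro v hv
    have := s1 1 le_rfl v hv
    rwa [RCLike.ofReal_one, one_smul, norm_sub_rev] at this
  refine ⟨?_, s2⟩
  set T := b.cp P N with hT
  set L : ℝ := 2 * (‖T‖ + 1) with hLdef
  have hLpos : 0 < L := by positivity
  have hTM : ∀ v, T (b.M N v) = T v := fun v => by
    rw [hT, INV_cp_apply, INV_cp_apply, b.M_M, Set.inter_self]
  have hMT : ∀ v, b.M N (T v) = T v := fun v => by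
    rw [hT, INV_cp_apply, b.M_M, Set.inter_self]
  set c1 : ℝ := min (1 / 2) (c / L) with hc1
  have hc1pos : 0 < c1 := lt_min (by norm_num) (div_pos hc hLpos)
  have s3 : ∀ s ∈ Set.Icc (0 : ℝ) 1, ∀ v, b.M N v = v → c1 * ‖v‖ ≤ ‖v - (s : 𝕜) • T v‖ := by
    intro s hs v hv
    rcases le_or_gt (s * L) 1 with h1 | h1
    · have h2 : ‖(s : 𝕜) • T v‖ ≤ 1 / 2 * ‖v‖ := by
        rw [norm_smul, RCLike.norm_ofReal, abs_of_nonneg hs.1]
        calc s * ‖T v‖ ≤ s * (‖T‖ * ‖v‖) := by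
              gcongr
              · exact hs.1
              · exact T.le_opNorm v
          _ = (s * ‖T‖) * ‖v‖ := by ring
          _ ≤ 1 / 2 * ‖v‖ := by
              gcongr
              have : 0 ≤ s := hs.1
              rw [hLdef] at h1
              nlinarith
      have h3 := norm_sub_norm_le v ((s : 𝕜) • T v)
      have h4 : c1 * ‖v‖ ≤ 1 / 2 * ‖v‖ := by
        gcongr
        exact min_le_left _ _
      linarith
    · have hs0 : 0 < s := by
        by_contra hcon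
        push Not at hcon
        have : s * L ≤ 0 := mul_nonpos_of_nonpos_of_nonneg hcon hLpos.le
        linarith
      have hsinv : 1 ≤ s⁻¹ := (one_le_inv₀ hs0).2 hs.2
      have h2 := s1 s⁻¹ hsinv v hv
      have h3 : v - (s : 𝕜) • T v = -((s : 𝕜) • (T v - ((s⁻¹ : ℝ) : 𝕜) • v)) := by
        rw [smul_sub, smul_smul, ← RCLike.ofReal_mul, mul_inv_cancel₀ hs0.ne',
          RCLike.ofReal_one, one_smul]
        abel
      rw [h3, norm_neg, norm_smul, RCLike.norm_ofReal, abs_of_pos hs0]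
      calc c1 * ‖v‖ ≤ c / L * ‖v‖ := by
            gcongr
            exact min_le_right _ _
        _ ≤ s * c * ‖v‖ := by
            gcongr
            rw [div_le_iff₀ hLpos]
            nlinarith
        _ = s * (c * ‖v‖) := by ring
        _ ≤ s * ‖T v - ((s⁻¹ : ℝ) : 𝕜) • v‖ := by gcongr
  set D : ℝ := b.K / c1 + 1 + b.K with hD
  have hDpos : 0 < D := by positivity
  have s4 : ∀ s ∈ Set.Icc (0 : ℝ) 1, ∀ v, D⁻¹ * ‖v‖ ≤ ‖(1 - (s : 𝕜) • T : U →L[𝕜] U) v‖ := by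
    intro s hs v
    have e0 : (1 - (s : 𝕜) • T : U →L[𝕜] U) v = v - (s : 𝕜) • T v := rfl
    rw [e0]
    set y := v - (s : 𝕜) • T v with hy
    have e1 : b.M N y = b.M N v - (s : 𝕜) • T (b.M N v) := by
      rw [hy, map_sub, map_smul, hMT, hTM]
    have e2 : y - b.M N y = v - b.M N v := by
      rw [e1, hTM, hy]
      abel
    have e3 := s3 s hs (b.M N v) (by rw [b.M_M, Set.inter_self])
    rw [← e1] at e3
    have e4 := b.norm_M_apply_le N y
    have e5 : ‖b.M N v‖ ≤ b.K / c1 * ‖y‖ := by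
      rw [div_mul_eq_mul_div, le_div_iff₀ hc1pos]
      linarith
    have e6 : ‖v - b.M N v‖ ≤ (1 + b.K) * ‖y‖ := by
      rw [← e2]
      refine (norm_sub_le _ _).trans ?_
      linarith
    have e7 : ‖v‖ ≤ D * ‖y‖ := by
      have e8 : ‖v‖ ≤ ‖b.M N v‖ + ‖v - b.M N v‖ := by
        have := norm_add_le (b.M N v) (v - b.M N v)
        rwa [add_sub_cancel] at this
      rw [hD]
      linarith
    rw [inv_mul_le_iff₀ hDpos]
    exact e7
  have s5 := cont_method (fun s : ℝ => (1 - (s : 𝕜) • T : U →L[𝕜] U)) (by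
      apply Continuous.continuousOn
      have hc0 : Continuous fun s : ℝ => (s : 𝕜) := RCLike.continuous_ofReal
      exact continuous_const.sub (hc0.smul continuous_const))
    (c := D⁻¹) (by positivity) s4 (by
      simp only [RCLike.ofReal_zero, zero_smul, sub_zero]
      exact isUnit_one)
  simpa only [RCLike.ofReal_one, one_smul] using s5

end Pool.Agent.UBS
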