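import Mathlib
import Pool.Agent.UBS.Base
import Pool.Agent.UBS.LTQ
import Pool.Agent.UBS.GG
import Pool.Agent.UBS.KSW

/-!
# UBS / OM: the uniform lower bound for the operators `om`

`om b P A N t = M_A P M_A + M_N Q M_N + t (M_A P M_N + M_N Q M_A)`, `Q = 1 - P`.

By contradiction: a sequence of pairwise disjoint finite `I k ⊆ A ∪ N`, `t k ∈ [0, 1]`, unit vectors
`v k` in the range of `M (I k)` with `‖M (I k) (om t k v k)‖ → 0`.  Write `a k = M_A (v k)`,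
`n k = M_N (v k)`, `v k = a k + n k`, `I' k = I k ∩ A`, `I'' k = I k ∩ N`.  By `lemTl` twice (for `P` and
`I'`, then `1 - P` and `I''`; restrict the first `W` by `BD.sub_seq`) we may assume that there are block
diagonal `V`, `W` with `V (M (I' k) (P u)) = u` for `M (I' k) u = u` and `W (M (I'' k) (Q u)) = u` for
`M (I'' k) u = u`; both are `BD b I` (`BD.of_inter`).  Applying `M (I' k)` and `M (I'' k)`:
`M' P a + t M' P n → 0`, `M'' Q n + t M'' Q a → 0`, hence `a + t V M' P n → 0` and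
`n + t W M'' Q a → 0`, so `n - t ^ 2 W M'' Q V M' P n → 0` (all differences tend to `0` in norm).
`‖n k‖` is bounded below for large `k` (otherwise `a k → 0` as well along a subsequence).  Put
`w k = ‖n k‖⁻¹ • n k`.  With `R = D * W` (`D` = block multiplier of `(t k) ^ 2`, composed with `M_N`),
`S = V * M_A` (so `S u = V (M' u)` for `u` in the block): `R (M k (Q (S (M k (P w k))))) - w k → 0`.
`lemG` for `1 - P` (`kc_swap`; `1 - (1 - P) = P`).
-/

set_option autoImplicit false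

open Filter Topology Function

namespace Pool.Agent.UBS

variable {𝕜 : Type*} [RCLike 𝕜] {U : Type*} [NormedAddCommGroup U] [NormedSpace 𝕜 U]
  [CompleteSpace U] {ι : Type*}

/-- The interpolated matrix operator. -/
noncomputable def om (b : UB 𝕜 ι U) (P : U →L[𝕜] U) (A N : Set ι) (t : ℝ) : U →L[𝕜] U :=
  b.M A * P * b.M A + b.M N * (1 - P) * b.M N +
    ((t : ℝ) : 𝕜) • (b.M A * P * b.M N + b.M N * (1 - P) * b.M A)

theorem OM_split (b : UB 𝕜 ι U) {A N J : Set ι} (hAN : Disjoint A N) (hJ : J ⊆ A ∪ N) {v : U}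
    (hv : b.M J v = v) : b.M A v + b.M N v = v := by
  have h := b.M_union hAN
  have h2 : b.M (A ∪ N) v = v := b.M_fix_of_subset hJ hv
  rw [h] at h2
  exact h2

theorem OM_apply (b : UB 𝕜 ι U) (P : U →L[𝕜] U) (A N : Set ι) (t : ℝ) (v : U) :
    om b P A N t v = b.M A (P (b.M A v)) + b.M N ((1 - P) (b.M N v)) +
      (t : 𝕜) • (b.M A (P (b.M N v)) + b.M N ((1 - P) (b.M A v))) := rfl

theorem OM_A (b : UB 𝕜 ι U) (P : U →L[𝕜] U) {A N : Set ι} (hAN : Disjoint A N) (J : Set ι)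
    (t : ℝ) (v : U) : b.M (J ∩ A) (om b P A N t v) =
      b.M (J ∩ A) (P (b.M A v)) + (t : 𝕜) • b.M (J ∩ A) (P (b.M N v)) := by
  have h1 : J ∩ A ∩ A = J ∩ A := by rw [Set.inter_assoc, Set.inter_self]
  have h2 : Disjoint (J ∩ A) N := hAN.mono_left Set.inter_subset_right
  rw [OM_apply, map_add, map_add, map_smul, map_add, b.M_M, b.M_M_disj h2, b.M_M,
    b.M_M_disj h2, h1, add_zero, add_zero]

theorem OM_N (b : UB 𝕜 ι U) (P : U →L[𝕜] U) {A N : Set ι} (hAN : Disjoint A N) (J : Set ι)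
    (t : ℝ) (v : U) : b.M (J ∩ N) (om b P A N t v) =
      b.M (J ∩ N) ((1 - P) (b.M N v)) + (t : 𝕜) • b.M (J ∩ N) ((1 - P) (b.M A v)) := by
  have h1 : J ∩ N ∩ N = J ∩ N := by rw [Set.inter_assoc, Set.inter_self]
  have h2 : Disjoint (J ∩ N) A := hAN.symm.mono_left Set.inter_subset_right
  rw [OM_apply, map_add, map_add, map_smul, map_add, b.M_M_disj h2, b.M_M, b.M_M_disj h2,
    b.M_M, h1, zero_add, zero_add]

/-- A block diagonal operator composed with `M A`. -/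
theorem OM_bd {b : UB 𝕜 ι U} {I : ℕ → Set ι} {V : U →L[𝕜] U} (hV : BD b I V) (A : Set ι) :
    BD b I (V * b.M A) := by
  refine ⟨fun k => ?_, ?_⟩
  · rw [mul_assoc, b.M_comm, ← mul_assoc, hV.1 k, mul_assoc]
  · rw [mul_assoc, b.M_comm, ← mul_assoc, hV.2]

theorem OM_core (b : UB 𝕜 ι U) {P : U →L[𝕜] U} (hP : P * P = P) (hK : Kc P) {A N : Set ι}
    (hAN : Disjoint A N) (I : ℕ → Set ι) (hfin : ∀ k, (I k).Finite)
    (hd : Pairwise (Disjoint on I)) (hsub : ∀ k, I k ⊆ A ∪ N) (t : ℕ → ℝ)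
    (ht : ∀ k, t k ∈ Set.Icc (0 : ℝ) 1) (v : ℕ → U) (hv : ∀ k, b.M (I k) (v k) = v k)
    (hn : ∀ k, ‖v k‖ = 1) (V W : U →L[𝕜] U) (hV : BD b I V) (hW : BD b I W)
    (hV' : ∀ k u, b.M (I k ∩ A) u = u → V (b.M (I k ∩ A) (P u)) = u)
    (hW' : ∀ k u, b.M (I k ∩ N) u = u → W (b.M (I k ∩ N) ((1 - P) u)) = u)
    (hlim : Tendsto (fun k => ‖b.M (I k) (om b P A N (t k) (v k))‖) atTop (𝓝 0)) : False := by
  have hKp := b.K_pos
  -- the two components
  set a : ℕ → U := fun k => b.M A (v k) with ha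
  set n : ℕ → U := fun k => b.M N (v k) with hnn
  have han : ∀ k, a k + n k = v k := fun k => OM_split b hAN (hsub k) (hv k)
  have haI : ∀ k, b.M (I k ∩ A) (a k) = a k := by
    intro k
    have h1 : b.M (I k ∩ A) (a k) = b.M (A ∩ I k) (v k) := by
      rw [ha]
      simp only
      rw [b.M_M, Set.inter_assoc, Set.inter_self, Set.inter_comm]
    rw [h1, ← b.M_M, hv]
  have hnI : ∀ k, b.M (I k ∩ N) (n k) = n k := by
    intro k
    have h1 : b.M (I k ∩ N) (n k) = b.M (N ∩ I k) (v k) := by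
      rw [hnn]
      simp only
      rw [b.M_M, Set.inter_assoc, Set.inter_self, Set.inter_comm]
    rw [h1, ← b.M_M, hv]
  have hnIk : ∀ k, b.M (I k) (n k) = n k := fun k =>
    b.M_fix_of_subset Set.inter_subset_left (hnI k)
  set o : ℕ → U := fun k => b.M (I k) (om b P A N (t k) (v k)) with ho
  have hoA : ∀ k, b.M (I k ∩ A) (o k) = b.M (I k ∩ A) (om b P A N (t k) (v k)) := by
    intro k
    rw [ho]
    simp only
    rw [b.M_M, Set.inter_assoc, Set.inter_comm A, ← Set.inter_assoc, Set.inter_self]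
  have hoN : ∀ k, b.M (I k ∩ N) (o k) = b.M (I k ∩ N) (om b P A N (t k) (v k)) := by
    intro k
    rw [ho]
    simp only
    rw [b.M_M, Set.inter_assoc, Set.inter_comm N, ← Set.inter_assoc, Set.inter_self]
  set d1 : ℕ → U := fun k => V (b.M (I k ∩ A) (o k)) with hd1
  set d2 : ℕ → U := fun k => W (b.M (I k ∩ N) (o k)) with hd2
  have e1 : ∀ k, d1 k = a k + (t k : 𝕜) • V (b.M (I k ∩ A) (P (n k))) := by
    intro k
    rw [hd1]
    simp only
    rw [hoA, OM_A b P hAN, map_add, map_smul, hV' k _ (haI k)]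
  have e2 : ∀ k, d2 k = n k + (t k : 𝕜) • W (b.M (I k ∩ N) ((1 - P) (a k))) := by
    intro k
    rw [hd2]
    simp only
    rw [hoN, OM_N b P hAN, map_add, map_smul, hW' k _ (hnI k)]
  have n1 : ∀ k, ‖d1 k‖ ≤ ‖V‖ * b.K * ‖o k‖ := by
    intro k
    calc ‖d1 k‖ ≤ ‖V‖ * ‖b.M (I k ∩ A) (o k)‖ := V.le_opNorm _
      _ ≤ ‖V‖ * (b.K * ‖o k‖) := by
        gcongr
        exact b.norm_M_apply_le _ _
      _ = ‖V‖ * b.K * ‖o k‖ := by ring
  have n2 : ∀ k, ‖d2 k‖ ≤ ‖W‖ * b.K * ‖o k‖ := by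
    intro k
    calc ‖d2 k‖ ≤ ‖W‖ * ‖b.M (I k ∩ N) (o k)‖ := W.le_opNorm _
      _ ≤ ‖W‖ * (b.K * ‖o k‖) := by
        gcongr
        exact b.norm_M_apply_le _ _
      _ = ‖W‖ * b.K * ‖o k‖ := by ring
  have htn : ∀ k, ‖(t k : 𝕜)‖ ≤ 1 := by
    intro k
    rw [RCLike.norm_ofReal, abs_of_nonneg (ht k).1]
    exact (ht k).2
  -- the combined error
  have e3 : ∀ k, n k - ((t k : 𝕜) ^ 2) • W (b.M (I k ∩ N) ((1 - P) (V (b.M (I k ∩ A)
      (P (n k)))))) = d2 k - (t k : 𝕜) • W (b.M (I k ∩ N) ((1 - P) (d1 k))) := by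
    intro k
    have h1 : W (b.M (I k ∩ N) ((1 - P) (d1 k))) = W (b.M (I k ∩ N) ((1 - P) (a k))) +
        (t k : 𝕜) • W (b.M (I k ∩ N) ((1 - P) (V (b.M (I k ∩ A) (P (n k)))))) := by
      rw [e1 k, map_add, map_add, map_add, map_smul, map_smul, map_smul]
    rw [h1, e2 k, smul_add, smul_smul, ← pow_two]
    abel
  set C : ℝ := ‖W‖ * b.K + ‖W‖ * (b.K * (‖(1 - P : U →L[𝕜] U)‖ * (‖V‖ * b.K))) with hC
  have n3 : ∀ k, ‖n k - ((t k : 𝕜) ^ 2) • W (b.M (I k ∩ N) ((1 - P) (V (b.M (I k ∩ A)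
      (P (n k))))))‖ ≤ C * ‖o k‖ := by
    intro k
    rw [e3 k]
    have h1 : ‖(t k : 𝕜) • W (b.M (I k ∩ N) ((1 - P) (d1 k)))‖ ≤
        ‖W‖ * (b.K * (‖(1 - P : U →L[𝕜] U)‖ * (‖V‖ * b.K * ‖o k‖))) := by
      rw [norm_smul]
      calc ‖(t k : 𝕜)‖ * ‖W (b.M (I k ∩ N) ((1 - P) (d1 k)))‖
          ≤ 1 * (‖W‖ * (b.K * (‖(1 - P : U →L[𝕜] U)‖ * ‖d1 k‖))) := by
            gcongr
            · exact htn k
            · refine (W.le_opNorm _).trans ?_
              gcongr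
              refine (b.norm_M_apply_le _ _).trans ?_
              gcongr
              exact (1 - P : U →L[𝕜] U).le_opNorm _
        _ ≤ 1 * (‖W‖ * (b.K * (‖(1 - P : U →L[𝕜] U)‖ * (‖V‖ * b.K * ‖o k‖)))) := by
            gcongr
            exact n1 k
        _ = ‖W‖ * (b.K * (‖(1 - P : U →L[𝕜] U)‖ * (‖V‖ * b.K * ‖o k‖))) := one_mul _
    refine (norm_sub_le _ _).trans ((add_le_add (n2 k) h1).trans (le_of_eq ?_))
    rw [hC]; ring
  -- lower bound for the second component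
  set B : ℝ := ‖V‖ * (b.K * ‖P‖) + 1 with hB
  have hBp : 0 < B := by positivity
  have n4 : ∀ k, 1 ≤ ‖V‖ * b.K * ‖o k‖ + B * ‖n k‖ := by
    intro k
    have h1 : a k = d1 k - (t k : 𝕜) • V (b.M (I k ∩ A) (P (n k))) := by
      rw [e1 k]; abel
    have h2 : ‖(t k : 𝕜) • V (b.M (I k ∩ A) (P (n k)))‖ ≤ ‖V‖ * (b.K * (‖P‖ * ‖n k‖)) := by
      rw [norm_smul]
      calc ‖(t k : 𝕜)‖ * ‖V (b.M (I k ∩ A) (P (n k)))‖
          ≤ 1 * (‖V‖ * (b.K * (‖P‖ * ‖n k‖))) := by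
            gcongr
            · exact htn k
            · refine (V.le_opNorm _).trans ?_
              gcongr
              refine (b.norm_M_apply_le _ _).trans ?_
              gcongr
              exact P.le_opNorm _
        _ = ‖V‖ * (b.K * (‖P‖ * ‖n k‖)) := one_mul _
    have h3 : ‖a k‖ ≤ ‖V‖ * b.K * ‖o k‖ + ‖V‖ * (b.K * (‖P‖ * ‖n k‖)) := by
      rw [h1]
      exact (norm_sub_le _ _).trans (add_le_add (n1 k) h2)
    have h4 : (1 : ℝ) ≤ ‖a k‖ + ‖n k‖ := by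
      rw [← hn k, ← han k]
      exact norm_add_le _ _
    calc (1 : ℝ) ≤ ‖a k‖ + ‖n k‖ := h4
      _ ≤ ‖V‖ * b.K * ‖o k‖ + ‖V‖ * (b.K * (‖P‖ * ‖n k‖)) + ‖n k‖ := by linarith
      _ = ‖V‖ * b.K * ‖o k‖ + B * ‖n k‖ := by rw [hB]; ring
  have hev : ∀ᶠ k in atTop, ‖V‖ * b.K * ‖o k‖ < 1 / 2 := by
    have h1 : Tendsto (fun k => ‖V‖ * b.K * ‖o k‖) atTop (𝓝 (‖V‖ * b.K * 0)) :=
      hlim.const_mul _
    rw [mul_zero] at h1
    exact h1.eventually (gt_mem_nhds (by norm_num))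
  obtain ⟨k0, hk0⟩ := eventually_atTop.1 hev
  have hlow : ∀ k, k0 ≤ k → 1 / (2 * B) ≤ ‖n k‖ := by
    intro k hk
    have h1 := n4 k
    have h2 := hk0 k hk
    rw [div_le_iff₀ (by positivity)]
    nlinarith
  have hpos : ∀ k, k0 ≤ k → 0 < ‖n k‖ := fun k hk =>
    lt_of_lt_of_le (by positivity) (hlow k hk)
  -- the block multiplier
  obtain ⟨D, hD, hD'⟩ := exists_blockmul b I hd (fun k => (t k : 𝕜) ^ 2) (C := 1) (by
    intro k
    rw [norm_pow]
    exact pow_le_one₀ (norm_nonneg _) (htn k))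
  have hR0 : BD b I (D * (W * b.M N)) := hD.mul (OM_bd hW N)
  have hS0 : BD b I (V * b.M A) := OM_bd hV A
  obtain ⟨hR1, hR2⟩ := hR0.sub_seq (fun k => k + k0)
  obtain ⟨hS1, hS2⟩ := hS0.sub_seq (fun k => k + k0)
  have hQP : (1 - P : U →L[𝕜] U) * (1 - P) = 1 - P := by
    rw [mul_sub, sub_mul, sub_mul, hP, one_mul, mul_one, one_mul, sub_self, sub_zero]
  have hmono : Function.Injective (fun k : ℕ => k + k0) := fun x y h => by simpa using h
  refine lemG b hQP (kc_swap hP hK) (fun k => I (k + k0)) (fun k => hfin _)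
    (fun i j hij => hd fun h => hij (hmono h)) _ _ hR1 hS1
    (fun k => ((‖n (k + k0)‖⁻¹ : ℝ) : 𝕜) • n (k + k0)) (fun k => ?_) (fun k => ?_) ?_
  · rw [map_smul, hnIk]
  · rw [norm_smul, RCLike.norm_ofReal, abs_of_nonneg (by positivity)]
    exact inv_mul_cancel₀ (hpos _ (Nat.le_add_left _ _)).ne'
  · have key : ∀ k, (D * (W * b.M N) * b.M (⋃ k, I (k + k0))) (b.M (I (k + k0))
        ((1 - P) ((V * b.M A * b.M (⋃ k, I (k + k0))) (b.M (I (k + k0))
          ((1 - (1 - P)) (((‖n (k + k0)‖⁻¹ : ℝ) : 𝕜) • n (k + k0))))))) -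
        ((‖n (k + k0)‖⁻¹ : ℝ) : 𝕜) • n (k + k0) =
        -(((‖n (k + k0)‖⁻¹ : ℝ) : 𝕜) • (n (k + k0) - ((t (k + k0) : 𝕜) ^ 2) •
          W (b.M (I (k + k0) ∩ N) ((1 - P) (V (b.M (I (k + k0) ∩ A) (P (n (k + k0))))))))) := by
      intro k
      have g1 : ∀ x, (V * b.M A * b.M (⋃ k, I (k + k0))) (b.M (I (k + k0)) x) =
          V (b.M (I (k + k0) ∩ A) x) := by
        intro x
        rw [hS2 k _ (by rw [b.M_M, Set.inter_self]), mul_apply_eq_comp, b.M_M, Set.inter_comm]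
      have g2 : ∀ x, (D * (W * b.M N) * b.M (⋃ k, I (k + k0))) (b.M (I (k + k0)) x) =
          ((t (k + k0) : 𝕜) ^ 2) • W (b.M (I (k + k0) ∩ N) x) := by
        intro x
        rw [hR2 k _ (by rw [b.M_M, Set.inter_self]), mul_apply_eq_comp, mul_apply_eq_comp, b.M_M,
          Set.inter_comm]
        refine hD' (k + k0) _ ?_
        refine hW.fix ?_
        exact b.M_fix_of_subset Set.inter_subset_left (by rw [b.M_M, Set.inter_self])
      rw [g1, g2, sub_sub_cancel, map_smul, map_smul, map_smul, map_smul, map_smul, map_smul,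
        smul_sub, neg_sub]
      congr 1
      rw [smul_comm]
    have hbd : ∀ k, ‖(D * (W * b.M N) * b.M (⋃ k, I (k + k0))) (b.M (I (k + k0))
        ((1 - P) ((V * b.M A * b.M (⋃ k, I (k + k0))) (b.M (I (k + k0))
          ((1 - (1 - P)) (((‖n (k + k0)‖⁻¹ : ℝ) : 𝕜) • n (k + k0))))))) -
        ((‖n (k + k0)‖⁻¹ : ℝ) : 𝕜) • n (k + k0)‖ ≤ 2 * B * C * ‖o (k + k0)‖ := by
      intro k
      rw [key k, norm_neg, norm_smul, RCLike.norm_ofReal, abs_of_nonneg (by positivity)]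
      have h1 : ‖n (k + k0)‖⁻¹ ≤ 2 * B := by
        have h2 := hlow (k + k0) (Nat.le_add_left _ _)
        rw [inv_le_comm₀ (hpos _ (Nat.le_add_left _ _)) (by positivity)]
        rwa [one_div] at h2
      calc ‖n (k + k0)‖⁻¹ * ‖n (k + k0) - ((t (k + k0) : 𝕜) ^ 2) •
          W (b.M (I (k + k0) ∩ N) ((1 - P) (V (b.M (I (k + k0) ∩ A) (P (n (k + k0)))))))‖
          ≤ 2 * B * (C * ‖o (k + k0)‖) := by
            gcongr
            exact n3 (k + k0)
        _ = 2 * B * C * ‖o (k + k0)‖ := by ring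
    have hl2 : Tendsto (fun k => 2 * B * C * ‖o (k + k0)‖) atTop (𝓝 0) := by
      have h1 : Tendsto (fun k => ‖o (k + k0)‖) atTop (𝓝 0) :=
        (tendsto_add_atTop_iff_nat k0).2 hlim
      have h2 := h1.const_mul (2 * B * C)
      rwa [mul_zero] at h2
    exact squeeze_zero (fun k => norm_nonneg _) hbd hl2

/-- The data of a bad sequence. -/
theorem OM_seq (b : UB 𝕜 ι U) (P : U →L[𝕜] U) (A N : Set ι)
    (h : ∀ F : Set ι, F.Finite → ∀ c' : ℝ, 0 < c' → ∃ J : Set ι, J.Finite ∧ Disjoint J F ∧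
      J ⊆ A ∪ N ∧ ∃ t ∈ Set.Icc (0 : ℝ) 1, ∃ v, b.M J v = v ∧
        ‖b.M J (om b P A N t v)‖ < c' * ‖v‖) :
    ∃ (I : ℕ → Set ι) (t : ℕ → ℝ) (v : ℕ → U), (∀ k, (I k).Finite) ∧
      Pairwise (Disjoint on I) ∧ (∀ k, I k ⊆ A ∪ N) ∧ (∀ k, t k ∈ Set.Icc (0 : ℝ) 1) ∧
      (∀ k, b.M (I k) (v k) = v k) ∧ (∀ k, ‖v k‖ = 1) ∧
      Tendsto (fun k => ‖b.M (I k) (om b P A N (t k) (v k))‖) atTop (𝓝 0) := by
  classical
  obtain ⟨f, hf1, hf2⟩ := exists_seq_of_forall_finset_exists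
    (α := Set ι × ℝ × U × ℕ)
    (fun x => x.1.Finite ∧ x.1 ⊆ A ∪ N ∧ x.2.1 ∈ Set.Icc (0 : ℝ) 1 ∧ b.M x.1 x.2.2.1 = x.2.2.1 ∧
      ‖x.2.2.1‖ = 1 ∧ ‖b.M x.1 (om b P A N x.2.1 x.2.2.1)‖ < 1 / ((x.2.2.2 : ℝ) + 1))
    (fun x y => Disjoint x.1 y.1 ∧ x.2.2.2 < y.2.2.2) (by
      intro s hs
      obtain ⟨J, hJ1, hJ2, hJ3, t, ht, v, hv1, hv2⟩ := h (⋃ x ∈ s, x.1)
        (s.finite_toSet.biUnion fun x hx => (hs x (by exact_mod_cast hx)).1)
        (1 / (((s.sup fun x => x.2.2.2) + 1 : ℕ) + 1)) (by positivity)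
      have hvp : 0 < ‖v‖ := by
        by_contra hc
        have h0 : ‖v‖ = 0 := le_antisymm (not_lt.1 hc) (norm_nonneg _)
        rw [h0, mul_zero] at hv2
        exact absurd hv2 (not_lt.2 (norm_nonneg _))
      refine ⟨(J, t, ((‖v‖⁻¹ : ℝ) : 𝕜) • v, (s.sup fun x => x.2.2.2) + 1),
        ⟨hJ1, hJ3, ht, ?_, ?_, ?_⟩, fun x hx => ⟨?_, ?_⟩⟩
      · simp only
        rw [map_smul, hv1]
      · simp only
        rw [norm_smul, RCLike.norm_ofReal, abs_of_nonneg (by positivity)]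
        exact inv_mul_cancel₀ hvp.ne'
      · simp only
        rw [map_smul, map_smul, norm_smul, RCLike.norm_ofReal, abs_of_nonneg (by positivity),
          inv_mul_lt_iff₀ hvp, mul_comm]
        exact hv2
      · exact (hJ2.mono_right (Set.subset_biUnion_of_mem (u := fun x : Set ι × ℝ × U × ℕ => x.1)
          (by exact_mod_cast hx))).symm
      · exact Nat.lt_succ_of_le (Finset.le_sup (f := fun x : Set ι × ℝ × U × ℕ => x.2.2.2) hx))
  refine ⟨fun k => (f k).1, fun k => (f k).2.1, fun k => (f k).2.2.1, fun k => (hf1 k).1, ?_,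
    fun k => (hf1 k).2.1, fun k => (hf1 k).2.2.1, fun k => (hf1 k).2.2.2.1,
    fun k => (hf1 k).2.2.2.2.1, ?_⟩
  · intro i j hij
    rcases lt_or_gt_of_ne hij with h1 | h1
    · exact (hf2 _ _ h1).1
    · exact (hf2 _ _ h1).1.symm
  · have hmono : StrictMono fun k => (f k).2.2.2 := fun i j hij => (hf2 i j hij).2
    have hle : ∀ k, ‖b.M (f k).1 (om b P A N (f k).2.1 (f k).2.2.1)‖ ≤ 1 / ((k : ℝ) + 1) := by
      intro k
      refine (hf1 k).2.2.2.2.2.le.trans ?_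
      have h1 : (k : ℝ) ≤ (f k).2.2.2 := by exact_mod_cast hmono.le_apply
      gcongr
    exact squeeze_zero (fun k => norm_nonneg _) hle tendsto_one_div_add_atTop_nhds_zero_nat

theorem om_lb (b : UB 𝕜 ι U) {P : U →L[𝕜] U} (hP : P * P = P) (hK : Kc P) {A N : Set ι}
    (hAN : Disjoint A N) {c : ℝ} (hc : 0 < c)
    (hA : ∀ J : Set ι, J.Finite → J ⊆ A → ∀ v, b.M J v = v → c * ‖v‖ ≤ ‖b.M J (P v)‖)
    (hN : ∀ J : Set ι, J.Finite → J ⊆ N → ∀ v, b.M J v = v → c * ‖v‖ ≤ ‖b.M J ((1 - P) v)‖) :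
    ∃ F : Set ι, F.Finite ∧ ∃ c' : ℝ, 0 < c' ∧ ∀ J : Set ι, J.Finite → Disjoint J F →
      J ⊆ A ∪ N → ∀ t ∈ Set.Icc (0 : ℝ) 1, ∀ v, b.M J v = v →
        c' * ‖v‖ ≤ ‖b.M J (om b P A N t v)‖ := by
  by_contra hcon
  push Not at hcon
  obtain ⟨I, t, v, hfin, hd, hsub, ht, hv, hn, hlim⟩ := OM_seq b P A N (by
    intro F hF c' hc'
    obtain ⟨J, hJ1, hJ2, hJ3, t, ht, v, hv1, hv2⟩ := hcon F hF c' hc'
    exact ⟨J, hJ1, hJ2, hJ3, t, ht, v, hv1, hv2⟩)
  -- first extraction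
  have hd1 : Pairwise (Disjoint on fun k => I k ∩ A) := fun i j hij =>
    (hd hij).mono Set.inter_subset_left Set.inter_subset_left
  obtain ⟨φ, hφ, V, hV, hV', _⟩ := lemTl b (fun k => I k ∩ A) (fun k => (hfin k).inter_of_left A)
    hd1 P hc fun J hJ hJs => hA J hJ (hJs.trans (Set.iUnion_subset fun k => Set.inter_subset_right))
  have hd2 : Pairwise (Disjoint on fun k => I (φ k) ∩ N) := fun i j hij =>
    (hd (hφ.injective.ne hij)).mono Set.inter_subset_left Set.inter_subset_left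
  obtain ⟨ψ, hψ, W, hW, hW', _⟩ := lemTl b (fun k => I (φ k) ∩ N)
    (fun k => (hfin _).inter_of_left N)
    hd2 (1 - P) hc fun J hJ hJs =>
      hN J hJ (hJs.trans (Set.iUnion_subset fun k => Set.inter_subset_right))
  obtain ⟨hV1, hV2⟩ := hV.sub_seq ψ
  have hd3 : Pairwise (Disjoint on fun k => I (φ (ψ k))) := fun i j hij =>
    hd ((hφ.comp hψ).injective.ne hij)
  refine OM_core b hP hK hAN (fun k => I (φ (ψ k))) (fun k => hfin _) hd3 (fun k => hsub _)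
    (fun k => t (φ (ψ k))) (fun k => ht _) (fun k => v (φ (ψ k))) (fun k => hv _) (fun k => hn _)
    (V * b.M (⋃ k, I (φ (ψ k)) ∩ A)) W (BD.of_inter hd3 hV1) (BD.of_inter hd3 hW) ?_ ?_
    (hlim.comp (hφ.comp hψ).tendsto_atTop)
  · intro k u hu
    rw [hV2 k _ (by rw [b.M_M, Set.inter_self])]
    exact hV' (ψ k) u hu
  · intro k u hu
    exact hW' k u hu

end Pool.Agent.UBS
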