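import Mathlib
import Pool.Agent.UBS.Base
import Pool.Agent.UBS.OM
import Pool.Agent.UBS.CTM
import Pool.Agent.UBS.DN
import Pool.Agent.UBS.INV

/-!
# UBS / OMU: `M_A P + M_N Q + M_F` is invertible for suitable finite `F`

`F₁` = union of the finite sets of `diag_near` (`ε = 1/96`), of `isUnit_one_sub_cp` for `P` and for
`1 - P` (`kc_swap`).  `N₁ = {n ∉ F₁ | ‖c n (P e n)‖ ≤ 1/96}`, `A₁ = {n ∉ F₁ | not}`; for `n ∈ A₁`
`‖c n ((1 - P) e n)‖ < 1/96`.  Lower bounds: for `J ⊆ N₁` finite and `M_J v = v`,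
`M_J ((1 - P) v) = v - b.cp P J v`; for `J ⊆ A₁` `M_J (P v) = v - b.cp (1 - P) J v`.  `om_lb` gives
`F₂`; `F = F₁ ∪ F₂`, `A = A₁ \ F`, `N = N₁ \ F`, a partition of `ι` together with `F`.  For `J ⊆ A ∪ N`
finite `M_J (om A₁ N₁ t v) = M_J (om A N t v)` if `M_J v = v`.
Let `X t = om b P A N t + M_F`.  As in INV (finite supports, `M_{J'} (om v) → M_{A ∪ N} (om v) = om v`,
density) `c' ‖v‖ ≤ ‖om A N t v‖` for `M_{A ∪ N} v = v`, and a uniform lower bound for `X t`.
`X 0 = M_A P M_A + M_N (1 - P) M_N + M_F` is a unit: `1 - b.cp P N = M_N (1-P) M_N + M_{Nᶜ}` and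
`1 - b.cp (1-P) A = M_A P M_A + M_{Aᶜ}` are units and `X 0` is their product (check on
`M_A`, `M_N`, `M_F`).  `cont_method`: `X 1` is a unit.
Finally `M_A P + M_N (1 - P) + M_F = X 1 + T`, `T = (M_A P + M_N (1 - P)) M_F`, and
`X 1 + T = X 1 (1 + X₁⁻¹ T)` where `X₁⁻¹ T` maps `U` into the range of `M_{A ∪ N}` (`X 1` commutes with
`M_F`) and vanishes on this range: its square is `0`, so `1 + X₁⁻¹ T` is a unit.
-/

set_option autoImplicit false

open Filter Topology Function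

namespace Pool.Agent.UBS

variable {𝕜 : Type*} [RCLike 𝕜] {U : Type*} [NormedAddCommGroup U] [NormedSpace 𝕜 U]
  [CompleteSpace U] {ι : Type*}

theorem OMU_tendsto (b : UB 𝕜 ι U) (x : U) :
    Tendsto (fun s : Finset ι => b.M (s : Set ι) x) atTop (𝓝 x) := by
  have h : Tendsto (fun s : Finset ι => ∑ i ∈ s, b.c i x • b.e i) atTop (𝓝 x) := b.hs x
  exact h.congr fun s => (b.M_fin s x).symm

/-- Passage from finite subsets of `W` to `W`. -/
theorem OMU_lim (b : UB 𝕜 ι U) (S : U →L[𝕜] U) (W : Set ι) {c : ℝ}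
    (h : ∀ J : Set ι, J.Finite → J ⊆ W → ∀ v, b.M J v = v → c * ‖v‖ ≤ ‖b.M J (S v)‖) (v : U)
    (hv : b.M W v = v) : c * ‖v‖ ≤ ‖b.M W (S v)‖ := by
  have hK := b.K_pos
  have h1 := OMU_tendsto b v
  have h2 : Tendsto (fun s : Finset ι => b.M (s : Set ι) (b.M W (S (b.M (s : Set ι) v)))) atTop
      (𝓝 (b.M W (S v))) := by
    have h3 := OMU_tendsto b (b.M W (S v))
    have h4 : Tendsto (fun s : Finset ι => b.M W (S (b.M (s : Set ι) v)) - b.M W (S v)) atTop
        (𝓝 0) := by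
      have h5 : Tendsto (fun s : Finset ι => b.M W (S (b.M (s : Set ι) v))) atTop
          (𝓝 (b.M W (S v))) :=
        ((b.M W).continuous.tendsto _).comp ((S.continuous.tendsto _).comp h1)
      simpa using h5.sub_const (b.M W (S v))
    have h6 : Tendsto (fun s : Finset ι =>
        b.M (s : Set ι) (b.M W (S (b.M (s : Set ι) v)) - b.M W (S v))) atTop (𝓝 0) := by
      refine squeeze_zero_norm (fun s => b.norm_M_apply_le _ _) ?_
      simpa using (h4.norm).const_mul b.K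
    have h7 := h6.add h3
    rw [zero_add] at h7
    refine h7.congr fun s => ?_
    rw [map_sub, sub_add_cancel]
  refine le_of_tendsto_of_tendsto' (h1.norm.const_mul c) h2.norm fun s => ?_
  have h8 : b.M ((s : Set ι) ∩ W) v = b.M (s : Set ι) v := by rw [← b.M_M, hv]
  have h9 := h ((s : Set ι) ∩ W) (s.finite_toSet.subset Set.inter_subset_left)
    Set.inter_subset_right (b.M (s : Set ι) v) (by
      rw [← h8, b.M_M, Set.inter_self])
  rwa [← b.M_M] at h9

theorem OMU_om_eq (b : UB 𝕜 ι U) (P : U →L[𝕜] U) {A₁ N₁ F : Set ι} (t : ℝ) {J : Set ι}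
    (hJ : Disjoint J F) {v : U} (hv : b.M J v = v) :
    b.M J (om b P A₁ N₁ t v) = b.M J (om b P (A₁ \ F) (N₁ \ F) t v) := by
  have key : ∀ B : Set ι, J ∩ B = J ∩ (B \ F) := fun B => by
    ext i
    simp only [Set.mem_inter_iff, Set.mem_sdiff]
    constructor
    · rintro ⟨h1, h2⟩
      exact ⟨h1, h2, Set.disjoint_left.1 hJ h1⟩
    · rintro ⟨h1, h2, _⟩
      exact ⟨h1, h2⟩
  have k1 : ∀ (B : Set ι) (x : U), b.M J (b.M B x) = b.M J (b.M (B \ F) x) := fun B x => by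
    rw [b.M_M, b.M_M, key]
  have k2 : ∀ B : Set ι, b.M B v = b.M (B \ F) v := fun B => by
    conv_lhs => rw [← hv, b.M_M, Set.inter_comm, key]
    conv_rhs => rw [← hv, b.M_M, Set.inter_comm]
  rw [OM_apply, OM_apply, k2 A₁, k2 N₁]
  simp only [map_add, map_smul]
  rw [k1 A₁, k1 N₁, k1 A₁, k1 N₁]

theorem OMU_isUnit_add_sq {R : Type*} [Ring R] {E : R} (h : E * E = 0) : IsUnit (1 + E) := by
  refine ⟨⟨1 + E, 1 - E, ?_, ?_⟩, rfl⟩
  · calc (1 + E) * (1 - E) = 1 - E * E := by noncomm_ring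
      _ = 1 := by rw [h, sub_zero]
  · calc (1 - E) * (1 + E) = 1 - E * E := by noncomm_ring
      _ = 1 := by rw [h, sub_zero]

/-- The last step: from `X 1` to `M_A P + M_N (1 - P) + M_F`. -/
theorem OMU_last {R : Type*} [Ring R] {P A N F X : R} (hs : A + N + F = 1) (hAF : A * F = 0)
    (hFA : F * A = 0) (hNF : N * F = 0) (hFN : F * N = 0) (hFF : F * F = F)
    (hX : X = A * P * A + N * (1 - P) * N + (A * P * N + N * (1 - P) * A) + F) (hu : IsUnit X) :
    IsUnit (A * P + N * (1 - P) + F) := by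
  obtain ⟨Y, hY⟩ := hu
  set T : R := (A * P + N * (1 - P)) * F with hT
  have h1 : A * P + N * (1 - P) + F = X + T := by
    calc A * P + N * (1 - P) + F = (A * P + N * (1 - P)) * 1 + F := by rw [mul_one]
      _ = (A * P + N * (1 - P)) * (A + N + F) + F := by rw [hs]
      _ = X + T := by rw [hX, hT]; noncomm_ring
  have hXF : X * F = F := by
    have h : X * F = A * P * (A * F) + N * (1 - P) * (N * F) +
        (A * P * (N * F) + N * (1 - P) * (A * F)) + F * F := by rw [hX]; noncomm_ring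
    rw [h, hAF, hNF, hFF]; simp
  have hFX : F * X = F := by
    have h : F * X = (F * A) * P * A + (F * N) * (1 - P) * N +
        ((F * A) * P * N + (F * N) * (1 - P) * A) + F * F := by rw [hX]; noncomm_ring
    rw [h, hFA, hFN, hFF]; simp
  have hFT : F * T = 0 := by
    have h : F * T = ((F * A) * P + (F * N) * (1 - P)) * F := by rw [hT]; noncomm_ring
    rw [h, hFA, hFN]; simp
  have hTF : T * F = T := by rw [hT, mul_assoc, hFF]
  have hFZ : F * (Y⁻¹ : Rˣ) = F := by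
    have : F * X * (Y⁻¹ : Rˣ) = F := by rw [mul_assoc, ← hY, Units.mul_inv, mul_one]
    rwa [hFX] at this
  have hTZT : T * ((Y⁻¹ : Rˣ) : R) * T = 0 := by
    calc T * ((Y⁻¹ : Rˣ) : R) * T = (T * F) * ((Y⁻¹ : Rˣ) : R) * T := by rw [hTF]
      _ = T * (F * ((Y⁻¹ : Rˣ) : R)) * T := by noncomm_ring
      _ = T * (F * T) := by rw [hFZ]; noncomm_ring
      _ = 0 := by rw [hFT, mul_zero]
  have hE : (((Y⁻¹ : Rˣ) : R) * T) * (((Y⁻¹ : Rˣ) : R) * T) = 0 := by
    calc (((Y⁻¹ : Rˣ) : R) * T) * (((Y⁻¹ : Rˣ) : R) * T)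
        = ((Y⁻¹ : Rˣ) : R) * (T * ((Y⁻¹ : Rˣ) : R) * T) := by noncomm_ring
      _ = 0 := by rw [hTZT, mul_zero]
  have h2 : A * P + N * (1 - P) + F = X * (1 + ((Y⁻¹ : Rˣ) : R) * T) := by
    rw [h1, mul_add, mul_one, ← mul_assoc, ← hY, Units.mul_inv, one_mul]
  rw [h2, ← hY]
  exact Y.isUnit.mul (OMU_isUnit_add_sq hE)

/-- `X 0` is a product of two units. -/
theorem OMU_zero {R : Type*} [Ring R] {P A N F : R} (hs : A + N + F = 1) (hNA : N * A = 0)
    (h1 : IsUnit (1 - N * P * N)) (h2 : IsUnit (1 - A * (1 - P) * A)) (hAA : A * A = A)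
    (hNN : N * N = N) :
    IsUnit (A * P * A + N * (1 - P) * N + F) := by
  have h3 : A * P * A + N * (1 - P) * N + F = (1 - N * P * N) * (1 - A * (1 - P) * A) := by
    have h4 : (1 - N * P * N) * (1 - A * (1 - P) * A) =
        1 - A * A + A * P * A - N * P * N + N * P * (N * A) * (1 - P) * A := by noncomm_ring
    have h5 : A * P * A + N * (1 - P) * N + F = A * P * A + N * N - N * P * N + F := by noncomm_ring
    rw [h4, h5, hNA, hAA, hNN, mul_zero, zero_mul, zero_mul, add_zero, ← hs]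
    abel
  rw [h3]
  exact h1.mul h2

theorem exists_om_unit (b : UB 𝕜 ι U) {P : U →L[𝕜] U} (hP : P * P = P) (hK : Kc P) :
    ∃ A N F : Set ι, F.Finite ∧ Disjoint A N ∧ Disjoint A F ∧ Disjoint N F ∧
      A ∪ N ∪ F = Set.univ ∧ IsUnit (1 - b.cp P N) ∧ IsUnit (1 - b.cp (1 - P) A) ∧
      IsUnit (b.M A * P + b.M N * (1 - P) + b.M F) := by
  have hKp := b.K_pos
  have hP' : (1 - P) * (1 - P) = 1 - P := by
    calc (1 - P) * (1 - P) = 1 - P - P + P * P := by noncomm_ring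
      _ = 1 - P := by rw [hP]; abel
  obtain ⟨Fa, hFa, ha⟩ := diag_near b hP hK (ε := 1 / 96) (by norm_num)
  obtain ⟨Fb, hFb, cb, hcb, hb⟩ := isUnit_one_sub_cp b hP hK
  obtain ⟨Fc, hFc, cc, hcc, hc⟩ := isUnit_one_sub_cp b hP' (kc_swap hP hK)
  set F₁ : Set ι := Fa ∪ Fb ∪ Fc with hF₁
  have hF₁fin : F₁.Finite := (hFa.union hFb).union hFc
  set N₁ : Set ι := {n | n ∉ F₁ ∧ ‖b.c n (P (b.e n))‖ ≤ 1 / 96} with hN₁
  set A₁ : Set ι := {n | n ∉ F₁ ∧ ¬ ‖b.c n (P (b.e n))‖ ≤ 1 / 96} with hA₁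
  have hAN₁ : Disjoint A₁ N₁ := by
    rw [Set.disjoint_left]
    intro n h1 h2
    exact h1.2 h2.2
  have hN₁b : Disjoint N₁ Fb := by
    rw [Set.disjoint_left]
    intro n h1 h2
    exact h1.1 (Or.inl (Or.inr h2))
  have hA₁c : Disjoint A₁ Fc := by
    rw [Set.disjoint_left]
    intro n h1 h2
    exact h1.1 (Or.inr h2)
  have hdN : ∀ n ∈ N₁, ‖b.c n (P (b.e n))‖ ≤ 1 / 96 := fun n hn => hn.2
  have hdA : ∀ n ∈ A₁, ‖b.c n ((1 - P) (b.e n))‖ ≤ 1 / 96 := by
    intro n hn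
    have h1 : n ∉ Fa := fun h => hn.1 (Or.inl (Or.inl h))
    have h2 : (1 - P) (b.e n) = b.e n - P (b.e n) := rfl
    rw [h2, map_sub, b.ce, norm_sub_rev]
    rcases ha n h1 with h3 | h3
    · exact absurd h3.le hn.2
    · exact h3.le
  have hN : ∀ J : Set ι, J.Finite → J ⊆ N₁ → ∀ v, b.M J v = v →
      cb * ‖v‖ ≤ ‖b.M J ((1 - P) v)‖ := by
    intro J _ hJ v hv
    have h1 := (hb J (hN₁b.mono_left hJ) fun n hn => hdN n (hJ hn)).2 v hv
    have h2 : v - b.cp P J v = b.M J ((1 - P) v) := by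
      have h3 : b.cp P J v = b.M J (P (b.M J v)) := rfl
      have h4 : (1 - P) v = v - P v := rfl
      rw [h3, hv, h4, map_sub, hv]
    rwa [h2] at h1
  have hA : ∀ J : Set ι, J.Finite → J ⊆ A₁ → ∀ v, b.M J v = v →
      cc * ‖v‖ ≤ ‖b.M J (P v)‖ := by
    intro J _ hJ v hv
    have h1 := (hc J (hA₁c.mono_left hJ) fun n hn => hdA n (hJ hn)).2 v hv
    have h2 : v - b.cp (1 - P) J v = b.M J (P v) := by
      have h3 : b.cp (1 - P) J v = b.M J ((1 - P) (b.M J v)) := rfl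
      have h4 : (1 - P) v = v - P v := rfl
      rw [h3, hv, h4, map_sub, hv]
      abel
    rwa [h2] at h1
  obtain ⟨F₂, hF₂, c', hc', hlb⟩ := om_lb b hP hK hAN₁ (c := min cb cc) (lt_min hcb hcc)
    (fun J hJ hJA v hv => (mul_le_mul_of_nonneg_right (min_le_right _ _) (norm_nonneg _)).trans
      (hA J hJ hJA v hv))
    (fun J hJ hJN v hv => (mul_le_mul_of_nonneg_right (min_le_left _ _) (norm_nonneg _)).trans
      (hN J hJ hJN v hv))
  set F : Set ι := F₁ ∪ F₂ with hF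
  have hFfin : F.Finite := hF₁fin.union hF₂
  set A : Set ι := A₁ \ F with hAdef
  set N : Set ι := N₁ \ F with hNdef
  have hAN : Disjoint A N := hAN₁.mono Set.sdiff_subset Set.sdiff_subset
  have hAF : Disjoint A F := Set.disjoint_sdiff_left
  have hNF : Disjoint N F := Set.disjoint_sdiff_left
  have huniv : A ∪ N ∪ F = Set.univ := by
    rw [Set.eq_univ_iff_forall]
    intro n
    by_cases h1 : n ∈ F
    · exact Or.inr h1
    · have h2 : n ∉ F₁ := fun h => h1 (Or.inl h)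
      by_cases h3 : ‖b.c n (P (b.e n))‖ ≤ 1 / 96
      · exact Or.inl (Or.inr ⟨⟨h2, h3⟩, h1⟩)
      · exact Or.inl (Or.inl ⟨⟨h2, h3⟩, h1⟩)
  have hsum : b.M A + b.M N + b.M F = 1 := by
    rw [← b.M_union hAN, ← b.M_union (by rw [Set.disjoint_union_left]; exact ⟨hAF, hNF⟩), huniv,
      b.M_univ]
  have hu1 : IsUnit (1 - b.cp P N) :=
    (hb N (hN₁b.mono_left Set.sdiff_subset) fun n hn => hdN n hn.1).1
  have hu2 : IsUnit (1 - b.cp (1 - P) A) :=
    (hc A (hA₁c.mono_left Set.sdiff_subset) fun n hn => hdA n hn.1).1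
  refine ⟨A, N, F, hFfin, hAN, hAF, hNF, huniv, hu1, hu2, ?_⟩
  have hWF : Disjoint (A ∪ N) F := by rw [Set.disjoint_union_left]; exact ⟨hAF, hNF⟩
  have hW : b.M (A ∪ N) = b.M A + b.M N := b.M_union hAN
  -- lower bound
  have hlb2 : ∀ t ∈ Set.Icc (0 : ℝ) 1, ∀ v, b.M (A ∪ N) v = v →
      c' * ‖v‖ ≤ ‖b.M (A ∪ N) (om b P A N t v)‖ := by
    intro t ht
    refine OMU_lim b (om b P A N t) (A ∪ N) fun J hJ hJW v hv => ?_
    have hJF : Disjoint J F := hWF.mono_left hJW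
    have h1 := hlb J hJ (hJF.mono_right Set.subset_union_right)
      (hJW.trans (Set.union_subset_union Set.sdiff_subset Set.sdiff_subset)) t ht v hv
    rwa [OMU_om_eq b P t hJF hv] at h1
  have hAA := b.M_idem A
  have hNN := b.M_idem N
  have hFF := b.M_idem F
  have hAF' := b.M_mul_disj hAF
  have hFA' := b.M_mul_disj hAF.symm
  have hNF' := b.M_mul_disj hNF
  have hFN' := b.M_mul_disj hNF.symm
  have hAN' := b.M_mul_disj hAN
  have hNA' := b.M_mul_disj hAN.symm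
  have homF : ∀ t : ℝ, om b P A N t * b.M F = 0 := by
    intro t
    have h : om b P A N t * b.M F = b.M A * P * (b.M A * b.M F) +
        b.M N * (1 - P) * (b.M N * b.M F) + ((t : ℝ) : 𝕜) • (b.M A * P * (b.M N * b.M F) +
          b.M N * (1 - P) * (b.M A * b.M F)) := by
      unfold om
      simp only [add_mul, smul_mul_assoc, mul_assoc]
    rw [h, hAF', hNF']; simp
  have hFom : ∀ t : ℝ, b.M F * om b P A N t = 0 := by
    intro t
    have h : b.M F * om b P A N t = (b.M F * b.M A) * P * b.M A +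
        (b.M F * b.M N) * (1 - P) * b.M N + ((t : ℝ) : 𝕜) • ((b.M F * b.M A) * P * b.M N +
          (b.M F * b.M N) * (1 - P) * b.M A) := by
      unfold om
      simp only [mul_add, mul_smul_comm, mul_assoc]
    rw [h, hFA', hFN']; simp
  set X : ℝ → U →L[𝕜] U := fun t => om b P A N t + b.M F with hXdef
  have hXlb : ∀ t ∈ Set.Icc (0 : ℝ) 1, ∀ v, (b.K / c' + b.K)⁻¹ * ‖v‖ ≤ ‖X t v‖ := by
    intro t ht v
    have e1 : b.M F (X t v) = b.M F v := by
      have h1 : b.M F * X t = b.M F := by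
        simp only [hXdef]
        rw [mul_add, hFom, hFF, zero_add]
      exact congrArg (fun T : U →L[𝕜] U => T v) h1
    have e2 : b.M (A ∪ N) (X t v) = b.M (A ∪ N) (om b P A N t (b.M (A ∪ N) v)) := by
      have h1 : b.M (A ∪ N) * X t = b.M (A ∪ N) * (om b P A N t * b.M (A ∪ N)) := by
        have h2 : b.M (A ∪ N) = 1 - b.M F := by rw [hW, ← hsum]; abel
        simp only [hXdef]
        rw [mul_add, b.M_mul_disj hWF, add_zero]
        congr 1
        rw [h2, mul_sub, homF, mul_one, sub_zero]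
      exact congrArg (fun T : U →L[𝕜] U => T v) h1
    have e3 : v = b.M (A ∪ N) v + b.M F v := by
      have h1 := congrArg (fun T : U →L[𝕜] U => T v) hsum
      rw [← hW] at h1
      exact h1.symm
    have e4 := hlb2 t ht (b.M (A ∪ N) v) (by rw [b.M_M, Set.inter_self])
    rw [← e2] at e4
    have e5 : ‖b.M (A ∪ N) v‖ ≤ b.K / c' * ‖X t v‖ := by
      rw [div_mul_eq_mul_div, le_div_iff₀ hc', mul_comm]
      exact e4.trans (b.norm_M_apply_le _ _)
    have e6 : ‖b.M F v‖ ≤ b.K * ‖X t v‖ := by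
      rw [← e1]; exact b.norm_M_apply_le _ _
    have e7 : ‖v‖ ≤ (b.K / c' + b.K) * ‖X t v‖ := by
      calc ‖v‖ = ‖b.M (A ∪ N) v + b.M F v‖ := by rw [← e3]
        _ ≤ ‖b.M (A ∪ N) v‖ + ‖b.M F v‖ := norm_add_le _ _
        _ ≤ b.K / c' * ‖X t v‖ + b.K * ‖X t v‖ := add_le_add e5 e6
        _ = (b.K / c' + b.K) * ‖X t v‖ := by ring
    have e8 : 0 < b.K / c' + b.K := by positivity
    rw [inv_mul_le_iff₀ e8]
    exact e7
  have hXc : ContinuousOn X (Set.Icc 0 1) := by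
    refine Continuous.continuousOn ?_
    simp only [hXdef, om]
    have : Continuous fun t : ℝ => ((t : ℝ) : 𝕜) := RCLike.continuous_ofReal
    fun_prop
  have hX0 : IsUnit (X 0) := by
    have h1 : X 0 = b.M A * P * b.M A + b.M N * (1 - P) * b.M N + b.M F := by
      simp only [hXdef, om]
      rw [RCLike.ofReal_zero, zero_smul, add_zero]
    rw [h1]
    exact OMU_zero hsum hNA' hu1 hu2 hAA hNN
  have hX1 : IsUnit (X 1) := cont_method X hXc (inv_pos.2 (by positivity)) hXlb hX0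
  refine OMU_last hsum hAF' hFA' hNF' hFN' hFF ?_ hX1
  simp only [hXdef, om]
  rw [RCLike.ofReal_one, one_smul]

end Pool.Agent.UBS
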