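import Mathlib
import Pool.Agent.UBS.Base
import Pool.Agent.UBS.OMU

/-!
# UBS / SPL: the splitting theorem

`A, N, F` from `exists_om_unit`, `Ω = M_A P + M_N Q + M_F`, `Q = 1 - P`.
`X'' = {x | P x = x, M_A x = 0}`, `Y'' = {y | P y = 0, M_N y = 0}` (submodules).  `Ω` maps
`X'' + Y''` into the range of `M_F` (finite dimensional, dimension `F.ncard`), and onto: for `f` in the
range of `M_F`, `g = Ω⁻¹ f` satisfies `M_A P g = 0`, `M_N Q g = 0` (apply `M_A`, `M_N`), so `P g ∈ X''`,
`Q g ∈ Y''`.  `X''` and `Y''` are disjoint, so `dim X'' + dim Y'' = F.ncard`.  Choose a family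
`g i`, `i ∈ F`, a basis of `X'' ⊕ Y''` with every `g i` in `X''` or in `Y''`.
`Φ = P M_A + Q M_N + ∑ i ∈ F, g i ⊗ c i`: `Φ e n = P e n` for `n ∈ A`, `Q e n` for `n ∈ N`,
`g n` for `n ∈ F`.  `Ω Φ = (M_A P M_A + M_N Q M_N + Θ) + M_F (P M_A + Q M_N)`, where
`Θ = ∑ i ∈ F, (Ω g i) ⊗ c i` is an automorphism of the range of `M_F` (`Ω g i` is a basis of it);
`M_A P M_A + M_N Q M_N + Θ` is a unit, and the last term is strictly triangular (its product with the
inverse of the unit has square zero, as in OMU).  So `Ω Φ` and `Φ` are units.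
-/

set_option autoImplicit false

open Filter Topology Function

namespace Pool.Agent.UBS

variable {𝕜 : Type*} [RCLike 𝕜] {U : Type*} [NormedAddCommGroup U] [NormedSpace 𝕜 U]
  [CompleteSpace U] {ι : Type*}

theorem splitting (b : UB 𝕜 ι U) {P : U →L[𝕜] U} (hP : P * P = P) (hK : Kc P) :
    ∃ Φ : U →L[𝕜] U, IsUnit Φ ∧ ∀ n, P (Φ (b.e n)) = Φ (b.e n) ∨ P (Φ (b.e n)) = 0 := by
  classical
  obtain ⟨A, N, F, hF, hAN, hAF, hNF, hun, hUN, hUA, hΩ⟩ := exists_om_unit b hP hK
  rw [ContinuousLinearMap.isUnit_iff_bijective] at hΩ hUN hUA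
  have hPP : ∀ x, P (P x) = P x := fun x => by
    have := DFunLike.congr_fun hP x; rwa [mul_apply_eq_comp] at this
  have hdec : ∀ x, b.M A x + b.M N x + b.M F x = x := by
    intro x
    have h1 : b.M (A ∪ N ∪ F) = b.M A + b.M N + b.M F := by
      rw [b.M_union (Set.disjoint_union_left.2 ⟨hAF, hNF⟩), b.M_union hAN]
    rw [hun, b.M_univ] at h1
    have := DFunLike.congr_fun h1 x
    simpa using this.symm
  set Ω := b.M A * P + b.M N * (1 - P) + b.M F with hΩd
  have hΩa : ∀ x, Ω x = b.M A (P x) + b.M N (x - P x) + b.M F x := by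
    intro x; simp [hΩd]
  have hMΩA : ∀ x, b.M A (Ω x) = b.M A (P x) := by
    intro x
    rw [hΩa, map_add, map_add, b.M_M_disj hAN, b.M_M_disj hAF, b.M_M, Set.inter_self]; simp
  have hMΩN : ∀ x, b.M N (Ω x) = b.M N (x - P x) := by
    intro x
    rw [hΩa, map_add, map_add, b.M_M_disj hAN.symm, b.M_M_disj hNF, b.M_M, Set.inter_self]; simp
  -- the submodule `V`
  let V : Submodule 𝕜 U :=
    { carrier := {x | b.M A (P x) = 0 ∧ b.M N (x - P x) = 0}
      add_mem' := by
        rintro x y ⟨hx1, hx2⟩ ⟨hy1, hy2⟩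
        refine ⟨by simp [hx1, hy1], ?_⟩
        have : x + y - P (x + y) = (x - P x) + (y - P y) := by rw [map_add]; abel
        rw [this, map_add, hx2, hy2, add_zero]
      zero_mem' := by simp
      smul_mem' := by
        rintro c x ⟨hx1, hx2⟩
        refine ⟨by simp [hx1], ?_⟩
        rw [map_smul, ← smul_sub, map_smul, hx2, smul_zero] }
  have hV : ∀ x, x ∈ V ↔ b.M A (P x) = 0 ∧ b.M N (x - P x) = 0 := fun x => Iff.rfl
  have hΩV : ∀ x, x ∈ V → Ω x = b.M F x := by
    rintro x ⟨h1, h2⟩
    rw [hΩa, h1, h2]; simp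
  obtain ⟨s, rfl⟩ := hF.exists_finset_coe
  -- `V ≃ 𝕜 ^ F`
  let T : V →ₗ[𝕜] (s → 𝕜) :=
    { toFun := fun w i => b.c i (Ω w)
      map_add' := by intro x y; ext i; simp
      map_smul' := by intro c x; ext i; simp }
  have hTb : Function.Bijective T := by
    constructor
    · rw [← LinearMap.ker_eq_bot, LinearMap.ker_eq_bot']
      rintro ⟨w, hw⟩ h
      have h1 : Ω w = 0 := by
        rw [← hdec (Ω w), hMΩA, hMΩN, hw.1, hw.2, b.M_fin, zero_add, zero_add]
        refine Finset.sum_eq_zero fun i hi => ?_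
        have := congrFun h ⟨i, hi⟩
        change b.c i (Ω w) = 0 at this
        rw [this, zero_smul]
      have h2 : w = 0 := hΩ.1 (by rw [h1, map_zero])
      simpa using h2
    · intro a
      obtain ⟨w, hw⟩ := hΩ.2 (∑ i : s, a i • b.e i)
      have h1 : ∀ B : Set ι, Disjoint B (s : Set ι) → b.M B (∑ i : s, a i • b.e i) = 0 := by
        intro B hB
        rw [map_sum]
        refine Finset.sum_eq_zero fun i _ => ?_
        rw [map_smul, b.M_e_not (fun h => Set.disjoint_left.1 hB h (by exact_mod_cast i.2)),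
          smul_zero]
      refine ⟨⟨w, ?_, ?_⟩, ?_⟩
      · rw [← hMΩA, hw, h1 A hAF]
      · rw [← hMΩN, hw, h1 N hNF]
      · ext i
        change b.c i (Ω w) = a i
        rw [hw, map_sum, Finset.sum_eq_single i]
        · rw [map_smul, b.ce, smul_eq_mul, mul_one]
        · intro j _ hj
          rw [map_smul, b.cn i j (fun h => hj (Subtype.ext h.symm)), smul_zero]
        · intro h; exact absurd (Finset.mem_univ i) h
  let Te : V ≃ₗ[𝕜] (s → 𝕜) := LinearEquiv.ofBijective T hTb
  have : FiniteDimensional 𝕜 V := Te.symm.finiteDimensional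
  have hfr : Module.finrank 𝕜 V = s.card := by
    rw [Te.finrank_eq, Module.finrank_fintype_fun_eq_card, Fintype.card_coe]
  -- a basis of `V` consisting of vectors in `ran P` or `ker P`
  let S : Set V := {w | P w = w ∨ P w = 0}
  have hS : (⊤ : Submodule 𝕜 V) ≤ Submodule.span 𝕜 S := by
    rintro ⟨w, hw⟩ -
    have h1 : P w ∈ V := ⟨by rw [hPP]; exact hw.1, by rw [hPP]; simp⟩
    have h2 : w - P w ∈ V := V.sub_mem hw h1
    have h3 : (⟨w, hw⟩ : V) = ⟨P w, h1⟩ + ⟨w - P w, h2⟩ := by
      ext; simp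
    rw [h3]
    refine Submodule.add_mem _ (Submodule.subset_span (Or.inl ?_))
      (Submodule.subset_span (Or.inr ?_))
    · exact hPP w
    · change P (w - P w) = 0
      rw [map_sub, hPP, sub_self]
  let B0 := Module.Basis.ofSpan hS
  have : Fintype ↑((linearIndepOn_empty 𝕜 (id : V → V)).extend (Set.empty_subset S)) :=
    FiniteDimensional.fintypeBasisIndex B0
  have hcard : Fintype.card ↑((linearIndepOn_empty 𝕜 (id : V → V)).extend (Set.empty_subset S)) =
      Fintype.card s := by
    rw [← Module.finrank_eq_card_basis B0, hfr, Fintype.card_coe]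
  let B := B0.reindex (Fintype.equivOfCardEq hcard)
  have hB : ∀ i : s, P (B i : U) = B i ∨ P (B i : U) = 0 := by
    intro i
    have h1 : B i = B0 ((Fintype.equivOfCardEq hcard).symm i) := by
      simp [B]
    rw [h1]
    exact Module.Basis.ofSpan_subset hS ⟨_, rfl⟩
  -- the operator `Φ`
  let g : ι → U := fun i => if h : i ∈ s then (B ⟨i, h⟩ : U) else 0
  have hg : ∀ i : s, g i = B i := fun i => by simp [g]
  let Φ : U →L[𝕜] U := P * b.M A + (1 - P) * b.M N +
    ∑ i ∈ s, (b.c i).smulRight (g i)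
  have hΦ : ∀ u, Φ u = P (b.M A u) + (b.M N u - P (b.M N u)) + ∑ i ∈ s, b.c i u • g i := by
    intro u
    simp [Φ]
  refine ⟨Φ, ?_, ?_⟩
  · rw [ContinuousLinearMap.isUnit_iff_bijective]
    have hgV : ∀ a : ι → 𝕜, (∑ i ∈ s, a i • g i) ∈ V := by
      intro a
      refine V.sum_mem fun i hi => V.smul_mem _ ?_
      rw [hg ⟨i, hi⟩]
      exact (B ⟨i, hi⟩).2
    have hPΦ : ∀ u, P (Φ u) = P (b.M A u) + P (∑ i ∈ s, b.c i u • g i) := by
      intro u
      rw [hΦ, map_add, map_add, hPP, map_sub, hPP, sub_self, add_zero]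
    have hMA : ∀ u, b.M A (P (Φ u)) = b.M A (P (b.M A u)) := by
      intro u
      rw [hPΦ, map_add, (hgV fun i => b.c i u).1, add_zero]
    have hMN : ∀ u, b.M N (Φ u - P (Φ u)) = b.M N (b.M N u - P (b.M N u)) := by
      intro u
      have h1 := (hgV fun i => b.c i u).2
      have h2 : Φ u - P (Φ u) = (b.M N u - P (b.M N u)) +
          ((∑ i ∈ s, b.c i u • g i) - P (∑ i ∈ s, b.c i u • g i)) := by
        rw [hPΦ, hΦ]
        abel
      rw [h2, map_add, h1, add_zero]
    have hcA : ∀ x, (1 - b.cp (1 - P) A) x = x - b.M A (b.M A x - P (b.M A x)) := by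
      intro x; simp [UB.cp]
    have hcN : ∀ x, (1 - b.cp P N) x = x - b.M N (P (b.M N x)) := by
      intro x; simp [UB.cp]
    have hA1 : ∀ x, b.M A x = x → (1 - b.cp (1 - P) A) x = b.M A (P x) := by
      intro x hx
      rw [hcA, hx, map_sub, hx]; abel
    have hN1 : ∀ x, b.M N x = x → (1 - b.cp P N) x = b.M N (x - P x) := by
      intro x hx
      rw [hcN, hx, map_sub, hx]
    have hMM : ∀ (D : Set ι) x, b.M D (b.M D x) = b.M D x := fun D x => by
      rw [b.M_M, Set.inter_self]
    have hlin : ∀ a : ι → 𝕜, ∑ i ∈ s, a i • g i = ((∑ i : s, a i • B i : V) : U) := by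
      intro a
      rw [← Finset.sum_coe_sort s]
      simp only [hg]
      rw [AddSubmonoidClass.coe_finsetSum]
      rfl
    constructor
    · rw [← ContinuousLinearMap.coe_coe, ← LinearMap.ker_eq_bot, LinearMap.ker_eq_bot']
      intro u hu
      have hu' : Φ u = 0 := hu
      have h1 : b.M A u = 0 := by
        refine hUA.1 ?_
        rw [hA1 _ (hMM A u), ← hMA, hu']; simp
      have h2 : b.M N u = 0 := by
        refine hUN.1 ?_
        rw [hN1 _ (hMM N u), ← hMN, hu']; simp
      have h3 : ∑ i ∈ s, b.c i u • g i = 0 := by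
        have := hΦ u
        rw [hu', h1, h2] at this
        simpa using this.symm
      rw [hlin] at h3
      have h4 : ∑ i : s, b.c i u • B i = 0 := by exact_mod_cast h3
      have h5 := Fintype.linearIndependent_iff.1 B.linearIndependent (fun i => b.c i u) h4
      rw [← hdec u, h1, h2, b.M_fin, zero_add, zero_add]
      exact Finset.sum_eq_zero fun i hi => by
        have := h5 ⟨i, hi⟩
        simp only at this
        rw [this, zero_smul]
    · intro w
      obtain ⟨x, hx⟩ := hUA.2 (b.M A (P w))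
      obtain ⟨y, hy⟩ := hUN.2 (b.M N (w - P w))
      have hx1 : b.M A (P (b.M A x)) = b.M A (P w) := by
        have := congrArg (b.M A) hx
        rw [hcA, map_sub, hMM, map_sub, hMM, hMM] at this
        rw [← this]; abel
      have hy1 : b.M N (b.M N y - P (b.M N y)) = b.M N (w - P w) := by
        have := congrArg (b.M N) hy
        rw [hcN, map_sub, hMM, hMM] at this
        rw [← this, map_sub, hMM]
      set u0 := b.M A x + b.M N y with hu0
      have hu0A : b.M A u0 = b.M A x := by
        rw [hu0, map_add, hMM, b.M_M_disj hAN, add_zero]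
      have hu0N : b.M N u0 = b.M N y := by
        rw [hu0, map_add, hMM, b.M_M_disj hAN.symm, zero_add]
      have hw : w - Φ u0 ∈ V := by
        refine ⟨?_, ?_⟩
        · rw [map_sub, map_sub, hMA, hu0A, hx1, sub_self]
        · have : w - Φ u0 - P (w - Φ u0) = (w - P w) - (Φ u0 - P (Φ u0)) := by
            rw [map_sub]; abel
          rw [this, map_sub, hMN, hu0N, hy1, sub_self]
      let a : ι → 𝕜 := fun i => if h : i ∈ s then B.repr ⟨_, hw⟩ ⟨i, h⟩ else 0
      have ha : ∀ i : s, a i = B.repr ⟨_, hw⟩ i := fun i => by simp [a]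
      have h6 : ∑ i ∈ s, a i • g i = w - Φ u0 := by
        rw [hlin]
        simp only [ha]
        rw [B.sum_repr]
      have h7 : Φ (∑ i ∈ s, a i • b.e i) = ∑ i ∈ s, a i • g i := by
        have hz : ∀ D : Set ι, Disjoint D (s : Set ι) → b.M D (∑ i ∈ s, a i • b.e i) = 0 := by
          intro D hD
          rw [map_sum]
          refine Finset.sum_eq_zero fun i hi => ?_
          rw [map_smul, b.M_e_not (fun h => Set.disjoint_left.1 hD h (by exact_mod_cast hi)),
            smul_zero]
        rw [hΦ, hz A hAF, hz N hNF]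
        simp only [map_zero, sub_zero, zero_add]
        refine Finset.sum_congr rfl fun i hi => ?_
        congr 1
        rw [map_sum, Finset.sum_eq_single i]
        · rw [map_smul, b.ce, smul_eq_mul, mul_one]
        · intro j _ hj
          rw [map_smul, b.cn i j hj.symm, smul_zero]
        · intro h; exact absurd hi h
      refine ⟨u0 + ∑ i ∈ s, a i • b.e i, ?_⟩
      rw [map_add, h7, h6]; abel
  · intro n
    have hn : n ∈ A ∪ N ∪ (s : Set ι) := by rw [hun]; trivial
    have hce : ∀ i ∈ s, i ≠ n → b.c i (b.e n) • g i = 0 := fun i _ hi => by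
      rw [b.cn i n hi, zero_smul]
    rcases hn with (hn | hn) | hn
    · left
      have h1 : b.M N (b.e n) = 0 := b.M_e_not fun h => Set.disjoint_left.1 hAN hn h
      have h2 : ∑ i ∈ s, b.c i (b.e n) • g i = 0 := Finset.sum_eq_zero fun i hi =>
        hce i hi (by rintro rfl; exact Set.disjoint_left.1 hAF hn (by exact_mod_cast hi))
      rw [hΦ, h1, h2]
      simp [hPP]
    · right
      have h1 : b.M A (b.e n) = 0 := b.M_e_not fun h => Set.disjoint_left.1 hAN h hn
      have h2 : ∑ i ∈ s, b.c i (b.e n) • g i = 0 := Finset.sum_eq_zero fun i hi =>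
        hce i hi (by rintro rfl; exact Set.disjoint_left.1 hNF hn (by exact_mod_cast hi))
      rw [hΦ, h1, h2]
      simp [hPP]
    · have hns : n ∈ s := by exact_mod_cast hn
      have h1 : b.M A (b.e n) = 0 := b.M_e_not fun h => Set.disjoint_left.1 hAF h hn
      have h0 : b.M N (b.e n) = 0 := b.M_e_not fun h => Set.disjoint_left.1 hNF h hn
      have h2 : ∑ i ∈ s, b.c i (b.e n) • g i = g n := by
        rw [Finset.sum_eq_single n (fun i hi hin => hce i hi hin) (fun h => absurd hns h), b.ce,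
          one_smul]
      rw [hΦ, h1, h0, h2]
      have := hB ⟨n, hns⟩
      rw [← hg ⟨n, hns⟩] at this
      simpa using this

end Pool.Agent.UBS
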