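import Mathlib
import Pool.Agent.UBS.Base
import Pool.Agent.UBS.SPL
import Pool.Agent.UBS.AUT
import Pool.Agent.UBS.PE
import Pool.Agent.UBS.KSW

/-!
# UBS / FIN: the theorem for essentially incomparable spaces

Existence: `sumFam x y` (`isUncond_sum`, `semiNormalized_sum`, index type `J ⊕ I` countable).
Uniqueness: fix semi-normalized unconditional bases `x`, `y` of `X`, `Y`; it is enough
(`PermEquiv.symm`, `trans`) that every semi-normalized unconditional basis `z : J → X × Y` is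
equivalent to `sumFam x y`.  `exists_UB` gives `b` with `b.e = z`; `splitting` with `P = prX`
(`kc_of_essInc`; `prX * prX = prX`) gives an invertible `Φ`; `z' = Φ ∘ z` is an unconditional basis,
semi-normalized, `PermEquiv z z'`.  Let `JX = {j | (z' j).2 = 0}` and `JY` its complement (for
`j ∈ JY`, `(z' j).1 = 0`).  `x' j = (z' j).1`, `j ∈ JX`, is an unconditional basis of `X`: the expansion of
`(v, 0)` in `z'`; apply `fst`: the terms `j ∈ JY` vanish; existence; uniqueness: an expansion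
`v = ∑_{JX} a j x' j` gives an expansion of `(v, 0)` (extend by `0`).  Semi-normalized since
`‖(x' j, 0)‖ = ‖x' j‖`.  The same for `y'`.  By `HasUUB` `PermEquiv x' x`, `PermEquiv y' y`, and
`z'` is a reindexing of `sumFam x' y'` (`Equiv.Set.sumCompl`-type bijection `JX ⊕ JY ≃ J`).
-/

set_option autoImplicit false

open Filter Topology Function

namespace Pool.Agent.UBS

variable {𝕜 : Type*} [RCLike 𝕜] {U : Type*} [NormedAddCommGroup U] [NormedSpace 𝕜 U]
  [CompleteSpace U] {ι : Type*}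

private theorem FIN_part {X Z : Type*} [NormedAddCommGroup X] [NormedSpace 𝕜 X]
    [NormedAddCommGroup Z] [NormedSpace 𝕜 Z] {J : Type*} (f : Z →L[𝕜] X) (g : X →L[𝕜] Z)
    (hfg : ∀ v, f (g v) = v) {z : J → Z} (hz : IsUncond 𝕜 z) (A : Set J)
    (hA : ∀ j ∈ A, g (f (z j)) = z j) (hA' : ∀ j, j ∉ A → f (z j) = 0) :
    IsUncond 𝕜 (fun j : A => f (z (j : J))) := by
  classical
  intro v
  obtain ⟨a, ha, hu⟩ := hz (g v)
  refine ⟨fun j : A => a (j : J), ?_, ?_⟩
  · have h1 : HasSum (fun j => a j • f (z j)) v := by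
      have h2 := ha.mapL f
      rw [hfg] at h2
      refine Eq.mp (congrArg (fun g => HasSum g v) (funext fun j => ?_)) h2
      rw [map_smul]
    have h3 : Function.support (fun j => a j • f (z j)) ⊆ A := by
      intro j hj
      by_contra hjA
      exact hj (by simp only [hA' j hjA, smul_zero])
    exact (hasSum_subtype_iff_of_support_subset h3).2 h1
  · intro a' ha'
    have h1 : HasSum (fun j : A => a' j • z (j : J)) (g v) := by
      have h2 := HasSum.mapL g ha'
      refine Eq.mp (congrArg (fun q => HasSum q (g v)) (funext fun j => ?_)) h2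
      rw [map_smul, hA _ j.2]
    have h3 : HasSum (fun j => (if h : j ∈ A then a' ⟨j, h⟩ else 0) • z j) (g v) := by
      have h4 : Function.support (fun j => (if h : j ∈ A then a' ⟨j, h⟩ else 0) • z j) ⊆ A := by
        intro j hj
        by_contra hjA
        exact hj (by simp only [dif_neg hjA, zero_smul])
      refine (hasSum_subtype_iff_of_support_subset h4).1 ?_
      refine Eq.mp (congrArg (fun q => HasSum q (g v)) (funext fun j => ?_)) h1
      simp only [Function.comp_apply, dif_pos j.2, Subtype.coe_eta]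
    have h5 := hu _ h3
    funext j
    have h6 := congrFun h5 (j : J)
    simp only [dif_pos j.2, Subtype.coe_eta] at h6
    exact h6

private theorem FIN_key {X Y : Type*} [NormedAddCommGroup X] [NormedSpace 𝕜 X]
    [CompleteSpace X] [NormedAddCommGroup Y] [NormedSpace 𝕜 Y] [CompleteSpace Y]
    (h : EssInc 𝕜 X Y) {J : Type} {z : J → X × Y} (hz : IsUncond 𝕜 z) (hzs : SemiNormalized z) :
    ∃ (A : Set J) (x' : A → X) (y' : (Aᶜ : Set J) → Y), IsUncond 𝕜 x' ∧ SemiNormalized x' ∧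
      IsUncond 𝕜 y' ∧ SemiNormalized y' ∧ PermEquiv 𝕜 z (sumFam x' y') := by
  classical
  obtain ⟨b, hb⟩ := exists_UB z hz
  have hidem : prX 𝕜 X Y * prX 𝕜 X Y = prX 𝕜 X Y := by
    ext v <;> simp [prX]
  obtain ⟨Φ, hΦ, hs⟩ := splitting b hidem (kc_of_essInc h)
  have hE : ∀ v, (ContinuousLinearEquiv.ofUnit hΦ.unit) v = Φ v := fun v => rfl
  have hu := isUncond_image hz (ContinuousLinearEquiv.ofUnit hΦ.unit)
  have hn := semiNormalized_image hzs (ContinuousLinearEquiv.ofUnit hΦ.unit)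
  have hp := permEquiv_image (𝕜 := 𝕜) z (ContinuousLinearEquiv.ofUnit hΦ.unit)
  simp only [hE] at hu hn hp
  have hs' : ∀ j, (Φ (z j)).2 = 0 ∨ (Φ (z j)).1 = 0 := by
    intro j
    have h1 := hs j
    rw [hb] at h1
    rcases h1 with h1 | h1
    · left
      rw [← h1]
      simp [prX]
    · right
      have h2 := congrArg Prod.fst h1
      simpa [prX] using h2
  have hA1 : ∀ j, j ∉ {j | (Φ (z j)).2 = 0} → (Φ (z j)).1 = 0 := by
    intro j hj
    rcases hs' j with h1 | h1
    · exact absurd h1 hj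
    · exact h1
  refine ⟨{j | (Φ (z j)).2 = 0}, fun j => (Φ (z (j : J))).1, fun j => (Φ (z (j : J))).2,
    ?_, ?_, ?_, ?_, ?_⟩
  · refine FIN_part (ContinuousLinearMap.fst 𝕜 X Y) (ContinuousLinearMap.inl 𝕜 X Y)
      (fun v => rfl) hu _ (fun j hj => ?_) (fun j hj => hA1 j hj)
    have hj' : (Φ (z j)).2 = 0 := hj
    exact Prod.ext rfl hj'.symm
  · obtain ⟨r, R, hr, hR⟩ := hn
    refine ⟨r, R, hr, fun j => ?_⟩
    have hj' : (Φ (z (j : J))).2 = 0 := j.2
    have h1 : ‖(Φ (z (j : J))).1‖ = ‖Φ (z (j : J))‖ := by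
      rw [Prod.norm_def, hj', norm_zero, max_eq_left (norm_nonneg _)]
    show r ≤ ‖(Φ (z (j : J))).1‖ ∧ ‖(Φ (z (j : J))).1‖ ≤ R
    rw [h1]
    exact hR j
  · refine FIN_part (ContinuousLinearMap.snd 𝕜 X Y) (ContinuousLinearMap.inr 𝕜 X Y)
      (fun v => rfl) hu _ (fun j hj => ?_) (fun j hj => ?_)
    · exact Prod.ext (hA1 j hj).symm rfl
    · exact not_not.1 hj
  · obtain ⟨r, R, hr, hR⟩ := hn
    refine ⟨r, R, hr, fun j => ?_⟩
    have h1 : ‖(Φ (z (j : J))).2‖ = ‖Φ (z (j : J))‖ := by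
      rw [Prod.norm_def, hA1 j j.2, norm_zero, max_eq_right (norm_nonneg _)]
    show r ≤ ‖(Φ (z (j : J))).2‖ ∧ ‖(Φ (z (j : J))).2‖ ≤ R
    rw [h1]
    exact hR j
  · refine hp.trans ?_
    have h2 := permEquiv_reindex (𝕜 := 𝕜) (fun j => Φ (z j))
      (Equiv.Set.sumCompl {j | (Φ (z j)).2 = 0})
    have h3 : (fun i => Φ (z ((Equiv.Set.sumCompl {j | (Φ (z j)).2 = 0}) i))) =
        sumFam (fun j : {j | (Φ (z j)).2 = 0} => (Φ (z (j : J))).1)
          (fun j : ({j | (Φ (z j)).2 = 0}ᶜ : Set J) => (Φ (z (j : J))).2) := by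
      funext i
      rcases i with j | j
      · exact Prod.ext rfl j.2
      · exact Prod.ext (hA1 j j.2) rfl
    rw [h3] at h2
    exact h2

theorem hasUUB_prod_of_essInc {X Y : Type*} [NormedAddCommGroup X] [NormedSpace 𝕜 X]
    [CompleteSpace X] [NormedAddCommGroup Y] [NormedSpace 𝕜 Y] [CompleteSpace Y]
    (hX : HasUUB 𝕜 X) (hY : HasUUB 𝕜 Y) (h : EssInc 𝕜 X Y) : HasUUB 𝕜 (X × Y) := by
  obtain ⟨⟨J0, hJ0, x, hxu, hxs⟩, hXu⟩ := hX
  obtain ⟨⟨I0, hI0, y, hyu, hys⟩, hYu⟩ := hY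
  have key : ∀ (J : Type) (_ : Countable J) (z : J → X × Y), IsUncond 𝕜 z → SemiNormalized z →
      PermEquiv 𝕜 z (sumFam x y) := by
    intro J hJ z hz hzs
    obtain ⟨A, x', y', h1, h2, h3, h4, h5⟩ := FIN_key h hz hzs
    exact h5.trans (permEquiv_sum (hXu A J0 inferInstance hJ0 x' x h1 h2 hxu hxs)
      (hYu (Aᶜ : Set J) I0 inferInstance hI0 y' y h3 h4 hyu hys))
  refine ⟨⟨J0 ⊕ I0, inferInstance, sumFam x y, isUncond_sum hxu hyu,
    semiNormalized_sum hxs hys⟩, ?_⟩
  intro J I hJ hI z w hz hzs hw hws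
  exact (key J hJ z hz hzs).trans (key I hI w hw hws).symm

end Pool.Agent.UBS
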